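import Mathlib
import Pool.Agent.Lib.B92.Alg
import Pool.Agent.Lib.B92.Bend

/-!
# MP_b92fc8_an, module Star: every arc in `w > 0` from ray a (`Y = U`) to ray b (`Y = -U`) is
weakly star shaped: `N = 2 U + k (w² - Y²) + U Y + 2 l Y w ≥ 0` (all `k`, `l`).
-/

set_option autoImplicit false

open Set Filter Topology

noncomputable section

namespace B92K

open B92

/-- `N = U (2 + U gamma(Y / U))`; `(Y / U)' = - w N / U²`. -/
def fN (k l U Y w : ℝ) : ℝ := 2 * U + k * (w ^ 2 - Y ^ 2) + U * Y + 2 * l * Y * w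

theorem hasDerivAt_ratio {k l : ℝ} {U Y w : ℝ → ℝ} (hs : Sol k l U Y w) (t : ℝ) :
    HasDerivAt (fun s => Y s / U s) (-(w t * fN k l (U t) (Y t) (w t)) / U t ^ 2) t := by
  have h4 := (hs.dY t).div (hs.dU t) (hs.pos t).ne'
  refine h4.congr_deriv ?_
  congr 1
  simp only [fN, XU, XY]
  have := hs.cone t
  linear_combination (-(w t * k + l * Y t)) * this

theorem hasDerivAt_K {k l : ℝ} {U Y w : ℝ → ℝ} (hs : Sol k l U Y w) (t : ℝ) :
    HasDerivAt (fun s => U s + (k * (w s ^ 2 - Y s ^ 2) + U s * Y s + 2 * l * Y s * w s) / 4)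
      (-(5 / 4) * (w t * fN k l (U t) (Y t) (w t))) t := by
  have h1 := hs.dU t
  have h2 := hs.dY t
  have h3 := hs.dw t
  have h4 := h1.add (((((h3.pow 2).sub (h2.pow 2)).const_mul k).add (h1.mul h2)).add
      ((h2.const_mul (2 * l)).mul h3) |>.div_const 4)
  refine h4.congr_deriv ?_
  simp only [fN, XU, XY, Xw]
  have := hs.cone t
  linear_combination (-(5 / 4) * l * Y t - (5 / 4) * k * w t) * this

theorem abs_ratio_le {k l : ℝ} {U Y w : ℝ → ℝ} (hs : Sol k l U Y w) (t : ℝ) :
    (Y t / U t) ^ 2 ≤ 1 := by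
  have hU := hs.pos t
  have := hs.cone t
  rw [div_pow, div_le_one (by positivity)]
  nlinarith [sq_nonneg (w t)]

theorem fN_eq {k l : ℝ} {U Y w : ℝ → ℝ} (hs : Sol k l U Y w) {t : ℝ} (hw : 0 ≤ w t) :
    fN k l (U t) (Y t) (w t) = U t * (2 + U t * gam k l (Y t / U t)) := by
  have hU := hs.pos t
  have hYx : Y t = U t * (Y t / U t) := by field_simp
  have hWx : w t = U t * Real.sqrt (1 - (Y t / U t) ^ 2) := by
    have h1 : 1 - (Y t / U t) ^ 2 = (w t / U t) ^ 2 := by
      have := hs.cone t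
      field_simp
      linarith
    rw [h1, Real.sqrt_sq (div_nonneg hw hU.le)]
    field_simp
  have h1 : Real.sqrt (1 - (Y t / U t) ^ 2) ^ 2 = 1 - (Y t / U t) ^ 2 := by
    apply Real.sq_sqrt
    have := abs_ratio_le hs t
    linarith
  generalize Y t / U t = x at hYx hWx h1 ⊢
  unfold fN gam
  rw [hYx, hWx]
  linear_combination (k * U t ^ 2) * h1

theorem star {k l : ℝ} {U Y w : ℝ → ℝ} (hs : Sol k l U Y w) {t1 t2 : ℝ}
    (hw : ∀ t ∈ Ioo t1 t2, 0 < w t) (ha : Y t1 = U t1) (hb : Y t2 = -U t2)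
    {tb : ℝ} (htb : tb ∈ Ioo t1 t2) : 0 ≤ fN k l (U tb) (Y tb) (w tb) := by
  by_contra hcon
  push Not at hcon
  set x : ℝ → ℝ := fun t => Y t / U t with hx
  have hxd : ∀ t, HasDerivAt x (-(w t * fN k l (U t) (Y t) (w t)) / U t ^ 2) t :=
    hasDerivAt_ratio hs
  have hxc : Continuous x := continuous_iff_continuousAt.mpr fun t => (hxd t).continuousAt
  have hUpos := hs.pos
  have hx1 : x t1 = 1 := by simp only [hx]; rw [ha]; exact div_self (hUpos t1).ne'
  have hx2 : x t2 = -1 := by
    simp only [hx]; rw [hb, neg_div, div_self (hUpos t2).ne']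
  have hxle : ∀ t, x t ≤ 1 := fun t => by
    have := abs_ratio_le hs t
    change x t ^ 2 ≤ 1 at this
    nlinarith [sq_nonneg (x t - 1), sq_nonneg (x t + 1)]
  have hxge : ∀ t, -1 ≤ x t := fun t => by
    have := abs_ratio_le hs t
    change x t ^ 2 ≤ 1 at this
    nlinarith [sq_nonneg (x t - 1), sq_nonneg (x t + 1)]
  -- minimum of `x` on `[t1, tb]`
  obtain ⟨tm, htm, hmin⟩ := isCompact_Icc.exists_isMinOn (nonempty_Icc.2 htb.1.le)
    hxc.continuousOn
  have hwb : 0 < w tb := hw tb htb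
  have hdb : 0 < -(w tb * fN k l (U tb) (Y tb) (w tb)) / U tb ^ 2 := by
    have h1 : 0 < -(w tb * fN k l (U tb) (Y tb) (w tb)) := by
      have := mul_neg_of_pos_of_neg hwb hcon
      linarith
    have := hUpos tb
    positivity
  -- just before `tb` the values are smaller
  have hlt : x tm < x tb := by
    by_contra hge
    push Not at hge
    have h0 : ∀ s ∈ Ioo t1 tb, 0 ≤ x s - x tb := fun s hs' => by
      have := hmin (show s ∈ Icc t1 tb from ⟨hs'.1.le, hs'.2.le⟩)
      have h3 : x tm ≤ x s := this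
      linarith
    have h1 : ∀ᶠ s in 𝓝[<] tb, slope x tb s ≤ 0 := by
      filter_upwards [Ioo_mem_nhdsLT htb.1] with s hs'
      rw [slope_def_field]
      exact div_nonpos_of_nonneg_of_nonpos (h0 s hs') (by linarith [hs'.2])
    have h2 : Tendsto (slope x tb) (𝓝[<] tb)
        (𝓝 (-(w tb * fN k l (U tb) (Y tb) (w tb)) / U tb ^ 2)) := by
      have h3 := hasDerivAt_iff_tendsto_slope.mp (hxd tb)
      exact h3.mono_left (nhdsWithin_mono _ (fun s hs' => ne_of_lt hs'))
    have h3 := le_of_tendsto h2 h1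
    linarith
  have htmb : tm < tb := by
    rcases lt_or_eq_of_le htm.2 with h | h
    · exact h
    · rw [h] at hlt; exact absurd hlt (lt_irrefl _)
  have htm1 : t1 < tm := by
    rcases lt_or_eq_of_le htm.1 with h | h
    · exact h
    · rw [← h, hx1] at hlt; exact absurd (hxle tb) (not_le.2 hlt)
  have hwm : 0 < w tm := hw tm ⟨htm1, htmb.trans htb.2⟩
  have hNm : fN k l (U tm) (Y tm) (w tm) = 0 := by
    have h1 : IsLocalMin x tm := by
      have : Icc t1 tb ∈ 𝓝 tm := Icc_mem_nhds htm1 htmb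
      filter_upwards [this] with s hs'
      exact hmin hs'
    have h2 := h1.hasDerivAt_eq_zero (hxd tm)
    have h3 := hUpos tm
    have h4 : w tm * fN k l (U tm) (Y tm) (w tm) = 0 := by
      rcases div_eq_zero_iff.mp h2 with h5 | h5
      · linarith
      · exact absurd h5 (by positivity)
    exact (mul_eq_zero.mp h4).resolve_left hwm.ne'
  -- first return to `x tm` after `tb`
  have hne : (Icc tb t2 ∩ x ⁻¹' {x tm}).Nonempty := by
    have h1 : x tm ∈ Icc (x t2) (x tb) := ⟨by rw [hx2]; exact hxge tm, hlt.le⟩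
    obtain ⟨s, hs1, hs2⟩ := intermediate_value_Icc' htb.2.le hxc.continuousOn h1
    exact ⟨s, hs1, hs2⟩
  have hcomp : IsCompact (Icc tb t2 ∩ x ⁻¹' {x tm}) :=
    isCompact_Icc.inter_right (isClosed_singleton.preimage hxc)
  obtain ⟨t3, ht3, ht3min⟩ := hcomp.exists_isMinOn hne continuousOn_id
  have hx3 : x t3 = x tm := ht3.2
  have ht3b : tb < t3 := by
    rcases lt_or_eq_of_le ht3.1.1 with h | h
    · exact h
    · rw [← h] at hx3; rw [hx3] at hlt; exact absurd hlt (lt_irrefl _)
  have hxm1 : -1 < x tm := by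
    rcases lt_or_eq_of_le (hxge tm) with h | h
    · exact h
    · exfalso
      have h1 := hs.cone tm
      have h2 : Y tm = -U tm := by
        have h3 : Y tm / U tm = -1 := h.symm
        rw [div_eq_iff (hUpos tm).ne'] at h3
        linarith
      rw [h2] at h1
      have : w tm ^ 2 = 0 := by linarith
      exact hwm.ne' (pow_eq_zero_iff (by norm_num) |>.1 this)
  have ht32 : t3 < t2 := by
    rcases lt_or_eq_of_le ht3.1.2 with h | h
    · exact h
    · rw [h, hx2] at hx3; linarith
  -- on `[tm, t3]` the values are `≥ x tm`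
  have hge : ∀ t ∈ Icc tm t3, x tm ≤ x t := by
    intro t ht
    rcases le_total t tb with h | h
    · exact hmin (show t ∈ Icc t1 tb from ⟨htm1.le.trans ht.1, h⟩)
    · by_contra hlt'
      push Not at hlt'
      obtain ⟨s, hs1, hs2⟩ := intermediate_value_Icc' h hxc.continuousOn
        (show x tm ∈ Icc (x t) (x tb) from ⟨hlt'.le, hlt.le⟩)
      have h2 : t3 ≤ s := ht3min ⟨⟨hs1.1, hs1.2.trans (ht.2.trans ht3.1.2)⟩, hs2⟩
      have h3 : s = t := le_antisymm hs1.2 (ht.2.trans h2)
      rw [h3] at hs2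
      linarith
  have hwpos : ∀ t ∈ Icc tm t3, 0 < w t := fun t ht =>
    hw t ⟨htm1.trans_le ht.1, ht.2.trans_lt ht32⟩
  -- `gamma < 0` on the values taken
  have hgneg : ∀ t ∈ Icc tm t3, gam k l (x t) < 0 := by
    intro t ht
    -- first time with value `x t`
    have hne2 : (Icc tm t ∩ x ⁻¹' {x t}).Nonempty := ⟨t, ⟨ht.1, le_rfl⟩, rfl⟩
    have hcomp2 : IsCompact (Icc tm t ∩ x ⁻¹' {x t}) :=
      isCompact_Icc.inter_right (isClosed_singleton.preimage hxc)
    obtain ⟨s, hs1, hs1min⟩ := hcomp2.exists_isMinOn hne2 continuousOn_id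
    have hxs : x s = x t := hs1.2
    have hsI : s ∈ Icc tm t3 := ⟨hs1.1.1, hs1.1.2.trans ht.2⟩
    have hws := hwpos s hsI
    have hNs : fN k l (U s) (Y s) (w s) ≤ 0 := by
      rcases lt_or_eq_of_le hs1.1.1 with h | h
      · by_contra hpos
        push Not at hpos
        have hd : -(w s * fN k l (U s) (Y s) (w s)) / U s ^ 2 < 0 := by
          have h5 := mul_pos hws hpos
          have h6 := hUpos s
          rw [neg_div]
          exact neg_neg_of_pos (by positivity)
        have h0 : ∀ r ∈ Ioo tm s, x r - x s ≤ 0 := by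
          intro r hr
          by_contra hgt
          push Not at hgt
          obtain ⟨q, hq1, hq2⟩ := intermediate_value_Icc hr.1.le hxc.continuousOn
            (show x s ∈ Icc (x tm) (x r) from ⟨by rw [hxs]; exact hge t ht, by linarith⟩)
          have h2 : s ≤ q := hs1min ⟨⟨hq1.1, hq1.2.trans (hr.2.le.trans hs1.1.2)⟩, by
            rw [mem_preimage, mem_singleton_iff, hq2, hxs]⟩
          linarith [hq1.2, hr.2]
        have h1 : ∀ᶠ r in 𝓝[<] s, 0 ≤ slope x s r := by
          filter_upwards [Ioo_mem_nhdsLT h] with r hr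
          rw [slope_def_field]
          exact div_nonneg_of_nonpos (h0 r hr) (by linarith [hr.2])
        have h2 : Tendsto (slope x s) (𝓝[<] s)
            (𝓝 (-(w s * fN k l (U s) (Y s) (w s)) / U s ^ 2)) := by
          have h3 := hasDerivAt_iff_tendsto_slope.mp (hxd s)
          exact h3.mono_left (nhdsWithin_mono _ (fun s hs' => ne_of_lt hs'))
        have h3 := ge_of_tendsto h2 h1
        linarith
      · rw [← h]; exact hNm.le
    rw [fN_eq hs hws.le] at hNs
    have hU := hUpos s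
    have h1 : 2 + U s * gam k l (Y s / U s) ≤ 0 := by
      by_contra h2
      push Not at h2
      have := mul_pos hU h2
      linarith
    have h2 : gam k l (x s) < 0 := by
      have h3 : U s * gam k l (x s) < 0 := by
        have h4 : x s = Y s / U s := rfl
        rw [h4]; linarith
      by_contra h4
      push Not at h4
      have := mul_nonneg hU.le h4
      linarith
    rw [← hxs]; exact h2
  have hgneg' : ∀ t ∈ Icc tm t3, ∀ r ∈ uIcc (x tm) (x t), gam k l r < 0 := by
    intro t ht r hr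
    rw [uIcc_of_le (hge t ht)] at hr
    obtain ⟨s, hs1, hs2⟩ := intermediate_value_Icc ht.1 hxc.continuousOn hr
    rw [← hs2]; exact hgneg s ⟨hs1.1, hs1.2.trans ht.2⟩
  set M : ℝ → ℝ := fun s => ∫ r in (x tm)..s, -5 / gam k l r ^ 2 with hM
  have hMd : ∀ t ∈ Icc tm t3, HasDerivAt M (-5 / gam k l (x t) ^ 2) (x t) := by
    intro t ht
    have hcont : ContinuousOn (fun r => -5 / gam k l r ^ 2) (Set.uIcc (x tm) (x t)) :=
      continuousOn_const.div ((gam_cont k l).continuousOn.pow 2) fun r hr =>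
        pow_ne_zero 2 (hgneg' t ht r hr).ne
    refine intervalIntegral.integral_hasDerivAt_right hcont.intervalIntegrable ?_ ?_
    · exact (Measurable.div measurable_const
        ((gam_cont k l).measurable.pow_const 2)).stronglyMeasurable.stronglyMeasurableAtFilter
    · exact continuousAt_const.div ((gam_cont k l).continuousAt.pow 2)
        (pow_ne_zero 2 (hgneg t ht).ne)
  set V : ℝ → ℝ := fun t => (U t + (k * (w t ^ 2 - Y t ^ 2) + U t * Y t
      + 2 * l * Y t * w t) / 4) + M (x t) with hV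
  have hVd : ∀ t ∈ Icc tm t3, HasDerivAt V
      (5 * w t * fN k l (U t) (Y t) (w t) ^ 2 * (2 - U t * gam k l (x t)) /
        (4 * gam k l (x t) ^ 2 * U t ^ 3)) t := by
    intro t ht
    have h1 := (hasDerivAt_K hs t).add ((hMd t ht).comp t (hxd t))
    refine h1.congr_deriv ?_
    have h2 := (hgneg t ht).ne
    have h3 := (hUpos t).ne'
    have h4 := fN_eq hs (hwpos t ht).le
    have h5 : Y t / U t = x t := rfl
    rw [h5] at h4
    rw [h4]
    field_simp
    ring
  have hVnn : ∀ t ∈ Icc tm t3, 0 ≤ 5 * w t * fN k l (U t) (Y t) (w t) ^ 2 *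
      (2 - U t * gam k l (x t)) / (4 * gam k l (x t) ^ 2 * U t ^ 3) := by
    intro t ht
    have h1 := hgneg t ht
    have h2 := hUpos t
    have h3 : 0 < 2 - U t * gam k l (x t) := by nlinarith
    have h4 := hwpos t ht
    positivity
  have hVc : ContinuousOn V (Icc tm t3) := fun t ht => (hVd t ht).continuousAt.continuousWithinAt
  have hVmono : MonotoneOn V (Icc tm t3) := by
    refine monotoneOn_of_deriv_nonneg (convex_Icc _ _) hVc ?_ ?_
    · intro t ht
      rw [interior_Icc] at ht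
      exact (hVd t ⟨ht.1.le, ht.2.le⟩).differentiableAt.differentiableWithinAt
    · intro t ht
      rw [interior_Icc] at ht
      rw [(hVd t ⟨ht.1.le, ht.2.le⟩).deriv]
      exact hVnn t ⟨ht.1.le, ht.2.le⟩
  have htm3 : tm < t3 := htmb.trans ht3b
  have hKeq : ∀ t ∈ Icc tm t3, U t + (k * (w t ^ 2 - Y t ^ 2) + U t * Y t
      + 2 * l * Y t * w t) / 4 = U t + U t ^ 2 * gam k l (x t) / 4 := by
    intro t ht
    have h1 := fN_eq hs (hwpos t ht).le
    have h5 : Y t / U t = x t := rfl
    rw [h5] at h1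
    unfold fN at h1
    linarith
  have hVle : V t3 ≤ V tm := by
    simp only [hV]
    rw [hKeq t3 ⟨htm3.le, le_rfl⟩, hKeq tm ⟨le_rfl, htm3.le⟩, hx3]
    have h1 := hgneg tm ⟨le_rfl, htm3.le⟩
    have h2 : U tm * gam k l (x tm) = -2 := by
      have h3 := fN_eq hs hwm.le
      rw [hNm] at h3
      have h4 := (mul_eq_zero.mp h3.symm).resolve_left (hUpos tm).ne'
      have h5 : Y tm / U tm = x tm := rfl
      rw [h5] at h4
      linarith
    have h3 : gam k l (x tm) * (U t3 + U t3 ^ 2 * gam k l (x tm) / 4 -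
        (U tm + U tm ^ 2 * gam k l (x tm) / 4)) = (U t3 * gam k l (x tm) + 2) ^ 2 / 4 := by
      have h4 : gam k l (x tm) * (U tm + U tm ^ 2 * gam k l (x tm) / 4) = -1 := by
        have : gam k l (x tm) * (U tm + U tm ^ 2 * gam k l (x tm) / 4) =
          U tm * gam k l (x tm) + (U tm * gam k l (x tm)) ^ 2 / 4 := by ring
        rw [this, h2]; norm_num
      linear_combination -h4
    have h5 : 0 ≤ (U t3 * gam k l (x tm) + 2) ^ 2 / 4 := by positivity
    by_contra h6
    push Not at h6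
    have h7 : 0 < U t3 + U t3 ^ 2 * gam k l (x tm) / 4 -
        (U tm + U tm ^ 2 * gam k l (x tm) / 4) := by linarith
    have h8 := mul_neg_of_neg_of_pos h1 h7
    linarith
  have hVeq : ∀ t ∈ Icc tm t3, V t = V tm := fun t ht =>
    le_antisymm ((hVmono ht ⟨htm3.le, le_rfl⟩ ht.2).trans hVle)
      (hVmono ⟨le_rfl, htm3.le⟩ ht ht.1)
  have htbI : tb ∈ Ioo tm t3 := ⟨htmb, ht3b⟩
  have hVb : HasDerivAt V 0 tb := by
    have h6 : V =ᶠ[nhds tb] fun _ => V tm := by
      filter_upwards [Ioo_mem_nhds htmb ht3b] with s hs'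
      exact hVeq s ⟨hs'.1.le, hs'.2.le⟩
    exact (hasDerivAt_const tb (V tm)).congr_of_eventuallyEq h6
  have h1 := (hVd tb ⟨htmb.le, ht3b.le⟩).unique hVb
  have h2 := hgneg tb ⟨htmb.le, ht3b.le⟩
  have h3 := hUpos tb
  have h4 : 0 < 2 - U tb * gam k l (x tb) := by nlinarith
  have h5 : 0 < 4 * gam k l (x tb) ^ 2 * U tb ^ 3 := by
    have := h2.ne
    positivity
  have h6 : 0 < 5 * w tb * fN k l (U tb) (Y tb) (w tb) ^ 2 * (2 - U tb * gam k l (x tb)) := by
    have := hcon.ne
    positivity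
  rcases div_eq_zero_iff.mp h1 with h7 | h7
  · exact absurd h7 h6.ne'
  · exact absurd h7 h5.ne'

end B92K
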