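import Mathlib
import Pool.Agent.Lib.B92.Star
import Pool.Agent.Lib.B92.KInv

/-!
# MP_b92fc8_an, case `kappa > 1`: base file (definitions and polynomial identities)

COMMON FRAME: one system (`l > 0`); sector `+` is `W > 0`, sector `-` is `W < 0`.
Variables `A` (> 0), `S`, `W = mu * w` with `S ^ 2 + W ^ 2 = 4 A ^ 2`.
-/

set_option autoImplicit false

open Set Filter Topology

noncomputable section

namespace B92K

open B92

/-- The parameters: `k > 1`, `l > 0`, `mu ^ 2 = k ^ 2 - 1`, `lam = l / mu`, `N ^ 2 = 1 + lam ^ 2`,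
`nu ^ 2 = N`, `P ^ 2 = N + 1`, `M ^ 2 = N - 1`, `P M = lam`. -/
structure Prm where
  k : ℝ
  l : ℝ
  mu : ℝ
  lam : ℝ
  N : ℝ
  nu : ℝ
  P : ℝ
  M : ℝ
  hk : 1 < k
  hl : 0 < l
  hmu : 0 < mu
  hmu2 : mu ^ 2 = k ^ 2 - 1
  hlam : l = lam * mu
  hlam0 : 0 < lam
  hN : N ^ 2 = 1 + lam ^ 2
  hN1 : 1 < N
  hnu : 0 < nu
  hnu2 : nu ^ 2 = N
  hP : 0 < P
  hP2 : P ^ 2 = N + 1
  hM : 0 < M
  hM2 : M ^ 2 = N - 1
  hPM : P * M = lam

theorem exists_prm {k l : ℝ} (hk : 1 < k) (hl : 0 < l) : ∃ p : Prm, p.k = k ∧ p.l = l := by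
  have h1 : 0 < k ^ 2 - 1 := by nlinarith
  have hmu : 0 < Real.sqrt (k ^ 2 - 1) := Real.sqrt_pos.2 h1
  set mu := Real.sqrt (k ^ 2 - 1) with hmu'
  have hmu2 : mu ^ 2 = k ^ 2 - 1 := Real.sq_sqrt h1.le
  have hlam0 : 0 < l / mu := by positivity
  set lam := l / mu with hlam'
  have hN2 : 0 < 1 + lam ^ 2 := by positivity
  have hNsq : Real.sqrt (1 + lam ^ 2) ^ 2 = 1 + lam ^ 2 := Real.sq_sqrt hN2.le
  have hN1 : 1 < Real.sqrt (1 + lam ^ 2) := by
    rw [Real.lt_sqrt (by norm_num)]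
    nlinarith
  set N := Real.sqrt (1 + lam ^ 2) with hN'
  have hP2 : Real.sqrt (N + 1) ^ 2 = N + 1 := Real.sq_sqrt (by linarith)
  have hM2 : Real.sqrt (N - 1) ^ 2 = N - 1 := Real.sq_sqrt (by linarith)
  have hnu2 : Real.sqrt N ^ 2 = N := Real.sq_sqrt (by linarith)
  have hP : 0 < Real.sqrt (N + 1) := Real.sqrt_pos.2 (by linarith)
  have hM : 0 < Real.sqrt (N - 1) := Real.sqrt_pos.2 (by linarith)
  have hnu : 0 < Real.sqrt N := Real.sqrt_pos.2 (by linarith)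
  have hPM : Real.sqrt (N + 1) * Real.sqrt (N - 1) = lam := by
    have h2 : (Real.sqrt (N + 1) * Real.sqrt (N - 1)) ^ 2 = lam ^ 2 := by
      rw [mul_pow, hP2, hM2]; linear_combination hNsq
    exact (sq_eq_sq₀ (by positivity) hlam0.le).1 h2
  exact ⟨⟨k, l, mu, lam, N, Real.sqrt N, Real.sqrt (N + 1), Real.sqrt (N - 1), hk, hl, hmu, hmu2,
    by rw [hlam', div_mul_cancel₀ _ hmu.ne'], hlam0, hNsq, hN1, hnu, hnu2, hP, hP2, hM, hM2, hPM⟩,
    rfl, rfl⟩

/-- A point of the cone in the variables `A, S, W`. -/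
@[ext] structure Pt where
  A : ℝ
  S : ℝ
  W : ℝ

/-- The point lies on the cone, off the apex. -/
def Pt.Cone (x : Pt) : Prop := x.S ^ 2 + x.W ^ 2 = 4 * x.A ^ 2 ∧ 0 < x.A

/-- The mirror image. -/
def Pt.neg (x : Pt) : Pt := ⟨x.A, -x.S, -x.W⟩

/-- `H` (called `h`). -/
def fH (p : Prm) (x : Pt) : ℝ := (1 - x.A) ^ 2 - x.W ^ 2 / 2 + p.lam * x.W * x.S / 2

/-- `u = 2 H - N ^ 2 W ^ 2`. -/
def fU (p : Prm) (x : Pt) : ℝ := 2 * fH p x - p.N ^ 2 * x.W ^ 2

/-- `v = S (1 - A) - lam A W`, the function `g` of the other files. -/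
def fV (p : Prm) (x : Pt) : ℝ := x.S * (1 - x.A) - p.lam * x.A * x.W

/-- `A * Delta = 1 - A - H` (mod the cone), `Delta = 1 - C A`. -/
def fD (p : Prm) (x : Pt) : ℝ := 1 - x.A - fH p x

/-- `F`. -/
def fF (p : Prm) (x : Pt) : ℝ := 1 + p.N * x.A + p.nu / 2 * (p.P * x.S + p.M * x.W)

/-- `F~`. -/
def fFt (p : Prm) (x : Pt) : ℝ := 1 + p.N * x.A - p.nu / 2 * (p.P * x.S + p.M * x.W)

/-- `G`. -/
def fG (p : Prm) (x : Pt) : ℝ := 1 - p.N * x.A - p.nu / 2 * (p.P * x.W - p.M * x.S)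

/-- `G~`. -/
def fGt (p : Prm) (x : Pt) : ℝ := 1 - p.N * x.A + p.nu / 2 * (p.P * x.W - p.M * x.S)

/-- The primitive `T` (`Y T = W`). -/
def fT (p : Prm) (x : Pt) : ℝ :=
  -(p.P * Real.log (fF p x) + p.M * Real.log (fG p x)) / (2 * p.N * p.nu)

/-- The polynomial part of `Z`. -/
def fAlg (p : Prm) (x : Pt) : ℝ :=
  x.A * x.S / 2 + p.lam * x.A * x.W - (1 + 5 / (2 * p.N ^ 2)) * x.S
    - 5 * p.lam / (2 * p.N ^ 2) * x.W

/-- The primitive `Z` (`Y Z = u W`, `X Z = (5 T + c) X H`). -/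
def fZ (p : Prm) (x : Pt) : ℝ :=
  5 / (2 * p.N ^ 2 * p.nu) * (p.P * (p.N + 1 - p.N * fH p x) * Real.log (fF p x)
    - p.M * (p.N * (fH p x - 1) + 1) * Real.log (fG p x)) + fAlg p x

/-- The constant `c` in `Z' = (5 T + c) H'`. -/
def cc (p : Prm) : ℝ := p.k - 5 * (p.P + p.M) / (4 * p.N * p.nu)

/-- The vector field `mu X` : `A`-component. -/
def XA (p : Prm) (x : Pt) : ℝ :=
  x.W * (1 - 3 * x.A) + p.lam * x.A * x.S + p.k * (x.W * x.S + p.lam * x.W ^ 2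
    - 2 * p.lam * x.A ^ 2)

/-- The vector field `mu X` : `S`-component. -/
def XS (p : Prm) (x : Pt) : ℝ :=
  -2 * x.W * x.S + p.lam * (4 * x.A ^ 2 + x.W ^ 2) - p.k * (-2 * x.W * (1 + x.A)
    + 2 * p.lam * x.A * x.S)

/-- The vector field `mu X` : `W`-component. -/
def XW (p : Prm) (x : Pt) : ℝ :=
  4 * x.A - 4 * x.A ^ 2 - 2 * x.W ^ 2 - p.lam * x.S * x.W - 2 * p.k * fV p x

/-- `N* = 2 k D - S (1 - A) + 2 lam A W` (`D = fD`); it is `≥ 0` on all arcs (star lemma). -/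
def fNs (p : Prm) (x : Pt) : ℝ :=
  2 * p.k * fD p x - x.S * (1 - x.A) + 2 * p.lam * x.A * x.W

section identities

variable (p : Prm) (x : Pt)

theorem Prm.N_pos : 0 < p.N := by linarith [p.hN1]

theorem fF_mul (hx : x.Cone) : fF p x * fFt p x = p.N + 1 - p.N * fH p x := by
  have h1 := hx.1
  have h2 := p.hnu2
  have h3 := p.hP2
  have h4 := p.hM2
  have h5 := p.hPM
  simp only [fF, fFt, fH]
  linear_combination (-(p.N ^ 2 / 4) - p.N / 4) * h1 - (p.P * x.S + p.M * x.W) ^ 2 / 4 * h2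
    - p.N / 4 * x.S ^ 2 * h3 - p.N / 4 * x.W ^ 2 * h4 - p.N / 2 * x.S * x.W * h5

theorem fG_mul (hx : x.Cone) : fG p x * fGt p x = p.N * (fH p x - 1) + 1 := by
  have h1 := hx.1
  have h2 := p.hnu2
  have h3 := p.hP2
  have h4 := p.hM2
  have h5 := p.hPM
  simp only [fG, fGt, fH]
  linear_combination (-(p.N ^ 2 / 4) + p.N / 4) * h1 - (p.P * x.W - p.M * x.S) ^ 2 / 4 * h2
    - p.N / 4 * x.W ^ 2 * h3 - p.N / 4 * x.S ^ 2 * h4 + p.N / 2 * x.S * x.W * h5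

theorem fF_add : fF p x + fFt p x = 2 * (1 + p.N * x.A) := by
  simp only [fF, fFt]; ring

theorem fG_add : fG p x + fGt p x = 2 * (1 - p.N * x.A) := by
  simp only [fG, fGt]; ring

/-- The field is tangent to the cone. -/
theorem X_tan (hx : x.Cone) : x.S * XS p x + x.W * XW p x = 4 * x.A * XA p x := by
  have h1 := hx.1
  simp only [XA, XS, XW, fV]
  linear_combination (-2 * x.W - 2 * p.lam * p.k * x.A) * h1

/-- `X H = - W u`. -/
theorem XH_eq (hx : x.Cone) : -2 * (1 - x.A) * XA p x - x.W * XW p x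
    + p.lam * (XW p x * x.S + x.W * XS p x) / 2 = -(x.W * fU p x) := by
  have h1 := hx.1
  have h2 := p.hN
  simp only [XA, XS, XW, fU, fH, fV]
  linear_combination (p.lam * p.k * x.A - p.lam * p.k - p.lam ^ 2 * x.W / 2) * h1
    - x.W ^ 3 * h2

theorem XZ_aux1 (hx : x.Cone) : -2 * x.S * XA p x + 3 * x.A * XS p x
    + p.lam * (x.W * XA p x + x.A * XW p x) - XS p x = -(p.k * x.W * fU p x) := by
  have h1 := hx.1
  have h2 := p.hN
  simp only [XA, XS, XW, fU, fH, fV]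
  linear_combination (-2 * p.k * x.W - 2 * p.lam * x.A) * h1 - p.k * x.W ^ 3 * h2

/-- `A XS - S XA = W N*`, so `(S / A)' = e W N* / (mu A ^ 2)`. -/
theorem star_eq (hx : x.Cone) : x.A * XS p x - x.S * XA p x = x.W * fNs p x := by
  have h1 := hx.1
  simp only [XA, XS, fNs, fD, fH]
  linear_combination (-(x.A * p.lam) - x.W * p.k) * h1

/-- `D XW + v N* = W ^ 2 u / 2`. -/
theorem gN_eq (hx : x.Cone) : 2 * fD p x * XW p x + 2 * fV p x * fNs p x
    = x.W ^ 2 * fU p x := by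
  have h1 := hx.1
  have h2 := p.hN
  simp only [XW, fNs, fD, fH, fU, fV]
  linear_combination (-(2 * x.A ^ 2) + 4 * x.A + x.W ^ 2 * p.lam ^ 2 - 2) * h1
    + x.W ^ 4 * h2

theorem Prm.N_eq : p.N = p.P ^ 2 - 1 := by linarith [p.hP2]

theorem Prm.M_sq : p.M ^ 2 = p.P ^ 2 - 2 := by linarith [p.hP2, p.hM2]

theorem Prm.nu_sq : p.nu ^ 2 = p.P ^ 2 - 1 := by linarith [p.hP2, p.hnu2]

/-- The derivative of `Z` along a curve with velocity `(a, s, w)`, the part with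
`P F~ F' - M G~ G'`. -/
theorem PM_eq (a s w : ℝ) :
    p.P * fFt p x * (p.N * a + p.nu / 2 * (p.P * s + p.M * w))
      - p.M * fGt p x * (-(p.N * a) - p.nu / 2 * (p.P * w - p.M * s))
    = p.nu * (-(p.N ^ 2 * x.S * a) + s * (1 + p.N ^ 2 * x.A) + p.lam * w)
      + p.N * ((p.P + p.M) * (a - p.lam / 4 * (x.W * s + x.S * w))
        + (p.P - p.M) * (p.N * x.A * a - (2 * p.N + p.lam) / 4 * x.S * s
          + p.lam / 4 * x.W * w)) := by
  have h2 := p.nu_sq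
  have h4 := p.M_sq
  simp only [fFt, fGt]
  rw [p.N_eq, ← p.hPM]
  linear_combination (-(1 / 4 * x.S * s * p.P ^ 3) + 1 / 4 * x.S * s * p.M ^ 3
    - 1 / 4 * x.S * w * p.P ^ 2 * p.M - 1 / 4 * x.S * w * p.P * p.M ^ 2
    - 1 / 4 * x.W * s * p.P ^ 2 * p.M - 1 / 4 * x.W * s * p.P * p.M ^ 2
    + 1 / 4 * x.W * w * p.P ^ 2 * p.M - 1 / 4 * x.W * w * p.P * p.M ^ 2) * h2
    + (1 / 2 * x.A * s * p.P ^ 2 * p.nu - 1 / 2 * x.A * s * p.nu
    - 1 / 2 * x.S * a * p.P ^ 2 * p.nu + 1 / 2 * x.S * a * p.nu - 1 / 4 * x.S * s * p.P ^ 3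
    + 1 / 4 * x.S * s * p.P ^ 2 * p.M + 1 / 4 * x.S * s * p.P - 1 / 4 * x.S * s * p.M
    - 1 / 2 * s * p.nu) * h4

/-- Same, for a curve tangent to the cone; the last bracket is the derivative of `H`. -/
theorem PM_eq' (a s w : ℝ) (ht : x.S * s + x.W * w = 4 * x.A * a) :
    p.P * fFt p x * (p.N * a + p.nu / 2 * (p.P * s + p.M * w))
      - p.M * fGt p x * (-(p.N * a) - p.nu / 2 * (p.P * w - p.M * s))
    = p.nu * (-(p.N ^ 2 * x.S * a) + s * (1 + p.N ^ 2 * x.A) + p.lam * w)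
      - p.N / 2 * (p.P + p.M) * (-2 * (1 - x.A) * a - x.W * w
        + p.lam * (w * x.S + x.W * s) / 2) := by
  have h4 := p.M_sq
  rw [PM_eq]
  rw [p.N_eq, ← p.hPM]
  linear_combination (-1 / 4 * p.P ^ 5 + 1 / 4 * p.P ^ 4 * p.M + 1 / 4 * p.P ^ 3
    - 3 / 4 * p.P ^ 2 * p.M + 1 / 2 * p.M) * ht
    + (1 / 4 * x.S * s * p.P ^ 3 - 1 / 4 * x.S * s * p.P - 1 / 4 * x.W * w * p.P ^ 3
    + 1 / 4 * x.W * w * p.P) * h4

end identities

section deriv

variable (p : Prm) {x : ℝ → Pt} {a s w t : ℝ}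

theorem hasDerivAt_fH (hA : HasDerivAt (fun r => (x r).A) a t)
    (hS : HasDerivAt (fun r => (x r).S) s t) (hW : HasDerivAt (fun r => (x r).W) w t) :
    HasDerivAt (fun r => fH p (x r)) (-2 * (1 - (x t).A) * a - (x t).W * w
      + p.lam * (w * (x t).S + (x t).W * s) / 2) t := by
  have h1 := (((hasDerivAt_const t (1 : ℝ)).sub hA).pow 2)
  have h2 := (hW.pow 2).div_const 2
  have h3 := ((hW.const_mul p.lam).mul hS).div_const 2
  refine ((h1.sub h2).add h3).congr_deriv ?_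
  simp only [Pi.sub_apply]
  ring

theorem hasDerivAt_fF (hA : HasDerivAt (fun r => (x r).A) a t)
    (hS : HasDerivAt (fun r => (x r).S) s t) (hW : HasDerivAt (fun r => (x r).W) w t) :
    HasDerivAt (fun r => fF p (x r)) (p.N * a + p.nu / 2 * (p.P * s + p.M * w)) t := by
  have h1 := ((hasDerivAt_const t (1 : ℝ)).add (hA.const_mul p.N)).add
    (((hS.const_mul p.P).add (hW.const_mul p.M)).const_mul (p.nu / 2))
  refine h1.congr_deriv ?_
  ring

theorem hasDerivAt_fG (hA : HasDerivAt (fun r => (x r).A) a t)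
    (hS : HasDerivAt (fun r => (x r).S) s t) (hW : HasDerivAt (fun r => (x r).W) w t) :
    HasDerivAt (fun r => fG p (x r)) (-(p.N * a) - p.nu / 2 * (p.P * w - p.M * s)) t := by
  have h1 := ((hasDerivAt_const t (1 : ℝ)).sub (hA.const_mul p.N)).sub
    (((hW.const_mul p.P).sub (hS.const_mul p.M)).const_mul (p.nu / 2))
  refine h1.congr_deriv ?_
  ring

theorem hasDerivAt_fT (hA : HasDerivAt (fun r => (x r).A) a t)
    (hS : HasDerivAt (fun r => (x r).S) s t) (hW : HasDerivAt (fun r => (x r).W) w t)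
    (hF : fF p (x t) ≠ 0) (hG : fG p (x t) ≠ 0) :
    HasDerivAt (fun r => fT p (x r))
      (-(p.P * ((p.N * a + p.nu / 2 * (p.P * s + p.M * w)) / fF p (x t))
        + p.M * ((-(p.N * a) - p.nu / 2 * (p.P * w - p.M * s)) / fG p (x t)))
        / (2 * p.N * p.nu)) t := by
  have h1 := ((hasDerivAt_fF p hA hS hW).log hF).const_mul p.P
  have h2 := ((hasDerivAt_fG p hA hS hW).log hG).const_mul p.M
  exact ((h1.add h2).neg).div_const _

/-- The derivative of `Z` along a curve `x` (velocity `(a, s, w)`) tangent to the cone. -/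
theorem hasDerivAt_fZ (hA : HasDerivAt (fun r => (x r).A) a t)
    (hS : HasDerivAt (fun r => (x r).S) s t) (hW : HasDerivAt (fun r => (x r).W) w t)
    (hx : (x t).Cone) (ht : (x t).S * s + (x t).W * w = 4 * (x t).A * a)
    (hF : fF p (x t) ≠ 0) (hG : fG p (x t) ≠ 0) :
    HasDerivAt (fun r => fZ p (x r))
      ((5 * fT p (x t) - 5 * (p.P + p.M) / (4 * p.N * p.nu)) *
        (-2 * (1 - (x t).A) * a - (x t).W * w + p.lam * (w * (x t).S + (x t).W * s) / 2)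
        + (-2 * (x t).S * a + 3 * (x t).A * s + p.lam * ((x t).W * a + (x t).A * w) - s)) t := by
  have hH := hasDerivAt_fH p hA hS hW
  have h1 := (hasDerivAt_fF p hA hS hW).log hF
  have h2 := (hasDerivAt_fG p hA hS hW).log hG
  have h3 := ((((hH.const_mul p.N).const_sub (p.N + 1)).const_mul p.P).mul h1).sub
    ((((((hH.sub_const 1).const_mul p.N).add_const 1).const_mul p.M)).mul h2)
  have h4 := (((hA.mul hS).div_const 2).add ((hA.const_mul p.lam).mul hW)).sub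
    (hS.const_mul (1 + 5 / (2 * p.N ^ 2))) |>.sub (hW.const_mul (5 * p.lam / (2 * p.N ^ 2)))
  have h5 := (h3.const_mul (5 / (2 * p.N ^ 2 * p.nu))).add h4
  have h6 : HasDerivAt (fun r => fZ p (x r)) _ t := h5
  refine h6.congr_deriv ?_
  have hN := p.N_pos.ne'
  have hnu := p.hnu.ne'
  have e1 := fF_mul p (x t) hx
  have e2 := fG_mul p (x t) hx
  have e3 := PM_eq' p (x t) a s w ht
  have e4 : p.P * (p.N + 1 - p.N * fH p (x t)) *
      ((p.N * a + p.nu / 2 * (p.P * s + p.M * w)) / fF p (x t))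
      = p.P * fFt p (x t) * (p.N * a + p.nu / 2 * (p.P * s + p.M * w)) := by
    rw [← e1]; field_simp
  have e5 : p.M * (p.N * (fH p (x t) - 1) + 1) *
      ((-(p.N * a) - p.nu / 2 * (p.P * w - p.M * s)) / fG p (x t))
      = p.M * fGt p (x t) * (-(p.N * a) - p.nu / 2 * (p.P * w - p.M * s)) := by
    rw [← e2]; field_simp
  rw [e4, e5]
  generalize p.P * fFt p (x t) * (p.N * a + p.nu / 2 * (p.P * s + p.M * w)) = E1 at e3 ⊢
  generalize p.M * fGt p (x t) * (-(p.N * a) - p.nu / 2 * (p.P * w - p.M * s)) = E2 at e3 ⊢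
  have e6 : E1 = E2 + (p.nu * (-(p.N ^ 2 * (x t).S * a) + s * (1 + p.N ^ 2 * (x t).A)
      + p.lam * w) - p.N / 2 * (p.P + p.M) * (-2 * (1 - (x t).A) * a - (x t).W * w
        + p.lam * (w * (x t).S + (x t).W * s) / 2)) := by linarith
  rw [e6]
  simp only [fT]
  field_simp
  ring

end deriv

end B92K
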