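import Mathlib
import Pool.Agent.Lib.B92K.Base

/-! # Trajectories and backward arcs in the common frame (case `kappa > 1`) -/

set_option autoImplicit false

open Set Filter Topology

noncomputable section

namespace B92K

open B92

/-- A trajectory of `e X` in the common frame (`e = 1` : forward, `e = -1` : backward). -/
structure Traj (p : Prm) (e : ℝ) (x : ℝ → Pt) : Prop where
  dA : ∀ t, HasDerivAt (fun r => (x r).A) (e * XA p (x t) / p.mu) t
  dS : ∀ t, HasDerivAt (fun r => (x r).S) (e * XS p (x t) / p.mu) t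
  dW : ∀ t, HasDerivAt (fun r => (x r).W) (e * XW p (x t) / p.mu) t
  cone : ∀ t, (x t).Cone

/-- The point of the common frame belonging to `(U, Y, w)`. -/
def toPt (p : Prm) (U Y w : ℝ) : Pt := ⟨(p.k * U - Y) / 2, U - p.k * Y, p.mu * w⟩

theorem Traj.dH {p : Prm} {e : ℝ} {x : ℝ → Pt} (h : Traj p e x) (t : ℝ) :
    HasDerivAt (fun r => fH p (x r)) (-(e * (x t).W * fU p (x t) / p.mu)) t := by
  refine (hasDerivAt_fH p (h.dA t) (h.dS t) (h.dW t)).congr_deriv ?_
  have h1 := XH_eq p (x t) (h.cone t)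
  have h2 := p.hmu.ne'
  field_simp
  linear_combination e * 2 * h1

theorem Traj.tan {p : Prm} {e : ℝ} {x : ℝ → Pt} (h : Traj p e x) (t : ℝ) :
    (x t).S * (e * XS p (x t) / p.mu) + (x t).W * (e * XW p (x t) / p.mu)
      = 4 * (x t).A * (e * XA p (x t) / p.mu) := by
  have h1 := X_tan p (x t) (h.cone t)
  have h2 := p.hmu.ne'
  field_simp
  linear_combination e * h1

theorem Traj.dZ {p : Prm} {e : ℝ} {x : ℝ → Pt} (h : Traj p e x) {t : ℝ}
    (hF : fF p (x t) ≠ 0) (hG : fG p (x t) ≠ 0) :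
    HasDerivAt (fun r => fZ p (x r))
      ((5 * fT p (x t) + cc p) * (-(e * (x t).W * fU p (x t) / p.mu))) t := by
  refine (hasDerivAt_fZ p (h.dA t) (h.dS t) (h.dW t) (h.cone t) (h.tan t) hF hG).congr_deriv ?_
  have h1 := XH_eq p (x t) (h.cone t)
  have h3 := XZ_aux1 p (x t) (h.cone t)
  have h2 := p.hmu.ne'
  have e1 : -2 * (1 - (x t).A) * (e * XA p (x t) / p.mu) - (x t).W * (e * XW p (x t) / p.mu)
      + p.lam * (e * XW p (x t) / p.mu * (x t).S + (x t).W * (e * XS p (x t) / p.mu)) / 2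
      = -(e * (x t).W * fU p (x t) / p.mu) := by
    field_simp
    linear_combination e * 2 * h1
  have e2 : -2 * (x t).S * (e * XA p (x t) / p.mu) + 3 * (x t).A * (e * XS p (x t) / p.mu)
      + p.lam * ((x t).W * (e * XA p (x t) / p.mu) + (x t).A * (e * XW p (x t) / p.mu))
      - e * XS p (x t) / p.mu = p.k * (-(e * (x t).W * fU p (x t) / p.mu)) := by
    field_simp
    linear_combination e * h3
  rw [e1, e2, cc]
  ring

theorem Traj.dF {p : Prm} {e : ℝ} {x : ℝ → Pt} (h : Traj p e x) (t : ℝ) :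
    HasDerivAt (fun r => fF p (x r)) (e * (p.N * XA p (x t) + p.nu / 2 * (p.P * XS p (x t)
      + p.M * XW p (x t))) / p.mu) t := by
  refine (hasDerivAt_fF p (h.dA t) (h.dS t) (h.dW t)).congr_deriv ?_
  ring

theorem Traj.dG {p : Prm} {e : ℝ} {x : ℝ → Pt} (h : Traj p e x) (t : ℝ) :
    HasDerivAt (fun r => fG p (x r)) (e * (-(p.N * XA p (x t)) - p.nu / 2 * (p.P * XW p (x t)
      - p.M * XS p (x t))) / p.mu) t := by
  refine (hasDerivAt_fG p (h.dA t) (h.dS t) (h.dW t)).congr_deriv ?_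
  ring

/-- `(S / A)' = e W N* / (mu A ^ 2)`. -/
theorem Traj.dQ {p : Prm} {e : ℝ} {x : ℝ → Pt} (h : Traj p e x) (t : ℝ) :
    HasDerivAt (fun r => (x r).S / (x r).A)
      (e * (x t).W * fNs p (x t) / (p.mu * (x t).A ^ 2)) t := by
  have hA := (h.cone t).2.ne'
  have h2 := p.hmu.ne'
  refine ((h.dS t).div (h.dA t) hA).congr_deriv ?_
  have h1 := star_eq p (x t) (h.cone t)
  field_simp
  linear_combination e * h1

theorem Traj.contA {p : Prm} {e : ℝ} {x : ℝ → Pt} (h : Traj p e x) :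
    Continuous fun r => (x r).A := continuous_iff_continuousAt.2 fun t => (h.dA t).continuousAt

theorem Traj.contS {p : Prm} {e : ℝ} {x : ℝ → Pt} (h : Traj p e x) :
    Continuous fun r => (x r).S := continuous_iff_continuousAt.2 fun t => (h.dS t).continuousAt

theorem Traj.contW {p : Prm} {e : ℝ} {x : ℝ → Pt} (h : Traj p e x) :
    Continuous fun r => (x r).W := continuous_iff_continuousAt.2 fun t => (h.dW t).continuousAt

/-- A backward arc from the exit (time `0`, ray `S = 2 A`) to the entrance (time `L`, ray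
`S = -2 A`), in the common frame. `sg = 1` : sector `+` (`W > 0`, backward in time);
`sg = -1` : sector `-` (`W < 0`, forward in time). -/
structure BArc (p : Prm) (sg : ℝ) (x : ℝ → Pt) (L : ℝ) : Prop where
  traj : Traj p (-sg) x
  pos : 0 < L
  W0 : (x 0).W = 0
  S0 : (x 0).S = 2 * (x 0).A
  A0 : (x 0).A < 1
  WL : (x L).W = 0
  SL : (x L).S = -2 * (x L).A
  AL : (x L).A < 1
  Wpos : ∀ t ∈ Ioo 0 L, 0 < sg * (x t).W
  Hpos : ∀ t ∈ Icc 0 L, 0 < fH p (x t)
  star : ∀ t ∈ Icc 0 L, 0 ≤ fNs p (x t)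

end B92K
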