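import Mathlib
import Pool.Agent.Lib.B92.Arc
import Pool.Agent.Lib.B92.Assemble
import Pool.Agent.Lib.B92K.Traj
import Pool.Agent.Lib.B92K.Star

/-!
# MP_b92fc8_an, case `kappa > 1`: from arcs of `B92` to backward arcs of the common frame

All arcs go from ray a (`Y = U`, `A < 1`) to ray b (`Y = -U`, `A < 1`).
-/

set_option autoImplicit false

open Set Filter Topology

noncomputable section

namespace B92K

open B92

section algebra

variable (p : Prm) {U Y w : ℝ}

theorem toPt_cone (hc : U ^ 2 = Y ^ 2 + w ^ 2) (hU : 0 < U) : (toPt p U Y w).Cone := by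
  have h1 := p.hmu2
  have hk := p.hk
  refine ⟨?_, ?_⟩
  · simp only [toPt]
    linear_combination (w ^ 2) * h1 - (p.k ^ 2 - 1) * hc
  · simp only [toPt]
    have h2 : Y ≤ U := by nlinarith [sq_nonneg w, sq_nonneg (U - Y), sq_nonneg (U + Y)]
    have h3 : U < p.k * U := by nlinarith
    linarith

theorem toPt_H : fH p (toPt p U Y w) = fh p.k p.l U Y w := by
  have h1 := p.hmu2
  simp only [fH, toPt, fh, fA, fS]
  rw [p.hlam]
  linear_combination (-(w ^ 2) / 2) * h1

theorem toPt_XA (hc : U ^ 2 = Y ^ 2 + w ^ 2) :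
    (p.k * XU p.k p.l U Y w - XY p.k p.l U Y w) / 2 = XA p (toPt p U Y w) / p.mu := by
  have h1 := p.hmu2
  rw [eq_div_iff p.hmu.ne']
  simp only [XU, XY, XA, toPt]
  rw [p.hlam]
  linear_combination (p.lam * p.k * (p.k ^ 2 - 1) / 2) * hc
    + (p.lam * ((p.k * w ^ 2 - p.k * Y ^ 2 + U * Y) / 2 - p.k * w ^ 2)) * h1

theorem toPt_XS (_hc : U ^ 2 = Y ^ 2 + w ^ 2) :
    XU p.k p.l U Y w - p.k * XY p.k p.l U Y w = XS p (toPt p U Y w) / p.mu := by
  have h1 := p.hmu2
  rw [eq_div_iff p.hmu.ne']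
  simp only [XU, XY, XS, toPt]
  rw [p.hlam]
  linear_combination (p.lam * (-(Y ^ 2) + p.k * U * Y)) * h1

theorem toPt_XW (hc : U ^ 2 = Y ^ 2 + w ^ 2) :
    p.mu * Xw p.k p.l U Y w = XW p (toPt p U Y w) / p.mu := by
  have h1 := p.hmu2
  rw [eq_div_iff p.hmu.ne']
  simp only [Xw, XW, toPt, fV]
  rw [p.hlam]
  linear_combination (-2 * (p.k ^ 2 - 1)) * hc
    + (2 * Y - 2 * U ^ 2 + 3 * Y ^ 2 - p.k * U * Y + 2 * w ^ 2 + p.lam * p.mu * U * w) * h1

theorem toPt_Ns (hc : U ^ 2 = Y ^ 2 + w ^ 2) :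
    fNs p (toPt p U Y w) = p.mu ^ 2 / 2 * fN p.k p.l U Y w := by
  have h1 := p.hmu2
  simp only [fNs, fD, fH, toPt, fN]
  rw [p.hlam]
  linear_combination (-(p.k ^ 2 - 1) * p.k / 2) * hc
    + (p.k * w ^ 2 - (U + p.k * (w ^ 2 - Y ^ 2) / 2 + U * Y / 2 + p.lam * p.mu * Y * w)) * h1

theorem fN_neg (k l U Y w : ℝ) : fN k l U Y (-w) = fN k (-l) U Y w := by
  simp only [fN]; ring

end algebra

/-- Solutions give trajectories of the common frame (time reversed). -/
theorem traj_of_sol (p : Prm) {U Y w : ℝ → ℝ} (hs : Sol p.k p.l U Y w) (b : ℝ) :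
    Traj p (-1) (fun t => toPt p (U (b - t)) (Y (b - t)) (w (b - t))) := by
  have hneg : ∀ t, HasDerivAt (fun s : ℝ => b - s) (-1) t := fun t => by
    simpa using (hasDerivAt_id t).const_sub b
  refine ⟨fun t => ?_, fun t => ?_, fun t => ?_, fun t => toPt_cone p (hs.cone _) (hs.pos _)⟩
  · have h1 := (((hs.dU (b - t)).const_mul p.k).sub (hs.dY (b - t))).div_const 2
    have h2 := HasDerivAt.comp t h1 (hneg t)
    refine h2.congr_deriv ?_
    rw [toPt_XA p (hs.cone (b - t))]; ring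
  · have h1 := (hs.dU (b - t)).sub ((hs.dY (b - t)).const_mul p.k)
    have h2 := HasDerivAt.comp t h1 (hneg t)
    refine h2.congr_deriv ?_
    rw [toPt_XS p (hs.cone (b - t))]; ring
  · have h1 := (hs.dw (b - t)).const_mul p.mu
    have h2 := HasDerivAt.comp t h1 (hneg t)
    refine h2.congr_deriv ?_
    rw [toPt_XW p (hs.cone (b - t))]; ring

/-- Same for a mirrored solution (parameter `-l`): forward trajectory. -/
theorem traj_of_sol_neg (p : Prm) {U Y w : ℝ → ℝ} (hs : Sol p.k (-p.l) U Y w) (b : ℝ) :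
    Traj p 1 (fun t => toPt p (U (b - t)) (Y (b - t)) (-w (b - t))) := by
  have h1 := hs.reflect
  rw [neg_neg] at h1
  have h2 := h1.shift (-b)
  have h3 : Sol p.k p.l (fun t => U (b - t)) (fun t => Y (b - t)) (fun t => -w (b - t)) := by
    have e : ∀ t : ℝ, -(t + -b) = b - t := fun t => by ring
    simpa only [e] using h2
  refine ⟨fun t => ?_, fun t => ?_, fun t => ?_, fun t => toPt_cone p (h3.cone _) (h3.pos _)⟩
  · have h4 := (((h3.dU t).const_mul p.k).sub (h3.dY t)).div_const 2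
    refine h4.congr_deriv ?_
    rw [toPt_XA p (h3.cone t)]; ring
  · have h4 := (h3.dU t).sub ((h3.dY t).const_mul p.k)
    refine h4.congr_deriv ?_
    rw [toPt_XS p (h3.cone t)]; ring
  · have h4 := (h3.dw t).const_mul p.mu
    refine h4.congr_deriv ?_
    rw [toPt_XW p (h3.cone t)]; ring

section geometry

variable {k l : ℝ} {U Y w : ℝ → ℝ} {a b : ℝ}

/-- Arcs of the sector `-` start on ray a. -/
theorem minus_entrance (hk : 1 < k) (hl : 0 < l) (ha : Arc k (-l) U Y w a b) : Y a = U a := by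
  rcases ha.entrance with h | ⟨hYa, hAa⟩
  · exact h.1
  exfalso
  have hs := ha.sol
  have hab := ha.lt
  have hYneg : ∀ t ∈ Icc a b, Y t < 0 := by
    by_contra hcon
    push Not at hcon
    obtain ⟨t', ht', hY'⟩ := hcon
    have hYa0 : Y a < 0 := by have := hs.pos a; linarith
    have hne : (Icc a t' ∩ Y ⁻¹' {0}).Nonempty := by
      obtain ⟨s, hs1, hs2⟩ := intermediate_value_Icc ht'.1 hs.contY.continuousOn
        (show (0 : ℝ) ∈ Icc (Y a) (Y t') from ⟨hYa0.le, hY'⟩)
      exact ⟨s, hs1, hs2⟩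
    have hcomp : IsCompact (Icc a t' ∩ Y ⁻¹' {0}) :=
      isCompact_Icc.inter_right (isClosed_singleton.preimage hs.contY)
    obtain ⟨t1, ht1, hmin⟩ := hcomp.exists_isMinOn hne continuousOn_id
    have hY1 : Y t1 = 0 := ht1.2
    have hat1 : a < t1 := by
      rcases lt_or_eq_of_le ht1.1.1 with h | h
      · exact h
      · rw [← h] at hY1; linarith
    have hbef : ∀ s ∈ Ioo a t1, Y s < 0 := by
      intro s hs'
      by_contra h
      push Not at h
      obtain ⟨q, hq1, hq2⟩ := intermediate_value_Icc hs'.1.le hs.contY.continuousOn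
        (show (0 : ℝ) ∈ Icc (Y a) (Y s) from ⟨hYa0.le, h⟩)
      have h6 : t1 ≤ q := hmin ⟨⟨hq1.1, hq1.2.trans (hs'.2.le.trans ht1.1.2)⟩, hq2⟩
      linarith [hq1.2, hs'.2]
    have hd := deriv_nonneg_of_neg_left hat1 (hs.dY t1) hY1 hbef
    have hU := hs.pos t1
    have hc := hs.cone t1
    rcases lt_or_eq_of_le (ht1.1.2.trans ht'.2) with h | h
    · have hw := ha.wpos t1 ⟨hat1, h⟩
      rw [hY1] at hd
      simp only [XY] at hd
      have : 0 < w t1 * (2 + k * U t1) := by positivity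
      linarith
    · rw [hY1, h, ha.wb] at hc
      rw [← h] at hc
      nlinarith
  have hA : ∀ t ∈ Icc a b, fA k (U t) (Y t) ≠ 1 := by
    intro t ht h1
    have hh := ha.hpos t ht
    have hw : 0 ≤ w t := by
      rcases lt_or_eq_of_le ht.1 with h2 | h2
      · rcases lt_or_eq_of_le ht.2 with h3 | h3
        · exact (ha.wpos t ⟨h2, h3⟩).le
        · rw [h3, ha.wb]
      · rw [← h2, ha.wa]
    have hS : 0 < fS k (U t) (Y t) := by
      have h3 := hYneg t ht
      have h4 := hs.pos t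
      unfold fS
      nlinarith
    unfold fh at hh
    rw [h1] at hh
    have h5 : 0 ≤ (k ^ 2 - 1) * w t ^ 2 / 2 := by
      have : 0 ≤ k ^ 2 - 1 := by nlinarith
      positivity
    have h6 : 0 ≤ l * w t * fS k (U t) (Y t) / 2 := by positivity
    nlinarith
  have hcA : Continuous fun t => fA k (U t) (Y t) := by
    have := hs.contU; have := hs.contY
    unfold fA; fun_prop
  have hAb : 1 < fA k (U b) (Y b) := by
    by_contra h
    push Not at h
    obtain ⟨q, hq1, hq2⟩ := intermediate_value_Icc' hab.le hcA.continuousOn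
      (show (1 : ℝ) ∈ Icc (fA k (U b) (Y b)) (fA k (U a) (Y a)) from ⟨h, hAa.le⟩)
    exact hA q hq1 hq2
  rcases ha.exit with h | h
  · linarith [h.2]
  · have h1 := hYneg b ⟨hab.le, le_rfl⟩
    have h2 := hs.pos b
    linarith [h.1]

/-- Arcs of the sector `+` which start on ray a end on ray b, with `A < 1`. -/
theorem plus_exit (hk : 1 < k) (hl : 0 < l) (ha : Arc k l U Y w a b) (hYa : Y a = U a) :
    Y b = -U b ∧ fA k (U b) (Y b) < 1 := by
  rcases ha.exit with h | ⟨hYb, hAb⟩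
  · exact h
  exfalso
  have hs := ha.sol
  have hab := ha.lt
  have hAa : fA k (U a) (Y a) < 1 := by
    rcases ha.entrance with h | h
    · exact h.2
    · have := hs.pos a
      linarith [h.1]
  set S : ℝ → ℝ := fun t => fS k (U t) (Y t) with hSdef
  have hSd : ∀ t, HasDerivAt S (XU k l (U t) (Y t) (w t) - k * XY k l (U t) (Y t) (w t)) t :=
    fun t => (hs.dU t).sub ((hs.dY t).const_mul k)
  have hSc : Continuous S := continuous_iff_continuousAt.2 fun t => (hSd t).continuousAt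
  have hSb : S b < 0 := by
    have := hs.pos b
    simp only [hSdef, fS]; rw [hYb]; nlinarith
  have hSa : S a < 0 := by
    have := hs.pos a
    simp only [hSdef, fS]; rw [hYa]; nlinarith
  have hSneg : ∀ t ∈ Icc a b, S t < 0 := by
    by_contra hcon
    push Not at hcon
    obtain ⟨t', ht', hS'⟩ := hcon
    have hne : (Icc t' b ∩ S ⁻¹' {0}).Nonempty := by
      obtain ⟨s, hs1, hs2⟩ := intermediate_value_Icc' ht'.2 hSc.continuousOn
        (show (0 : ℝ) ∈ Icc (S b) (S t') from ⟨hSb.le, hS'⟩)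
      exact ⟨s, hs1, hs2⟩
    have hcomp : IsCompact (Icc t' b ∩ S ⁻¹' {0}) :=
      isCompact_Icc.inter_right (isClosed_singleton.preimage hSc)
    obtain ⟨t1, ht1, hmax⟩ := hcomp.exists_isMaxOn hne continuousOn_id
    have hS1 : S t1 = 0 := ht1.2
    have hbt1 : t1 < b := by
      rcases lt_or_eq_of_le ht1.1.2 with h | h
      · exact h
      · rw [h] at hS1; linarith
    have hat1 : a < t1 := by
      rcases lt_or_eq_of_le (ht'.1.trans ht1.1.1) with h | h
      · exact h
      · rw [← h] at hS1; linarith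
    have haft : ∀ s ∈ Ioo t1 b, S s < 0 := by
      intro s hs'
      by_contra h
      push Not at h
      obtain ⟨q, hq1, hq2⟩ := intermediate_value_Icc' hs'.2.le hSc.continuousOn
        (show (0 : ℝ) ∈ Icc (S b) (S s) from ⟨hSb.le, h⟩)
      have h6 : q ≤ t1 := hmax ⟨⟨ht1.1.1.trans (hs'.1.le.trans hq1.1), hq1.2⟩, hq2⟩
      linarith [hq1.1, hs'.1]
    have hd := deriv_nonpos_of_neg_right hbt1 (hSd t1) hS1 haft
    have hw := ha.wpos t1 ⟨hat1, hbt1⟩
    have hU := hs.pos t1
    have hc := hs.cone t1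
    have hUY : U t1 = k * Y t1 := by
      simp only [hSdef, fS] at hS1; linarith
    have e : XU k l (U t1) (Y t1) (w t1) - k * XY k l (U t1) (Y t1) (w t1)
        = w t1 * (2 * k + (k ^ 2 - 1) * U t1) + 2 * l * w t1 ^ 2 := by
      simp only [XU, XY]
      linear_combination (-(l * U t1) - w t1) * hUY + l * hc
    rw [e] at hd
    have : 0 < k ^ 2 - 1 := by nlinarith
    have : 0 < w t1 * (2 * k + (k ^ 2 - 1) * U t1) + 2 * l * w t1 ^ 2 := by positivity
    linarith
  have hA : ∀ t ∈ Icc a b, fA k (U t) (Y t) ≠ 1 := by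
    intro t ht h1
    have hh := ha.hpos t ht
    have hw : 0 ≤ w t := by
      rcases lt_or_eq_of_le ht.1 with h2 | h2
      · rcases lt_or_eq_of_le ht.2 with h3 | h3
        · exact (ha.wpos t ⟨h2, h3⟩).le
        · rw [h3, ha.wb]
      · rw [← h2, ha.wa]
    have hS : fS k (U t) (Y t) < 0 := hSneg t ht
    unfold fh at hh
    rw [h1] at hh
    have h5 : 0 ≤ (k ^ 2 - 1) * w t ^ 2 / 2 := by
      have : 0 ≤ k ^ 2 - 1 := by nlinarith
      positivity
    have h6 : 0 ≤ l * w t * (-fS k (U t) (Y t)) / 2 := by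
      have : 0 ≤ -fS k (U t) (Y t) := by linarith
      positivity
    nlinarith
  have hcA : Continuous fun t => fA k (U t) (Y t) := by
    have := hs.contU; have := hs.contY
    unfold fA; fun_prop
  obtain ⟨q, hq1, hq2⟩ := intermediate_value_Icc hab.le hcA.continuousOn
    (show (1 : ℝ) ∈ Icc (fA k (U a) (Y a)) (fA k (U b) (Y b)) from ⟨hAa.le, hAb.le⟩)
  exact hA q hq1 hq2

end geometry

/-- The star lemma on the closed arc. -/
theorem fN_nonneg {k l : ℝ} {U Y w : ℝ → ℝ} {a b : ℝ} (ha : Arc k l U Y w a b)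
    (hYa : Y a = U a) (hYb : Y b = -U b) (hAa : fA k (U a) (Y a) < 1)
    (hAb : fA k (U b) (Y b) < 1) {t : ℝ} (ht : t ∈ Icc a b) : 0 ≤ fN k l (U t) (Y t) (w t) := by
  have hs := ha.sol
  rcases lt_or_eq_of_le ht.1 with h2 | h2
  · rcases lt_or_eq_of_le ht.2 with h3 | h3
    · exact star hs ha.wpos hYa hYb ⟨h2, h3⟩
    · subst h3
      have h4 := hs.pos t
      simp only [fN]
      rw [ha.wb, hYb]
      rw [hYb] at hAb
      unfold fA at hAb
      nlinarith
  · subst h2
    have h4 := hs.pos a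
    simp only [fN]
    rw [ha.wa, hYa]
    rw [hYa] at hAa
    unfold fA at hAa
    nlinarith

/-- From an arc of the sector `+` to a backward arc. -/
theorem toBArc_plus (p : Prm) {U Y w : ℝ → ℝ} {a b : ℝ} (ha : Arc p.k p.l U Y w a b)
    (hYa : Y a = U a) : BArc p 1 (fun t => toPt p (U (b - t)) (Y (b - t)) (w (b - t))) (b - a) := by
  have hs := ha.sol
  obtain ⟨hYb, hAb⟩ := plus_exit p.hk p.hl ha hYa
  have hAa : fA p.k (U a) (Y a) < 1 := by
    rcases ha.entrance with h | h
    · exact h.2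
    · have := hs.pos a
      linarith [h.1]
  have hm : ∀ t ∈ Icc 0 (b - a), b - t ∈ Icc a b := fun t ht =>
    ⟨by linarith [ht.2], by linarith [ht.1]⟩
  refine ⟨traj_of_sol p hs b, by linarith [ha.lt], ?_, ?_, ?_, ?_, ?_, ?_, ?_, ?_, ?_⟩
  · simp [toPt, ha.wb]
  · simp only [toPt, sub_zero, hYb]; ring
  · simp only [toPt, sub_zero]; exact hAb
  · simp [toPt, ha.wa]
  · simp only [toPt, sub_sub_cancel, hYa]; ring
  · simp only [toPt, sub_sub_cancel]; exact hAa
  · intro t ht
    have := ha.wpos (b - t) ⟨by linarith [ht.2], by linarith [ht.1]⟩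
    have h2 := p.hmu
    simp only [toPt]
    positivity
  · intro t ht
    rw [toPt_H]
    exact ha.hpos _ (hm t ht)
  · intro t ht
    rw [toPt_Ns p (hs.cone _)]
    exact mul_nonneg (by positivity) (fN_nonneg ha hYa hYb hAa hAb (hm t ht))

/-- From an arc of the sector `-` to a backward arc. -/
theorem toBArc_minus (p : Prm) {U Y w : ℝ → ℝ} {a b : ℝ} (ha : Arc p.k (-p.l) U Y w a b)
    (hYb : Y b = -U b) (hAb : fA p.k (U b) (Y b) < 1) :
    BArc p (-1) (fun t => toPt p (U (b - t)) (Y (b - t)) (-w (b - t))) (b - a) := by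
  have hs := ha.sol
  have hYa := minus_entrance p.hk p.hl ha
  have hAa : fA p.k (U a) (Y a) < 1 := by
    rcases ha.entrance with h | h
    · exact h.2
    · have := hs.pos a
      linarith [h.1]
  have hm : ∀ t ∈ Icc 0 (b - a), b - t ∈ Icc a b := fun t ht =>
    ⟨by linarith [ht.2], by linarith [ht.1]⟩
  have hc : ∀ t, U t ^ 2 = Y t ^ 2 + (-w t) ^ 2 := fun t => by rw [hs.cone t]; ring
  refine ⟨?_, by linarith [ha.lt], ?_, ?_, ?_, ?_, ?_, ?_, ?_, ?_, ?_⟩
  · have := traj_of_sol_neg p hs b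
    rwa [neg_neg]
  · simp [toPt, ha.wb]
  · simp only [toPt, sub_zero, hYb]; ring
  · simp only [toPt, sub_zero]; exact hAb
  · simp [toPt, ha.wa]
  · simp only [toPt, sub_sub_cancel, hYa]; ring
  · simp only [toPt, sub_sub_cancel]; exact hAa
  · intro t ht
    have := ha.wpos (b - t) ⟨by linarith [ht.2], by linarith [ht.1]⟩
    have h2 := p.hmu
    simp only [toPt]
    have : 0 < p.mu * w (b - t) := by positivity
    linarith
  · intro t ht
    rw [toPt_H]
    have := ha.hpos _ (hm t ht)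
    have e : fh p.k p.l (U (b - t)) (Y (b - t)) (-w (b - t))
        = fh p.k (-p.l) (U (b - t)) (Y (b - t)) (w (b - t)) := by simp only [fh]; ring
    rw [e]; exact this
  · intro t ht
    rw [toPt_Ns p (hc _), fN_neg]
    exact mul_nonneg (by positivity) (fN_nonneg ha hYa hYb hAa hAb (hm t ht))

/-- **No orbit for `kappa > 1`**, from the comparison of backward arcs. -/
theorem no_orbit_of_cmp
    (cmp : ∀ (p : Prm) (x y : ℝ → Pt) (L M : ℝ), BArc p 1 x L → BArc p (-1) y M → x 0 = y 0 →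
      fH p (y M) < fH p (x L))
    {k l : ℝ} (hk : 1 < k) (hl : 0 < l) {U Y w : ℝ → ℝ} {P : ℝ}
    (hs : Sol k l U Y w) (hP : 0 < P)
    (pU : ∀ t, U (t + P) = U t) (pY : ∀ t, Y (t + P) = Y t) (pw : ∀ t, w (t + P) = w t)
    (hneg : ∃ t, w t < 0) (hpos : ∃ t, 0 < w t) : False := by
  obtain ⟨p, hpk, hpl⟩ := exists_prm hk hl
  have heta : eta k l ≠ 0 := by
    have : eta k l < 0 := by
      unfold eta; nlinarith [sq_nonneg l]
    exact this.ne
  refine no_orbit_exit hl heta (fun U Y => Y = U) (fun U Y => -(1 - fA k U Y) ^ 2) ?_ ?_ hs hP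
    pU pY pw hneg hpos
  · intro U Y w a b ha
    exact minus_entrance hk hl ha
  · intro U Y w a b U' Y' w' a' b' ha ha' hU hY hg hg'
    rw [← hpk, ← hpl] at ha ha'
    obtain ⟨hYb, hAb⟩ := plus_exit p.hk p.hl ha hg
    have hx := toBArc_plus p ha hg
    have hy := toBArc_minus p ha' (by rw [← hY, ← hU]; exact hYb) (by rw [← hY, ← hU]; exact hAb)
    have h0 := cmp p _ _ _ _ hx hy (by
      simp only [sub_zero, ha.wb, ha'.wb, neg_zero, hU, hY])
    simp only [sub_sub_cancel, toPt_H, ha.wa, ha'.wa, neg_zero] at h0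
    rw [h_at_zero rfl, h_at_zero rfl, hpk] at h0
    linarith

end B92K
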