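import Mathlib
import Pool.Agent.Lib.B92K.Traj

/-! # Points with `F, F~, G > 0` and the region `Pi` -/

set_option autoImplicit false

open Set Filter Topology

noncomputable section

namespace B92K

/-- `x` is on the cone, `H < 1 + 1/N` and `G > 0`. -/
structure Ok (p : Prm) (x : Pt) : Prop where
  cone : x.Cone
  H_lt : p.N * fH p x < p.N + 1
  G_pos : 0 < fG p x

/-- The region `Pi = {H > 1 - 1/N, D > 0}`. -/
structure InPi (p : Prm) (x : Pt) : Prop where
  cone : x.Cone
  H_gt : p.N - 1 < p.N * fH p x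
  D_pos : 0 < fD p x

theorem fF_pos (p : Prm) {x : Pt} (hx : x.Cone) (hH : p.N * fH p x < p.N + 1) :
    0 < fF p x ∧ 0 < fFt p x := by
  have h1 := fF_mul p x hx
  have h2 := fF_add p x
  have hN := p.N_pos
  have h3 : 0 < fF p x * fFt p x := by rw [h1]; linarith
  have h4 : 0 < fF p x + fFt p x := by rw [h2]; have := hx.2; positivity
  constructor
  · by_contra h
    push Not at h
    rcases pos_and_pos_or_neg_and_neg_of_mul_pos h3 with h5 | h5
    · linarith [h5.1]
    · linarith [h5.1, h5.2]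
  · by_contra h
    push Not at h
    rcases pos_and_pos_or_neg_and_neg_of_mul_pos h3 with h5 | h5
    · linarith [h5.2]
    · linarith [h5.1, h5.2]

theorem Ok.F_pos {p : Prm} {x : Pt} (h : Ok p x) : 0 < fF p x := (fF_pos p h.cone h.H_lt).1

theorem Ok.Ft_pos {p : Prm} {x : Pt} (h : Ok p x) : 0 < fFt p x := (fF_pos p h.cone h.H_lt).2

/-- `N D = (1 - N A) N A + (nu/2 (P W - M S)) ^ 2`. -/
theorem ND_eq (p : Prm) (x : Pt) (hx : x.Cone) :
    p.N * fD p x = (1 - p.N * x.A) * (p.N * x.A) + (p.nu / 2 * (p.P * x.W - p.M * x.S)) ^ 2 := by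
  have h1 := fG_mul p x hx
  simp only [fG, fGt] at h1
  simp only [fD]
  linear_combination h1

theorem InPi.H_lt {p : Prm} {x : Pt} (h : InPi p x) : fH p x < 1 := by
  have h1 := h.D_pos
  have h2 := h.cone.2
  simp only [fD] at h1
  linarith

theorem InPi.G_pos {p : Prm} {x : Pt} (h : InPi p x) : 0 < fG p x ∧ 0 < fGt p x := by
  have h1 := fG_mul p x h.cone
  have h2 := ND_eq p x h.cone
  have h3 := h.D_pos
  have hN := p.N_pos
  have h4 : 0 < fG p x * fGt p x := by rw [h1]; linarith [h.H_gt]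
  rcases pos_and_pos_or_neg_and_neg_of_mul_pos h4 with h5 | h5
  · exact h5
  · exfalso
    have h6 : 0 < p.N * fD p x := mul_pos hN h3
    rw [h2] at h6
    obtain ⟨h7, h8⟩ := h5
    simp only [fG, fGt] at h7 h8
    nlinarith [mul_pos_of_neg_of_neg h7 h8]

theorem InPi.NA_lt {p : Prm} {x : Pt} (h : InPi p x) : p.N * x.A < 1 := by
  have h1 := fG_add p x
  have h2 := h.G_pos
  linarith [h2.1, h2.2]

theorem InPi.A_lt {p : Prm} {x : Pt} (h : InPi p x) : x.A < 1 := by
  have h1 := h.NA_lt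
  have h2 := h.cone.2
  nlinarith [p.hN1]

theorem InPi.ok {p : Prm} {x : Pt} (h : InPi p x) : Ok p x :=
  ⟨h.cone, by nlinarith [h.H_lt, p.N_pos], h.G_pos.1⟩

/-- `H > 1 - 1/N` and `G > 0` imply `Pi`. -/
theorem inPi_of_G {p : Prm} {x : Pt} (hx : x.Cone) (hH : p.N - 1 < p.N * fH p x)
    (hG : 0 < fG p x) : InPi p x := by
  refine ⟨hx, hH, ?_⟩
  have h1 := fG_mul p x hx
  have h2 := ND_eq p x hx
  have hN := p.N_pos
  have h4 : 0 < fG p x * fGt p x := by rw [h1]; linarith
  have h5 : 0 < fGt p x := by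
    rcases pos_and_pos_or_neg_and_neg_of_mul_pos h4 with h5 | h5
    · exact h5.2
    · linarith [h5.1]
  have h6 : 0 < 1 - p.N * x.A := by
    have := fG_add p x
    linarith
  have h7 : 0 < p.N * fD p x := by
    rw [h2]
    have := hx.2
    positivity
  exact pos_of_mul_pos_right h7 hN.le

/-- `D ≠ 0` where `H > 1 - 1/N`. -/
theorem D_ne_zero {p : Prm} {x : Pt} (hx : x.Cone) (hH : p.N - 1 < p.N * fH p x) :
    fD p x ≠ 0 := by
  intro h0
  have h2 := ND_eq p x hx
  have hN := p.N_pos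
  rw [h0, mul_zero] at h2
  have h3 : fH p x = 1 - x.A := by simp only [fD] at h0; linarith
  have h4 : p.N * x.A < 1 := by rw [h3] at hH; linarith
  have h5 := hx.2
  have h6 : 0 < (1 - p.N * x.A) * (p.N * x.A) := by
    apply mul_pos <;> [linarith; positivity]
  nlinarith [sq_nonneg (p.nu / 2 * (p.P * x.W - p.M * x.S))]

theorem fH_neg (p : Prm) (x : Pt) : fH p x.neg = fH p x := by simp only [fH, Pt.neg]; ring

theorem fU_neg (p : Prm) (x : Pt) : fU p x.neg = fU p x := by
  simp only [fU, fH_neg]; simp only [Pt.neg]; ring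

theorem fV_neg (p : Prm) (x : Pt) : fV p x.neg = -fV p x := by simp only [fV, Pt.neg]; ring

theorem fD_neg (p : Prm) (x : Pt) : fD p x.neg = fD p x := by
  simp only [fD, fH_neg]; simp only [Pt.neg]

theorem fF_neg (p : Prm) (x : Pt) : fF p x.neg = fFt p x := by
  simp only [fF, fFt, Pt.neg]; ring

theorem fG_neg (p : Prm) (x : Pt) : fG p x.neg = fGt p x := by
  simp only [fG, fGt, Pt.neg]; ring

theorem Cone_neg {x : Pt} (h : x.Cone) : x.neg.Cone := by
  obtain ⟨h1, h2⟩ := h
  exact ⟨by simp only [Pt.neg]; linarith, h2⟩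

theorem InPi.neg {p : Prm} {x : Pt} (h : InPi p x) : InPi p x.neg :=
  ⟨Cone_neg h.cone, by rw [fH_neg]; exact h.H_gt, by rw [fD_neg]; exact h.D_pos⟩

end B92K
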