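import Mathlib
import Pool.Agent.Lib.B92K.Ok

/-!
# MP_b92fc8_an, `kappa > 1`, module Sl0 : the Hamiltonian field on the level curves, slices of
levels (definitions), derivative formulas along trajectories
-/

set_option autoImplicit false

open Set Filter Topology

noncomputable section

namespace B92K

/-- Hamiltonian field, `A`-component (time scale `theta' = Delta`). -/
def YA (p : Prm) (x : Pt) : ℝ := (p.lam * (x.S ^ 2 - x.W ^ 2) - 2 * x.S * x.W) / 4

/-- Hamiltonian field, `S`-component. The `W`-component is `fV`. -/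
def YS (p : Prm) (x : Pt) : ℝ := p.lam * x.A * x.S - x.W * (1 + x.A)

/-- The derivative of `V` along `mu X`. -/
def XV (p : Prm) (x : Pt) : ℝ :=
  XS p x * (1 - x.A) - x.S * XA p x - p.lam * (XA p x * x.W + x.A * XW p x)

section

variable (p : Prm) (x : Pt)

theorem YF_eq (hx : x.Cone) : p.N * YA p x + p.nu / 2 * (p.P * YS p x + p.M * fV p x)
    = -(p.nu / 2 * (p.P * x.W - p.M * x.S)) * fF p x := by
  have h1 := hx.1
  have h2 := p.nu_sq
  have h4 := p.M_sq
  simp only [YA, YS, fV, fF]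
  rw [p.N_eq, ← p.hPM]
  linear_combination (1 / 4 * p.P ^ 3 * p.M - 1 / 4 * p.P * p.M * p.nu ^ 2
    - 1 / 4 * p.P * p.M) * h1
    + (-(x.A ^ 2 * p.P * p.M) + 1 / 2 * x.W ^ 2 * p.P * p.M + 1 / 4 * x.W * x.S * p.P ^ 2
      - 1 / 4 * x.W * x.S * p.M ^ 2) * h2
    + (-(1 / 2 * x.A * x.W * p.P * p.nu) - 1 / 4 * x.W * x.S * p.P ^ 2
      + 1 / 4 * x.W * x.S) * h4

theorem YG_eq (hx : x.Cone) : -(p.N * YA p x) - p.nu / 2 * (p.P * fV p x - p.M * YS p x)
    = -(p.nu / 2 * (p.P * x.S + p.M * x.W)) * fG p x := by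
  have h1 := hx.1
  have h2 := p.nu_sq
  have h4 := p.M_sq
  simp only [YA, YS, fV, fG]
  rw [p.N_eq, ← p.hPM]
  linear_combination (-(1 / 4 * p.P ^ 3 * p.M) + 1 / 4 * p.P * p.M * p.nu ^ 2
    + 1 / 4 * p.P * p.M) * h1
    + (x.A ^ 2 * p.P * p.M - 1 / 2 * x.W ^ 2 * p.P * p.M - 1 / 4 * x.W * x.S * p.P ^ 2
      + 1 / 4 * x.W * x.S * p.M ^ 2) * h2
    + (1 / 2 * x.A * x.S * p.P * p.nu + 1 / 4 * x.W * x.S * p.P ^ 2
      - 1 / 4 * x.W * x.S) * h4

theorem Y_tan : x.S * YS p x + x.W * fV p x = 4 * x.A * YA p x := by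
  simp only [YA, YS, fV]; ring

theorem YH_eq : -2 * (1 - x.A) * YA p x - x.W * fV p x
    + p.lam * (fV p x * x.S + x.W * YS p x) / 2 = 0 := by
  simp only [YA, YS, fV]; ring

theorem YZ_eq (hx : x.Cone) : -2 * x.S * YA p x + 3 * x.A * YS p x
    + p.lam * (x.W * YA p x + x.A * fV p x) - YS p x = x.W * fU p x / 2 := by
  have h1 := hx.1
  have h2 := p.hN
  simp only [YA, YS, fV, fU, fH]
  linear_combination (1 / 4 * x.W * p.lam ^ 2 + x.W - 1 / 2 * x.S * p.lam) * h1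
    + (1 / 2 * x.W ^ 3) * h2

theorem Yang_eq (hx : x.Cone) : x.A * YS p x - x.S * YA p x = -(x.W * fD p x) := by
  have h1 := hx.1
  simp only [YA, YS, fD, fH]
  linear_combination (1 / 2 * x.W - 1 / 4 * x.S * p.lam) * h1

end

/-- `C = cos 2 theta + lam sin 2 theta`. -/
def slC (p : Prm) (th : ℝ) : ℝ := Real.cos (2 * th) + p.lam * Real.sin (2 * th)

/-- `Delta = sqrt (1 - (1 - h) C)`. -/
def slD (p : Prm) (h th : ℝ) : ℝ := Real.sqrt (1 - (1 - h) * slC p th)

/-- `A = (1 - h) / (1 + Delta)`. -/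
def slA (p : Prm) (h th : ℝ) : ℝ := (1 - h) / (1 + slD p h th)

/-- The point of level `h` at the angle `th` (with `D > 0`). -/
def sl (p : Prm) (h th : ℝ) : Pt :=
  ⟨slA p h th, 2 * slA p h th * Real.cos th, 2 * slA p h th * Real.sin th⟩

/-- The side `e = 1` (`W > 0`) or `e = -1` (`W < 0`) of a level, parametrised by `ph` in
`[0, pi]`, from the ray `S = 2 A` (`ph = 0`) to the ray `S = - 2 A` (`ph = pi`). -/
def slE (p : Prm) (h e ph : ℝ) : Pt := sl p h (e * ph)

/-- The derivative of `V` along a trajectory. -/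
theorem Traj.dV {p : Prm} {e : ℝ} {x : ℝ → Pt} (h : Traj p e x) (t : ℝ) :
    HasDerivAt (fun r => fV p (x r)) (e * XV p (x t) / p.mu) t := by
  have h1 := ((h.dS t).mul ((h.dA t).const_sub 1)).sub (((h.dA t).const_mul p.lam).mul (h.dW t))
  refine h1.congr_deriv ?_
  simp only [XV]
  ring

/-- The derivative of `U` along a trajectory (`D ≠ 0`). -/
theorem Traj.dU {p : Prm} {e : ℝ} {x : ℝ → Pt} (h : Traj p e x) {t : ℝ}
    (hD : fD p (x t) ≠ 0) :
    HasDerivAt (fun r => fU p (x r)) (-(e * (x t).W / p.mu)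
      * ((2 + p.N ^ 2 * (x t).W ^ 2 / fD p (x t)) * fU p (x t)
        - 2 * p.N ^ 2 * fV p (x t) * fNs p (x t) / fD p (x t))) t := by
  have h1 := ((h.dH t).const_mul 2).sub (((h.dW t).pow 2).const_mul (p.N ^ 2))
  refine h1.congr_deriv ?_
  have h2 := gN_eq p (x t) (h.cone t)
  have h3 := p.hmu.ne'
  have h4 : XW p (x t) = ((x t).W ^ 2 * fU p (x t) - 2 * fV p (x t) * fNs p (x t))
      / (2 * fD p (x t)) := by
    rw [eq_div_iff (by positivity)]
    linear_combination h2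
  rw [h4]
  field_simp
  ring

end B92K
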