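import Mathlib
import Pool.Agent.Lib.B92K.Sl0

/-!
# MP_b92fc8_an, `kappa > 1`, module Equil : equilibria on an arc

(1) `Traj.const_of_zero`: uniqueness for the polynomial system (constant solution); cf. the proof of
   `B92.Sol.unique` in B92/Uniq.lean (Lipschitz on a ball + ODE_solution_unique_of_mem_Icc), or
   convert to a `Sol`.
(2) `BArc.Ns_pos`: if `U = 0`, `D ≠ 0` at `t ∈ (0,L)` then `N* > 0`: by `star` `N* ≥ 0`; if `N* = 0` then
   `gN_eq` gives `XW = 0`; `star_eq`: `A XS = S XA`; `X_tan`: `S XS = 4 A XA`; so `(4A² - S²) XA = 0`,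
   `W² XA = 0`, `XA = 0`, `XS = 0`: by (1) `x` is constant, `W = 0` at `t = 0` but `W ≠ 0` at `t`.
-/

set_option autoImplicit false

open Set Filter Topology

noncomputable section

namespace B92K

/-- The point of coordinates `(q.1, q.2.1, q.2.2)`. -/
def EquilPt (q : ℝ × ℝ × ℝ) : Pt := ⟨q.1, q.2.1, q.2.2⟩

/-- The field as a map of `ℝ × ℝ × ℝ`. -/
def EquilXf (p : Prm) (e : ℝ) (q : ℝ × ℝ × ℝ) : ℝ × ℝ × ℝ :=
  (e * XA p (EquilPt q) / p.mu, e * XS p (EquilPt q) / p.mu, e * XW p (EquilPt q) / p.mu)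

theorem EquilXf_contDiff (p : Prm) (e : ℝ) : ContDiff ℝ 1 (EquilXf p e) := by
  unfold EquilXf EquilPt XA XS XW fV
  simp only
  fun_prop

theorem Traj.const_of_zero {p : Prm} {e : ℝ} {x : ℝ → Pt} (h : Traj p e x) {t0 : ℝ}
    (hA : XA p (x t0) = 0) (hS : XS p (x t0) = 0) (hW : XW p (x t0) = 0) :
    ∀ t, x t = x t0 := by
  intro t
  set f : ℝ → ℝ × ℝ × ℝ := fun s => ((x s).A, (x s).S, (x s).W) with hf
  set g : ℝ → ℝ × ℝ × ℝ := fun _ => ((x t0).A, (x t0).S, (x t0).W) with hg
  have hfd : ∀ s, HasDerivAt f (EquilXf p e (f s)) s := fun s =>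
    (h.dA s).prodMk ((h.dS s).prodMk (h.dW s))
  have hgd : ∀ s, HasDerivAt g (EquilXf p e (g s)) s := by
    intro s
    have h1 : EquilXf p e (g s) = 0 := by
      have h2 : EquilPt (g s) = x t0 := rfl
      simp only [EquilXf, h2, hA, hS, hW, mul_zero, zero_div, Prod.mk_zero_zero]
    rw [h1]
    exact hasDerivAt_const _ _
  have hfc : Continuous f := continuous_iff_continuousAt.2 fun s => (hfd s).continuousAt
  have hgc : Continuous g := continuous_iff_continuousAt.2 fun s => (hgd s).continuousAt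
  set a := min t t0 - 1 with ha
  set b := max t t0 + 1 with hb
  obtain ⟨M1, hM1⟩ := (isCompact_Icc (a := a) (b := b)).exists_bound_of_continuousOn
    hfc.continuousOn
  obtain ⟨M2, hM2⟩ := (isCompact_Icc (a := a) (b := b)).exists_bound_of_continuousOn
    hgc.continuousOn
  set B := Metric.closedBall (0 : ℝ × ℝ × ℝ) (max M1 M2) with hB
  obtain ⟨K, hK⟩ := ContDiffOn.exists_lipschitzOnWith (EquilXf_contDiff p e).contDiffOn
    (by norm_num) (convex_closedBall (0 : ℝ × ℝ × ℝ) (max M1 M2)) (isCompact_closedBall _ _)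
  have hta : t ∈ Icc a b := ⟨by rw [ha]; linarith [min_le_left t t0],
    by rw [hb]; linarith [le_max_left t t0]⟩
  have ht0 : t0 ∈ Ioo a b := ⟨by rw [ha]; linarith [min_le_right t t0],
    by rw [hb]; linarith [le_max_right t t0]⟩
  have key : EqOn f g (Icc a b) := by
    refine ODE_solution_unique_of_mem_Icc (v := fun _ => EquilXf p e) (s := fun _ => B) (K := K)
      (fun _ _ => hK) ht0 hfc.continuousOn (fun s _ => hfd s) (fun s hs1 => ?_)
      hgc.continuousOn (fun s _ => hgd s) (fun s hs1 => ?_) ?_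
    · rw [hB, mem_closedBall_zero_iff]
      exact (hM1 s ⟨hs1.1.le, hs1.2.le⟩).trans (le_max_left _ _)
    · rw [hB, mem_closedBall_zero_iff]
      exact (hM2 s ⟨hs1.1.le, hs1.2.le⟩).trans (le_max_right _ _)
    · simp only [hf, hg]
  have h1 := key hta
  simp only [hf, hg, Prod.mk.injEq] at h1
  exact Pt.ext h1.1 h1.2.1 h1.2.2

theorem BArc.Ns_pos {p : Prm} {sg : ℝ} {x : ℝ → Pt} {L : ℝ} (h : BArc p sg x L) {t : ℝ}
    (ht : t ∈ Ioo 0 L) (hU : fU p (x t) = 0) (hD : fD p (x t) ≠ 0) : 0 < fNs p (x t) := by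
  have hc := h.traj.cone t
  have hApos : 0 < (x t).A := hc.2
  have hWp := h.Wpos t ht
  have hW0 : (x t).W ≠ 0 := by
    intro h0
    rw [h0] at hWp
    simp at hWp
  have hNs0 : 0 ≤ fNs p (x t) := h.star t (Ioo_subset_Icc_self ht)
  rcases hNs0.lt_or_eq with h1 | h1
  · exact h1
  exfalso
  have e1 := gN_eq p (x t) hc
  rw [← h1, hU] at e1
  have hXW : XW p (x t) = 0 := by
    have : 2 * fD p (x t) * XW p (x t) = 0 := by linarith
    rcases mul_eq_zero.1 this with h2 | h2
    · exact absurd (by linarith : fD p (x t) = 0) hD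
    · exact h2
  have e2 := star_eq p (x t) hc
  rw [← h1] at e2
  have e3 := X_tan p (x t) hc
  rw [hXW] at e3
  have e4 : (x t).W ^ 2 * XA p (x t) = 0 := by
    linear_combination XA p (x t) * hc.1 + (x t).S * e2 - (x t).A * e3
  have hXA : XA p (x t) = 0 := by
    rcases mul_eq_zero.1 e4 with h2 | h2
    · exact absurd (pow_eq_zero_iff (two_ne_zero) |>.1 h2) hW0
    · exact h2
  have hXS : XS p (x t) = 0 := by
    rw [hXA] at e2
    have : (x t).A * XS p (x t) = 0 := by linarith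
    rcases mul_eq_zero.1 this with h2 | h2
    · exact absurd h2 hApos.ne'
    · exact h2
  have h5 := h.traj.const_of_zero hXA hXS hXW 0
  have h6 := h.W0
  rw [h5] at h6
  exact hW0 h6

end B92K
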