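import Mathlib
import Pool.Agent.Lib.B92K.Sl0

/-!
# MP_b92fc8_an, `kappa > 1`, module GateB : gate points (`V = 0`)

Let `y = S/W`. `V = 0` is `S (1-A) = lam A W`, so `y (1-A) = lam A`, `y > 0`, `A = y/(y+lam)`,
`1 - A = lam/(y+lam)`. With `t = M/P` (so `lam = 2t/(1-t²)`, `N = (1+t²)/(1-t²)`, from
`P M = lam`, `P² = N+1`, `M² = N-1`), `k = 1 + y²`, EXACT formulas (checked numerically; they follow
from `W² = 4A²/(1+y²)`, `S = y W`):
 `D k (y+lam)² = y (lam + 2 y - lam y²)`,   so `D > 0` iff `y < 1/t` (`lam y² - 2y - lam = lam (y - 1/t)(y + t)`),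
 `U k (y+lam)² = 4 lam (y - 1/t)(y - lam/2)(y + t)`,
 `(H - (1-1/N)) k (y+lam)² = -(1-1/N)(y - 1/t)² (y² - lam t)`, so `H > 1 - 1/N` gives `y² < lam t`,
 hence `y³ < lam` (`y² y < lam t * (1/t)`).
 `H = (lam² + (lam²-2) y² + 2 lam y³)/((1+y²)(y+lam)²)`,
 `dH/dy = -2 (y³ - lam)(lam y² - 2y - lam)/((1+y²)² (y+lam)³) < 0` for `0 < y < 1/t`, `y³ < lam`.
(1) Gate.mono: the set `{0 < y < min(1/t, sqrt(lam t))}` is an interval and `H(y)` is strictly
   decreasing on it. (Alternative without calculus: sign of the numerator of `H(y) - H(y')`.)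
(2) Gate.unique: equal `H` gives equal `y` by (1), so equal `A`, and `W² = 4A²/(1+y²)`, same sign.
(3) Gate.U_nonneg: `U ≥ 0` iff `y ≤ lam/2` (as `y < 1/t`).
(4) apex: `U = V = 0`: `gN_eq` gives `XW = 0` (`D > 0`), `star_eq`: `A XS - S XA = W N*`, `X_tan`:
   `S XS = 4 A XA`; so `W² XA = S W N*` (cone), `XA = S N*/W`, `XS = 4 A N*/W` (`S ≠ 0`), and with
   `lam A W = S (1-A)`: `W * XV = N* (W² (1-A) - A S²)/A`, and `W² (1-A) > A S²` iff
   `lam/y > y²` iff `y³ < lam`. At the apex `H > 1-1/N` is a hypothesis here.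
-/

set_option autoImplicit false

noncomputable section

namespace B92K

/-- Gate points of `Pi`. -/
structure Gate (p : Prm) (z : Pt) : Prop where
  pi : InPi p z
  V0 : fV p z = 0
  W0 : z.W ≠ 0

/-- The data of a gate point with `y = S / W`. -/
structure GData (p : Prm) (z : Pt) (y : ℝ) : Prop where
  y0 : 0 < y
  eS : z.S = y * z.W
  eA : z.A * (y + p.lam) = y
  eW : z.W ^ 2 * (1 + y ^ 2) = 4 * z.A ^ 2
  eH : fH p z * ((1 + y ^ 2) * (y + p.lam) ^ 2)
    = p.lam ^ 2 + (p.lam ^ 2 - 2) * y ^ 2 + 2 * p.lam * y ^ 3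
  E0 : 0 < p.lam + 2 * y - p.lam * y ^ 2
  y2 : y ^ 2 < p.N - 1
  ly : p.lam * y < p.N + 1
  y3 : y ^ 3 < p.lam

theorem gate_y3 (p : Prm) {y : ℝ} (y0 : 0 < y) (h1 : p.lam * y < p.N + 1)
    (h2 : y ^ 2 < p.N - 1) : y ^ 3 < p.lam := by
  have hl := p.hlam0
  have h3 : (p.lam * y) * y ^ 2 < (p.N + 1) * (p.N - 1) :=
    mul_lt_mul'' h1 h2 (by positivity) (by positivity)
  have h4 : (p.N + 1) * (p.N - 1) = p.lam ^ 2 := by linear_combination p.hN
  have h5 : p.lam * y ^ 3 < p.lam * p.lam := by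
    rw [h4] at h3
    linarith
  exact lt_of_mul_lt_mul_left h5 hl.le

theorem gate_data {p : Prm} {z : Pt} (h : Gate p z) : ∃ y : ℝ, y = z.S / z.W ∧ GData p z y := by
  have hA := h.pi.cone.2
  have hc := h.pi.cone.1
  have hA1 := h.pi.A_lt
  have hl := p.hlam0
  have hW0 := h.W0
  have hN := p.hN
  have hN1 := p.hN1
  obtain ⟨y, hy⟩ : ∃ y : ℝ, y = z.S / z.W := ⟨_, rfl⟩
  have eS : z.S = y * z.W := by rw [hy]; field_simp
  have hV := h.V0
  simp only [fV] at hV
  have e1 : y * (1 - z.A) = p.lam * z.A := by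
    apply mul_left_cancel₀ hW0
    rw [eS] at hV
    linear_combination hV
  have y0 : 0 < y := by
    by_contra hn
    push Not at hn
    have h2 : y * (1 - z.A) ≤ 0 := mul_nonpos_of_nonpos_of_nonneg hn (by linarith)
    have h3 := mul_pos hl hA
    linarith
  have eA : z.A * (y + p.lam) = y := by linear_combination - e1
  have eW : z.W ^ 2 * (1 + y ^ 2) = 4 * z.A ^ 2 := by
    rw [eS] at hc
    linear_combination hc
  have e2 : (1 - z.A) * (y + p.lam) = p.lam := by linear_combination - eA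
  have e3 : z.W ^ 2 * (1 + y ^ 2) * (y + p.lam) ^ 2 = 4 * y ^ 2 := by
    rw [eW]
    linear_combination 4 * (z.A * (y + p.lam) + y) * eA
  have eH : fH p z * ((1 + y ^ 2) * (y + p.lam) ^ 2)
      = p.lam ^ 2 + (p.lam ^ 2 - 2) * y ^ 2 + 2 * p.lam * y ^ 3 := by
    simp only [fH]
    rw [eS]
    linear_combination ((1 - z.A) * (y + p.lam) + p.lam) * (1 + y ^ 2) * e2
      + (p.lam * y / 2 - 1 / 2) * e3
  have hK : 0 < (1 + y ^ 2) * (y + p.lam) ^ 2 := by positivity
  have eD : fD p z * ((1 + y ^ 2) * (y + p.lam) ^ 2)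
      = y * (p.lam + 2 * y - p.lam * y ^ 2) := by
    simp only [fD]
    linear_combination (1 + y ^ 2) * (y + p.lam) * e2 - eH
  have E0 : 0 < p.lam + 2 * y - p.lam * y ^ 2 := by
    have h2 : 0 < y * (p.lam + 2 * y - p.lam * y ^ 2) := by
      rw [← eD]; exact mul_pos h.pi.D_pos hK
    exact pos_of_mul_pos_right h2 y0.le
  have ly : p.lam * y < p.N + 1 := by
    have k1 : p.lam * (p.lam + 2 * y - p.lam * y ^ 2)
        = (p.N + 1 - p.lam * y) * (p.lam * y + (p.N - 1)) := by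
      linear_combination - p.hN
    have k2 : 0 < p.lam * y + (p.N - 1) := by
      have := mul_pos hl y0
      linarith
    have k3 : 0 < (p.N + 1 - p.lam * y) * (p.lam * y + (p.N - 1)) := by
      rw [← k1]; exact mul_pos hl E0
    have k4 := pos_of_mul_pos_left k3 k2.le
    linarith
  have y2 : y ^ 2 < p.N - 1 := by
    have k1 : (p.N + 1) * ((p.N * fH p z - (p.N - 1)) * ((1 + y ^ 2) * (y + p.lam) ^ 2))
        = (p.N + 1 - p.lam * y) ^ 2 * ((p.N - 1) - y ^ 2) := by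
      linear_combination (p.N + 1) * p.N * eH + (- p.N - (1 + y ^ 2) ^ 2) * p.hN
    have k2 : 0 < (p.N + 1) * ((p.N * fH p z - (p.N - 1)) * ((1 + y ^ 2) * (y + p.lam) ^ 2)) := by
      have := h.pi.H_gt
      exact mul_pos (by linarith) (mul_pos (by linarith) hK)
    rw [k1] at k2
    have k3 := pos_of_mul_pos_right k2 (sq_nonneg _)
    linarith
  exact ⟨y, hy, y0, eS, eA, eW, eH, E0, y2, ly, gate_y3 p y0 ly y2⟩

/-- `H` of the gate point as a function of `y`. -/
def gH (p : Prm) (y : ℝ) : ℝ :=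
  (p.lam ^ 2 + (p.lam ^ 2 - 2) * y ^ 2 + 2 * p.lam * y ^ 3) / ((1 + y ^ 2) * (y + p.lam) ^ 2)

theorem gate_fH {p : Prm} {z : Pt} {y : ℝ} (d : GData p z y) : fH p z = gH p y := by
  have h2 : 0 < (1 + y ^ 2) * (y + p.lam) ^ 2 := by
    have := d.y0
    have := p.hlam0
    positivity
  rw [gH, eq_div_iff h2.ne']
  exact d.eH

theorem gate_fU {p : Prm} {z : Pt} {y : ℝ} (d : GData p z y) :
    fU p z * ((1 + y ^ 2) * (y + p.lam) ^ 2)
      = 4 * (p.lam + 2 * y - p.lam * y ^ 2) * (p.lam / 2 - y) := by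
  have e3 : z.W ^ 2 * (1 + y ^ 2) * (y + p.lam) ^ 2 = 4 * y ^ 2 := by
    rw [d.eW]
    linear_combination 4 * (z.A * (y + p.lam) + y) * d.eA
  simp only [fU]
  linear_combination 2 * d.eH - p.N ^ 2 * e3 - 4 * y ^ 2 * p.hN

theorem gH_deriv (p : Prm) {y : ℝ} (y0 : 0 < y) :
    HasDerivAt (gH p) (-2 * (y ^ 3 - p.lam) * (p.lam * y ^ 2 - 2 * y - p.lam)
      / ((1 + y ^ 2) ^ 2 * (y + p.lam) ^ 3)) y := by
  have hl := p.hlam0
  have h0 : y + p.lam ≠ 0 := by positivity
  have h1 : (1 + y ^ 2) ≠ 0 := by positivity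
  have h2 : (1 + y ^ 2) * (y + p.lam) ^ 2 ≠ 0 := by positivity
  have hid := hasDerivAt_id y
  have n1 : HasDerivAt (fun r : ℝ => p.lam ^ 2 + (p.lam ^ 2 - 2) * r ^ 2 + 2 * p.lam * r ^ 3)
      ((p.lam ^ 2 - 2) * (2 * y) + 2 * p.lam * (3 * y ^ 2)) y := by
    have a1 := ((hasDerivAt_pow 2 y).const_mul (p.lam ^ 2 - 2)).const_add (p.lam ^ 2)
    have a2 := (hasDerivAt_pow 3 y).const_mul (2 * p.lam)
    refine (a1.add a2).congr_deriv ?_
    norm_num
  have n2 : HasDerivAt (fun r : ℝ => (1 + r ^ 2) * (r + p.lam) ^ 2)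
      ((2 * y) * (y + p.lam) ^ 2 + (1 + y ^ 2) * (2 * (y + p.lam))) y := by
    have a1 := (hasDerivAt_pow 2 y).const_add (1 : ℝ)
    have a2 := ((hasDerivAt_id y).add_const p.lam).pow 2
    refine (a1.mul a2).congr_deriv ?_
    norm_num
  refine (n1.div n2 h2).congr_deriv ?_
  field_simp
  ring

theorem Gate.pos {p : Prm} {z : Pt} (h : Gate p z) : 0 < z.S / z.W := by
  obtain ⟨y, hy, h1, -⟩ := gate_data h
  rw [← hy]; exact h1

theorem Gate.mono {p : Prm} {z z' : Pt} (h : Gate p z) (h' : Gate p z')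
    (hlt : z.S / z.W < z'.S / z'.W) : fH p z' < fH p z := by
  obtain ⟨y, hy, d⟩ := gate_data h
  obtain ⟨y', hy', d'⟩ := gate_data h'
  rw [← hy, ← hy'] at hlt
  have hl := p.hlam0
  have e1 := gate_fH d
  have e2 := gate_fH d'
  have hd : ∀ r ∈ Set.Icc y y', HasDerivAt (gH p)
      (-2 * (r ^ 3 - p.lam) * (p.lam * r ^ 2 - 2 * r - p.lam)
        / ((1 + r ^ 2) ^ 2 * (r + p.lam) ^ 3)) r := by
    intro r hr
    exact gH_deriv p (lt_of_lt_of_le d.y0 hr.1)
  have h2 : StrictAntiOn (gH p) (Set.Icc y y') := by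
    refine strictAntiOn_of_deriv_neg (convex_Icc y y')
      (fun r hr => (hd r hr).continuousAt.continuousWithinAt) ?_
    intro r hr
    rw [interior_Icc] at hr
    rw [(hd r ⟨hr.1.le, hr.2.le⟩).deriv]
    have r0 : 0 < r := d.y0.trans hr.1
    have r1 : p.lam * r < p.N + 1 := by
      have := mul_lt_mul_of_pos_left hr.2 hl
      linarith [d'.ly]
    have r2 : r ^ 2 < p.N - 1 := by
      have := pow_lt_pow_left₀ hr.2 r0.le (two_ne_zero)
      linarith [d'.y2]
    have hNl : (p.N + 1) * (p.N - 1) = p.lam ^ 2 := by linear_combination p.hN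
    have r3 : r ^ 3 < p.lam := gate_y3 p r0 r1 r2
    have r4 : 0 < p.lam + 2 * r - p.lam * r ^ 2 := by
      have k1 : p.lam * (p.lam + 2 * r - p.lam * r ^ 2)
          = (p.N + 1 - p.lam * r) * (p.lam * r + (p.N - 1)) := by
        linear_combination - p.hN
      have k2 : 0 < p.lam * r + (p.N - 1) := by
        have := mul_pos hl r0
        linarith [p.hN1]
      have k3 : 0 < p.lam * (p.lam + 2 * r - p.lam * r ^ 2) := by
        rw [k1]; exact mul_pos (by linarith) k2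
      exact pos_of_mul_pos_right k3 hl.le
    have k4 : 0 < (p.lam - r ^ 3) * (p.lam + 2 * r - p.lam * r ^ 2) :=
      mul_pos (by linarith) r4
    have k5 : 0 < (1 + r ^ 2) ^ 2 * (r + p.lam) ^ 3 := by positivity
    apply div_neg_of_neg_of_pos _ k5
    nlinarith [k4]
  have h3 := h2 (Set.left_mem_Icc.2 hlt.le) (Set.right_mem_Icc.2 hlt.le) hlt
  rw [e1, e2]
  exact h3

theorem Gate.unique {p : Prm} {z z' : Pt} (h : Gate p z) (h' : Gate p z')
    (hH : fH p z = fH p z') (hW : 0 < z.W * z'.W) : z = z' := by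
  obtain ⟨y, hy, d⟩ := gate_data h
  obtain ⟨y', hy', d'⟩ := gate_data h'
  have hyy : y = y' := by
    rcases lt_trichotomy y y' with h1 | h1 | h1
    · exfalso
      have := h.mono h' (by rw [← hy, ← hy']; exact h1)
      linarith
    · exact h1
    · exfalso
      have := h'.mono h (by rw [← hy, ← hy']; exact h1)
      linarith
  subst hyy
  have hA : z.A = z'.A := by
    have h3 : 0 < y + p.lam := add_pos d.y0 p.hlam0
    have h4 : z.A * (y + p.lam) = z'.A * (y + p.lam) := by rw [d.eA, d'.eA]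
    exact mul_right_cancel₀ h3.ne' h4
  have hW2 : z.W ^ 2 = z'.W ^ 2 := by
    have h3 : (0 : ℝ) < 1 + y ^ 2 := by positivity
    have h4 : z.W ^ 2 * (1 + y ^ 2) = z'.W ^ 2 * (1 + y ^ 2) := by rw [d.eW, d'.eW, hA]
    exact mul_right_cancel₀ h3.ne' h4
  have hWW : z.W = z'.W := by
    rcases sq_eq_sq_iff_eq_or_eq_neg.1 hW2 with h3 | h3
    · exact h3
    · exfalso
      rw [h3] at hW
      nlinarith [sq_nonneg z'.W]
  have hS : z.S = z'.S := by rw [d.eS, d'.eS, hWW]
  exact Pt.ext hA hS hWW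

theorem Gate.U_nonneg {p : Prm} {z : Pt} (h : Gate p z) :
    0 ≤ fU p z ↔ z.S / z.W ≤ p.lam / 2 := by
  obtain ⟨y, hy, d⟩ := gate_data h
  rw [← hy]
  have h1 := gate_fU d
  have h2 : 0 < (1 + y ^ 2) * (y + p.lam) ^ 2 := by
    have := d.y0
    have := p.hlam0
    positivity
  have h3 := d.E0
  constructor
  · intro h4
    have h5 : 0 ≤ 4 * (p.lam + 2 * y - p.lam * y ^ 2) * (p.lam / 2 - y) := by
      rw [← h1]; exact mul_nonneg h4 h2.le
    have h6 : 0 ≤ p.lam / 2 - y := nonneg_of_mul_nonneg_right h5 (by positivity)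
    linarith
  · intro h4
    have h5 : 0 ≤ fU p z * ((1 + y ^ 2) * (y + p.lam) ^ 2) := by
      rw [h1]
      exact mul_nonneg (by positivity) (by linarith)
    exact nonneg_of_mul_nonneg_left h5 h2

theorem Gate.U_zero {p : Prm} {z : Pt} (h : Gate p z) :
    fU p z = 0 ↔ z.S / z.W = p.lam / 2 := by
  obtain ⟨y, hy, d⟩ := gate_data h
  rw [← hy]
  have h1 := gate_fU d
  have h2 : 0 < (1 + y ^ 2) * (y + p.lam) ^ 2 := by
    have := d.y0
    have := p.hlam0
    positivity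
  have h3 := d.E0
  constructor
  · intro h4
    rw [h4, zero_mul] at h1
    have h5 : (4 * (p.lam + 2 * y - p.lam * y ^ 2)) ≠ 0 := by positivity
    have h6 : p.lam / 2 - y = 0 := by
      rcases mul_eq_zero.1 h1.symm with h7 | h7
      · exact absurd h7 h5
      · exact h7
    linarith
  · intro h4
    rw [h4, sub_self, mul_zero] at h1
    rcases mul_eq_zero.1 h1 with h5 | h5
    · exact h5
    · exfalso
      rw [h4] at h2
      exact h2.ne' h5

theorem Gate.apex {p : Prm} {z : Pt} (h : Gate p z) (hU : fU p z = 0) (hN : 0 < fNs p z) :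
    0 < z.W * XV p z := by
  obtain ⟨y, hy, d⟩ := gate_data h
  have hA := h.pi.cone.2
  have hc := h.pi.cone.1
  have hW0 := h.W0
  have hy0 := d.y0
  have eS := d.eS
  have hS0 : z.S ≠ 0 := by rw [eS]; exact mul_ne_zero hy0.ne' hW0
  have g1 := gN_eq p z h.pi.cone
  have g2 := star_eq p z h.pi.cone
  have g3 := X_tan p z h.pi.cone
  have hV := h.V0
  have hXW : XW p z = 0 := by
    rw [hU, hV] at g1
    have h5 : 2 * fD p z * XW p z = 0 := by linarith
    rcases mul_eq_zero.1 h5 with h6 | h6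
    · exfalso
      have := h.pi.D_pos
      linarith
    · exact h6
  rw [hXW, mul_zero, add_zero] at g3
  have k1 : z.W * XA p z = z.S * fNs p z := by
    apply mul_left_cancel₀ hW0
    linear_combination (XA p z) * hc + z.S * g2 - z.A * g3
  have k2 : z.W * XS p z = 4 * z.A * fNs p z := by
    apply mul_left_cancel₀ hS0
    linear_combination z.W * g3 + 4 * z.A * k1
  have hV' : z.S * (1 - z.A) = p.lam * z.A * z.W := by
    simp only [fV] at hV
    linarith
  have k3 : z.A * (z.W * XV p z) = fNs p z * (z.W ^ 2 * (1 - z.A) - z.A * z.S ^ 2) := by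
    simp only [XV]
    rw [hXW]
    linear_combination (z.A * (1 - z.A)) * k2 + (- z.A * z.S - p.lam * z.A * z.W) * k1
      + (z.S * fNs p z) * hV' + (- fNs p z * (1 - z.A)) * hc
  have k4 : 0 < z.W ^ 2 * (1 - z.A) - z.A * z.S ^ 2 := by
    have h1 : (1 - z.A - z.A * y ^ 2) * (y + p.lam) = p.lam - y ^ 3 := by
      linear_combination (-1 - y ^ 2) * d.eA
    have h2 : 0 < y + p.lam := add_pos hy0 p.hlam0
    have h3 : 0 < 1 - z.A - z.A * y ^ 2 := by
      have h4 : 0 < (1 - z.A - z.A * y ^ 2) * (y + p.lam) := by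
        rw [h1]; linarith [d.y3]
      exact pos_of_mul_pos_left h4 h2.le
    have h5 : z.W ^ 2 * (1 - z.A) - z.A * z.S ^ 2 = z.W ^ 2 * (1 - z.A - z.A * y ^ 2) := by
      rw [eS]; ring
    rw [h5]
    positivity
  have k5 : 0 < z.A * (z.W * XV p z) := by rw [k3]; exact mul_pos hN k4
  exact pos_of_mul_pos_right k5 hA.le

end B92K
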