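import Mathlib
import Pool.Agent.Lib.B92K.Ok

/-!
# MP_b92fc8_an, `kappa > 1`, module GateC : three pointwise facts in sector `-` (`W < 0`)

Let `y = S / W`, `g = P / M = cot b` (`= 1/t`, `t = tan b`, `lam = 2t/(1-t²)`, `N = (1+t²)/(1-t²)`,
i.e. `t = M/P`).
(1) `gate_G0`: `G = 0`, `N A < 1`, `W < 0` imply `U > 0`. `G = 0` means `κ := nu/2 (P W - M S) = 1 - N A
   > 0`; `π := nu/2 (P S + M W)`; `π² = 2 N² A² - κ²`, `nu N W = M π + P κ < 0` so `π < 0`,
   `nu N |W| = M |π| - P κ`, `|π| = sqrt(2 (N A)² - (1 - N A)²) < sqrt 2` (`N A < 1`), so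
   `N³ W² = (nu N W)² < 2 M² = 2 (N-1)`, and `H = 1 - 1/N` (fG_mul), so
   `U = 2 (N-1)/N - N² W² > 0`.
(2) `gate_Q3`: `A < 1`, `W < 0`, `G > 0`, `U = 0`, `V ≤ 0` imply `H > 1 - 1/N`. Suppose `H ≤ 1 - 1/N`.
   `G G~ ≤ 0 < G`, so `G~ ≤ 0 < G`, `P W < M S`, so `y < P/M = 1/t` (`W < 0`). `V ≤ 0`:
   `S (1-A) ≤ lam A W < 0`: `y (1-A) ≥ lam A`, `y > 0`. With `ρ = 1/A > 1`, `n = sqrt(1+y²)`:
   `|W| = 2A/n`, `U = 0` says `(1-A)² = A² r²/n²`, `r² = 2 (2 + lam² - lam y)`, so `ρ - 1 = r/n`,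
   `|W| = 2/(n+r)`, `H = N² W²/2 = 2N²/(n+r)²`; `V ≤ 0` is `y r ≥ lam n`. At `y* = 1/t`: `n* = sqrt(1+1/t²)`,
   `r* = sqrt(2(2+lam²-lam/t))`, `r*/t = lam n*`, `2 N²/(n*+r*)² = 1 - 1/N`. CLAIM `n + r < n* + r*`
   (then `H > 1 - 1/N`, contradiction): `n* - n = (1/t²-y²)/(n*+n)`, `r - r* = 2 lam (1/t - y)/(r+r*)`;
   need `(1/t+y)(r+r*) > 2 lam (n*+n)`: left `= y r + r*/t + r/t + y r* ≥ lam n + lam n* + r/t + y r*`,
   `r/t ≥ lam n/(t y)`, `y r* = lam n* t y`; with `z = t y < 1`: `n/z + n* z > n + n*` because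
   `n/z > n*` (`1 + y² > t²y²(1+1/t²)`).
(3) `gate_Q2`: `A < 1`, `D > 0`, `V = 0`, `U ≥ 0`, `W ≠ 0` imply `H > 1 - 1/N`. `V = 0`:
   `S (1-A) = lam A W`, `y = lam A/(1-A) > 0`, `A = y/(y+lam)`. EXACT formulas (`k = 1+y²`):
   `D k (y+lam)² = y (lam + 2 y - lam y²)`  [so `y < 1/t`: roots `1/t` and `-t`],
   `U k (y+lam)² = 4 lam (y - 1/t)(y - lam/2)(y + t)` [so `y ≤ lam/2`],
   `(H - (1-1/N)) k (y+lam)² = -(1-1/N)(y - 1/t)² (y² - lam t)`.
   So it remains `y² < lam t = 2t²/(1-t²)`: if `t² < 1/2`: `y ≤ lam/2` gives `y² ≤ t²/(1-t²)² < 2t²/(1-t²)`;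
   if `t² ≥ 1/2`: `y² < 1/t² ≤ 2t²/(1-t²)` (`2t⁴+t²-1 = (2t²-1)(t²+1) ≥ 0`).
   (All three formulas of (3) are checked numerically.)
-/

set_option autoImplicit false

noncomputable section

namespace B92K

theorem gate_G0 {p : Prm} {x : Pt} (hx : x.Cone) (hG : fG p x = 0) (hA : p.N * x.A < 1)
    (hW : x.W < 0) : 0 < fU p x := by
  have hGG := fG_mul p x hx
  rw [hG, zero_mul] at hGG
  obtain ⟨hc, hA0⟩ := hx
  have hN := p.N_pos
  have hN1 := p.hN1
  have hM := p.hM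
  have hP := p.hP
  have hnu := p.hnu
  have hM2 := p.hM2
  have hP2 := p.hP2
  have hnu2 := p.hnu2
  simp only [fG] at hG
  obtain ⟨κ, hκ⟩ : ∃ κ, κ = p.nu / 2 * (p.P * x.W - p.M * x.S) := ⟨_, rfl⟩
  obtain ⟨q, hq⟩ : ∃ q, q = p.nu / 2 * (p.P * x.S + p.M * x.W) := ⟨_, rfl⟩
  have hκ1 : κ = 1 - p.N * x.A := by rw [hκ]; linarith
  have hκ0 : 0 < κ := by rw [hκ1]; linarith
  have h1 : q ^ 2 + κ ^ 2 = 2 * (p.N * x.A) ^ 2 := by
    have e1 : q ^ 2 + κ ^ 2 = p.nu ^ 2 / 4 * (p.P ^ 2 + p.M ^ 2) * (x.S ^ 2 + x.W ^ 2) := by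
      rw [hκ, hq]; ring
    rw [e1, hnu2, hP2, hM2, hc]; ring
  have h2 : p.nu * p.N * x.W = p.M * q + p.P * κ := by
    have e1 : p.M * q + p.P * κ = p.nu / 2 * (p.P ^ 2 + p.M ^ 2) * x.W := by
      rw [hκ, hq]; ring
    rw [e1, hP2, hM2]; ring
  have h3 : p.nu * p.N * x.W < 0 := mul_neg_of_pos_of_neg (by positivity) hW
  have h4 : 0 < p.P * κ := by positivity
  have h5 : (p.nu * p.N * x.W) ^ 2 < (p.M * q) ^ 2 := by
    have h6 : p.M * q < p.nu * p.N * x.W := by linarith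
    nlinarith
  have h7 : (p.M * q) ^ 2 < 2 * (p.N - 1) := by
    have e1 : (p.M * q) ^ 2 = (p.N - 1) * q ^ 2 := by rw [mul_pow, hM2]
    have e2 : q ^ 2 < 2 := by
      have e3 : 0 < p.N * x.A := by positivity
      nlinarith [sq_nonneg κ]
    rw [e1]
    nlinarith
  have h8 : (p.nu * p.N * x.W) ^ 2 = p.N * (p.N ^ 2 * x.W ^ 2) := by
    have e1 : (p.nu * p.N * x.W) ^ 2 = p.nu ^ 2 * (p.N ^ 2 * x.W ^ 2) := by ring
    rw [e1, hnu2]
  have h9 : p.N * fU p x = 2 * (p.N - 1) - p.N * (p.N ^ 2 * x.W ^ 2) := by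
    simp only [fU]
    linear_combination (-2) * hGG
  have h10 : 0 < p.N * fU p x := by rw [h9]; linarith
  exact pos_of_mul_pos_right h10 hN.le

/-- The comparison of radicals, in the variables `w = -W`, `s = -S`, `a = 1 - A`. -/
private theorem GateC_key {N P M lam w s A a : ℝ} (hM : 0 < M) (hP : 0 < P) (hN : 0 < N)
    (hP2 : P ^ 2 = N + 1) (hM2 : M ^ 2 = N - 1) (hPM : P * M = lam) (hNl : N ^ 2 = 1 + lam ^ 2)
    (hw : 0 < w) (hs : 0 < s) (hA : 0 < A) (ha : 0 < a) (hc : s ^ 2 + w ^ 2 = 4 * A ^ 2)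
    (hU : 2 * a ^ 2 = w ^ 2 * (2 + lam ^ 2) - lam * w * s) (hy : M * s < P * w)
    (hV : lam * A * w ≤ s * a) (h1 : A + a = 1) : 2 * M ^ 2 < N ^ 3 * w ^ 2 := by
  by_contra hcon
  push Not at hcon
  obtain ⟨X, hX, hX2⟩ : ∃ X : ℝ, 0 < X ∧ X ^ 2 = N * w ^ 2 / 2 :=
    ⟨Real.sqrt (N * w ^ 2 / 2), Real.sqrt_pos.2 (by positivity), Real.sq_sqrt (by positivity)⟩
  -- `As = X / M`, `as = X * M`
  obtain ⟨B, hB, hBX⟩ : ∃ B : ℝ, 0 < B ∧ M * B = X :=
    ⟨X / M, by positivity, by field_simp⟩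
  obtain ⟨b, hb⟩ : ∃ b : ℝ, b = M ^ 2 * B := ⟨_, rfl⟩
  have hb0 : 0 < b := by rw [hb]; positivity
  have hB2 : 2 * M ^ 2 * B ^ 2 = N * w ^ 2 := by
    have : 2 * M ^ 2 * B ^ 2 = 2 * (M * B) ^ 2 := by ring
    rw [this, hBX, hX2]; ring
  have hd : 0 < P * w - M * s := by linarith
  -- the two differences
  have e1 : 4 * M ^ 2 * ((B - A) * (B + A)) = (P * w - M * s) * (P * w + M * s) := by
    linear_combination 2 * hB2 + M ^ 2 * hc - w ^ 2 * hP2 - w ^ 2 * hM2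
  have e2 : 2 * ((a - b) * (a + b)) = P * w * (P * w - M * s) := by
    have e3 : 2 * b ^ 2 = N * M ^ 2 * w ^ 2 := by
      rw [hb]; linear_combination M ^ 2 * hB2
    linear_combination hU - e3 - w ^ 2 * hP2 + w * s * hPM - N * w ^ 2 * hM2 - w ^ 2 * hNl
  -- `z B < A` with `z = M s / (P w)`
  have e4 : M * s * B < P * w * A := by
    have e5 : (M * s * B) ^ 2 < (P * w * A) ^ 2 := by
      have e6 : 4 * ((P * w * A) ^ 2 - (M * s * B) ^ 2) = w ^ 2 * ((P * w - M * s) * (P * w + M * s)) := by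
        linear_combination (-2) * s ^ 2 * hB2 - P ^ 2 * w ^ 2 * hc + w ^ 2 * s ^ 2 * hP2 + w ^ 2 * s ^ 2 * hM2
      have e7 : 0 < w ^ 2 * ((P * w - M * s) * (P * w + M * s)) := by positivity
      linarith
    exact lt_of_pow_lt_pow_left₀ 2 (by positivity) e5
  -- the main inequality
  have e8 : 2 * M ^ 2 * (P * w) * (B + A) < (P * w + M * s) * (a + b) := by
    have f1 : M ^ 2 * (P * w) * A ≤ M * s * a := by
      have : M * (lam * A * w) ≤ M * (s * a) := mul_le_mul_of_nonneg_left hV hM.le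
      rw [← hPM] at this
      linarith
    have f2 : P * w * b = M ^ 2 * (P * w) * B := by rw [hb]; ring
    have f3 : M ^ 2 * (P * w) * (B + A) < P * w * a + M * s * b := by
      -- multiply by `M s`
      have g1 : 0 < M * s := by positivity
      have g2 : M * s * (M ^ 2 * (P * w) * (B + A)) < M * s * (P * w * a + M * s * b) := by
        have g3 : M * s * (P * w * a + M * s * b) - M * s * (M ^ 2 * (P * w) * (B + A))
            = P * w * (M * s * a - M ^ 2 * (P * w) * A)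
              + M ^ 2 * ((P * w - M * s) * (P * w * A - M * s * B)) := by
          rw [hb]; ring
        have g4 : 0 ≤ P * w * (M * s * a - M ^ 2 * (P * w) * A) :=
          mul_nonneg (by positivity) (by linarith)
        have g5 : 0 < M ^ 2 * ((P * w - M * s) * (P * w * A - M * s * B)) := by
          have : 0 < P * w * A - M * s * B := by linarith
          positivity
        linarith
      exact lt_of_mul_lt_mul_left g2 g1.le
    linarith
  -- conclude `A + a < B + b`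
  have e9 : a - b < B - A := by
    have f1 : 0 < (a + b) * (B + A) := by positivity
    have f2 : (a + b) * (B + A) * (4 * M ^ 2 * (a - b)) < (a + b) * (B + A) * (4 * M ^ 2 * (B - A)) := by
      have g1 : (a + b) * (B + A) * (4 * M ^ 2 * (a - b))
          = (P * w - M * s) * (2 * M ^ 2 * (P * w) * (B + A)) := by
        linear_combination 2 * M ^ 2 * (B + A) * e2
      have g2 : (a + b) * (B + A) * (4 * M ^ 2 * (B - A))
          = (P * w - M * s) * ((P * w + M * s) * (a + b)) := by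
        linear_combination (a + b) * e1
      rw [g1, g2]
      exact mul_lt_mul_of_pos_left e8 hd
    have f3 := lt_of_mul_lt_mul_left f2 f1.le
    have f4 : 0 < 4 * M ^ 2 := by positivity
    exact lt_of_mul_lt_mul_left f3 f4.le
  -- `B + b = X N / M ≤ 1`
  have e10 : B + b = N * B := by
    rw [hb, hM2]; ring
  have e11 : N * B ≤ 1 := by
    have f1 : (M * (N * B)) ^ 2 ≤ M ^ 2 := by
      have : (M * (N * B)) ^ 2 = N ^ 3 * w ^ 2 / 2 := by
        linear_combination N ^ 2 / 2 * hB2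
      rw [this]; linarith
    have f2 : M * (N * B) ≤ M := by
      exact le_of_pow_le_pow_left₀ two_ne_zero hM.le f1
    have f3 : M * (N * B) ≤ M * 1 := by linarith
    exact le_of_mul_le_mul_left f3 hM
  linarith

theorem gate_Q3 {p : Prm} {x : Pt} (hx : x.Cone) (hA : x.A < 1) (hW : x.W < 0)
    (hG : 0 < fG p x) (hU : fU p x = 0) (hV : fV p x ≤ 0) : p.N - 1 < p.N * fH p x := by
  by_contra hcon
  push Not at hcon
  have hGG := fG_mul p x hx
  obtain ⟨hc, hA0⟩ := hx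
  have hN := p.N_pos
  have hlam := p.hlam0
  have hGt : fGt p x ≤ 0 := by
    by_contra h
    push Not at h
    have := mul_pos hG h
    linarith
  have hy : p.P * x.W - p.M * x.S < 0 := by
    have h1 : fGt p x < fG p x := lt_of_le_of_lt hGt hG
    simp only [fGt, fG] at h1
    have h2 : p.nu / 2 * (p.P * x.W - p.M * x.S) < 0 := by linarith
    by_contra h
    push Not at h
    have := mul_nonneg (by linarith [p.hnu] : 0 ≤ p.nu / 2) h
    linarith
  simp only [fV] at hV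
  simp only [fU] at hU
  have hUH := hU
  simp only [fH] at hU
  have ha : 0 < 1 - x.A := by linarith
  have hs : 0 < -x.S := by
    have h1 : 0 < p.lam * x.A * (-x.W) := by
      have : 0 < -x.W := by linarith
      positivity
    by_contra h
    push Not at h
    have h2 : 0 ≤ x.S * (1 - x.A) := mul_nonneg (by linarith) ha.le
    linarith
  have key := GateC_key (N := p.N) (P := p.P) (M := p.M) (lam := p.lam) (w := -x.W) (s := -x.S)
    (A := x.A) (a := 1 - x.A) p.hM p.hP hN p.hP2 p.hM2 p.hPM p.hN (by linarith) hs hA0 ha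
    (by linear_combination hc) (by linear_combination hU + x.W ^ 2 * p.hN) (by linarith) (by linarith) (by ring)
  have h1 : p.N ^ 3 * (-x.W) ^ 2 = 2 * (p.N * fH p x) := by linear_combination (-p.N) * hUH
  rw [h1, p.hM2] at key
  linarith

theorem gate_Q2 {p : Prm} {x : Pt} (hx : x.Cone) (hA : x.A < 1) (hD : 0 < fD p x)
    (hV : fV p x = 0) (hU : 0 ≤ fU p x) (hW : x.W ≠ 0) : p.N - 1 < p.N * fH p x := by
  obtain ⟨hc, hA0⟩ := hx
  have hN := p.N_pos
  have hN2 := p.hN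
  simp only [fV] at hV
  obtain ⟨H, hH⟩ : ∃ H, H = fH p x := ⟨_, rfl⟩
  simp only [fD] at hD
  simp only [fU] at hU
  rw [← hH] at hD hU ⊢
  simp only [fH] at hH
  obtain ⟨a, ha⟩ : ∃ a, a = 1 - x.A := ⟨_, rfl⟩
  have ha0 : 0 < a := by rw [ha]; linarith
  rw [← ha] at hV hH hD
  obtain ⟨K, hK⟩ : ∃ K, K = a ^ 2 + p.lam ^ 2 * x.A ^ 2 := ⟨_, rfl⟩
  have hK0 : 0 < K := by rw [hK]; positivity
  have hWK : x.W ^ 2 * K = 4 * x.A ^ 2 * a ^ 2 := by
    have h1 : (x.S * a) ^ 2 = (p.lam * x.A * x.W) ^ 2 := by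
      congr 1; linarith
    rw [hK]
    linear_combination a ^ 2 * hc - h1
  have hKH : K * H = a ^ 2 * K + 2 * x.A ^ 2 * a * (p.lam ^ 2 * x.A - a) := by
    have h1 : a * (K * H) = a * (a ^ 2 * K + 2 * x.A ^ 2 * a * (p.lam ^ 2 * x.A - a)) := by
      rw [hH]
      linear_combination (p.lam ^ 2 * x.A - a) / 2 * hWK + K * p.lam * x.W / 2 * hV
    exact mul_left_cancel₀ ha0.ne' h1
  have hAa : x.A = 1 - a := by rw [ha]; ring
  have hl : p.lam ^ 2 = p.N ^ 2 - 1 := by linarith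
  have hKD : K * (a - H) = a * x.A * (1 - (p.N * x.A) ^ 2) := by
    rw [mul_sub, hKH, hK, hl, hAa]
    ring
  have hKU : K * (2 * H - p.N ^ 2 * x.W ^ 2) = 2 * a * (2 * x.A - a) * ((p.N * x.A) ^ 2 - 1) := by
    have h1 : K * (2 * H - p.N ^ 2 * x.W ^ 2) = 2 * (K * H) - p.N ^ 2 * (x.W ^ 2 * K) := by ring
    rw [h1, hKH, hWK, hK, hl, hAa]
    ring
  have hKN : K * (p.N * H - (p.N - 1)) = (1 - p.N * x.A) ^ 2 * (1 - 2 * x.A - p.N * x.A ^ 2) := by
    have h1 : K * (p.N * H - (p.N - 1)) = p.N * (K * H) - (p.N - 1) * K := by ring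
    rw [h1, hKH, hK, hl, hAa]
    ring
  have h1 : 0 < 1 - (p.N * x.A) ^ 2 := by
    have h2 : 0 < a * x.A * (1 - (p.N * x.A) ^ 2) := by
      rw [← hKD]; exact mul_pos hK0 (by linarith)
    exact pos_of_mul_pos_right h2 (by positivity)
  have h3 : p.N * x.A < 1 := by
    by_contra h
    push Not at h
    nlinarith
  have h4 : 2 * x.A - a ≤ 0 := by
    by_contra h
    push Not at h
    have h5 : 0 < 2 * a * (2 * x.A - a) * (1 - (p.N * x.A) ^ 2) := by positivity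
    have h6 : 0 ≤ K * (2 * H - p.N ^ 2 * x.W ^ 2) := mul_nonneg hK0.le hU
    rw [hKU] at h6
    linarith
  have h7 : 0 < 1 - 2 * x.A - p.N * x.A ^ 2 := by
    have h8 : p.N * x.A ^ 2 < x.A := by nlinarith
    rw [ha] at h4
    linarith
  have h9 : 0 < K * (p.N * H - (p.N - 1)) := by
    rw [hKN]
    have : 0 < 1 - p.N * x.A := by linarith
    positivity
  have h10 := pos_of_mul_pos_right h9 hK0.le
  linarith

end B92K
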