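import Mathlib
import Pool.Agent.Lib.B92K.Sl0

/-!
# MP_b92fc8_an, `kappa > 1`, module SlA : slices of a level (calculus)

Definitions `slC, slD, slA, sl` in Sl0. Always `h < 1` and `0 < 1 - (1-h) C` (`C = slC p th`), so
`Delta = slD > 0`, `Delta² = 1 - (1-h) C`, `A = (1-h)/(1+Delta) > 0`, `Delta = 1 - C A`,
`h = 1 - 2A + C A²`. PROOFS.
(1) cone: `cos² + sin² = 1`. `fH`: `W²/2 = 2A² sin²`, `lam W S/2 = 2 lam A² sin cos`, so
   `fH = 1 - 2A + A² C`. `fD = 1 - A - h = A - C A² = A Delta`.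
(2) `C' = 2 (lam cos 2th - sin 2th)`, `Delta' = -(1-h) C'/(2 Delta)`,
   `A' = -(1-h) Delta'/(1+Delta)² = A² C'/(2 Delta) = YA/Delta` (`(1-h)² /(1+Delta)² = A²`,
   `S² - W² = 4A² cos 2th`, `S W = 2 A² sin 2th`). `S' = 2A' cos - 2A sin = YS/Delta`,
   `W' = 2A' sin + 2A cos = fV/Delta` (use `Delta = 1 - C A` and the double angle formulas).
(3) `T' = W/(2 Delta)` : hasDerivAt_fT (Base) with velocity `(YA, YS, fV)/Delta`, YF_eq, YG_eq,
   `P² + M² = 2N`, `nu² = N`. `Z' = U W/(2 Delta)` : hasDerivAt_fZ, Y_tan, YH_eq, YZ_eq.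
(4) exists_angle: `th = arccos (S/(2A))` if `W ≥ 0`, `- arccos` if `W ≤ 0`; then `cos th = S/(2A)`,
   `sin th = W/(2A)`, `h = 1 - 2A + C A²`, so `1 - (1-h) C = (1 - A C)²`, `A (1 - A C) = fD > 0`,
   `slD = 1 - A C`, `slA = A (2 - A C)/(2 - A C)`.
-/

set_option autoImplicit false

open Set Filter Topology

noncomputable section

namespace B92K

section

variable {p : Prm} {h th : ℝ}

theorem slD_pos (hC : 0 < 1 - (1 - h) * slC p th) : 0 < slD p h th := Real.sqrt_pos.2 hC

theorem slA_pos (h1 : h < 1) (hC : 0 < 1 - (1 - h) * slC p th) : 0 < slA p h th := by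
  have := slD_pos hC
  exact div_pos (by linarith) (by linarith)

theorem SlA_C (p : Prm) (th : ℝ) : slC p th
    = 1 - 2 * Real.sin th ^ 2 + 2 * p.lam * (Real.sin th * Real.cos th) := by
  have h1 := Real.sin_sq_add_cos_sq th
  simp only [slC, Real.cos_two_mul, Real.sin_two_mul]
  linear_combination 2 * h1

theorem SlA_D_sq (hC : 0 < 1 - (1 - h) * slC p th) :
    slD p h th ^ 2 = 1 - (1 - h) * slC p th := Real.sq_sqrt hC.le

theorem SlA_A_mul (hC : 0 < 1 - (1 - h) * slC p th) :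
    slA p h th * (1 + slD p h th) = 1 - h := by
  have h2 := slD_pos hC
  simp only [slA]
  field_simp

theorem SlA_D (hC : 0 < 1 - (1 - h) * slC p th) :
    slD p h th = 1 - slA p h th * slC p th := by
  have h2 := slD_pos hC
  have h3 := SlA_D_sq hC
  have h4 := SlA_A_mul hC
  have h5 : (1 + slD p h th) * (slD p h th - (1 - slA p h th * slC p th)) = 0 := by
    linear_combination h3 + slC p th * h4
  rcases mul_eq_zero.1 h5 with h6 | h6
  · exfalso; linarith
  · linarith

theorem SlA_h (hC : 0 < 1 - (1 - h) * slC p th) :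
    h = 1 - 2 * slA p h th + slA p h th ^ 2 * slC p th := by
  have h3 := SlA_D hC
  have h4 := SlA_A_mul hC
  linear_combination h4 - slA p h th * h3

theorem sl_cone (h1 : h < 1) (hC : 0 < 1 - (1 - h) * slC p th) : (sl p h th).Cone := by
  have h2 := Real.sin_sq_add_cos_sq th
  refine ⟨?_, slA_pos h1 hC⟩
  simp only [sl]
  linear_combination 4 * slA p h th ^ 2 * h2

theorem sl_H (h1 : h < 1) (hC : 0 < 1 - (1 - h) * slC p th) : fH p (sl p h th) = h := by
  have h2 := SlA_h hC
  have h3 := SlA_C p th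
  rw [h3] at h2
  simp only [fH, sl]
  linear_combination -h2

theorem sl_D (h1 : h < 1) (hC : 0 < 1 - (1 - h) * slC p th) :
    fD p (sl p h th) = slA p h th * slD p h th := by
  have h2 := SlA_h hC
  have h3 := SlA_D hC
  simp only [fD]
  rw [sl_H h1 hC]
  simp only [sl]
  linear_combination -h2 - slA p h th * h3

theorem SlA_dC (p : Prm) (th : ℝ) : HasDerivAt (fun r => slC p r)
    (2 * (p.lam * Real.cos (2 * th) - Real.sin (2 * th))) th := by
  have h0 : HasDerivAt (fun r : ℝ => 2 * r) 2 th := by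
    simpa using (hasDerivAt_id th).const_mul 2
  have h1 := h0.cos.add (h0.sin.const_mul p.lam)
  refine h1.congr_deriv ?_
  ring

theorem SlA_dD (hC : 0 < 1 - (1 - h) * slC p th) : HasDerivAt (fun r => slD p h r)
    (-((1 - h) * (p.lam * Real.cos (2 * th) - Real.sin (2 * th))) / slD p h th) th := by
  have h1 := ((SlA_dC p th).const_mul (1 - h)).const_sub 1
  have h2 := h1.sqrt hC.ne'
  refine h2.congr_deriv ?_
  have h3 := (slD_pos hC).ne'
  simp only [slD] at h3 ⊢
  field_simp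

theorem SlA_YA (p : Prm) (h th : ℝ) : YA p (sl p h th)
    = slA p h th ^ 2 * (p.lam * Real.cos (2 * th) - Real.sin (2 * th)) := by
  have h1 := Real.sin_sq_add_cos_sq th
  simp only [YA, sl, Real.cos_two_mul, Real.sin_two_mul]
  linear_combination -(slA p h th ^ 2 * p.lam) * h1

theorem hasDerivAt_slA (h1 : h < 1) (hC : 0 < 1 - (1 - h) * slC p th) :
    HasDerivAt (fun r => (sl p h r).A) (YA p (sl p h th) / slD p h th) th := by
  have h2 := slD_pos hC
  have h3 := (SlA_dD hC).const_add 1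
  have h4 := (hasDerivAt_const th (1 - h)).div h3 (by positivity)
  refine h4.congr_deriv ?_
  rw [SlA_YA]
  simp only [slA]
  field_simp
  ring

theorem SlA_YS (h1 : h < 1) (hC : 0 < 1 - (1 - h) * slC p th) : YS p (sl p h th)
    = 2 * YA p (sl p h th) * Real.cos th - 2 * slA p h th * Real.sin th * slD p h th := by
  have h2 := Real.sin_sq_add_cos_sq th
  have h3 := SlA_D hC
  rw [SlA_YA, h3, SlA_C]
  simp only [YS, sl, Real.cos_two_mul, Real.sin_two_mul]
  linear_combination (-4 * slA p h th ^ 2 * (p.lam * Real.cos th - Real.sin th)) * h2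

theorem SlA_V (h1 : h < 1) (hC : 0 < 1 - (1 - h) * slC p th) : fV p (sl p h th)
    = 2 * YA p (sl p h th) * Real.sin th + 2 * slA p h th * Real.cos th * slD p h th := by
  have h2 := Real.sin_sq_add_cos_sq th
  have h3 := SlA_D hC
  rw [SlA_YA, h3, SlA_C]
  simp only [fV, sl, Real.cos_two_mul, Real.sin_two_mul]
  ring

theorem hasDerivAt_slS (h1 : h < 1) (hC : 0 < 1 - (1 - h) * slC p th) :
    HasDerivAt (fun r => (sl p h r).S) (YS p (sl p h th) / slD p h th) th := by
  have h2 := (slD_pos hC).ne'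
  have h3 := ((hasDerivAt_slA h1 hC).const_mul 2).mul (Real.hasDerivAt_cos th)
  refine h3.congr_deriv ?_
  rw [SlA_YS h1 hC]
  simp only [sl]
  field_simp
  ring

theorem hasDerivAt_slW (h1 : h < 1) (hC : 0 < 1 - (1 - h) * slC p th) :
    HasDerivAt (fun r => (sl p h r).W) (fV p (sl p h th) / slD p h th) th := by
  have h2 := (slD_pos hC).ne'
  have h3 := ((hasDerivAt_slA h1 hC).const_mul 2).mul (Real.hasDerivAt_sin th)
  refine h3.congr_deriv ?_
  rw [SlA_V h1 hC]
  simp only [sl]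
  field_simp

theorem hasDerivAt_slT (h1 : h < 1) (hC : 0 < 1 - (1 - h) * slC p th)
    (hF : fF p (sl p h th) ≠ 0) (hG : fG p (sl p h th) ≠ 0) :
    HasDerivAt (fun r => fT p (sl p h r)) ((sl p h th).W / (2 * slD p h th)) th := by
  have h2 := (slD_pos hC).ne'
  have h3 := hasDerivAt_fT p (hasDerivAt_slA h1 hC) (hasDerivAt_slS h1 hC)
    (hasDerivAt_slW h1 hC) hF hG
  refine h3.congr_deriv ?_
  have hx := sl_cone h1 hC
  have e1 := YF_eq p _ hx
  have e2 := YG_eq p _ hx
  generalize sl p h th = x at *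
  generalize slD p h th = D at *
  have hN := p.N_pos.ne'
  have hnu := p.hnu.ne'
  have e3 : (p.N * (YA p x / D) + p.nu / 2 * (p.P * (YS p x / D) + p.M * (fV p x / D)))
      / fF p x = -(p.nu / 2 * (p.P * x.W - p.M * x.S)) / D := by
    rw [div_eq_div_iff hF h2]
    rw [← e1]
    field_simp
  have e4 : (-(p.N * (YA p x / D)) - p.nu / 2 * (p.P * (fV p x / D) - p.M * (YS p x / D)))
      / fG p x = -(p.nu / 2 * (p.P * x.S + p.M * x.W)) / D := by
    rw [div_eq_div_iff hG h2]
    rw [← e2]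
    field_simp
  rw [e3, e4]
  have e5 := p.hP2
  have e6 := p.hM2
  field_simp
  linear_combination x.W * e5 + x.W * e6

theorem hasDerivAt_slZ (h1 : h < 1) (hC : 0 < 1 - (1 - h) * slC p th)
    (hF : fF p (sl p h th) ≠ 0) (hG : fG p (sl p h th) ≠ 0) :
    HasDerivAt (fun r => fZ p (sl p h r))
      (fU p (sl p h th) * (sl p h th).W / (2 * slD p h th)) th := by
  have h2 := (slD_pos hC).ne'
  have hx := sl_cone h1 hC
  have e0 := Y_tan p (sl p h th)
  have ht : (sl p h th).S * (YS p (sl p h th) / slD p h th)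
      + (sl p h th).W * (fV p (sl p h th) / slD p h th)
      = 4 * (sl p h th).A * (YA p (sl p h th) / slD p h th) := by
    field_simp
    linear_combination e0
  have h3 := hasDerivAt_fZ p (hasDerivAt_slA h1 hC) (hasDerivAt_slS h1 hC)
    (hasDerivAt_slW h1 hC) hx ht hF hG
  refine h3.congr_deriv ?_
  have e1 := YH_eq p (sl p h th)
  have e2 := YZ_eq p (sl p h th) hx
  generalize sl p h th = x at *
  generalize slD p h th = D at *
  have e3 : -2 * (1 - x.A) * (YA p x / D) - x.W * (fV p x / D)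
      + p.lam * (fV p x / D * x.S + x.W * (YS p x / D)) / 2 = 0 := by
    have e4 : -2 * (1 - x.A) * (YA p x / D) - x.W * (fV p x / D)
      + p.lam * (fV p x / D * x.S + x.W * (YS p x / D)) / 2
      = (-2 * (1 - x.A) * YA p x - x.W * fV p x
      + p.lam * (fV p x * x.S + x.W * YS p x) / 2) / D := by
      field_simp
    rw [e4, e1, zero_div]
  rw [e3]
  have e5 : -2 * x.S * (YA p x / D) + 3 * x.A * (YS p x / D)
      + p.lam * (x.W * (YA p x / D) + x.A * (fV p x / D)) - YS p x / D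
      = (-2 * x.S * YA p x + 3 * x.A * YS p x
      + p.lam * (x.W * YA p x + x.A * fV p x) - YS p x) / D := by
    field_simp
  rw [e5, e2]
  field_simp
  ring

end

theorem SlA_angle {p : Prm} {x : Pt} (hx : x.Cone) (hD : 0 < fD p x) {th : ℝ}
    (hc : Real.cos th = x.S / (2 * x.A)) (hs : Real.sin th = x.W / (2 * x.A)) :
    x = sl p (fH p x) th ∧ 0 < 1 - (1 - fH p x) * slC p th
      ∧ slD p (fH p x) th = fD p x / x.A := by
  obtain ⟨h1, hA⟩ := hx
  have hS : x.S = 2 * x.A * Real.cos th := by rw [hc]; field_simp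
  have hW : x.W = 2 * x.A * Real.sin th := by rw [hs]; field_simp
  have e1 : fH p x = 1 - 2 * x.A + x.A ^ 2 * slC p th := by
    rw [SlA_C]
    simp only [fH]
    rw [hS, hW]
    ring
  have e2 : fD p x = x.A * (1 - x.A * slC p th) := by
    simp only [fD]
    rw [e1]
    ring
  have e3 : 0 < 1 - x.A * slC p th := by
    rw [e2] at hD
    exact (pos_iff_pos_of_mul_pos hD).1 hA
  have e4 : 1 - (1 - fH p x) * slC p th = (1 - x.A * slC p th) ^ 2 := by
    rw [e1]
    ring
  have e5 : slD p (fH p x) th = 1 - x.A * slC p th := by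
    simp only [slD]
    rw [e4]
    exact Real.sqrt_sq e3.le
  have e6 : slA p (fH p x) th = x.A := by
    simp only [slA]
    rw [e5, e1]
    rw [div_eq_iff (by linarith)]
    ring
  refine ⟨?_, ?_, ?_⟩
  · ext
    · simp only [sl]; exact e6.symm
    · simp only [sl]; rw [e6]; exact hS
    · simp only [sl]; rw [e6]; exact hW
  · rw [e4]; positivity
  · rw [e5, e2]
    field_simp

theorem SlA_arccos {x : Pt} (hx : x.Cone) :
    Real.cos (Real.arccos (x.S / (2 * x.A))) = x.S / (2 * x.A)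
      ∧ Real.sin (Real.arccos (x.S / (2 * x.A))) = |x.W| / (2 * x.A) := by
  obtain ⟨h1, hA⟩ := hx
  have h2 : x.S ^ 2 ≤ (2 * x.A) ^ 2 := by nlinarith [sq_nonneg x.W]
  have h3 := abs_le_of_sq_le_sq' h2 (by positivity)
  constructor
  · refine Real.cos_arccos ?_ ?_
    · rw [le_div_iff₀ (by positivity)]; linarith [h3.1]
    · rw [div_le_iff₀ (by positivity)]; linarith [h3.2]
  · rw [Real.sin_arccos]
    have h4 : 1 - (x.S / (2 * x.A)) ^ 2 = (|x.W| / (2 * x.A)) ^ 2 := by
      rw [div_pow, div_pow, sq_abs]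
      field_simp
      linear_combination -h1
    rw [h4]
    exact Real.sqrt_sq (by positivity)

theorem exists_angle_pos {p : Prm} {x : Pt} (hx : x.Cone) (hD : 0 < fD p x) (hW : 0 ≤ x.W) :
    ∃ th ∈ Icc 0 Real.pi, x = sl p (fH p x) th ∧ 0 < 1 - (1 - fH p x) * slC p th
      ∧ slD p (fH p x) th = fD p x / x.A := by
  obtain ⟨h1, h2⟩ := SlA_arccos hx
  rw [abs_of_nonneg hW] at h2
  exact ⟨Real.arccos (x.S / (2 * x.A)), ⟨Real.arccos_nonneg _, Real.arccos_le_pi _⟩,
    SlA_angle hx hD h1 h2⟩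

theorem exists_angle_neg {p : Prm} {x : Pt} (hx : x.Cone) (hD : 0 < fD p x) (hW : x.W ≤ 0) :
    ∃ th ∈ Icc 0 Real.pi, x = sl p (fH p x) (-th) ∧ 0 < 1 - (1 - fH p x) * slC p (-th)
      ∧ slD p (fH p x) (-th) = fD p x / x.A := by
  obtain ⟨h1, h2⟩ := SlA_arccos hx
  rw [abs_of_nonpos hW] at h2
  refine ⟨Real.arccos (x.S / (2 * x.A)), ⟨Real.arccos_nonneg _, Real.arccos_le_pi _⟩,
    SlA_angle hx hD ?_ ?_⟩
  · rw [Real.cos_neg]; exact h1
  · rw [Real.sin_neg, h2]; ring

end B92K
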