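import Mathlib
import Pool.Agent.Lib.B92K.SlA

/-!
# MP_b92fc8_an, `kappa > 1`, module SlB : the levels in the region `Pi`

`h` with `N - 1 < N h`, `h < 1`: then `(1-h) C ≤ (1-h) N < 1` (`C ≤ sqrt(1+lam²) = N`), so all slices
are defined, and every `sl p h th` is in `Pi` (`InPi`: level `h`, `D = A Delta > 0`), so `F, G > 0`
(`InPi.ok`, `InPi.G_pos`). `slE p h e ph = sl p h (e ph)`, `e = ± 1`, `ph ∈ [0, pi]`.
 * `W = 2 A sin (e ph)`, `e W = 2 A sin ph ≥ 0`, `S = 2 A cos ph`.
 * `d/dph T = e * W/(2 Delta) = (e W)/(2 Delta) > 0` on `(0, pi)`: strictly increasing.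
 * `d/dph Z = U (e W)/(2 Delta)`, `d/dph (e W) = V / Delta`.
 * `slE p h 1 pi = slE p h (-1) pi` (`sin (± pi) = 0`, `C` equal).
 * `slE_T_lt_iff` etc.: for two points of the same side, the angle is `arccos (S/(2A))`.
-/

set_option autoImplicit false

open Set Filter Topology

noncomputable section

namespace B92K

section

variable {p : Prm} {h e : ℝ}

theorem slC_ok (hh : p.N - 1 < p.N * h) (h1 : h < 1) (th : ℝ) :
    0 < 1 - (1 - h) * slC p th := by
  have h2 : slC p th ≤ p.N := by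
    refine abs_le_of_sq_le_sq' ?_ p.N_pos.le |>.2
    have h3 := Real.sin_sq_add_cos_sq (2 * th)
    have h4 := p.hN
    simp only [slC]
    nlinarith [sq_nonneg (p.lam * Real.cos (2 * th) - Real.sin (2 * th))]
  have h5 : (1 - h) * slC p th ≤ (1 - h) * p.N := mul_le_mul_of_nonneg_left h2 (by linarith)
  linarith

theorem slE_inPi (hh : p.N - 1 < p.N * h) (h1 : h < 1) (e ph : ℝ) : InPi p (slE p h e ph) := by
  have hC := slC_ok (p := p) hh h1 (e * ph)
  refine ⟨sl_cone h1 hC, ?_, ?_⟩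
  · rw [slE, sl_H h1 hC]; exact hh
  · rw [slE, sl_D h1 hC]; exact mul_pos (slA_pos h1 hC) (slD_pos hC)

theorem slE_H (hh : p.N - 1 < p.N * h) (h1 : h < 1) (e ph : ℝ) :
    fH p (slE p h e ph) = h := sl_H h1 (slC_ok hh h1 _)

theorem slE_W_pos (hh : p.N - 1 < p.N * h) (h1 : h < 1) (he : e = 1 ∨ e = -1) {ph : ℝ}
    (hp : ph ∈ Ioo 0 Real.pi) : 0 < e * (slE p h e ph).W := by
  have hC := slC_ok (p := p) hh h1 (e * ph)
  have hs := Real.sin_pos_of_mem_Ioo hp
  have hA := slA_pos h1 hC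
  have h2 : e * (slE p h e ph).W = 2 * slA p h (e * ph) * Real.sin ph := by
    rcases he with rfl | rfl
    · simp only [slE, sl, one_mul]
    · simp only [slE, sl, neg_one_mul, Real.sin_neg]; ring
  rw [h2]
  positivity

theorem slE_W_nonneg (hh : p.N - 1 < p.N * h) (h1 : h < 1) (he : e = 1 ∨ e = -1) {ph : ℝ}
    (hp : ph ∈ Icc 0 Real.pi) : 0 ≤ e * (slE p h e ph).W := by
  have hC := slC_ok (p := p) hh h1 (e * ph)
  have hs := Real.sin_nonneg_of_mem_Icc hp
  have hA := slA_pos h1 hC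
  have h2 : e * (slE p h e ph).W = 2 * slA p h (e * ph) * Real.sin ph := by
    rcases he with rfl | rfl
    · simp only [slE, sl, one_mul]
    · simp only [slE, sl, neg_one_mul, Real.sin_neg]; ring
  rw [h2]
  positivity

theorem slE_S (he : e = 1 ∨ e = -1) (ph : ℝ) :
    (slE p h e ph).S = 2 * (slE p h e ph).A * Real.cos ph := by
  rcases he with rfl | rfl
  · simp only [slE, sl, one_mul]
  · simp only [slE, sl, neg_one_mul, Real.cos_neg]

/-- Every point of `Pi` on the side `e` is on the slice. -/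
theorem exists_phi {x : Pt} (hx : InPi p x) (he : e = 1 ∨ e = -1) (hW : 0 ≤ e * x.W) :
    ∃ ph ∈ Icc 0 Real.pi, x = slE p (fH p x) e ph := by
  rcases he with rfl | rfl
  · obtain ⟨th, h1, h2, -⟩ := exists_angle_pos hx.cone hx.D_pos (by simpa using hW)
    exact ⟨th, h1, by rw [slE, one_mul]; exact h2⟩
  · obtain ⟨th, h1, h2, -⟩ := exists_angle_neg hx.cone hx.D_pos (by linarith)
    exact ⟨th, h1, by rw [slE, neg_one_mul]; exact h2⟩

theorem exists_phi_Ioo {x : Pt} (hx : InPi p x) (he : e = 1 ∨ e = -1) (hW : 0 < e * x.W) :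
    ∃ ph ∈ Ioo 0 Real.pi, x = slE p (fH p x) e ph := by
  obtain ⟨ph, h1, h2⟩ := exists_phi hx he hW.le
  have h3 : x.W = 2 * slA p (fH p x) (e * ph) * Real.sin (e * ph) := congrArg Pt.W h2
  refine ⟨ph, ⟨lt_of_le_of_ne h1.1 ?_, lt_of_le_of_ne h1.2 ?_⟩, h2⟩
  · rintro rfl
    rw [mul_zero, Real.sin_zero, mul_zero] at h3
    rw [h3, mul_zero] at hW
    exact lt_irrefl _ hW
  · rintro rfl
    have h4 : Real.sin (e * Real.pi) = 0 := by
      rcases he with rfl | rfl
      · simp
      · simp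
    rw [h4, mul_zero] at h3
    rw [h3, mul_zero] at hW
    exact lt_irrefl _ hW

theorem slE_lin (e ph : ℝ) : HasDerivAt (fun r : ℝ => e * r) e ph := by
  simpa using (hasDerivAt_id ph).const_mul e

theorem slE_dT (hh : p.N - 1 < p.N * h) (h1 : h < 1) (e ph : ℝ) :
    HasDerivAt (fun r => fT p (slE p h e r))
      (e * (slE p h e ph).W / (2 * slD p h (e * ph))) ph := by
  have hC := slC_ok (p := p) hh h1 (e * ph)
  have hP := (slE_inPi (p := p) hh h1 e ph).ok
  have h2 := (hasDerivAt_slT h1 hC hP.F_pos.ne' hP.G_pos.ne').comp ph (slE_lin e ph)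
  refine (h2.congr_deriv ?_)
  simp only [slE]
  ring

theorem slE_dZ (hh : p.N - 1 < p.N * h) (h1 : h < 1) (e ph : ℝ) :
    HasDerivAt (fun r => fZ p (slE p h e r))
      (fU p (slE p h e ph) * (e * (slE p h e ph).W / (2 * slD p h (e * ph)))) ph := by
  have hC := slC_ok (p := p) hh h1 (e * ph)
  have hP := (slE_inPi (p := p) hh h1 e ph).ok
  have h2 := (hasDerivAt_slZ h1 hC hP.F_pos.ne' hP.G_pos.ne').comp ph (slE_lin e ph)
  refine (h2.congr_deriv ?_)
  simp only [slE]
  ring

theorem slE_T_mono (hh : p.N - 1 < p.N * h) (h1 : h < 1) (he : e = 1 ∨ e = -1) :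
    StrictMonoOn (fun ph => fT p (slE p h e ph)) (Icc 0 Real.pi) := by
  refine strictMonoOn_of_deriv_pos (convex_Icc 0 Real.pi)
    (fun ph _ => (slE_dT hh h1 e ph).continuousAt.continuousWithinAt) ?_
  intro ph hph
  rw [interior_Icc] at hph
  rw [(slE_dT hh h1 e ph).deriv]
  have h3 := slE_W_pos hh h1 he hph
  have h4 := slD_pos (slC_ok (p := p) hh h1 (e * ph))
  positivity

theorem slE_T_cont (hh : p.N - 1 < p.N * h) (h1 : h < 1) (e : ℝ) :
    Continuous (fun ph => fT p (slE p h e ph)) := by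
  rw [continuous_iff_continuousAt]
  exact fun ph => (slE_dT hh h1 e ph).continuousAt

theorem slE_zero (e : ℝ) : slE p h e 0 = slE p h 1 0 := by
  simp only [slE, mul_zero]

theorem slE_pi (he : e = 1 ∨ e = -1) : slE p h e Real.pi = slE p h 1 Real.pi := by
  rcases he with rfl | rfl
  · rfl
  · have h1 : slC p (-Real.pi) = slC p Real.pi := by
      have e1 : 2 * -Real.pi = -(2 * Real.pi) := by ring
      simp only [slC, e1, Real.cos_neg, Real.sin_neg, Real.cos_two_pi, Real.sin_two_pi,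
        neg_zero]
    have h2 : slA p h (-Real.pi) = slA p h Real.pi := by
      simp only [slA, slD, h1]
    simp only [slE, sl, h2, neg_one_mul, one_mul, Real.cos_neg, Real.sin_neg, Real.sin_pi,
      neg_zero]

/-- The point with `W = 0`, `S = - 2 A`. -/
theorem eq_slE_pi {x : Pt} (hx : InPi p x) (hW : x.W = 0) (hS : x.S = -2 * x.A) :
    x = slE p (fH p x) 1 Real.pi := by
  obtain ⟨ph, h1, h2⟩ := exists_phi (p := p) (e := 1) hx (Or.inl rfl) (by rw [hW]; simp)
  have h3 : x.S = 2 * x.A * Real.cos ph := by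
    have h4 := slE_S (p := p) (h := fH p x) (e := 1) (Or.inl rfl) ph
    rw [← h2] at h4
    exact h4
  have h5 : Real.cos ph = -1 := by
    have h6 := hx.cone.2
    have h7 : 2 * x.A * (Real.cos ph + 1) = 0 := by linarith
    rcases mul_eq_zero.1 h7 with h8 | h8
    · exfalso; linarith
    · linarith
  have h6 : ph = Real.pi := by
    apply Real.injOn_cos h1 ⟨Real.pi_pos.le, le_refl _⟩
    rw [h5, Real.cos_pi]
  rw [h6] at h2
  exact h2

theorem slE_Z_mono (hh : p.N - 1 < p.N * h) (h1 : h < 1) (he : e = 1 ∨ e = -1) {a b : ℝ}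
    (ha : 0 ≤ a) (hab : a ≤ b) (hb : b ≤ Real.pi)
    (hU : ∀ ph ∈ Ioo a b, 0 ≤ fU p (slE p h e ph)) :
    fZ p (slE p h e a) ≤ fZ p (slE p h e b) := by
  have h2 : MonotoneOn (fun ph => fZ p (slE p h e ph)) (Icc a b) := by
    refine monotoneOn_of_deriv_nonneg (convex_Icc a b)
      (fun ph _ => (slE_dZ hh h1 e ph).continuousAt.continuousWithinAt)
      (fun ph _ => (slE_dZ hh h1 e ph).differentiableAt.differentiableWithinAt) ?_
    intro ph hph
    rw [interior_Icc] at hph
    rw [(slE_dZ hh h1 e ph).deriv]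
    have h3 := slE_W_nonneg (p := p) hh h1 he
      (ph := ph) ⟨ha.trans hph.1.le, hph.2.le.trans hb⟩
    have h4 := slD_pos (slC_ok (p := p) hh h1 (e * ph))
    have h5 := hU ph hph
    positivity
  exact h2 (left_mem_Icc.2 hab) (right_mem_Icc.2 hab) hab

theorem slE_Z_anti (hh : p.N - 1 < p.N * h) (h1 : h < 1) (he : e = 1 ∨ e = -1) {a b : ℝ}
    (ha : 0 ≤ a) (hab : a ≤ b) (hb : b ≤ Real.pi)
    (hU : ∀ ph ∈ Ioo a b, fU p (slE p h e ph) ≤ 0) :
    fZ p (slE p h e b) ≤ fZ p (slE p h e a) := by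
  have h2 : AntitoneOn (fun ph => fZ p (slE p h e ph)) (Icc a b) := by
    refine antitoneOn_of_deriv_nonpos (convex_Icc a b)
      (fun ph _ => (slE_dZ hh h1 e ph).continuousAt.continuousWithinAt)
      (fun ph _ => (slE_dZ hh h1 e ph).differentiableAt.differentiableWithinAt) ?_
    intro ph hph
    rw [interior_Icc] at hph
    rw [(slE_dZ hh h1 e ph).deriv]
    have h3 := slE_W_nonneg (p := p) hh h1 he
      (ph := ph) ⟨ha.trans hph.1.le, hph.2.le.trans hb⟩
    have h4 := slD_pos (slC_ok (p := p) hh h1 (e * ph))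
    have h5 := hU ph hph
    have h6 : 0 ≤ e * (slE p h e ph).W / (2 * slD p h (e * ph)) := by positivity
    exact mul_nonpos_of_nonpos_of_nonneg h5 h6
  exact h2 (left_mem_Icc.2 hab) (right_mem_Icc.2 hab) hab

theorem slE_dW (hh : p.N - 1 < p.N * h) (h1 : h < 1) (he : e = 1 ∨ e = -1) (ph : ℝ) :
    HasDerivAt (fun r => e * (slE p h e r).W)
      (fV p (slE p h e ph) / slD p h (e * ph)) ph := by
  have hC := slC_ok (p := p) hh h1 (e * ph)
  have h2 := ((hasDerivAt_slW h1 hC).comp ph (slE_lin e ph)).const_mul e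
  refine (h2.congr_deriv ?_)
  have he2 : e * e = 1 := by rcases he with rfl | rfl <;> norm_num
  have h3 : e * (fV p (sl p h (e * ph)) / slD p h (e * ph) * e)
      = (e * e) * (fV p (sl p h (e * ph)) / slD p h (e * ph)) := by ring
  rw [h3, he2, one_mul]
  rfl

theorem slE_V_cont (hh : p.N - 1 < p.N * h) (h1 : h < 1) (e : ℝ) :
    Continuous (fun ph => fV p (slE p h e ph)) := by
  rw [continuous_iff_continuousAt]
  intro ph
  have hC := slC_ok (p := p) hh h1 (e * ph)
  have hA : ContinuousAt (fun r => (slE p h e r).A) ph :=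
    ((hasDerivAt_slA h1 hC).comp ph (slE_lin e ph)).continuousAt
  have hS : ContinuousAt (fun r => (slE p h e r).S) ph :=
    ((hasDerivAt_slS h1 hC).comp ph (slE_lin e ph)).continuousAt
  have hW : ContinuousAt (fun r => (slE p h e r).W) ph :=
    ((hasDerivAt_slW h1 hC).comp ph (slE_lin e ph)).continuousAt
  exact (hS.mul (continuousAt_const.sub hA)).sub ((continuousAt_const.mul hA).mul hW)

/-- `T` increases as `S / A` decreases, on one side of a level. -/
theorem T_le_of_ratio {x y : Pt} (hx : InPi p x) (hy : InPi p y) (hH : fH p x = fH p y)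
    (he : e = 1 ∨ e = -1) (hWx : 0 ≤ e * x.W) (hWy : 0 ≤ e * y.W)
    (hr : y.S / y.A ≤ x.S / x.A) : fT p x ≤ fT p y := by
  obtain ⟨a, ha, hxa⟩ := exists_phi hx he hWx
  obtain ⟨b, hb, hyb⟩ := exists_phi hy he hWy
  rw [← hH] at hyb
  have h1 := hx.cone.2
  have h2 := hy.cone.2
  have hSx : x.S / x.A = 2 * Real.cos a := by
    have h4 := slE_S (p := p) (h := fH p x) he a
    rw [← hxa] at h4
    rw [h4]; field_simp
  have hSy : y.S / y.A = 2 * Real.cos b := by
    have h4 := slE_S (p := p) (h := fH p x) he b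
    rw [← hyb] at h4
    rw [h4]; field_simp
  have hab : a ≤ b := by
    by_contra hlt
    push Not at hlt
    have h5 := Real.cos_lt_cos_of_nonneg_of_le_pi hb.1 ha.2 hlt
    rw [hSx, hSy] at hr
    linarith
  have h6 := (slE_T_mono (p := p) (h := fH p x) hx.H_gt hx.H_lt he).monotoneOn ha hb hab
  have h7 : fT p (slE p (fH p x) e a) ≤ fT p (slE p (fH p x) e b) := h6
  rwa [← hxa, ← hyb] at h7

end

end B92K
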