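import Mathlib
import Pool.Agent.Lib.B92K.SlB
import Pool.Agent.Lib.B92K.GateB
import Pool.Agent.Lib.B92K.GateC

/-!
# MP_b92fc8_an, `kappa > 1`, module LevA : the shape of `V` and `U` on a level in `Pi`; fact (Q1)

Level `h`, `N - 1 < N h`, `h < 1`, side `e = ± 1`, slice `slE p h e ph`, `ph ∈ [0, pi]`.
(1) `uni`: there is `g ∈ (0, pi)` with `V(slE g) = 0`, `V > 0` on `[0, g)`, `V < 0` on `(g, pi]`.
   PROOF: at `ph = 0`: `W = 0`, `S = 2A`, `V = 2A(1-A) > 0`; at `pi`: `V = -2A(1-A) < 0` (`A < 1`, InPi.A_lt).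
   Zeros of `V` on `(0, pi)` are Gate points of the same side and the same level, so they are equal
   points (Gate.unique), hence equal angles (`S/(2A) = cos ph`, injective on [0,pi]): `V` has exactly one
   zero `g`; continuity (slE_V_cont) gives the signs (intermediate value theorem).
(2) `U_le_right`: for `g ≤ a ≤ b ≤ pi`: `e W` decreases on `[g, pi]` (slE_dW, slD_pos), so `W²` decreases,
   and `U = 2h - N² W²` increases: `U(slE a) ≤ U(slE b)`. Stated with `V(slE a) ≤ 0`.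
   `U_pos_right` strict version: `U(slE a) < U(slE b)` if `V(slE a) < 0` or just `a < b`, `V (slE a) ≤ 0`.
(3) `U_nonpos_between`: if `U(slE a) ≤ 0` and `U(slE b) ≤ 0` then `U(slE c) ≤ 0` for `c ∈ [a,b]` (`e W` is
   increasing on `[0,g]` and decreasing on `[g,pi]`, so `e W (c) ≥ min(e W(a), e W(b))`).
(4) Q1: `z0` gate with `U z0 ≥ 0`, `z ∈ Pi`, `U z ≤ 0`. Then `fH z ≤ fH z0`, with equality only if
   `U z0 = 0` and `U z = 0`. PROOF: `z` has `W ≠ 0` (`U z ≤ 0 < 2 H`; `H > 1-1/N > 0`); put `e = sign W`,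
   `z = slE p h e ph`; `g` from `uni` on its level, `zm = slE g`: Gate, `|W zm| ≥ |W z|`, so `U zm ≤ U z ≤ 0`.
   By Gate.U_nonneg, `S0/W0 ≤ lam/2`, and `U zm ≤ 0` gives `lam/2 ≤ Sm/Wm` (U_nonneg/U_zero). If
   `S0/W0 < Sm/Wm`: Gate.mono: `fH zm < fH z0`. Else both are `lam/2`: then `U z0 = 0 = U zm` (U_zero), and
   `fH z0 = fH zm`, by Gate.mono-free argument: `H` depends only on `y = S/W` at gates (`A = y/(y+lam)`);
   and `0 = U zm ≤ U z ≤ 0`.
-/

set_option autoImplicit false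

open Set Filter Topology

noncomputable section

namespace B92K

section

variable {p : Prm} {h e : ℝ}

theorem LevA_pos {f : ℝ → ℝ} (hf : Continuous f) {a b : ℝ} (hab : a ≤ b) (ha : 0 < f a)
    (h0 : ∀ r ∈ Icc a b, f r ≠ 0) : 0 < f b := by
  by_contra hb
  push Not at hb
  obtain ⟨c, hc, hc0⟩ := intermediate_value_Icc' hab hf.continuousOn ⟨hb, ha.le⟩
  exact h0 c hc hc0

theorem LevA_zero (hh : p.N - 1 < p.N * h) (h1 : h < 1) : 0 < fV p (slE p h e 0) := by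
  have hz := slE_inPi (p := p) hh h1 e 0
  have hA := hz.A_lt
  have hA0 := hz.cone.2
  have hW : (slE p h e 0).W = 0 := by simp [slE, sl]
  have hS : (slE p h e 0).S = 2 * (slE p h e 0).A := by simp [slE, sl]
  simp only [fV]
  rw [hW, hS]
  have : 0 < 2 * (slE p h e 0).A * (1 - (slE p h e 0).A) := by
    have : 0 < 1 - (slE p h e 0).A := by linarith
    positivity
  linarith

theorem LevA_pi (hh : p.N - 1 < p.N * h) (h1 : h < 1) (he : e = 1 ∨ e = -1) :
    fV p (slE p h e Real.pi) < 0 := by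
  have hz := slE_inPi (p := p) hh h1 e Real.pi
  have hA := hz.A_lt
  have hA0 := hz.cone.2
  have hW : (slE p h e Real.pi).W = 0 := by
    rcases he with rfl | rfl <;> simp [slE, sl]
  have hS : (slE p h e Real.pi).S = -2 * (slE p h e Real.pi).A := by
    rcases he with rfl | rfl <;> simp [slE, sl]
  simp only [fV]
  rw [hW, hS]
  have : 0 < 2 * (slE p h e Real.pi).A * (1 - (slE p h e Real.pi).A) := by
    have : 0 < 1 - (slE p h e Real.pi).A := by linarith
    positivity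
  linarith

theorem LevA_gate (hh : p.N - 1 < p.N * h) (h1 : h < 1) (he : e = 1 ∨ e = -1) {g : ℝ}
    (hg : g ∈ Ioo 0 Real.pi) (hV : fV p (slE p h e g) = 0) : Gate p (slE p h e g) := by
  refine ⟨slE_inPi hh h1 e g, hV, ?_⟩
  intro h0
  have := slE_W_pos (p := p) hh h1 he hg
  rw [h0, mul_zero] at this
  exact lt_irrefl _ this

theorem LevA_unique (hh : p.N - 1 < p.N * h) (h1 : h < 1) (he : e = 1 ∨ e = -1) {g r : ℝ}
    (hg : g ∈ Ioo 0 Real.pi) (hr : r ∈ Ioo 0 Real.pi) (hV : fV p (slE p h e g) = 0)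
    (hV' : fV p (slE p h e r) = 0) : g = r := by
  have e1 := LevA_gate (p := p) hh h1 he hg hV
  have e2 := LevA_gate (p := p) hh h1 he hr hV'
  have w1 := slE_W_pos (p := p) hh h1 he hg
  have w2 := slE_W_pos (p := p) hh h1 he hr
  have hW : 0 < (slE p h e g).W * (slE p h e r).W := by
    have e3 := mul_pos w1 w2
    have e4 : e * (slE p h e g).W * (e * (slE p h e r).W)
        = e ^ 2 * ((slE p h e g).W * (slE p h e r).W) := by ring
    have e5 : e ^ 2 = 1 := by rcases he with rfl | rfl <;> norm_num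
    rw [e4, e5, one_mul] at e3
    exact e3
  have heq := e1.unique e2 (by rw [slE_H hh h1, slE_H hh h1]) hW
  have s1 := slE_S (p := p) (h := h) he g
  have s2 := slE_S (p := p) (h := h) he r
  rw [heq, s2] at s1
  have hA := e2.pi.cone.2
  have hc : Real.cos g = Real.cos r := by
    have h3 : 2 * (slE p h e r).A ≠ 0 := by positivity
    exact (mul_left_cancel₀ h3 s1).symm
  exact Real.injOn_cos ⟨hg.1.le, hg.2.le⟩ ⟨hr.1.le, hr.2.le⟩ hc

theorem uni (hh : p.N - 1 < p.N * h) (h1 : h < 1) (he : e = 1 ∨ e = -1) :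
    ∃ g ∈ Ioo 0 Real.pi, fV p (slE p h e g) = 0 ∧ (∀ r ∈ Ico 0 g, 0 < fV p (slE p h e r)) ∧
      ∀ r ∈ Ioc g Real.pi, fV p (slE p h e r) < 0 := by
  have hf := slE_V_cont (p := p) hh h1 e
  have hz := LevA_zero (p := p) (e := e) hh h1
  have hp := LevA_pi (p := p) hh h1 he
  obtain ⟨g, hg, hg0⟩ := intermediate_value_Icc' Real.pi_pos.le hf.continuousOn ⟨hp.le, hz.le⟩
  simp only at hg0
  have hg1 : g ∈ Ioo 0 Real.pi := by
    refine ⟨lt_of_le_of_ne hg.1 ?_, lt_of_le_of_ne hg.2 ?_⟩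
    · rintro rfl
      exact hz.ne' hg0
    · rintro rfl
      exact hp.ne hg0
  refine ⟨g, hg1, hg0, ?_, ?_⟩
  · intro r hr
    refine LevA_pos hf hr.1 hz ?_
    intro s hs h0
    rcases eq_or_lt_of_le hs.1 with h2 | h2
    · rw [← h2] at h0
      exact hz.ne' h0
    · have h3 := LevA_unique (p := p) hh h1 he hg1 (r := s)
        ⟨h2, lt_of_le_of_lt hs.2 (lt_trans hr.2 hg1.2)⟩ hg0 h0
      have := hs.2
      have := hr.2
      linarith
  · intro r hr
    by_contra hcon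
    push Not at hcon
    have hne : ∀ s, s ∈ Ioc g Real.pi → fV p (slE p h e s) ≠ 0 := by
      intro s hs h0
      rcases eq_or_lt_of_le hs.2 with h2 | h2
      · rw [h2] at h0
        exact hp.ne h0
      · have h3 := LevA_unique (p := p) hh h1 he hg1 (r := s)
          ⟨lt_trans hg1.1 hs.1, h2⟩ hg0 h0
        have := hs.1
        linarith
    have h2 : 0 < fV p (slE p h e r) := lt_of_le_of_ne hcon (hne r hr).symm
    have h3 := LevA_pos hf hr.2 h2 (fun s hs => hne s ⟨lt_of_lt_of_le hr.1 hs.1, hs.2⟩)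
    exact lt_asymm h3 hp

theorem LevA_cont (hh : p.N - 1 < p.N * h) (h1 : h < 1) (he : e = 1 ∨ e = -1) :
    Continuous (fun r => e * (slE p h e r).W) :=
  continuous_iff_continuousAt.2 fun r => (slE_dW (p := p) hh h1 he r).continuousAt

theorem LevA_anti (hh : p.N - 1 < p.N * h) (h1 : h < 1) (he : e = 1 ∨ e = -1) {g : ℝ}
    (hg : ∀ r ∈ Ioc g Real.pi, fV p (slE p h e r) < 0) :
    StrictAntiOn (fun r => e * (slE p h e r).W) (Icc g Real.pi) := by
  refine strictAntiOn_of_deriv_neg (convex_Icc _ _) (LevA_cont hh h1 he).continuousOn ?_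
  intro r hr
  rw [interior_Icc] at hr
  rw [(slE_dW (p := p) hh h1 he r).deriv]
  exact div_neg_of_neg_of_pos (hg r ⟨hr.1, hr.2.le⟩) (slD_pos (slC_ok hh h1 _))

theorem LevA_mono (hh : p.N - 1 < p.N * h) (h1 : h < 1) (he : e = 1 ∨ e = -1) {g : ℝ}
    (hg : ∀ r ∈ Ico 0 g, 0 < fV p (slE p h e r)) :
    StrictMonoOn (fun r => e * (slE p h e r).W) (Icc 0 g) := by
  refine strictMonoOn_of_deriv_pos (convex_Icc _ _) (LevA_cont hh h1 he).continuousOn ?_
  intro r hr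
  rw [interior_Icc] at hr
  rw [(slE_dW (p := p) hh h1 he r).deriv]
  exact div_pos (hg r ⟨hr.1.le, hr.2⟩) (slD_pos (slC_ok hh h1 _))

theorem LevA_sq (he : e = 1 ∨ e = -1) (w : ℝ) : w ^ 2 = (e * w) ^ 2 := by
  rcases he with rfl | rfl <;> ring

theorem LevA_U_le (hh : p.N - 1 < p.N * h) (h1 : h < 1) (he : e = 1 ∨ e = -1) {a b : ℝ}
    (hb0 : 0 ≤ e * (slE p h e b).W) (hab : e * (slE p h e b).W ≤ e * (slE p h e a).W) :
    fU p (slE p h e a) ≤ fU p (slE p h e b) := by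
  simp only [fU]
  rw [slE_H hh h1, slE_H hh h1, LevA_sq he (slE p h e a).W, LevA_sq he (slE p h e b).W]
  have h2 : (e * (slE p h e b).W) ^ 2 ≤ (e * (slE p h e a).W) ^ 2 :=
    pow_le_pow_left₀ hb0 hab 2
  have h3 := mul_le_mul_of_nonneg_left h2 (sq_nonneg p.N)
  linarith

theorem LevA_U_lt (hh : p.N - 1 < p.N * h) (h1 : h < 1) (he : e = 1 ∨ e = -1) {a b : ℝ}
    (hb0 : 0 ≤ e * (slE p h e b).W) (hab : e * (slE p h e b).W < e * (slE p h e a).W) :
    fU p (slE p h e a) < fU p (slE p h e b) := by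
  simp only [fU]
  rw [slE_H hh h1, slE_H hh h1, LevA_sq he (slE p h e a).W, LevA_sq he (slE p h e b).W]
  have h2 : (e * (slE p h e b).W) ^ 2 < (e * (slE p h e a).W) ^ 2 :=
    pow_lt_pow_left₀ hab hb0 two_ne_zero
  have h3 := mul_lt_mul_of_pos_left h2 (pow_pos p.N_pos 2)
  linarith

theorem U_le_right (hh : p.N - 1 < p.N * h) (h1 : h < 1) (he : e = 1 ∨ e = -1) {a b : ℝ}
    (ha : 0 ≤ a) (hab : a ≤ b) (hb : b ≤ Real.pi) (hV : fV p (slE p h e a) ≤ 0) :
    fU p (slE p h e a) ≤ fU p (slE p h e b) := by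
  obtain ⟨g, hg, -, hg1, hg2⟩ := uni (p := p) hh h1 he
  have hga : g ≤ a := by
    by_contra hcon
    push Not at hcon
    exact absurd (hg1 a ⟨ha, hcon⟩) (not_lt.2 hV)
  refine LevA_U_le hh h1 he (slE_W_nonneg hh h1 he ⟨ha.trans hab, hb⟩) ?_
  exact (LevA_anti hh h1 he hg2).antitoneOn ⟨hga, hab.trans hb⟩ ⟨hga.trans hab, hb⟩ hab

theorem U_lt_right (hh : p.N - 1 < p.N * h) (h1 : h < 1) (he : e = 1 ∨ e = -1) {a b : ℝ}
    (ha : 0 ≤ a) (hab : a < b) (hb : b ≤ Real.pi) (hV : fV p (slE p h e a) ≤ 0) :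
    fU p (slE p h e a) < fU p (slE p h e b) := by
  obtain ⟨g, hg, -, hg1, hg2⟩ := uni (p := p) hh h1 he
  have hga : g ≤ a := by
    by_contra hcon
    push Not at hcon
    exact absurd (hg1 a ⟨ha, hcon⟩) (not_lt.2 hV)
  refine LevA_U_lt hh h1 he (slE_W_nonneg hh h1 he ⟨ha.trans hab.le, hb⟩) ?_
  exact LevA_anti hh h1 he hg2 ⟨hga, hab.le.trans hb⟩ ⟨hga.trans hab.le, hb⟩ hab

theorem U_nonpos_between (hh : p.N - 1 < p.N * h) (h1 : h < 1) (he : e = 1 ∨ e = -1)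
    {a b c : ℝ} (ha : 0 ≤ a) (hac : a ≤ c) (hcb : c ≤ b) (hb : b ≤ Real.pi)
    (hUa : fU p (slE p h e a) ≤ 0) (hUb : fU p (slE p h e b) ≤ 0) :
    fU p (slE p h e c) ≤ 0 := by
  obtain ⟨g, hg, -, hg1, hg2⟩ := uni (p := p) hh h1 he
  rcases le_total c g with hc | hc
  · refine (LevA_U_le hh h1 he (slE_W_nonneg hh h1 he ⟨ha, hac.trans (hcb.trans hb)⟩) ?_).trans hUa
    exact (LevA_mono hh h1 he hg1).monotoneOn ⟨ha, hac.trans hc⟩ ⟨ha.trans hac, hc⟩ hac
  · refine (LevA_U_le hh h1 he (slE_W_nonneg hh h1 he ⟨ha.trans (hac.trans hcb), hb⟩) ?_).trans hUb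
    exact (LevA_anti hh h1 he hg2).antitoneOn ⟨hc, hcb.trans hb⟩ ⟨hc.trans hcb, hb⟩ hcb

end

/-- At gate points `H` depends only on `y = S / W`. -/
theorem LevA_H {p : Prm} {z : Pt} (h : Gate p z) :
    fH p z = (1 - (z.S / z.W) / (z.S / z.W + p.lam)) ^ 2
      - (1 - p.lam * (z.S / z.W)) * (4 * ((z.S / z.W) / (z.S / z.W + p.lam)) ^ 2
        / (1 + (z.S / z.W) ^ 2)) / 2 := by
  have hy := h.pos
  have hW := h.W0
  have hV := h.V0
  have hc := h.pi.cone.1
  have hl := p.hlam0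
  obtain ⟨y, hyd⟩ : ∃ y, y = z.S / z.W := ⟨_, rfl⟩
  rw [← hyd] at hy ⊢
  have hS : z.S = y * z.W := by rw [hyd]; field_simp
  simp only [fV] at hV
  rw [hS] at hV hc
  have h2 : y * (1 - z.A) = p.lam * z.A := by
    have : z.W * (y * (1 - z.A)) = z.W * (p.lam * z.A) := by linear_combination hV
    exact mul_left_cancel₀ hW this
  have h3 : z.A = y / (y + p.lam) := by
    rw [eq_div_iff (by positivity)]
    linear_combination -h2
  have h4 : z.W ^ 2 = 4 * (y / (y + p.lam)) ^ 2 / (1 + y ^ 2) := by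
    rw [← h3, eq_div_iff (by positivity)]
    linear_combination hc
  rw [← h4, ← h3]
  simp only [fH]
  rw [hS]
  ring

theorem Q1 {p : Prm} {z0 z : Pt} (h0 : Gate p z0) (hU0 : 0 ≤ fU p z0) (hz : InPi p z)
    (hU : fU p z ≤ 0) :
    fH p z < fH p z0 ∨ (fH p z = fH p z0 ∧ fU p z0 = 0 ∧ fU p z = 0) := by
  have hh := hz.H_gt
  have h1 := hz.H_lt
  have hN := p.N_pos
  have hN1 := p.hN1
  have hH0 : 0 < fH p z := by
    have : 0 < p.N * fH p z := by linarith
    exact pos_of_mul_pos_right this hN.le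
  have hW : z.W ≠ 0 := by
    intro hw
    simp only [fU] at hU
    rw [hw] at hU
    linarith
  obtain ⟨e, he, heW⟩ : ∃ e : ℝ, (e = 1 ∨ e = -1) ∧ 0 < e * z.W := by
    rcases lt_or_gt_of_ne hW with hw | hw
    · exact ⟨-1, Or.inr rfl, by linarith⟩
    · exact ⟨1, Or.inl rfl, by linarith⟩
  obtain ⟨ph, hph, hzp⟩ := exists_phi_Ioo hz he heW
  obtain ⟨h, hhd⟩ : ∃ h, h = fH p z := ⟨_, rfl⟩
  rw [← hhd] at hh h1 hzp
  obtain ⟨g, hg, hgV, hg1, hg2⟩ := uni (p := p) hh h1 he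
  have hm := LevA_gate (p := p) hh h1 he hg hgV
  have hWle : e * (slE p h e ph).W ≤ e * (slE p h e g).W := by
    rcases le_total ph g with hc | hc
    · exact (LevA_mono hh h1 he hg1).monotoneOn ⟨hph.1.le, hc⟩ ⟨hg.1.le, le_rfl⟩ hc
    · exact (LevA_anti hh h1 he hg2).antitoneOn ⟨le_rfl, hg.2.le⟩ ⟨hc, hph.2.le⟩ hc
  have hUle : fU p (slE p h e g) ≤ fU p z := by
    have := LevA_U_le (p := p) hh h1 he (slE_W_nonneg hh h1 he ⟨hph.1.le, hph.2.le⟩) hWle
    rw [← hzp] at this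
    exact this
  have hHm : fH p (slE p h e g) = fH p z := by rw [slE_H hh h1, hhd]
  have y0 : z0.S / z0.W ≤ p.lam / 2 := h0.U_nonneg.1 hU0
  have ym : p.lam / 2 ≤ (slE p h e g).S / (slE p h e g).W := by
    rcases eq_or_lt_of_le (hUle.trans hU) with h2 | h2
    · exact (hm.U_zero.1 h2).ge
    · by_contra hcon
      push Not at hcon
      exact absurd (hm.U_nonneg.2 hcon.le) (not_le.2 h2)
  rcases lt_or_ge (z0.S / z0.W) ((slE p h e g).S / (slE p h e g).W) with h2 | h2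
  · left
    rw [← hHm]
    exact h0.mono hm h2
  · right
    have e1 : z0.S / z0.W = p.lam / 2 := le_antisymm y0 (ym.trans h2)
    have e2 : (slE p h e g).S / (slE p h e g).W = p.lam / 2 := le_antisymm (h2.trans y0) ym
    have e3 := LevA_H h0
    have e4 := LevA_H hm
    rw [e1] at e3
    rw [e2] at e4
    refine ⟨?_, h0.U_zero.2 e1, ?_⟩
    · rw [← hHm, e3, e4]
    · have e5 := hm.U_zero.2 e2
      linarith

/-- Gate points with `A < 1`, `D > 0`, `V = 0`, `U ≥ 0`. -/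
theorem gate_of {p : Prm} {z : Pt} (hz : z.Cone) (hA : z.A < 1) (hD : 0 < fD p z)
    (hV : fV p z = 0) (hU : 0 ≤ fU p z) (hW : z.W ≠ 0) : Gate p z :=
  ⟨⟨hz, gate_Q2 hz hA hD hV hU hW, hD⟩, hV, hW⟩

end B92K
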