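import Mathlib
import Pool.Agent.Lib.B92K.Ok

/-!
# MP_b92fc8_an, `kappa > 1`, module PairA : pointwise order relations for pairs

Notation: `π = nu/2 (P S + M W)`, `κ = nu/2 (P W - M S)`: `F = 1+N A+π`, `F~ = 1+N A-π`,
`G = 1-N A-κ`, `G~ = 1-N A+κ`; `nu N W = M π + P κ`, `nu N S = P π - M κ`, `π²+κ² = 2 N² A²`
(from `nu² = N`, `P² + M² = 2 N`, cone). `N nu V = P π (1 - N A) - M κ (1 + N A)` (identity).
(1) `pair_F_ne`: if `F x = F y` then `F~ x = F~ y` (fF_mul, equal `H`), so `A`, `π` are equal,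
   `κ_x² = κ_y²`; `W_y < W_x` gives `κ_y < κ_x`, so `κ_x = -κ_y > 0`, `G x < G y`, hence
   `T x > T y`: contradiction with `T x ≤ T y`.
(2) `top_sign`: `V ≤ 0`, `W > 0`. With `α = π/(1+N A)`, `β = κ/(1-N A)` in (-1,1): `P α ≤ M β`, and
   `W > 0` excludes `α ≤ 0` and `β ≤ 0` both, so `β > 0`; then `P atanh α < M atanh β` (if `α ≤ 0`
   clear; else `atanh(c t) < c atanh t` for `0 < c < 1`, `0 < t < 1`, or `tanh(c s) > c tanh s`).
   `T x - T (neg x) = -(P log(F/F~) + M log(G/G~))/(2 N nu) = (M 2 atanh β - P 2 atanh α)/(2 N nu)`.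
(3) `pair_W_ne`: suppose `W_x + W_y = 0`. If `A_x = A_y`: `S_x² = S_y²` and equal `H` gives
   `W_x (S_x + S_y) = 0`, so `x = neg y`; then `V x = -V y ≤ 0`, `G~ x = G y > 0`: (2) gives
   `T x > T (neg x) = T y`: contradiction. If `A_x ≠ A_y`: let `a = log(F x/F y)/2 > 0`,
   `b' = log(G y/G x)/2` ; `T x ≤ T y` says `M b' ≤ P a`. From `F x = F y e^{2a}`,
   `F~ x = F~ y e^{-2a}`: `(π_x+π_y) tanh a = N (A_x - A_y)`; from `G x = G y e^{-2b'}` and
   `G~ x G x = G~ y G y`: `(κ_x + κ_y) tanh b' = - N (A_x - A_y)` (the case `G~ = 0`, i.e.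
   `H = 1 - 1/N`, is covered by `G~ x = G~ y e^{2b'}`, valid always). So `b' ≠ 0` and
   `0 = nu N (W_x+W_y) = N (A_x-A_y)(M/tanh a - P/tanh b')`, so `tanh b' = (P/M) tanh a`
   `> tanh ((P/M) a)` (`a > 0`, `P/M > 1`), so `b' > (P/M) a`: contradiction.
-/

set_option autoImplicit false

noncomputable section

open Set

namespace B92K

namespace PairAAux

theorem phi_lt {c t : ℝ} (hc0 : 0 < c) (hc1 : c < 1) (ht0 : 0 < t) (ht1 : t < 1) :
    Real.log (1 + c * t) - Real.log (1 - c * t) < c * (Real.log (1 + t) - Real.log (1 - t)) := by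
  let g : ℝ → ℝ := fun r => c * (Real.log (1 + r) - Real.log (1 - r))
    - (Real.log (1 + c * r) - Real.log (1 - c * r))
  have hd : ∀ r ∈ Ico (0 : ℝ) 1, HasDerivAt g (c * (1 / (1 + r) - (-1) / (1 - r))
      - (c / (1 + c * r) - (-c) / (1 - c * r))) r := by
    intro r hr
    have hcr : c * r < 1 := by nlinarith [hr.1, hr.2]
    have hcr0 : 0 ≤ c * r := mul_nonneg hc0.le hr.1
    have h1 : HasDerivAt (fun r : ℝ => Real.log (1 + r)) (1 / (1 + r)) r :=
      ((hasDerivAt_id r).const_add 1).log (by simp only [id]; linarith [hr.1])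
    have h2 : HasDerivAt (fun r : ℝ => Real.log (1 - r)) (-1 / (1 - r)) r :=
      ((hasDerivAt_id r).const_sub 1).log (by simp only [id]; linarith [hr.2])
    have h3 : HasDerivAt (fun r : ℝ => Real.log (1 + c * r)) (c / (1 + c * r)) r := by
      have h := (((hasDerivAt_id r).const_mul c).const_add 1).log
        (by simp only [id]; linarith : (1 : ℝ) + c * id r ≠ 0)
      simpa using h
    have h4 : HasDerivAt (fun r : ℝ => Real.log (1 - c * r)) (-c / (1 - c * r)) r := by
      have h := (((hasDerivAt_id r).const_mul c).const_sub 1).log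
        (by simp only [id]; linarith : (1 : ℝ) - c * id r ≠ 0)
      simpa using h
    exact ((h1.sub h2).const_mul c).sub (h3.sub h4)
  have hpos : ∀ r ∈ Ioo (0 : ℝ) 1, 0 < c * (1 / (1 + r) - (-1) / (1 - r))
      - (c / (1 + c * r) - (-c) / (1 - c * r)) := by
    intro r hr
    have hcr : c * r < r := by nlinarith [hr.1, hr.2]
    have hcr0 : 0 < c * r := mul_pos hc0 hr.1
    have h1 : c * (1 / (1 + r) - (-1) / (1 - r)) = 2 * c / (1 - r ^ 2) := by
      have e1 : (1 : ℝ) + r ≠ 0 := by linarith [hr.1]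
      have e2 : (1 : ℝ) - r ≠ 0 := by linarith [hr.2]
      have e3 : (1 : ℝ) - r ^ 2 ≠ 0 := by nlinarith [hr.1, hr.2]
      field_simp
      ring
    have h2 : c / (1 + c * r) - (-c) / (1 - c * r) = 2 * c / (1 - (c * r) ^ 2) := by
      have e1 : (1 : ℝ) + c * r ≠ 0 := by linarith [hr.1]
      have e2 : (1 : ℝ) - c * r ≠ 0 := by linarith [hr.2]
      have e3 : (1 : ℝ) - (c * r) ^ 2 ≠ 0 := by nlinarith [hr.1, hr.2]
      rw [div_sub_div _ _ e1 e2, div_eq_div_iff (mul_ne_zero e1 e2) e3]
      ring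
    rw [h1, h2, sub_pos]
    apply div_lt_div_of_pos_left (by linarith) (by nlinarith [hr.1, hr.2])
    nlinarith [hr.1, hr.2]
  have hmono : StrictMonoOn g (Ico 0 1) := by
    apply strictMonoOn_of_deriv_pos (convex_Ico 0 1)
    · intro r hr
      exact (hd r hr).continuousAt.continuousWithinAt
    · intro r hr
      rw [interior_Ico] at hr
      rw [(hd r ⟨hr.1.le, hr.2⟩).deriv]
      exact hpos r hr
  have h0 : g 0 = 0 := by simp [g]
  have h1 : g 0 < g t := hmono ⟨le_refl 0, one_pos⟩ ⟨ht0.le, ht1⟩ ht0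
  rw [h0] at h1
  exact sub_pos.1 h1

/-- The key inequality. -/
theorem key {P M f1 f2 g1 g2 : ℝ} (hM : 0 < M) (hMP : M < P) (hf1 : 0 < f1) (hf2 : 0 < f2)
    (hg1 : 0 < g1) (hg2 : 0 < g2) (hg : g2 < g1)
    (h : P * ((f1 - f2) * (g1 + g2)) ≤ M * ((g1 - g2) * (f1 + f2))) :
    P * (Real.log f1 - Real.log f2) < M * (Real.log g1 - Real.log g2) := by
  have hP : 0 < P := hM.trans hMP
  have hfs : 0 < f1 + f2 := by linarith
  have hgs : 0 < g1 + g2 := by linarith
  set t := (g1 - g2) / (g1 + g2) with ht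
  set s := (f1 - f2) / (f1 + f2) with hs
  have ht0 : 0 < t := div_pos (by linarith) hgs
  have ht1 : t < 1 := by rw [ht, div_lt_one hgs]; linarith
  have hc0 : 0 < M / P := div_pos hM hP
  have hc1 : M / P < 1 := (div_lt_one hP).2 hMP
  have hsle : s ≤ M / P * t := by
    rw [hs, ht, div_mul_div_comm, div_le_div_iff₀ hfs (mul_pos hP hgs)]
    nlinarith
  have e1 : 1 + t = 2 * g1 / (g1 + g2) := by rw [ht]; field_simp; ring
  have e2 : 1 - t = 2 * g2 / (g1 + g2) := by rw [ht]; field_simp; ring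
  have e3 : 1 + s = 2 * f1 / (f1 + f2) := by rw [hs]; field_simp; ring
  have e4 : 1 - s = 2 * f2 / (f1 + f2) := by rw [hs]; field_simp; ring
  have l1 : Real.log (1 + t) - Real.log (1 - t) = Real.log g1 - Real.log g2 := by
    rw [e1, e2, Real.log_div (by positivity) hgs.ne', Real.log_div (by positivity) hgs.ne',
      Real.log_mul (by norm_num) hg1.ne', Real.log_mul (by norm_num) hg2.ne']
    ring
  have l2 : Real.log (1 + s) - Real.log (1 - s) = Real.log f1 - Real.log f2 := by
    rw [e3, e4, Real.log_div (by positivity) hfs.ne', Real.log_div (by positivity) hfs.ne',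
      Real.log_mul (by norm_num) hf1.ne', Real.log_mul (by norm_num) hf2.ne']
    ring
  have h1s : 0 < 1 + s := by rw [e3]; positivity
  have hct : M / P * t < 1 := by nlinarith
  have m1 : Real.log (1 + s) ≤ Real.log (1 + M / P * t) := Real.log_le_log h1s (by linarith)
  have m2 : Real.log (1 - M / P * t) ≤ Real.log (1 - s) :=
    Real.log_le_log (by linarith) (by linarith)
  have m3 := phi_lt hc0 hc1 ht0 ht1
  rw [← l1, ← l2]
  have m4 : Real.log (1 + s) - Real.log (1 - s)
      < M / P * (Real.log (1 + t) - Real.log (1 - t)) := by linarith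
  calc P * (Real.log (1 + s) - Real.log (1 - s))
      < P * (M / P * (Real.log (1 + t) - Real.log (1 - t))) := mul_lt_mul_of_pos_left m4 hP
    _ = M * (Real.log (1 + t) - Real.log (1 - t)) := by field_simp

theorem M_lt_P (p : Prm) : p.M < p.P := by
  have h1 := p.hP2
  have h2 := p.hM2
  nlinarith [p.hP, p.hM]

theorem T_lt {p : Prm} {x y : Pt}
    (h : p.P * (Real.log (fF p x) - Real.log (fF p y))
      < p.M * (Real.log (fG p y) - Real.log (fG p x))) : fT p y < fT p x := by
  have hN := p.N_pos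
  have hnu := p.hnu
  simp only [fT]
  apply div_lt_div_of_pos_right _ (by positivity)
  nlinarith

theorem W_eq (p : Prm) (x : Pt) : p.nu * p.N * x.W = p.M * ((fF p x - fFt p x) / 2)
    + p.P * ((fGt p x - fG p x) / 2) := by
  have h3 := p.hP2
  have h4 := p.hM2
  simp only [fF, fFt, fG, fGt]
  linear_combination (-(p.nu * x.W / 2)) * h3 + (-(p.nu * x.W / 2)) * h4

theorem V_eq (p : Prm) (x : Pt) : p.N * p.nu * fV p x
    = p.P * ((fF p x - fFt p x) / 2) * ((fG p x + fGt p x) / 2)
      - p.M * ((fGt p x - fG p x) / 2) * ((fF p x + fFt p x) / 2) := by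
  have h3 := p.hP2
  have h4 := p.hM2
  have h5 := p.hPM
  simp only [fF, fFt, fG, fGt, fV]
  rw [← h5]
  linear_combination (p.nu / 2 * (-x.S + p.N * x.A * x.S)) * h3
    + (p.nu / 2 * (-x.S - p.N * x.A * x.S)) * h4

end PairAAux

open PairAAux

theorem pair_F_ne {p : Prm} {x y : Pt} (hx : Ok p x) (hy : Ok p y) (hH : fH p x = fH p y)
    (hT : fT p x ≤ fT p y) (hW : y.W < x.W) : fF p x ≠ fF p y := by
  intro hF
  have hFx := hx.F_pos
  have e1 := fF_mul p x hx.cone
  have e2 := fF_mul p y hy.cone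
  have hFt : fFt p x = fFt p y := by
    rw [hH, ← e2, ← hF] at e1
    exact mul_left_cancel₀ hFx.ne' e1
  have a1 := fF_add p x
  have a2 := fF_add p y
  have hNA : p.N * x.A = p.N * y.A := by linarith
  have w1 := W_eq p x
  have w2 := W_eq p y
  have hN := p.N_pos
  have hnu := p.hnu
  have hP := p.hP
  have hM := p.hM
  have hw : p.nu * p.N * y.W < p.nu * p.N * x.W := mul_lt_mul_of_pos_left hW (by positivity)
  have g1 := fG_add p x
  have g2 := fG_add p y
  have hlt : p.P * (fGt p y - fG p y) < p.P * (fGt p x - fG p x) := by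
    rw [w1, w2, hF, hFt] at hw
    linarith
  have hlt' : fGt p y - fG p y < fGt p x - fG p x := lt_of_mul_lt_mul_left hlt hP.le
  have hGlt : fG p x < fG p y := by linarith
  have hlog : Real.log (fG p x) < Real.log (fG p y) := Real.log_lt_log hx.G_pos hGlt
  have : fT p y < fT p x := by
    apply T_lt
    rw [hF, sub_self, mul_zero]
    exact mul_pos hM (by linarith)
  linarith

theorem top_sign {p : Prm} {x : Pt} (hx : Ok p x) (hG : 0 < fGt p x) (hW : 0 < x.W)
    (hV : fV p x ≤ 0) : fT p x.neg < fT p x := by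
  have hN := p.N_pos
  have hnu := p.hnu
  have hP := p.hP
  have hM := p.hM
  have hFx := hx.F_pos
  have hFtx := hx.Ft_pos
  have hGx := hx.G_pos
  have v1 := V_eq p x
  have w1 := W_eq p x
  have hv : p.N * p.nu * fV p x ≤ 0 := mul_nonpos_of_nonneg_of_nonpos (by positivity) hV
  have hw : 0 < p.nu * p.N * x.W := by positivity
  rw [v1] at hv
  rw [w1] at hw
  have hg : fG p x < fGt p x := by
    by_contra hcon
    push Not at hcon
    have h1 : p.M * ((fGt p x - fG p x) / 2) * ((fF p x + fFt p x) / 2) ≤ 0 := by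
      apply mul_nonpos_of_nonpos_of_nonneg
      · exact mul_nonpos_of_nonneg_of_nonpos hM.le (by linarith)
      · linarith
    have h2 : p.P * ((fF p x - fFt p x) / 2) * ((fG p x + fGt p x) / 2) ≤ 0 := by linarith
    have h3 : p.P * ((fF p x - fFt p x) / 2) ≤ 0 := by
      by_contra h4
      push Not at h4
      have : 0 < p.P * ((fF p x - fFt p x) / 2) * ((fG p x + fGt p x) / 2) :=
        mul_pos h4 (by linarith)
      linarith
    have h5 : fF p x - fFt p x ≤ 0 := by
      by_contra h4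
      push Not at h4
      have : 0 < p.P * ((fF p x - fFt p x) / 2) := mul_pos hP (by linarith)
      linarith
    have h6 : p.M * ((fF p x - fFt p x) / 2) ≤ 0 :=
      mul_nonpos_of_nonneg_of_nonpos hM.le (by linarith)
    have h7 : p.P * ((fGt p x - fG p x) / 2) ≤ 0 :=
      mul_nonpos_of_nonneg_of_nonpos hP.le (by linarith)
    linarith
  apply T_lt
  rw [fF_neg, fG_neg]
  exact key hM (M_lt_P p) hFx hFtx hG hGx hg (by nlinarith)

theorem pair_W_ne {p : Prm} {x y : Pt} (hx : Ok p x) (hy : Ok p y) (hH : fH p x = fH p y)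
    (hT : fT p x ≤ fT p y) (hWx : 0 < x.W) (hWy : y.W < 0) (hF : fF p y < fF p x)
    (hV : 0 ≤ fV p y) : x.W + y.W ≠ 0 := by
  intro hW
  have hN := p.N_pos
  have hnu := p.hnu
  have hP := p.hP
  have hM := p.hM
  have hFx := hx.F_pos
  have hFtx := hx.Ft_pos
  have hGx := hx.G_pos
  have hFy := hy.F_pos
  have hFty := hy.Ft_pos
  have hGy := hy.G_pos
  rcases eq_or_ne x.A y.A with hA | hA
  · have hyW : y.W = -x.W := by linarith
    have hS : x.S = -y.S := by
      simp only [fH] at hH
      rw [hA, hyW] at hH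
      have h1 : p.lam * x.W * (x.S + y.S) = 0 := by linear_combination 2 * hH
      have h2 : p.lam * x.W ≠ 0 := (mul_pos p.hlam0 hWx).ne'
      have h3 := (mul_eq_zero.1 h1).resolve_left h2
      linarith
    have hyx : x.neg = y := by
      ext
      · exact hA
      · simp only [Pt.neg]; linarith
      · simp only [Pt.neg]; linarith
    have hyx' : y.neg = x := by
      rw [← hyx]
      ext <;> simp [Pt.neg]
    have hGt : 0 < fGt p x := by rw [← fG_neg, hyx]; exact hGy
    have hVx : fV p x ≤ 0 := by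
      rw [← hyx', fV_neg]; linarith
    have h := top_sign hx hGt hWx hVx
    rw [hyx] at h
    linarith
  · have m1 := fF_mul p x hx.cone
    have m2 := fF_mul p y hy.cone
    have m3 := fG_mul p x hx.cone
    have m4 := fG_mul p y hy.cone
    have a1 := fF_add p x
    have a2 := fF_add p y
    have a3 := fG_add p x
    have a4 := fG_add p y
    have w1 := W_eq p x
    have w2 := W_eq p y
    have hD : p.N * x.A - p.N * y.A ≠ 0 := by
      intro h0
      have h1 : p.N * (x.A - y.A) = 0 := by linarith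
      rcases mul_eq_zero.1 h1 with h2 | h2
      · exact hN.ne' h2
      · exact hA (by linarith)
    have mF : fF p x * fFt p x = fF p y * fFt p y := by rw [m1, m2, hH]
    have mG : fG p x * fGt p x = fG p y * fGt p y := by rw [m3, m4, hH]
    set Fx := fF p x
    set Fy := fF p y
    set Gx := fG p x
    set Gy := fG p y
    set F1 := fFt p x
    set F2 := fFt p y
    set G1 := fGt p x
    set G2 := fGt p y
    -- the two tanh relations
    have r1 : (Fx - F1 + Fy - F2) * (Fx - Fy) = 2 * (p.N * x.A - p.N * y.A) * (Fx + Fy) := by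
      have : 2 * (p.N * x.A - p.N * y.A) = Fx + F1 - Fy - F2 := by linarith
      rw [this]
      linear_combination (-2) * mF
    have r2 : (G1 - Gx + G2 - Gy) * (Gy - Gx) = -(2 * (p.N * x.A - p.N * y.A)) * (Gx + Gy) := by
      have : 2 * (p.N * x.A - p.N * y.A) = Gy + G2 - Gx - G1 := by linarith
      rw [this]
      linear_combination (-2) * mG
    have r3 : p.M * (Fx - F1 + Fy - F2) + p.P * (G1 - Gx + G2 - Gy) = 0 := by
      have : p.nu * p.N * (x.W + y.W) = 0 := by rw [hW, mul_zero]
      linear_combination 2 * this - 2 * w1 - 2 * w2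
    have r4 : (p.N * x.A - p.N * y.A) * (p.M * ((Fx + Fy) * (Gy - Gx))
        - p.P * ((Gx + Gy) * (Fx - Fy))) = 0 := by
      linear_combination (-(p.M * (Gy - Gx) / 2)) * r1 - p.P * (Fx - Fy) / 2 * r2
        + (Fx - Fy) * (Gy - Gx) / 2 * r3
    have r5 := (mul_eq_zero.1 r4).resolve_left hD
    have hg : Gx < Gy := by
      by_contra hcon
      push Not at hcon
      have h1 : 0 < p.P * ((Gx + Gy) * (Fx - Fy)) :=
        mul_pos hP (mul_pos (by linarith) (by linarith))
      have h2 : p.M * ((Fx + Fy) * (Gy - Gx)) ≤ 0 :=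
        mul_nonpos_of_nonneg_of_nonpos hM.le
          (mul_nonpos_of_nonneg_of_nonpos (by linarith) (by linarith))
      linarith
    have h := key hM (M_lt_P p) hFx hFy hGy hGx hg (by nlinarith)
    have h' : fT p y < fT p x := T_lt h
    linarith

end B92K
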