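import Mathlib
import Pool.Agent.Lib.B92K.Ok

/-!
# MP_b92fc8_an, `kappa > 1`, module PairB : matched pairs, signs

Notation as in PairA. `a := log(F x/F y)/2`, `b := (P/M) a`; `T x = T y` and equal `H` give
`F x = F y e^{2a}`, `F~ x = F~ y e^{-2a}`, `G x = G y e^{-2b}`, `G~ x = G~ y e^{2b}`; hence with
`X = N (A_x + A_y)`, `ρ = A_x - A_y`, `t = tanh a`, `t' = tanh b`:
 `π_x - π_y = (2+X) t`, `κ_x - κ_y = (2-X) t'`, `(π_x+π_y) t = N ρ`, `(κ_x+κ_y) t' = - N ρ`.
(1) `pair_F_lt`: `nu N (W_x - W_y) = M (2+X) t + P (2-X) t' > 0` and `X < 2N` imply `a > 0`: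
   if `a ≤ 0` put `t = -τ`, `t' = -τ'`, `0 ≤ τ`, `τ' ≤ (P/M) τ`: for `X ≤ 2` the expression is `≤ 0`;
   for `X > 2`: `M(2+X) τ - P (X-2) τ' ≥ τ/M (M²(2+X) - P²(X-2)) = τ/M (4N - 2X) ≥ 0`.
(2) `pair_sum_pos`: `a > 0` by (1); `nu N (W_x + W_y) = N ρ (M/t - P/t')`, and `M/t < P/t'`
   (`tanh b < (b/a) tanh a`), so `W_x + W_y > 0` gives `ρ < 0`.
   Then `F x - F~ y = N ρ (1 + 1/t) < 0` and `G x - G~ y = N ρ (1/t' - 1) < 0`, so
   `T (neg y) < T x = T y`.
-/

set_option autoImplicit false

noncomputable section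

namespace B92K

theorem PairB_tanh_lt {c s : ℝ} (hc : 1 < c) (hs : 0 < s) :
    Real.tanh (c * s) < c * Real.tanh s := by
  have hd : ∀ r : ℝ, HasDerivAt (fun r => c * Real.sinh r * Real.cosh (c * r)
      - Real.sinh (c * r) * Real.cosh r) ((c ^ 2 - 1) * (Real.sinh r * Real.sinh (c * r))) r := by
    intro r
    have h1 : HasDerivAt (fun r : ℝ => c * r) c r := by
      simpa using (hasDerivAt_id r).const_mul c
    have h2 := (((Real.hasDerivAt_sinh r).const_mul c).mul h1.cosh).sub
      (h1.sinh.mul (Real.hasDerivAt_cosh r))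
    refine h2.congr_deriv ?_
    ring
  have hmono : StrictMonoOn (fun r => c * Real.sinh r * Real.cosh (c * r)
      - Real.sinh (c * r) * Real.cosh r) (Set.Ici 0) := by
    apply strictMonoOn_of_deriv_pos (convex_Ici 0)
    · exact fun r _ => (hd r).continuousAt.continuousWithinAt
    · intro r hr
      rw [interior_Ici] at hr
      have hr0 : 0 < r := hr
      rw [(hd r).deriv]
      have h1 : 0 < Real.sinh r := Real.sinh_pos_iff.2 hr0
      have h2 : 0 < Real.sinh (c * r) := Real.sinh_pos_iff.2 (by positivity)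
      have h3 : 0 < c ^ 2 - 1 := by nlinarith
      positivity
  have h0 := hmono (Set.self_mem_Ici) (Set.mem_Ici.2 hs.le) hs
  simp only [mul_zero, Real.sinh_zero, zero_mul, sub_zero] at h0
  rw [Real.tanh_eq_sinh_div_cosh, Real.tanh_eq_sinh_div_cosh, ← mul_div_assoc,
    div_lt_div_iff₀ (Real.cosh_pos _) (Real.cosh_pos _)]
  linarith

theorem PairB_tanh_le {c s : ℝ} (hc : 1 < c) (hs : 0 ≤ s) :
    Real.tanh (c * s) ≤ c * Real.tanh s := by
  rcases hs.eq_or_lt with h | h
  · rw [← h]; simp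
  · exact (PairB_tanh_lt hc h).le

theorem PairB_tanh_pos {s : ℝ} (hs : 0 < s) : 0 < Real.tanh s := by
  rw [Real.tanh_eq_sinh_div_cosh]
  exact div_pos (Real.sinh_pos_iff.2 hs) (Real.cosh_pos _)

theorem PairB_tanh_nonneg {s : ℝ} (hs : 0 ≤ s) : 0 ≤ Real.tanh s := by
  rw [Real.tanh_eq_sinh_div_cosh]
  exact div_nonneg (Real.sinh_nonneg_iff.2 hs) (Real.cosh_pos _).le

theorem PairB_tanh_lt_one (s : ℝ) : Real.tanh s < 1 := by
  rw [Real.tanh_eq_sinh_div_cosh, div_lt_one (Real.cosh_pos _)]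
  exact Real.sinh_lt_cosh s

/-- `A = B e^{2a}` implies `A - B = (A + B) tanh a`. -/
theorem PairB_exp {A B a : ℝ} (h : A = B * Real.exp (2 * a)) : A - B = (A + B) * Real.tanh a := by
  have h1 : Real.tanh a * (Real.exp (2 * a) + 1) = Real.exp (2 * a) - 1 := by
    have h2 : Real.exp (2 * a) = Real.exp a * Real.exp a := by rw [← Real.exp_add]; ring_nf
    have h3 : Real.exp a * Real.exp (-a) = 1 := by rw [← Real.exp_add]; simp
    have h4 : (0 : ℝ) < Real.exp a + Real.exp (-a) := by positivity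
    rw [Real.tanh_eq_sinh_div_cosh, Real.sinh_eq, Real.cosh_eq, h2]
    field_simp
    linear_combination (-(2 * Real.exp a)) * h3
  rw [h]
  linear_combination (-B) * h1

/-- all the relations of a matched pair -/
theorem PairB_rel {p : Prm} {x y : Pt} (hx : Ok p x) (hy : Ok p y) (hH : fH p x = fH p y)
    (hT : fT p x = fT p y) : ∃ a b : ℝ, p.P * a = p.M * b ∧
      a = (Real.log (fF p x) - Real.log (fF p y)) / 2 ∧
      fF p x - fF p y = (fF p x + fF p y) * Real.tanh a ∧
      fFt p y - fFt p x = (fFt p y + fFt p x) * Real.tanh a ∧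
      fG p y - fG p x = (fG p y + fG p x) * Real.tanh b ∧
      fGt p x - fGt p y = (fGt p x + fGt p y) * Real.tanh b := by
  have hFx := hx.F_pos
  have hFy := hy.F_pos
  have hGx := hx.G_pos
  have hGy := hy.G_pos
  have hP := p.hP
  have hM := p.hM
  have hN := p.N_pos
  have hnu := p.hnu
  have hT' : p.P * Real.log (fF p x) + p.M * Real.log (fG p x)
      = p.P * Real.log (fF p y) + p.M * Real.log (fG p y) := by
    have h0 : (2 * p.N * p.nu) ≠ 0 := by positivity
    simp only [fT] at hT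
    rw [div_left_inj' h0] at hT
    linarith
  set a := (Real.log (fF p x) - Real.log (fF p y)) / 2 with ha
  set b := (Real.log (fG p y) - Real.log (fG p x)) / 2 with hb
  have hab : p.P * a = p.M * b := by rw [ha, hb]; linarith
  have e1 : fF p x = fF p y * Real.exp (2 * a) := by
    have : 2 * a = Real.log (fF p x) - Real.log (fF p y) := by rw [ha]; ring
    rw [this, Real.exp_sub, Real.exp_log hFx, Real.exp_log hFy]
    field_simp
  have e3 : fG p y = fG p x * Real.exp (2 * b) := by
    have : 2 * b = Real.log (fG p y) - Real.log (fG p x) := by rw [hb]; ring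
    rw [this, Real.exp_sub, Real.exp_log hGx, Real.exp_log hGy]
    field_simp
  have e2 : fFt p y = fFt p x * Real.exp (2 * a) := by
    have h1 := fF_mul p x hx.cone
    have h2 := fF_mul p y hy.cone
    have h3 : fF p y * fFt p y = fF p y * (fFt p x * Real.exp (2 * a)) := by
      rw [h2, ← hH, ← h1, e1]; ring
    exact mul_left_cancel₀ hFy.ne' h3
  have e4 : fGt p x = fGt p y * Real.exp (2 * b) := by
    have h1 := fG_mul p x hx.cone
    have h2 := fG_mul p y hy.cone
    have h3 : fG p x * fGt p x = fG p x * (fGt p y * Real.exp (2 * b)) := by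
      rw [h1, hH, ← h2, e3]; ring
    exact mul_left_cancel₀ hGx.ne' h3
  exact ⟨a, b, hab, rfl, PairB_exp e1, PairB_exp e2, PairB_exp e3, PairB_exp e4⟩

/-- `nu N W` in terms of `F, F~, G, G~`. -/
theorem PairB_W (p : Prm) (x : Pt) : 2 * (p.nu * p.N * x.W)
    = p.M * (fF p x - fFt p x) + p.P * (fGt p x - fG p x) := by
  have h1 := p.hnu2
  have h3 := p.hP2
  have h4 := p.hM2
  simp only [fF, fFt, fG, fGt]
  linear_combination (-(p.nu * x.W)) * h3 - (p.nu * x.W) * h4

theorem pair_F_lt {p : Prm} {x y : Pt} (hx : Ok p x) (hy : Ok p y) (hH : fH p x = fH p y)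
    (hT : fT p x = fT p y) (hW : y.W < x.W) (hA : x.A + y.A < 2) : fF p y < fF p x := by
  obtain ⟨a, b, hab, ha, r1, r2, r3, r4⟩ := PairB_rel hx hy hH hT
  have hP := p.hP
  have hM := p.hM
  have hN := p.N_pos
  have hnu := p.hnu
  have hP2 := p.hP2
  have hM2 := p.hM2
  have hPM : p.M < p.P := by nlinarith
  by_contra hcon
  push Not at hcon
  have ha0 : a ≤ 0 := by
    rw [ha]
    have := Real.log_le_log hx.F_pos hcon
    linarith
  have hs : 0 ≤ -a := by linarith
  have hb : b = p.P / p.M * a := by field_simp; linarith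
  have hc : 1 < p.P / p.M := by rw [one_lt_div hM]; exact hPM
  have h1 := PairB_tanh_le hc hs
  have h2 : Real.tanh b = -Real.tanh (p.P / p.M * -a) := by
    rw [hb, ← Real.tanh_neg]; ring_nf
  have h3 : Real.tanh a = -Real.tanh (-a) := by rw [Real.tanh_neg]; ring
  set τ := Real.tanh (-a) with hτ
  set τ' := Real.tanh (p.P / p.M * -a) with hτ'
  have hτ0 : 0 ≤ τ := PairB_tanh_nonneg hs
  have hτ'0 : 0 ≤ τ' := PairB_tanh_nonneg (by positivity)
  have hfx := fF_add p x
  have hfy := fF_add p y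
  have hgx := fG_add p x
  have hgy := fG_add p y
  have hwx := PairB_W p x
  have hwy := PairB_W p y
  rw [h3] at r1 r2
  rw [h2] at r3 r4
  -- the difference
  have hdiff : 2 * (p.nu * p.N * (x.W - y.W)) = -(p.M * ((2 + p.N * (x.A + y.A)) * 2) * τ)
      - p.P * ((2 - p.N * (x.A + y.A)) * 2) * τ' := by
    linear_combination hwx - hwy + p.M * r1 + p.M * r2 + p.P * r3 + p.P * r4
      - p.M * τ * (hfx + hfy) - p.P * τ' * (hgx + hgy)
  have hpos : 0 < 2 * (p.nu * p.N * (x.W - y.W)) := by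
    have : 0 < x.W - y.W := by linarith
    positivity
  set X := p.N * (x.A + y.A) with hX
  have hX2 : X < 2 * p.N := by rw [hX]; nlinarith
  have hX0 : 0 < X := by
    have := hx.cone.2
    have := hy.cone.2
    positivity
  have hM1 : p.M * τ' ≤ p.P * τ := by
    have : p.M * τ' ≤ p.M * (p.P / p.M * τ) := mul_le_mul_of_nonneg_left h1 hM.le
    rwa [← mul_assoc, mul_div_cancel₀ _ hM.ne'] at this
  rcases le_or_gt X 2 with hX3 | hX3
  · have k1 : 0 ≤ p.M * ((2 + X) * 2) * τ := by positivity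
    have k2 : 0 ≤ p.P * ((2 - X) * 2) * τ' := by
      have : 0 ≤ 2 - X := by linarith
      positivity
    linarith
  · -- multiply by `M`
    have k1 : 0 ≤ p.P * (X - 2) * (p.P * τ - p.M * τ') := by
      have : 0 ≤ X - 2 := by linarith
      have : 0 ≤ p.P * τ - p.M * τ' := by linarith
      positivity
    have k2 : 0 < p.M * (-(p.M * ((2 + X) * 2) * τ) - p.P * ((2 - X) * 2) * τ') := by
      rw [← hdiff]; positivity
    have k3 : 0 ≤ τ * (2 * p.N - X) := by
      have : 0 ≤ 2 * p.N - X := by linarith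
      positivity
    have k4 : p.M * (-(p.M * ((2 + X) * 2) * τ) - p.P * ((2 - X) * 2) * τ')
        = -4 * (τ * (2 * p.N - X)) - 2 * (p.P * (X - 2) * (p.P * τ - p.M * τ')) := by
      linear_combination (-(2 * (2 + X) * τ)) * hM2 + (2 * (X - 2) * τ) * hP2
    linarith

theorem pair_sum_pos {p : Prm} {x y : Pt} (hx : InPi p x) (hy : InPi p y) (hH : fH p x = fH p y)
    (hT : fT p x = fT p y) (hW : y.W < x.W) (hs : 0 < x.W + y.W) : fT p y.neg < fT p y := by
  have hF := pair_F_lt hx.ok hy.ok hH hT hW (by linarith [hx.A_lt, hy.A_lt])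
  obtain ⟨a, b, hab, ha, r1, r2, r3, r4⟩ := PairB_rel hx.ok hy.ok hH hT
  have hP := p.hP
  have hM := p.hM
  have hN := p.N_pos
  have hnu := p.hnu
  have hP2 := p.hP2
  have hM2 := p.hM2
  have hPM : p.M < p.P := by nlinarith
  have ha0 : 0 < a := by
    rw [ha]
    have := Real.log_lt_log hy.ok.F_pos hF
    linarith
  have hb : b = p.P / p.M * a := by field_simp; linarith
  have hc : 1 < p.P / p.M := by rw [one_lt_div hM]; exact hPM
  have hb0 : 0 < b := by rw [hb]; positivity
  have h1 := PairB_tanh_lt hc ha0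
  rw [← hb] at h1
  have ht0 := PairB_tanh_pos ha0
  have ht'0 := PairB_tanh_pos hb0
  have ht'1 := PairB_tanh_lt_one b
  set t := Real.tanh a with ht
  set t' := Real.tanh b with ht'
  have hM1 : p.M * t' < p.P * t := by
    have : p.M * t' < p.M * (p.P / p.M * t) := mul_lt_mul_of_pos_left h1 hM
    rwa [← mul_assoc, mul_div_cancel₀ _ hM.ne'] at this
  have hfx := fF_add p x
  have hfy := fF_add p y
  have hgx := fG_add p x
  have hgy := fG_add p y
  have hwx := PairB_W p x
  have hwy := PairB_W p y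
  -- `(π_x + π_y) t = N ρ`
  have q1 : (fF p x - fFt p x + (fF p y - fFt p y)) * t = 2 * (p.N * (x.A - y.A)) := by
    linear_combination hfx - hfy - r1 + r2
  have q2 : (fGt p x - fG p x + (fGt p y - fG p y)) * t' = -(2 * (p.N * (x.A - y.A))) := by
    linear_combination hgx - hgy + r3 - r4
  have hsum : 2 * (p.nu * p.N * (x.W + y.W)) * (t * t')
      = -(2 * (p.N * (x.A - y.A))) * (p.P * t - p.M * t') := by
    linear_combination (t * t') * (hwx + hwy) + (p.M * t') * q1 + (p.P * t) * q2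
  have hρ : x.A - y.A < 0 := by
    by_contra hcon
    push Not at hcon
    have k1 : 0 < 2 * (p.nu * p.N * (x.W + y.W)) * (t * t') := by positivity
    have k2 : 0 ≤ 2 * (p.N * (x.A - y.A)) * (p.P * t - p.M * t') := by
      have : 0 < p.P * t - p.M * t' := by linarith
      positivity
    linarith
  have hNρ : p.N * (x.A - y.A) < 0 := mul_neg_of_pos_of_neg hN hρ
  -- `F x < F~ y`, `G x < G~ y`
  have g1 : fF p x < fFt p y := by
    have k1 : 2 * (fF p x - fFt p y) * t = 2 * (p.N * (x.A - y.A)) * (1 + t) := by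
      linear_combination q1 + t * (hfx - hfy)
    have k2 : 2 * (fF p x - fFt p y) * t < 0 := by
      rw [k1]
      have h5 : 0 < 1 + t := by linarith
      have h6 : 2 * (p.N * (x.A - y.A)) < 0 := by linarith
      exact mul_neg_of_neg_of_pos h6 h5
    by_contra hcon
    push Not at hcon
    have h5 : 0 ≤ fF p x - fFt p y := by linarith
    have h6 : 0 ≤ 2 * (fF p x - fFt p y) * t := mul_nonneg (by linarith) ht0.le
    exact absurd k2 (not_lt.2 h6)
  have g2 : fG p x < fGt p y := by
    have k1 : 2 * (fG p x - fGt p y) * t' = 2 * (p.N * (x.A - y.A)) * (1 - t') := by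
      linear_combination (-1 : ℝ) * q2 + t' * (hgx - hgy)
    have k2 : 2 * (fG p x - fGt p y) * t' < 0 := by
      rw [k1]
      have h5 : 0 < 1 - t' := by linarith
      have h6 : 2 * (p.N * (x.A - y.A)) < 0 := by linarith
      exact mul_neg_of_neg_of_pos h6 h5
    by_contra hcon
    push Not at hcon
    have h5 : 0 ≤ fG p x - fGt p y := by linarith
    have h6 : 0 ≤ 2 * (fG p x - fGt p y) * t' := mul_nonneg (by linarith) ht'0.le
    exact absurd k2 (not_lt.2 h6)
  rw [← hT]
  simp only [fT, fF_neg, fG_neg]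
  have l1 := Real.log_lt_log hx.ok.F_pos g1
  have l2 := Real.log_lt_log hx.ok.G_pos g2
  have h0 : 0 < 2 * p.N * p.nu := by positivity
  rw [div_lt_div_iff_of_pos_right h0]
  have l3 := mul_lt_mul_of_pos_left l1 hP
  have l4 := mul_lt_mul_of_pos_left l2 hM
  linarith

end B92K
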