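import Mathlib

/-! # MP_b92fc8_an, `kappa > 1` : notation for the closed-form K-lemma (files KI*) -/

set_option autoImplicit false

noncomputable section

namespace B92K

/-- `a coth a`. -/
def uc (a : ℝ) : ℝ := a * Real.cosh a / Real.sinh a

/-- `M3 = B (B + 3A) u - A (3B + A) w`. -/
def kM3 (A B u w : ℝ) : ℝ := B * (B + 3 * A) * u - A * (3 * B + A) * w

/-- `D2 = B (u² - A) + A (w² - B)`. -/
def kD2 (A B u w : ℝ) : ℝ := B * (u ^ 2 - A) + A * (w ^ 2 - B)

/-- `F_I`. -/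
def kFI (A B u w : ℝ) : ℝ :=
  (w ^ 2 - B) * ((A + B) * u - 2 * A * w) + (u ^ 2 - A) * ((A + B) * w - 2 * B * u)

end B92K
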