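import Mathlib
import Pool.Agent.Lib.B92K.KI0

/-!
# MP_b92fc8_an, `kappa > 1`, module KIa

Notation for all KI* files: `0 < a < b`, `A = a²`, `B = b²`, `u = a coth a`, `w = b coth b`,
`p = u² - A = a² / sinh² a`, `q = w² - B = b² / sinh² b`, `D1 = B u - A w`, `D2 = B p + A q`,
`M3 = B (B + 3A) u - A (3B + A) w`.

STATEMENT: `a2 := M3 (p w² + q u²) + D2 ((B + 3A) u w² - (3B + A) w u²) > 0`.

PROOF. Put `x = a + b`, `y = b - a` (`0 < y < x`), `b (B + 3A) = (x³ + y³)/2`,
`a (3B + A) = (x³ - y³)/2`. Dividing by `u² w² D2 > 0` and multiplying by `a b` (`c = u / a = coth a`,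
`d = w / b = coth b`, `p / u² = 1 / cosh² a`, `q / w² = 1 / cosh² b`,
`D2 / (A B) = 1/sinh² a + 1/sinh² b`):
  `a b a2 / (u² w² D2) = (α c - β d) (1/cosh² a + 1/cosh² b) / (1/sinh² a + 1/sinh² b)
      + α tanh a - β tanh b`, `α = (x³+y³)/2`, `β = (x³-y³)/2`, and
  `α c - β d = (x³ sinh y + y³ sinh x) / (2 sinh a sinh b)`,
  `α tanh a - β tanh b = (y³ sinh x - x³ sinh y) / (2 cosh a cosh b)`. Multiplying by
  `2 cosh² a cosh² b (sinh² a + sinh² b)` one gets exactly (addition formulas)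
      `y³ sinh³ x cosh y - x³ sinh³ y cosh x`,
which is `> 0` because `f(x) = sinh³ x / (x³ cosh x)` is strictly increasing on `x > 0`:
`f' > 0 ⇔ 3 x cosh² x - 3 sinh x cosh x - x sinh² x > 0 ⇔ z cosh z + 2 z - 3 sinh z > 0`, `z = 2 x`;
this function has value 0 at 0, derivative `z sinh z + 2 - 2 cosh z` (value 0 at 0), second
derivative `z cosh z - sinh z` (value 0 at 0), third derivative `z sinh z > 0`.
-/

set_option autoImplicit false

noncomputable section

namespace B92K

/-- `z cosh z + 2 z - 3 sinh z > 0` for `z > 0`. -/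
theorem kia_h {z : ℝ} (hz : 0 < z) : 0 < z * Real.cosh z + 2 * z - 3 * Real.sinh z := by
  -- third level: `z cosh z - sinh z > 0`
  have h3 : ∀ z : ℝ, 0 < z → 0 < z * Real.cosh z - Real.sinh z := by
    intro z hz
    have hmono : StrictMonoOn (fun t : ℝ => t * Real.cosh t - Real.sinh t) (Set.Ici 0) := by
      apply strictMonoOn_of_deriv_pos (convex_Ici 0)
      · exact ((continuous_id.mul Real.continuous_cosh).sub Real.continuous_sinh).continuousOn
      · intro t ht
        rw [interior_Ici] at ht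
        have hd : HasDerivAt (fun t : ℝ => t * Real.cosh t - Real.sinh t)
            (1 * Real.cosh t + t * Real.sinh t - Real.cosh t) t :=
          ((hasDerivAt_id t).mul (Real.hasDerivAt_cosh t)).sub (Real.hasDerivAt_sinh t)
        rw [hd.deriv]
        have ht' : 0 < t := ht
        have hs : 0 < Real.sinh t := Real.sinh_pos_iff.2 ht'
        have := mul_pos ht' hs
        linarith
    have := hmono (Set.mem_Ici.2 le_rfl) (Set.mem_Ici.2 hz.le) hz
    simpa using this
  have h2 : ∀ z : ℝ, 0 < z → 0 < z * Real.sinh z + 2 - 2 * Real.cosh z := by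
    intro z hz
    have hmono : StrictMonoOn (fun t : ℝ => t * Real.sinh t + 2 - 2 * Real.cosh t)
        (Set.Ici 0) := by
      apply strictMonoOn_of_deriv_pos (convex_Ici 0)
      · exact (((continuous_id.mul Real.continuous_sinh).add continuous_const).sub
          (continuous_const.mul Real.continuous_cosh)).continuousOn
      · intro t ht
        rw [interior_Ici] at ht
        have hd : HasDerivAt (fun t : ℝ => t * Real.sinh t + 2 - 2 * Real.cosh t)
            (1 * Real.sinh t + t * Real.cosh t - 2 * Real.sinh t) t :=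
          (((hasDerivAt_id t).mul (Real.hasDerivAt_sinh t)).add_const 2).sub
            ((Real.hasDerivAt_cosh t).const_mul 2)
        rw [hd.deriv]
        have := h3 t ht
        linarith
    have := hmono (Set.mem_Ici.2 le_rfl) (Set.mem_Ici.2 hz.le) hz
    simpa using this
  have hmono : StrictMonoOn (fun t : ℝ => t * Real.cosh t + 2 * t - 3 * Real.sinh t)
      (Set.Ici 0) := by
    apply strictMonoOn_of_deriv_pos (convex_Ici 0)
    · exact (((continuous_id.mul Real.continuous_cosh).add (continuous_const.mul continuous_id)).sub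
        (continuous_const.mul Real.continuous_sinh)).continuousOn
    · intro t ht
      rw [interior_Ici] at ht
      have hd : HasDerivAt (fun t : ℝ => t * Real.cosh t + 2 * t - 3 * Real.sinh t)
          (1 * Real.cosh t + t * Real.sinh t + 2 * 1 - 3 * Real.cosh t) t :=
        (((hasDerivAt_id t).mul (Real.hasDerivAt_cosh t)).add ((hasDerivAt_id t).const_mul 2)).sub
          ((Real.hasDerivAt_sinh t).const_mul 3)
      rw [hd.deriv]
      have := h2 t ht
      linarith
  have := hmono (Set.mem_Ici.2 le_rfl) (Set.mem_Ici.2 hz.le) hz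
  simpa using this

/-- `sinh³ t / (t³ cosh t)` is strictly increasing on `t > 0`. -/
theorem kia_mono : StrictMonoOn (fun t : ℝ => Real.sinh t ^ 3 / (t ^ 3 * Real.cosh t))
    (Set.Ioi 0) := by
  apply strictMonoOn_of_deriv_pos (convex_Ioi 0)
  · apply ContinuousOn.div
    · exact (Real.continuous_sinh.pow 3).continuousOn
    · exact ((continuous_id.pow 3).mul Real.continuous_cosh).continuousOn
    · intro t ht
      have ht' : 0 < t := ht
      have := Real.cosh_pos t
      positivity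
  · intro t ht
    rw [interior_Ioi] at ht
    have ht' : 0 < t := ht
    have hc := Real.cosh_pos t
    have hs : 0 < Real.sinh t := Real.sinh_pos_iff.2 ht'
    have hd1 : HasDerivAt (fun t : ℝ => Real.sinh t ^ 3) (3 * Real.sinh t ^ 2 * Real.cosh t) t := by
      have := (Real.hasDerivAt_sinh t).fun_pow 3
      simpa using this
    have hd2 : HasDerivAt (fun t : ℝ => t ^ 3 * Real.cosh t)
        (3 * t ^ 2 * Real.cosh t + t ^ 3 * Real.sinh t) t := by
      have h0 : HasDerivAt (fun t : ℝ => t ^ 3) (3 * t ^ 2) t := by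
        have := hasDerivAt_pow 3 t
        simpa using this
      exact h0.mul (Real.hasDerivAt_cosh t)
    have hne : t ^ 3 * Real.cosh t ≠ 0 := by positivity
    have hd := hd1.div hd2 hne
    have hd' : deriv (fun t : ℝ => Real.sinh t ^ 3 / (t ^ 3 * Real.cosh t)) t
        = (3 * Real.sinh t ^ 2 * Real.cosh t * (t ^ 3 * Real.cosh t)
          - Real.sinh t ^ 3 * (3 * t ^ 2 * Real.cosh t + t ^ 3 * Real.sinh t))
          / (t ^ 3 * Real.cosh t) ^ 2 := hd.deriv
    rw [hd']
    apply div_pos _ (by positivity)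
    have hh := kia_h (z := 2 * t) (by linarith)
    rw [Real.cosh_two_mul, Real.sinh_two_mul] at hh
    have hcs : Real.cosh t ^ 2 = Real.sinh t ^ 2 + 1 := Real.cosh_sq t
    have hkey : 3 * Real.sinh t ^ 2 * Real.cosh t * (t ^ 3 * Real.cosh t)
          - Real.sinh t ^ 3 * (3 * t ^ 2 * Real.cosh t + t ^ 3 * Real.sinh t)
        = Real.sinh t ^ 2 * t ^ 2 / 2 * (2 * t * (Real.cosh t ^ 2 + Real.sinh t ^ 2) + 2 * (2 * t)
          - 3 * (2 * Real.sinh t * Real.cosh t)) := by
      linear_combination (2 * t ^ 3 * Real.sinh t ^ 2) * hcs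
    rw [hkey]
    have : 0 < Real.sinh t ^ 2 * t ^ 2 / 2 := by positivity
    exact mul_pos this hh

theorem kia_sinh {x y : ℝ} (hy : 0 < y) (hxy : y < x) :
    0 < y ^ 3 * Real.sinh x ^ 3 * Real.cosh y - x ^ 3 * Real.sinh y ^ 3 * Real.cosh x := by
  have hx : 0 < x := hy.trans hxy
  have h := kia_mono (Set.mem_Ioi.2 hy) (Set.mem_Ioi.2 hx) hxy
  have hcx := Real.cosh_pos x
  have hcy := Real.cosh_pos y
  simp only at h
  rw [div_lt_div_iff₀ (by positivity) (by positivity)] at h
  nlinarith [h]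

theorem kia {a b : ℝ} (ha : 0 < a) (hab : a < b) :
    0 < kM3 (a ^ 2) (b ^ 2) (uc a) (uc b) * ((uc a ^ 2 - a ^ 2) * uc b ^ 2
        + (uc b ^ 2 - b ^ 2) * uc a ^ 2)
      + kD2 (a ^ 2) (b ^ 2) (uc a) (uc b) * ((b ^ 2 + 3 * a ^ 2) * uc a * uc b ^ 2
        - (3 * b ^ 2 + a ^ 2) * uc b * uc a ^ 2) := by
  have hb : 0 < b := ha.trans hab
  have hsa : 0 < Real.sinh a := Real.sinh_pos_iff.2 ha
  have hsb : 0 < Real.sinh b := Real.sinh_pos_iff.2 hb
  have hca : Real.cosh a ^ 2 = Real.sinh a ^ 2 + 1 := Real.cosh_sq a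
  have hcb : Real.cosh b ^ 2 = Real.sinh b ^ 2 + 1 := Real.cosh_sq b
  have hS := kia_sinh (x := b + a) (y := b - a) (by linarith) (by linarith)
  rw [Real.sinh_add, Real.cosh_add, Real.sinh_sub, Real.cosh_sub] at hS
  have hpa : uc a ^ 2 - a ^ 2 = a ^ 2 / Real.sinh a ^ 2 := by
    unfold uc
    field_simp
    linear_combination hca
  have hpb : uc b ^ 2 - b ^ 2 = b ^ 2 / Real.sinh b ^ 2 := by
    unfold uc
    field_simp
    linear_combination hcb
  unfold kM3 kD2
  rw [hpa, hpb]
  unfold uc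
  set sa := Real.sinh a
  set ca := Real.cosh a
  set sb := Real.sinh b
  set cb := Real.cosh b
  have h1 : (sb * ca + cb * sa) * (cb * ca - sb * sa) = sa * ca + sb * cb := by
    linear_combination (sb * cb) * hca + (sa * ca) * hcb
  have h2 : (sb * ca - cb * sa) * (cb * ca + sb * sa) = sb * cb - sa * ca := by
    linear_combination (sb * cb) * hca - (sa * ca) * hcb
  have hS2 : (b - a) ^ 3 * (sb * ca + cb * sa) ^ 3 * (cb * ca - sb * sa)
      - (b + a) ^ 3 * (sb * ca - cb * sa) ^ 3 * (cb * ca + sb * sa)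
      = (b - a) ^ 3 * (sb * ca + cb * sa) ^ 2 * (sa * ca + sb * cb)
        - (b + a) ^ 3 * (sb * ca - cb * sa) ^ 2 * (sb * cb - sa * ca) := by
    linear_combination ((b - a) ^ 3 * (sb * ca + cb * sa) ^ 2) * h1
      - ((b + a) ^ 3 * (sb * ca - cb * sa) ^ 2) * h2
  rw [hS2] at hS
  have hE : (b ^ 2 * (b ^ 2 + 3 * a ^ 2) * (a * ca / sa) - a ^ 2 * (3 * b ^ 2 + a ^ 2) *
        (b * cb / sb)) * (a ^ 2 / sa ^ 2 * (b * cb / sb) ^ 2 + b ^ 2 / sb ^ 2 * (a * ca / sa) ^ 2)
      + (b ^ 2 * (a ^ 2 / sa ^ 2) + a ^ 2 * (b ^ 2 / sb ^ 2)) *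
        ((b ^ 2 + 3 * a ^ 2) * (a * ca / sa) * (b * cb / sb) ^ 2
          - (3 * b ^ 2 + a ^ 2) * (b * cb / sb) * (a * ca / sa) ^ 2)
      = a ^ 3 * b ^ 3 / (2 * sa ^ 4 * sb ^ 4) *
        ((b - a) ^ 3 * (sb * ca + cb * sa) ^ 2 * (sa * ca + sb * cb)
          - (b + a) ^ 3 * (sb * ca - cb * sa) ^ 2 * (sb * cb - sa * ca)) := by
    field_simp
    ring
  rw [hE]
  exact mul_pos (by positivity) hS

end B92K
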