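import Mathlib
import Pool.Agent.Lib.B92K.KI0

/-!
# MP_b92fc8_an, `kappa > 1`, module KIb : `F_I ≥ 0`

`8 H3 = G(1)`, `G` a sum of six `sinh`; three comparisons `g'' ≥ ω² g`.
-/

set_option autoImplicit false

noncomputable section

namespace B92K

theorem KIb_cmp {g g' g'' : ℝ → ℝ} {ω : ℝ} (h1 : ∀ t, HasDerivAt g (g' t) t)
    (h2 : ∀ t, HasDerivAt g' (g'' t) t) (h3 : ∀ t, 0 ≤ t → ω ^ 2 * g t ≤ g'' t)
    (h0 : g 0 = 0) (h0' : 0 ≤ g' 0) : ∀ t, 0 ≤ t → 0 ≤ g t := by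
  have e1 : ∀ t, HasDerivAt (fun t => Real.exp (-ω * t) * (g' t + ω * g t))
      (Real.exp (-ω * t) * (g'' t - ω ^ 2 * g t)) t := by
    intro t
    have hE : HasDerivAt (fun t : ℝ => Real.exp (-ω * t)) (Real.exp (-ω * t) * (-ω)) t := by
      have h := ((hasDerivAt_id t).const_mul (-ω)).exp
      simpa using h
    refine (hE.mul ((h2 t).add ((h1 t).const_mul ω))).congr_deriv ?_
    simp only [Pi.add_apply]
    ring
  have m1 : MonotoneOn (fun t => Real.exp (-ω * t) * (g' t + ω * g t)) (Set.Ici 0) := by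
    refine monotoneOn_of_deriv_nonneg (convex_Ici 0)
      (fun t _ => (e1 t).continuousAt.continuousWithinAt)
      (fun t _ => (e1 t).differentiableAt.differentiableWithinAt) fun t ht => ?_
    rw [interior_Ici] at ht
    rw [(e1 t).deriv]
    have := h3 t (le_of_lt ht)
    exact mul_nonneg (Real.exp_pos _).le (by linarith)
  have k1 : ∀ t, 0 ≤ t → 0 ≤ g' t + ω * g t := by
    intro t ht
    have h := m1 (Set.mem_Ici.2 le_rfl) (Set.mem_Ici.2 ht) ht
    simp only [mul_zero, Real.exp_zero, one_mul, h0, add_zero] at h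
    have h4 : 0 ≤ Real.exp (-ω * t) * (g' t + ω * g t) := h0'.trans h
    exact nonneg_of_mul_nonneg_right h4 (Real.exp_pos _)
  have e2 : ∀ t, HasDerivAt (fun t => Real.exp (ω * t) * g t)
      (Real.exp (ω * t) * (g' t + ω * g t)) t := by
    intro t
    have hE : HasDerivAt (fun t : ℝ => Real.exp (ω * t)) (Real.exp (ω * t) * ω) t := by
      have h := ((hasDerivAt_id t).const_mul ω).exp
      simpa using h
    refine (hE.mul (h1 t)).congr_deriv ?_
    ring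
  have m2 : MonotoneOn (fun t => Real.exp (ω * t) * g t) (Set.Ici 0) := by
    refine monotoneOn_of_deriv_nonneg (convex_Ici 0)
      (fun t _ => (e2 t).continuousAt.continuousWithinAt)
      (fun t _ => (e2 t).differentiableAt.differentiableWithinAt) fun t ht => ?_
    rw [interior_Ici] at ht
    rw [(e2 t).deriv]
    exact mul_nonneg (Real.exp_pos _).le (k1 t (le_of_lt ht))
  intro t ht
  have h := m2 (Set.mem_Ici.2 le_rfl) (Set.mem_Ici.2 ht) ht
  simp only [mul_zero, h0] at h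
  exact nonneg_of_mul_nonneg_right h (Real.exp_pos _)

/-- Sum of six `sinh`. -/
def kibS (m1 m2 m3 m4 m5 m6 c1 c2 c3 c4 c5 c6 t : ℝ) : ℝ :=
  c1 * Real.sinh (m1 * t) + c2 * Real.sinh (m2 * t) + c3 * Real.sinh (m3 * t)
    + c4 * Real.sinh (m4 * t) + c5 * Real.sinh (m5 * t) + c6 * Real.sinh (m6 * t)

theorem KIb_step {m1 m2 m3 m4 m5 m6 c1 c2 c3 c4 c5 c6 ω : ℝ}
    (h0 : 0 ≤ c1 * m1 + c2 * m2 + c3 * m3 + c4 * m4 + c5 * m5 + c6 * m6)
    (hK : ∀ t, 0 ≤ t → 0 ≤ kibS m1 m2 m3 m4 m5 m6 (c1 * (m1 ^ 2 - ω ^ 2))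
      (c2 * (m2 ^ 2 - ω ^ 2)) (c3 * (m3 ^ 2 - ω ^ 2)) (c4 * (m4 ^ 2 - ω ^ 2))
      (c5 * (m5 ^ 2 - ω ^ 2)) (c6 * (m6 ^ 2 - ω ^ 2)) t) :
    ∀ t, 0 ≤ t → 0 ≤ kibS m1 m2 m3 m4 m5 m6 c1 c2 c3 c4 c5 c6 t := by
  have hs : ∀ m t : ℝ, HasDerivAt (fun t : ℝ => Real.sinh (m * t)) (m * Real.cosh (m * t)) t := by
    intro m t
    have h := ((hasDerivAt_id t).const_mul m).sinh
    refine h.congr_deriv ?_
    simp [mul_comm]
  have hc : ∀ m t : ℝ, HasDerivAt (fun t : ℝ => Real.cosh (m * t)) (m * Real.sinh (m * t)) t := by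
    intro m t
    have h := ((hasDerivAt_id t).const_mul m).cosh
    refine h.congr_deriv ?_
    simp [mul_comm]
  refine KIb_cmp (ω := ω)
    (g' := fun t => c1 * (m1 * Real.cosh (m1 * t)) + c2 * (m2 * Real.cosh (m2 * t))
      + c3 * (m3 * Real.cosh (m3 * t)) + c4 * (m4 * Real.cosh (m4 * t))
      + c5 * (m5 * Real.cosh (m5 * t)) + c6 * (m6 * Real.cosh (m6 * t)))
    (g'' := fun t => c1 * (m1 * (m1 * Real.sinh (m1 * t)))
      + c2 * (m2 * (m2 * Real.sinh (m2 * t)))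
      + c3 * (m3 * (m3 * Real.sinh (m3 * t))) + c4 * (m4 * (m4 * Real.sinh (m4 * t)))
      + c5 * (m5 * (m5 * Real.sinh (m5 * t))) + c6 * (m6 * (m6 * Real.sinh (m6 * t))))
    (fun t => ?_) (fun t => ?_) (fun t ht => ?_) ?_ ?_
  · exact ((((((hs m1 t).const_mul c1).add ((hs m2 t).const_mul c2)).add
      ((hs m3 t).const_mul c3)).add ((hs m4 t).const_mul c4)).add
      ((hs m5 t).const_mul c5)).add ((hs m6 t).const_mul c6)
  · exact (((((((hc m1 t).const_mul m1).const_mul c1).add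
      (((hc m2 t).const_mul m2).const_mul c2)).add
      (((hc m3 t).const_mul m3).const_mul c3)).add (((hc m4 t).const_mul m4).const_mul c4)).add
      (((hc m5 t).const_mul m5).const_mul c5)).add (((hc m6 t).const_mul m6).const_mul c6)
  · have := hK t ht
    simp only [kibS] at this ⊢
    linarith
  · simp [kibS]
  · simp only [mul_zero, Real.cosh_zero, mul_one]
    exact h0

theorem KIb_K3 {a b t : ℝ} (ha : 0 < a) (hab : a < b) (ht : 0 ≤ t) :
    0 ≤ 3 * b ^ 2 * (a + 2 * b) * Real.sinh ((3 * b + a) * t)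
      + (2 * a - b) * (2 * a + b) * (a + 2 * b) * Real.sinh ((3 * a + b) * t)
      - 2 * (a + b) ^ 2 * (2 * a - b) * Real.sinh ((3 * a - b) * t) := by
  have hb : 0 < b := ha.trans hab
  set X := Real.sinh ((3 * b + a) * t) with hX
  set Y := Real.sinh ((3 * a + b) * t) with hY
  have hY0 : 0 ≤ Y := Real.sinh_nonneg_iff.2 (by positivity)
  have hXY : Y ≤ X := Real.sinh_le_sinh.2 (by nlinarith)
  rcases le_or_gt b (2 * a) with h1 | h1
  · -- `b ≤ 2 a`
    have hZ : Real.sinh ((3 * a - b) * t) ≤ Y := Real.sinh_le_sinh.2 (by nlinarith)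
    have e1 : 0 ≤ (2 * a - b) * (2 * (a + b) ^ 2) * (Y - Real.sinh ((3 * a - b) * t)) := by
      apply mul_nonneg (mul_nonneg (by linarith) (by positivity)) (by linarith)
    have e2 : 0 ≤ (2 * a - b) * (a * b) * Y :=
      mul_nonneg (mul_nonneg (by linarith) (by positivity)) hY0
    have e3 : 0 ≤ 3 * b ^ 2 * (a + 2 * b) * X := by
      have : 0 ≤ X := hY0.trans hXY
      positivity
    nlinarith
  · rcases le_or_gt b (3 * a) with h2 | h2
    · have hZ : 0 ≤ Real.sinh ((3 * a - b) * t) :=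
        Real.sinh_nonneg_iff.2 (mul_nonneg (by linarith) ht)
      have e1 : 0 ≤ 2 * (a + b) ^ 2 * (b - 2 * a) * Real.sinh ((3 * a - b) * t) :=
        mul_nonneg (mul_nonneg (by positivity) (by linarith)) hZ
      have e2 : 0 ≤ 3 * b ^ 2 * (a + 2 * b) * (X - Y) :=
        mul_nonneg (by positivity) (by linarith)
      have e3 : 0 ≤ (2 * b ^ 2 + 4 * a ^ 2) * (a + 2 * b) * Y := by positivity
      nlinarith
    · have hZ : Real.sinh ((3 * a - b) * t) = -Real.sinh ((b - 3 * a) * t) := by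
        rw [← Real.sinh_neg]; congr 1; ring
      set Z := Real.sinh ((b - 3 * a) * t) with hZd
      have hZ0 : 0 ≤ Z := Real.sinh_nonneg_iff.2 (mul_nonneg (by linarith) ht)
      have hZX : Z ≤ X := Real.sinh_le_sinh.2 (by nlinarith)
      rw [hZ]
      have e1 : 0 ≤ 2 * b ^ 2 * (a + 2 * b) * (X - Z) :=
        mul_nonneg (by positivity) (by linarith)
      have e2 : 0 ≤ b ^ 2 * (a + 2 * b) * (X - Y) :=
        mul_nonneg (by positivity) (by linarith)
      have e3 : 0 ≤ 4 * a ^ 2 * (a + 2 * b) * Y := by positivity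
      have e4 : 0 ≤ 2 * (b ^ 2 * (a + 2 * b) - (a + b) ^ 2 * (b - 2 * a)) * Z := by
        apply mul_nonneg _ hZ0
        have : b ^ 2 * (a + 2 * b) - (a + b) ^ 2 * (b - 2 * a)
            = b ^ 3 + a * b ^ 2 + 3 * a ^ 2 * b + 2 * a ^ 3 := by ring
        rw [this]; positivity
      nlinarith

theorem KIb_G {a b : ℝ} (ha : 0 < a) (hab : a < b) : ∀ t, 0 ≤ t → 0 ≤
    kibS (3 * b + a) (3 * a + b) (3 * b - a) (3 * a - b) (a + b) (b - a)
      (a * (b - a) ^ 2) (b * (b - a) ^ 2) (-(a * (a + b) ^ 2)) (-(b * (a + b) ^ 2))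
      (-((a + b) * (a ^ 2 + b ^ 2 - 6 * a * b))) (-((b - a) * (a ^ 2 + b ^ 2 + 6 * a * b))) t := by
  have hb : 0 < b := ha.trans hab
  refine KIb_step (ω := a + b) (le_of_eq (by ring)) ?_
  refine KIb_step (ω := b - a) (le_of_eq (by ring)) ?_
  have hK2 : ∀ t, 0 ≤ t → 0 ≤ kibS (3 * b + a) (3 * a + b) (3 * b - a) (3 * a - b) (a + b) (b - a)
      (b * (b - a) * (a + 2 * b)) (a * (b - a) * (b + 2 * a)) (-(b * (a + b) * (2 * b - a)))
      (-(a * (a + b) * (b - 2 * a))) 0 0 t := by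
    refine KIb_step (ω := 3 * b - a) (le_of_eq (by ring)) ?_
    intro t ht
    have h := KIb_K3 ha hab ht
    have e : kibS (3 * b + a) (3 * a + b) (3 * b - a) (3 * a - b) (a + b) (b - a)
        (b * (b - a) * (a + 2 * b) * ((3 * b + a) ^ 2 - (3 * b - a) ^ 2))
        (a * (b - a) * (b + 2 * a) * ((3 * a + b) ^ 2 - (3 * b - a) ^ 2))
        (-(b * (a + b) * (2 * b - a)) * ((3 * b - a) ^ 2 - (3 * b - a) ^ 2))
        (-(a * (a + b) * (b - 2 * a)) * ((3 * a - b) ^ 2 - (3 * b - a) ^ 2))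
        (0 * ((a + b) ^ 2 - (3 * b - a) ^ 2)) (0 * ((b - a) ^ 2 - (3 * b - a) ^ 2)) t
        = 4 * a * (b - a) * (3 * b ^ 2 * (a + 2 * b) * Real.sinh ((3 * b + a) * t)
      + (2 * a - b) * (2 * a + b) * (a + 2 * b) * Real.sinh ((3 * a + b) * t)
      - 2 * (a + b) ^ 2 * (2 * a - b) * Real.sinh ((3 * a - b) * t)) := by
      simp only [kibS]; ring
    rw [e]
    exact mul_nonneg (mul_nonneg (by positivity) (by linarith)) h
  intro t ht
  have h := hK2 t ht
  have e : ∀ c1 c2 c3 c4 c5 c6 : ℝ,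
      c1 = 32 * a * b * (a + b) * (b - a) * (b * (b - a) * (a + 2 * b)) →
      c2 = 32 * a * b * (a + b) * (b - a) * (a * (b - a) * (b + 2 * a)) →
      c3 = 32 * a * b * (a + b) * (b - a) * (-(b * (a + b) * (2 * b - a))) →
      c4 = 32 * a * b * (a + b) * (b - a) * (-(a * (a + b) * (b - 2 * a))) →
      c5 = 0 → c6 = 0 →
      kibS (3 * b + a) (3 * a + b) (3 * b - a) (3 * a - b) (a + b) (b - a) c1 c2 c3 c4 c5 c6 t
      = 32 * a * b * (a + b) * (b - a)
        * kibS (3 * b + a) (3 * a + b) (3 * b - a) (3 * a - b) (a + b) (b - a)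
      (b * (b - a) * (a + 2 * b)) (a * (b - a) * (b + 2 * a)) (-(b * (a + b) * (2 * b - a)))
      (-(a * (a + b) * (b - 2 * a))) 0 0 t := by
    intro c1 c2 c3 c4 c5 c6 h1 h2 h3 h4 h5 h6
    subst h1 h2 h3 h4 h5 h6
    simp only [kibS]; ring
  rw [e _ _ _ _ _ _ (by ring) (by ring) (by ring) (by ring) (by ring) (by ring)]
  exact mul_nonneg (mul_nonneg (by positivity) (by linarith)) h

theorem kib {a b : ℝ} (ha : 0 < a) (hab : a < b) :
    0 ≤ kFI (a ^ 2) (b ^ 2) (uc a) (uc b) := by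
  have hb : 0 < b := ha.trans hab
  have hG := KIb_G ha hab 1 zero_le_one
  have hsa : 0 < Real.sinh a := Real.sinh_pos_iff.2 ha
  have hsb : 0 < Real.sinh b := Real.sinh_pos_iff.2 hb
  have hca := Real.cosh_sq a
  have hcb := Real.cosh_sq b
  have s1 : Real.sinh (3 * b + a) = (4 * Real.sinh b ^ 3 + 3 * Real.sinh b) * Real.cosh a
      + (4 * Real.cosh b ^ 3 - 3 * Real.cosh b) * Real.sinh a := by
    rw [Real.sinh_add, Real.sinh_three_mul, Real.cosh_three_mul]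
  have s2 : Real.sinh (3 * a + b) = (4 * Real.sinh a ^ 3 + 3 * Real.sinh a) * Real.cosh b
      + (4 * Real.cosh a ^ 3 - 3 * Real.cosh a) * Real.sinh b := by
    rw [Real.sinh_add, Real.sinh_three_mul, Real.cosh_three_mul]
  have s3 : Real.sinh (3 * b - a) = (4 * Real.sinh b ^ 3 + 3 * Real.sinh b) * Real.cosh a
      - (4 * Real.cosh b ^ 3 - 3 * Real.cosh b) * Real.sinh a := by
    rw [Real.sinh_sub, Real.sinh_three_mul, Real.cosh_three_mul]
  have s4 : Real.sinh (3 * a - b) = (4 * Real.sinh a ^ 3 + 3 * Real.sinh a) * Real.cosh b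
      - (4 * Real.cosh a ^ 3 - 3 * Real.cosh a) * Real.sinh b := by
    rw [Real.sinh_sub, Real.sinh_three_mul, Real.cosh_three_mul]
  simp only [kibS, mul_one] at hG
  rw [s1, s2, s3, s4, Real.sinh_add, Real.sinh_sub] at hG
  set sa := Real.sinh a with hsad
  set sb := Real.sinh b with hsbd
  set ca := Real.cosh a with hcad
  set cb := Real.cosh b with hcbd
  set H3 := b * (a ^ 2 + b ^ 2) * ca * sa ^ 2 * sb + a * (a ^ 2 + b ^ 2) * cb * sb ^ 2 * sa
    - 2 * a * b ^ 2 * cb * sa ^ 3 - 2 * a ^ 2 * b * ca * sb ^ 3 with hH3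
  have hH : 0 ≤ H3 := by
    have e : 8 * H3 = a * (b - a) ^ 2 * ((4 * sb ^ 3 + 3 * sb) * ca + (4 * cb ^ 3 - 3 * cb) * sa)
        + b * (b - a) ^ 2 * ((4 * sa ^ 3 + 3 * sa) * cb + (4 * ca ^ 3 - 3 * ca) * sb)
        + -(a * (a + b) ^ 2) * ((4 * sb ^ 3 + 3 * sb) * ca - (4 * cb ^ 3 - 3 * cb) * sa)
        + -(b * (a + b) ^ 2) * ((4 * sa ^ 3 + 3 * sa) * cb - (4 * ca ^ 3 - 3 * ca) * sb)
        + -((a + b) * (a ^ 2 + b ^ 2 - 6 * a * b)) * (sa * cb + ca * sb)
        + -((b - a) * (a ^ 2 + b ^ 2 + 6 * a * b)) * (sb * ca - cb * sa) := by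
      rw [hH3]
      linear_combination (-(8 * a ^ 2 * b * sb * ca + 8 * b ^ 3 * sb * ca)) * hca
        - (8 * a ^ 3 * sa * cb + 8 * a * b ^ 2 * sa * cb) * hcb
    linarith
  have key : kFI (a ^ 2) (b ^ 2) (uc a) (uc b) = a * b / (sa ^ 3 * sb ^ 3) * H3 := by
    simp only [kFI, uc]
    rw [← hsad, ← hsbd, ← hcad, ← hcbd, hH3]
    have e1 : (b * cb / sb) ^ 2 - b ^ 2 = b ^ 2 / sb ^ 2 := by
      rw [div_pow, mul_pow, hcb]; field_simp; ring
    have e2 : (a * ca / sa) ^ 2 - a ^ 2 = a ^ 2 / sa ^ 2 := by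
      rw [div_pow, mul_pow, hca]; field_simp; ring
    rw [e1, e2]
    field_simp
    ring
  rw [key]
  positivity

end B92K
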