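import Mathlib
import Pool.Agent.Lib.B92K.KI0
import Pool.Agent.Lib.B92K.KIb

/-!
# MP_b92fc8_an, `kappa > 1`, module KIc

Notation as in KIa; `D1 = B u - A w`. STATEMENT: if `(B u + A w)² ≥ 2 A B (A + B)` then
`Zn := (B-A) D1² D2 - (B-A)² D1 D2 - A B M3 (w-u)² / 5 ≥ 0`.

PROOF. `Z(a,b) := Zn / ((B-A) D1² D2) = 1 - (B-A)/D1 - A B M3 (w-u)²/(5 (B-A) D1² D2)`.
Put `ζ(t) = t Z(t a, t b)`, `0 < t ≤ 1`. With `δ = t d/dt` one has `δA = 2A`, `δB = 2B`,
`δu = u - p`, `δw = w - q` (`p = u² - A`, `q = w² - B`), and the EXACT identity (checked by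
polynomial arithmetic)
   `Z + δZ = 2 A B (w-u) F_I II / (5 (B-A) D1³ D2²)`,  `II = 2 (B-A)(B² u p + A² w q) - D1³`.
`D1 > 0`, `D2 > 0`, `w > u`, `F_I ≥ 0` (KIb). `II ≥ 0` under the constraint:
`2 (B-A)(B² u p + A² w q) = 2 (B-A)(B² u³ + A² w³ - A B (B u + A w))
   ≥ (B-A)(2 (B² u³ + A² w³) - (B u + A w)³/(A+B))`, and
 `(B-A)(2 (A+B)(B² u³ + A² w³) - (B u + A w)³) - (A+B)(B u - A w)³ = 2 A² B² (w-u)³`.
The constraint holds at `(t a, t b)` for all `0 < t ≤ 1` if it holds at `t = 1`.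
So `ζ' = (Z + δZ) ≥ 0` on `(0,1]` and `ζ(t) → 0` for `t → 0+` because `Z → 0`.
Hence `ζ(1) = Z(a,b) ≥ 0`.
-/

set_option autoImplicit false

noncomputable section

namespace B92K

open Filter Topology Set

/-- derivative of `x coth x` -/
private theorem uc_deriv {x : ℝ} (hx : 0 < x) :
    HasDerivAt uc ((uc x - (uc x ^ 2 - x ^ 2)) / x) x := by
  have hs : Real.sinh x ≠ 0 := (Real.sinh_pos_iff.2 hx).ne'
  have h := ((hasDerivAt_id x).mul (Real.hasDerivAt_cosh x)).div (Real.hasDerivAt_sinh x) hs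
  have h2 : HasDerivAt uc (((1 * Real.cosh x + id x * Real.sinh x) * Real.sinh x -
      (id x * Real.cosh x) * Real.cosh x) / Real.sinh x ^ 2) x := h
  refine h2.congr_deriv ?_
  have hc : Real.cosh x ^ 2 = Real.sinh x ^ 2 + 1 := Real.cosh_sq x
  unfold uc
  simp only [id]
  field_simp
  ring_nf
  try nlinarith [hc]

private theorem uc_sq_sub {x : ℝ} (hx : 0 < x) : 0 < uc x ^ 2 - x ^ 2 := by
  have hs : 0 < Real.sinh x := Real.sinh_pos_iff.2 hx
  have hc : Real.cosh x ^ 2 = Real.sinh x ^ 2 + 1 := Real.cosh_sq x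
  have : uc x ^ 2 - x ^ 2 = x ^ 2 / Real.sinh x ^ 2 := by
    unfold uc
    field_simp
    rw [hc]; ring
  rw [this]; positivity

private theorem uc_pos {x : ℝ} (hx : 0 < x) : 0 < uc x := by
  have hs : 0 < Real.sinh x := Real.sinh_pos_iff.2 hx
  have hc : 0 < Real.cosh x := Real.cosh_pos x
  unfold uc; positivity

/-- `x coth x` is strictly increasing. -/
private theorem uc_lt {x y : ℝ} (hx : 0 < x) (hxy : x < y) : uc x < uc y := by
  have hmono : StrictMonoOn uc (Ioi 0) := by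
    refine strictMonoOn_of_deriv_pos (convex_Ioi 0)
      (fun z hz => (uc_deriv hz).continuousAt.continuousWithinAt) fun z hz => ?_
    rw [interior_Ioi] at hz
    have hz0 : 0 < z := hz
    rw [(uc_deriv hz0).deriv]
    apply div_pos _ hz0
    have hs : 0 < Real.sinh z := Real.sinh_pos_iff.2 hz0
    have hc : Real.cosh z ^ 2 = Real.sinh z ^ 2 + 1 := Real.cosh_sq z
    have h1 : z < Real.sinh z := Real.self_lt_sinh_iff.2 hz0
    have h2 : 1 ≤ Real.cosh z := Real.one_le_cosh z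
    have e : uc z - (uc z ^ 2 - z ^ 2) = z * (Real.cosh z * Real.sinh z - z) / Real.sinh z ^ 2 := by
      unfold uc
      field_simp
      rw [hc]; ring
    rw [e]
    have : 0 < Real.cosh z * Real.sinh z - z := by nlinarith
    positivity
  exact hmono hx (hx.trans hxy) hxy

/-- `coth` is decreasing: `uc x / x` is strictly decreasing. -/
private theorem coth_lt {x y : ℝ} (hx : 0 < x) (hxy : x < y) : uc y / y < uc x / x := by
  have hy : 0 < y := hx.trans hxy
  have hsx : 0 < Real.sinh x := Real.sinh_pos_iff.2 hx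
  have hsy : 0 < Real.sinh y := Real.sinh_pos_iff.2 hy
  have e : ∀ z : ℝ, 0 < z → uc z / z = Real.cosh z / Real.sinh z := by
    intro z hz
    unfold uc
    field_simp
  rw [e x hx, e y hy, div_lt_div_iff₀ hsy hsx]
  have h := Real.sinh_sub y x
  have : 0 < Real.sinh (y - x) := Real.sinh_pos_iff.2 (sub_pos.2 hxy)
  nlinarith

private theorem uc_tendsto : Tendsto uc (𝓝[>] 0) (𝓝 1) := by
  have h1 : Tendsto (fun x : ℝ => x⁻¹ * Real.sinh x) (𝓝[>] 0) (𝓝 1) := by
    have h := (hasDerivAt_iff_tendsto_slope.1 (Real.hasDerivAt_sinh 0))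
    rw [Real.cosh_zero] at h
    have h2 := h.mono_left (nhdsWithin_mono (0:ℝ) (fun x (hx : x ∈ Ioi (0:ℝ)) => by
      simpa using hx.ne'))
    refine h2.congr fun x => ?_
    rw [slope_def_field, Real.sinh_zero, sub_zero, sub_zero, div_eq_mul_inv, mul_comm]
  have h2 : Tendsto (fun x : ℝ => Real.cosh x) (𝓝[>] 0) (𝓝 1) := by
    have := (Real.continuous_cosh.tendsto 0).mono_left (nhdsWithin_le_nhds (s := Ioi (0:ℝ)))
    rwa [Real.cosh_zero] at this
  have h3 := h2.div h1 one_ne_zero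
  rw [div_one] at h3
  refine h3.congr' ?_
  filter_upwards [self_mem_nhdsWithin] with x hx
  have hx0 : (0:ℝ) < x := hx
  have hs : 0 < Real.sinh x := Real.sinh_pos_iff.2 hx0
  show Real.cosh x / (x⁻¹ * Real.sinh x) = uc x
  unfold uc
  field_simp

/-- the scaled quotient -/
private def zq (A B U W s : ℝ) : ℝ :=
  1 - (B - A) / (B * U - A * W) - A * B * (B * (B + 3 * A) * U - A * (3 * B + A) * W) * (W - U) ^ 2 /
    (5 * (B - A) * (B * U - A * W) ^ 2 * (B * (U ^ 2 - s * A) + A * (W ^ 2 - s * B)))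

/-- `II ≥ 0` -/
private theorem ii_nonneg {A B U W s : ℝ} (hA : 0 < A) (hB : A < B) (hU : 0 < U) (hUW : U < W)
    (hc : 2 * (s * (A * B)) * (A + B) ≤ (B * U + A * W) ^ 2) :
    0 ≤ 2 * (B - A) * (B ^ 2 * U * (U ^ 2 - s * A) + A ^ 2 * W * (W ^ 2 - s * B)) -
      (B * U - A * W) ^ 3 := by
  have hB0 : 0 < B := hA.trans hB
  have hW : 0 < W := hU.trans hUW
  have key : (A + B) * (2 * (B - A) * (B ^ 2 * U * (U ^ 2 - s * A) + A ^ 2 * W * (W ^ 2 - s * B)) -
      (B * U - A * W) ^ 3) = 2 * A ^ 2 * B ^ 2 * (W - U) ^ 3 +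
      (B - A) * (B * U + A * W) * ((B * U + A * W) ^ 2 - 2 * (s * (A * B)) * (A + B)) := by
    ring
  have h1 : 0 ≤ 2 * A ^ 2 * B ^ 2 * (W - U) ^ 3 := by
    have : 0 < W - U := sub_pos.2 hUW
    positivity
  have h2 : 0 ≤ (B - A) * (B * U + A * W) * ((B * U + A * W) ^ 2 - 2 * (s * (A * B)) * (A + B)) := by
    have e1 : 0 < B - A := sub_pos.2 hB
    have e2 : 0 ≤ (B * U + A * W) ^ 2 - 2 * (s * (A * B)) * (A + B) := sub_nonneg.2 hc
    positivity
  have h3 : 0 < A + B := by positivity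
  by_contra hneg
  push Not at hneg
  have := mul_neg_of_pos_of_neg h3 hneg
  rw [key] at this
  linarith

private theorem dsq {f : ℝ → ℝ} {f' t : ℝ} (h : HasDerivAt f f' t) :
    HasDerivAt (fun t => f t ^ 2) (2 * f t * f') t := by
  have h2 := h.fun_pow 2
  refine h2.congr_deriv ?_
  simp

/-- the algebraic identity `Z + δZ = …`; `s = t²` -/
private theorem alg {A B u w s t d1 d2 : ℝ} (ht : t ≠ 0) (hBA : B - A ≠ 0) (h1 : d1 ≠ 0) (h2 : d2 ≠ 0)
    (hd1 : d1 = B * u - A * w) (hd2 : d2 = B * (u ^ 2 - s * A) + A * (w ^ 2 - s * B)) :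
    1 * (1 - (B - A) / d1 - A * B * (B * (B + 3 * A) * u - A * (3 * B + A) * w) * (w - u) ^ 2 /
        (5 * (B - A) * d1 ^ 2 * d2)) +
      t * (0 - (0 * d1 - (B - A) * (B * ((u - (u ^ 2 - s * A)) / t) - A * ((w - (w ^ 2 - s * B)) / t))) /
          d1 ^ 2 -
        ((A * B * (B * (B + 3 * A) * ((u - (u ^ 2 - s * A)) / t) -
            A * (3 * B + A) * ((w - (w ^ 2 - s * B)) / t)) * (w - u) ^ 2 +
          A * B * (B * (B + 3 * A) * u - A * (3 * B + A) * w) *
            (2 * (w - u) * ((w - (w ^ 2 - s * B)) / t - (u - (u ^ 2 - s * A)) / t))) *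
            (5 * (B - A) * d1 ^ 2 * d2) -
          A * B * (B * (B + 3 * A) * u - A * (3 * B + A) * w) * (w - u) ^ 2 *
            (5 * (B - A) * (2 * d1 * (B * ((u - (u ^ 2 - s * A)) / t) -
              A * ((w - (w ^ 2 - s * B)) / t))) * d2 +
            5 * (B - A) * d1 ^ 2 *
              (B * (2 * u * ((u - (u ^ 2 - s * A)) / t) - 2 * s / t * A) +
                A * (2 * w * ((w - (w ^ 2 - s * B)) / t) - 2 * s / t * B)))) /
          (5 * (B - A) * d1 ^ 2 * d2) ^ 2) =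
      2 * A * B * (w - u) *
      ((w ^ 2 - s * B) * ((A + B) * u - 2 * A * w) +
        (u ^ 2 - s * A) * ((A + B) * w - 2 * B * u)) *
      (2 * (B - A) * (B ^ 2 * u * (u ^ 2 - s * A) + A ^ 2 * w * (w ^ 2 - s * B)) -
      d1 ^ 3) / (5 * (B - A) * d1 ^ 3 * d2 ^ 2) := by
  field_simp
  rw [hd1, hd2]
  ring

theorem kic {a b : ℝ} (ha : 0 < a) (hab : a < b)
    (hc : 2 * a ^ 2 * b ^ 2 * (a ^ 2 + b ^ 2) ≤ (b ^ 2 * uc a + a ^ 2 * uc b) ^ 2) :
    0 ≤ (b ^ 2 - a ^ 2) * (b ^ 2 * uc a - a ^ 2 * uc b) ^ 2 * kD2 (a ^ 2) (b ^ 2) (uc a) (uc b)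
      - (b ^ 2 - a ^ 2) ^ 2 * (b ^ 2 * uc a - a ^ 2 * uc b) * kD2 (a ^ 2) (b ^ 2) (uc a) (uc b)
      - a ^ 2 * b ^ 2 * kM3 (a ^ 2) (b ^ 2) (uc a) (uc b) * (uc b - uc a) ^ 2 / 5 := by
  have hb : 0 < b := ha.trans hab
  set A : ℝ := a ^ 2 with hAdef
  set B : ℝ := b ^ 2 with hBdef
  have hA : 0 < A := by positivity
  have hB : 0 < B := by positivity
  have hAB : A < B := by
    rw [hAdef, hBdef]; exact pow_lt_pow_left₀ hab ha.le two_ne_zero
  have hBA : 0 < B - A := sub_pos.2 hAB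
  -- the functions
  let U : ℝ → ℝ := fun t => uc (t * a)
  let W : ℝ → ℝ := fun t => uc (t * b)
  have hUpos : ∀ t, 0 < t → 0 < U t := fun t ht => uc_pos (mul_pos ht ha)
  have hWpos : ∀ t, 0 < t → 0 < W t := fun t ht => uc_pos (mul_pos ht hb)
  have hUW : ∀ t, 0 < t → U t < W t := fun t ht =>
    uc_lt (mul_pos ht ha) (mul_lt_mul_of_pos_left hab ht)
  have hP : ∀ t, 0 < t → 0 < U t ^ 2 - t ^ 2 * A := fun t ht => by
    have := uc_sq_sub (mul_pos ht ha)
    rw [mul_pow] at this; exact this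
  have hQ : ∀ t, 0 < t → 0 < W t ^ 2 - t ^ 2 * B := fun t ht => by
    have := uc_sq_sub (mul_pos ht hb)
    rw [mul_pow] at this; exact this
  have hD1 : ∀ t, 0 < t → 0 < B * U t - A * W t := fun t ht => by
    have h := coth_lt (mul_pos ht ha) (mul_lt_mul_of_pos_left hab ht)
    rw [div_lt_div_iff₀ (mul_pos ht hb) (mul_pos ht ha)] at h
    have h1 : W t * a < U t * b := by
      have : t * (W t * a) < t * (U t * b) := by
        calc t * (W t * a) = uc (t * b) * (t * a) := by simp only [W]; ring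
          _ < uc (t * a) * (t * b) := h
          _ = t * (U t * b) := by simp only [U]; ring
      exact lt_of_mul_lt_mul_left this ht.le
    have h2 : A * W t < a * (U t * b) := by
      rw [hAdef]; nlinarith
    have h3 : a * (U t * b) < B * U t := by
      rw [hBdef]
      have := mul_pos (mul_pos hb (hUpos t ht)) (sub_pos.2 hab)
      nlinarith
    linarith
  have hD2 : ∀ t, 0 < t → 0 < B * (U t ^ 2 - t ^ 2 * A) + A * (W t ^ 2 - t ^ 2 * B) :=
    fun t ht => by
      have := hP t ht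
      have := hQ t ht
      positivity
  have hUd : ∀ t, 0 < t → HasDerivAt U ((U t - (U t ^ 2 - t ^ 2 * A)) / t) t := fun t ht => by
    have h := (uc_deriv (mul_pos ht ha)).comp t ((hasDerivAt_id t).mul_const a)
    refine h.congr_deriv ?_
    simp only [U, hAdef]
    field_simp
  have hWd : ∀ t, 0 < t → HasDerivAt W ((W t - (W t ^ 2 - t ^ 2 * B)) / t) t := fun t ht => by
    have h := (uc_deriv (mul_pos ht hb)).comp t ((hasDerivAt_id t).mul_const b)
    refine h.congr_deriv ?_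
    simp only [W, hBdef]
    field_simp
  -- the constraint
  have hcon : ∀ t, 0 < t → t ≤ 1 → 2 * (t ^ 2 * (A * B)) * (A + B) ≤ (B * U t + A * W t) ^ 2 := by
    intro t ht ht1
    have hu : t * uc a ≤ U t := by
      rcases ht1.eq_or_lt with h | h
      · rw [h]; simp [U]
      · have h1 : t * a < a := by nlinarith
        have h2 := coth_lt (mul_pos ht ha) h1
        rw [div_lt_div_iff₀ ha (mul_pos ht ha)] at h2
        have : a * (t * uc a) < a * U t := by
          simp only [U]; nlinarith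
        exact (lt_of_mul_lt_mul_left this ha.le).le
    have hw : t * uc b ≤ W t := by
      rcases ht1.eq_or_lt with h | h
      · rw [h]; simp [W]
      · have h1 : t * b < b := by nlinarith
        have h2 := coth_lt (mul_pos ht hb) h1
        rw [div_lt_div_iff₀ hb (mul_pos ht hb)] at h2
        have : b * (t * uc b) < b * W t := by
          simp only [W]; nlinarith
        exact (lt_of_mul_lt_mul_left this hb.le).le
    have h0 : 0 ≤ B * uc a + A * uc b := by
      have := uc_pos ha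
      have := uc_pos hb
      positivity
    have h1 : t * (B * uc a + A * uc b) ≤ B * U t + A * W t := by nlinarith
    have h2 : (t * (B * uc a + A * uc b)) ^ 2 ≤ (B * U t + A * W t) ^ 2 :=
      pow_le_pow_left₀ (by positivity) h1 2
    have h3 : t ^ 2 * (2 * A * B * (A + B)) ≤ t ^ 2 * (B * uc a + A * uc b) ^ 2 :=
      mul_le_mul_of_nonneg_left hc (by positivity)
    nlinarith
  -- the function zeta
  let ζ : ℝ → ℝ := fun t => t * zq A B (U t) (W t) (t ^ 2)
  have hζd : ∀ t, 0 < t → HasDerivAt ζ (2 * A * B * (W t - U t) *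
      ((W t ^ 2 - t ^ 2 * B) * ((A + B) * U t - 2 * A * W t) +
        (U t ^ 2 - t ^ 2 * A) * ((A + B) * W t - 2 * B * U t)) *
      (2 * (B - A) * (B ^ 2 * U t * (U t ^ 2 - t ^ 2 * A) + A ^ 2 * W t * (W t ^ 2 - t ^ 2 * B)) -
      (B * U t - A * W t) ^ 3) / (5 * (B - A) * (B * U t - A * W t) ^ 3 *
        (B * (U t ^ 2 - t ^ 2 * A) + A * (W t ^ 2 - t ^ 2 * B)) ^ 2)) t := by
    intro t ht
    have h1 := hUd t ht
    have h2 := hWd t ht
    have ht0 := ht.ne'
    have hs : HasDerivAt (fun t : ℝ => t ^ 2) (2 * t ^ 2 / t) t := by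
      have h := hasDerivAt_pow 2 t
      refine h.congr_deriv ?_
      field_simp
      norm_num
    have hd1 : HasDerivAt (fun t => B * U t - A * W t) _ t := (h1.const_mul B).sub (h2.const_mul A)
    have hd2 : HasDerivAt (fun t => B * (U t ^ 2 - t ^ 2 * A) + A * (W t ^ 2 - t ^ 2 * B)) _ t :=
      (((dsq h1).sub (hs.mul_const A)).const_mul B).add
        (((dsq h2).sub (hs.mul_const B)).const_mul A)
    have hm3 : HasDerivAt (fun t => A * B * (B * (B + 3 * A) * U t - A * (3 * B + A) * W t)) _ t :=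
      ((h1.const_mul (B * (B + 3 * A))).sub (h2.const_mul (A * (3 * B + A)))).const_mul (A * B)
    have hwu : HasDerivAt (fun t => W t - U t) _ t := h2.sub h1
    have hnum : HasDerivAt (fun t => A * B * (B * (B + 3 * A) * U t - A * (3 * B + A) * W t) *
        (W t - U t) ^ 2) _ t := hm3.mul (dsq hwu)
    have hden : HasDerivAt (fun t => 5 * (B - A) * (B * U t - A * W t) ^ 2 *
        (B * (U t ^ 2 - t ^ 2 * A) + A * (W t ^ 2 - t ^ 2 * B))) _ t :=
      ((dsq hd1).const_mul (5 * (B - A))).mul hd2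
    have e1 := (hD1 t ht).ne'
    have e2 := (hD2 t ht).ne'
    have e3 := hBA.ne'
    have hden0 : 5 * (B - A) * (B * U t - A * W t) ^ 2 *
        (B * (U t ^ 2 - t ^ 2 * A) + A * (W t ^ 2 - t ^ 2 * B)) ≠ 0 := by
      have := hD1 t ht
      have := hD2 t ht
      positivity
    have hq : HasDerivAt (fun t => zq A B (U t) (W t) (t ^ 2)) _ t :=
      (((hasDerivAt_const t (1:ℝ)).sub ((hasDerivAt_const t (B - A)).div hd1 e1))).sub
        (hnum.div hden hden0)
    have hfin : HasDerivAt ζ _ t := (hasDerivAt_id t).mul hq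
    refine hfin.congr_deriv ?_
    exact alg ht0 e3 e1 e2 rfl rfl
  have hζ0 : ∀ t, 0 < t → t ≤ 1 → 0 ≤ (2 * A * B * (W t - U t) *
      ((W t ^ 2 - t ^ 2 * B) * ((A + B) * U t - 2 * A * W t) +
        (U t ^ 2 - t ^ 2 * A) * ((A + B) * W t - 2 * B * U t)) *
      (2 * (B - A) * (B ^ 2 * U t * (U t ^ 2 - t ^ 2 * A) + A ^ 2 * W t * (W t ^ 2 - t ^ 2 * B)) -
      (B * U t - A * W t) ^ 3) / (5 * (B - A) * (B * U t - A * W t) ^ 3 *
        (B * (U t ^ 2 - t ^ 2 * A) + A * (W t ^ 2 - t ^ 2 * B)) ^ 2)) := by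
    intro t ht ht1
    have h1 := sub_pos.2 (hUW t ht)
    have h2 := ii_nonneg hA hAB (hUpos t ht) (hUW t ht) (hcon t ht ht1)
    have h3 := hD1 t ht
    have h4 := hD2 t ht
    have h5 : 0 ≤ (W t ^ 2 - t ^ 2 * B) * ((A + B) * U t - 2 * A * W t) +
        (U t ^ 2 - t ^ 2 * A) * ((A + B) * W t - 2 * B * U t) := by
      have h := kib (mul_pos ht ha) (mul_lt_mul_of_pos_left hab ht)
      have e : kFI ((t * a) ^ 2) ((t * b) ^ 2) (uc (t * a)) (uc (t * b)) = t ^ 2 *
          ((W t ^ 2 - t ^ 2 * B) * ((A + B) * U t - 2 * A * W t) +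
        (U t ^ 2 - t ^ 2 * A) * ((A + B) * W t - 2 * B * U t)) := by
        simp only [kFI, U, W, hAdef, hBdef]
        ring
      rw [e] at h
      exact nonneg_of_mul_nonneg_right h (by positivity)
    positivity
  have hmono : MonotoneOn ζ (Ioc 0 1) := by
    refine monotoneOn_of_deriv_nonneg (convex_Ioc 0 1)
      (fun t ht => (hζd t ht.1).continuousAt.continuousWithinAt)
      (fun t ht => ?_) (fun t ht => ?_)
    · rw [interior_Ioc] at ht
      exact (hζd t ht.1).differentiableAt.differentiableWithinAt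
    · rw [interior_Ioc] at ht
      rw [(hζd t ht.1).deriv]
      exact hζ0 t ht.1 ht.2.le
  -- the limit at 0
  have hUt : Tendsto U (𝓝[>] 0) (𝓝 1) := by
    refine uc_tendsto.comp ?_
    refine tendsto_nhdsWithin_iff.2 ⟨?_, ?_⟩
    · have : Tendsto (fun t : ℝ => t * a) (𝓝 0) (𝓝 (0 * a)) := (continuous_mul_const a).tendsto 0
      rw [zero_mul] at this
      exact this.mono_left nhdsWithin_le_nhds
    · filter_upwards [self_mem_nhdsWithin] with t ht
      exact mul_pos ht ha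
  have hWt : Tendsto W (𝓝[>] 0) (𝓝 1) := by
    refine uc_tendsto.comp ?_
    refine tendsto_nhdsWithin_iff.2 ⟨?_, ?_⟩
    · have : Tendsto (fun t : ℝ => t * b) (𝓝 0) (𝓝 (0 * b)) := (continuous_mul_const b).tendsto 0
      rw [zero_mul] at this
      exact this.mono_left nhdsWithin_le_nhds
    · filter_upwards [self_mem_nhdsWithin] with t ht
      exact mul_pos ht hb
  have ht0 : Tendsto (fun t : ℝ => t) (𝓝[>] 0) (𝓝 0) := tendsto_id.mono_left nhdsWithin_le_nhds
  have hlim : Tendsto ζ (𝓝[>] 0) (𝓝 (0 * (1 - (B - A) / (B * 1 - A * 1) -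
      A * B * (B * (B + 3 * A) * 1 - A * (3 * B + A) * 1) * (1 - 1) ^ 2 /
    (5 * (B - A) * (B * 1 - A * 1) ^ 2 * (B * (1 ^ 2 - 0 ^ 2 * A) + A * (1 ^ 2 - 0 ^ 2 * B)))))) := by
    have hd1 := (hUt.const_mul B).sub (hWt.const_mul A)
    have hs := ht0.pow 2
    have hd2 := (((hUt.pow 2).sub (hs.mul_const A)).const_mul B).add
      (((hWt.pow 2).sub (hs.mul_const B)).const_mul A)
    have hm3 := ((hUt.const_mul (B * (B + 3 * A))).sub (hWt.const_mul (A * (3 * B + A)))).const_mul (A * B)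
    have hnum := hm3.mul ((hWt.sub hUt).pow 2)
    have hden := ((hd1.pow 2).const_mul (5 * (B - A))).mul hd2
    have e1 : B * 1 - A * 1 ≠ 0 := by
      rw [mul_one, mul_one]; exact hBA.ne'
    have e2 : 5 * (B - A) * (B * 1 - A * 1) ^ 2 * (B * (1 ^ 2 - 0 ^ 2 * A) + A * (1 ^ 2 - 0 ^ 2 * B)) ≠ 0 := by
      have : 0 < 5 * (B - A) * (B * 1 - A * 1) ^ 2 * (B * (1 ^ 2 - 0 ^ 2 * A) + A * (1 ^ 2 - 0 ^ 2 * B)) := by
        simp only [mul_one]
        norm_num
        positivity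
      exact this.ne'
    exact ht0.mul (((tendsto_const_nhds (x := (1:ℝ))).sub
      ((tendsto_const_nhds (x := (B - A))).div hd1 e1)).sub (hnum.div hden e2))
  rw [zero_mul] at hlim
  have hζ1 : 0 ≤ ζ 1 := by
    refine le_of_tendsto hlim ?_
    filter_upwards [Ioc_mem_nhdsGT (zero_lt_one' ℝ)] with t ht
    exact hmono ht ⟨one_pos, le_rfl⟩ ht.2
  have hz : 0 ≤ zq A B (uc a) (uc b) 1 := by
    have : ζ 1 = zq A B (uc a) (uc b) 1 := by
      simp [ζ, U, W]
    rw [← this]; exact hζ1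
  have hd1 : 0 < B * uc a - A * uc b := by
    have := hD1 1 one_pos
    simpa [U, W] using this
  have hd2 : 0 < kD2 A B (uc a) (uc b) := by
    have := hD2 1 one_pos
    simpa [U, W, kD2] using this
  have hfac : 0 ≤ (B - A) * (B * uc a - A * uc b) ^ 2 * kD2 A B (uc a) (uc b) *
      zq A B (uc a) (uc b) 1 := by positivity
  refine hfac.trans_eq ?_
  have e : zq A B (uc a) (uc b) 1 = 1 - (B - A) / (B * uc a - A * uc b) -
      A * B * kM3 A B (uc a) (uc b) * (uc b - uc a) ^ 2 /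
      (5 * (B - A) * (B * uc a - A * uc b) ^ 2 * kD2 A B (uc a) (uc b)) := by
    simp only [zq, kM3, kD2, one_mul]
  rw [e]
  have e1 := hd1.ne'
  have e2 := hd2.ne'
  have e3 := hBA.ne'
  generalize kD2 A B (uc a) (uc b) = d2 at *
  generalize kM3 A B (uc a) (uc b) = m3 at *
  generalize B * uc a - A * uc b = d1 at *
  field_simp

end B92K
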