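import Mathlib
import Pool.Agent.Lib.B92K.KIa
import Pool.Agent.Lib.B92K.KIb
import Pool.Agent.Lib.B92K.KIc

/-!
# MP_b92fc8_an, `kappa > 1`, module KId : the K-inequality in closed form

Notation as in KIa (`A = a²`, `B = b²`, `u = uc a`, `w = uc b`, `D1 = B u - A w`, `D0 = B u + A w`,
`p = u² - A`, `q = w² - B`). `X, r ≥ 0` real,
 (rel)  `r D2 / (A B) = 2 X² - (2+X)² A/u² - (2-X)² B/w²`,
 (dom)  `X D1 < 2 D0` (it is `W₁ > W₂`).
CLAIM `0 < r M3 / (A B) + (2+X)(X (B+3A) - (14 B - 6 A))/u + (2-X)(X (3B+A) + (14 A - 6 B))/w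
        + 40 (B - A)`.
PROOF. Insert `r` from (rel): the right side becomes a quadratic `E(X) = a2' X² + b2' X + c2'` with
(common denominator `D2 u² w²`)
 `a2' D2 u²w² = M3 (p w² + q u²) + D2 ((B+3A) u w² - (3B+A) w u²)` (`> 0` by KIa),
 `b2' D2 u²w² = 4 M3 (p w² - q u²) - 12 (B-A) D2 (u w² - w u²)`,
 `c2' D2 u²w² = -4 M3 (A w² + B u²) + D2 (-2 (14B-6A) u w² + 2 (14A-6B) w u² + 40 (B-A) u² w²)`.
Expand about `X_W = 2 D0 / D1`: `E(X) = E(X_W) + E'(X_W) (X - X_W) + a2' (X - X_W)²`, where EXACTLY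
(checked by polynomial arithmetic)
 `(2 a2' X_W + b2') D1 D2 u² w² = - 8 A B u w (w-u) F_I`   (`≤ 0` by KIb),
 `E(X_W) D1² D2 (B-A)... : (a2' X_W² + b2' X_W + c2') D1² D2 = 40 Zn`, `Zn` the expression of KIc.
`X < X_W`, so it remains `Zn ≥ 0`, i.e. the constraint of KIc: by (rel) and `r ≥ 0`,
`Q(X) := 2 X² - (2+X)² A/u² - (2-X)² B/w² ≥ 0`; `Q` is increasing on `X ≥ 0`
(`Q' = 2X (2 - A/u² - B/w²) + 4 (B/w² - A/u²)`, `A/u² = tanh² a < B/w² = tanh² b < 1`), so
`Q(X_W) ≥ 0`, and `Q(X_W) D1² = 8 (D0² - 2 A B (A + B))` (identity).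
`D1 > 0` because `u/A > w/B` (`coth a / a` decreasing), `w > u > 0`.
-/

set_option autoImplicit false

noncomputable section

namespace B92K

/-- the polynomial `P(X) = D2 u² w² E(X)`, expanded about `X_W = 2 D0 / D1`. -/
theorem KId_id2 (A B u w X : ℝ) :
    (B * u - A * w) ^ 2 * (kM3 A B u w * (2 * X ^ 2 * u ^ 2 * w ^ 2 - (2 + X) ^ 2 * A * w ^ 2
        - (2 - X) ^ 2 * B * u ^ 2)
      + kD2 A B u w * ((2 + X) * (X * (B + 3 * A) - (14 * B - 6 * A)) * u * w ^ 2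
        + (2 - X) * (X * (3 * B + A) + (14 * A - 6 * B)) * w * u ^ 2
        + 40 * (B - A) * u ^ 2 * w ^ 2))
      = (kM3 A B u w * ((u ^ 2 - A) * w ^ 2 + (w ^ 2 - B) * u ^ 2)
          + kD2 A B u w * ((B + 3 * A) * u * w ^ 2 - (3 * B + A) * w * u ^ 2))
          * (X * (B * u - A * w) - 2 * (B * u + A * w)) ^ 2
        + (8 * A * B * u * w * (w - u) * kFI A B u w)
          * (2 * (B * u + A * w) - X * (B * u - A * w))
        + 40 * u ^ 2 * w ^ 2 * ((B - A) * (B * u - A * w) ^ 2 * kD2 A B u w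
          - (B - A) ^ 2 * (B * u - A * w) * kD2 A B u w
          - A * B * kM3 A B u w * (w - u) ^ 2 / 5) := by
  unfold kM3 kD2 kFI
  ring

theorem KId_alg {A B u w X r : ℝ} (hA : 0 < A) (hAB : A < B) (hu : 0 < u) (huw : u < w)
    (hp : A < u ^ 2) (hq : B < w ^ 2) (hD1 : 0 < B * u - A * w) (hBA : A * w ^ 2 ≤ B * u ^ 2)
    (hX : 0 ≤ X) (hr : 0 ≤ r)
    (hrel : r * kD2 A B u w / (A * B)
      = 2 * X ^ 2 - (2 + X) ^ 2 * A / u ^ 2 - (2 - X) ^ 2 * B / w ^ 2)
    (hdom : X * (B * u - A * w) < 2 * (B * u + A * w))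
    (ha2 : 0 < kM3 A B u w * ((u ^ 2 - A) * w ^ 2 + (w ^ 2 - B) * u ^ 2)
      + kD2 A B u w * ((B + 3 * A) * u * w ^ 2 - (3 * B + A) * w * u ^ 2))
    (hFI : 0 ≤ kFI A B u w)
    (hZ : 2 * A * B * (A + B) ≤ (B * u + A * w) ^ 2 →
      0 ≤ (B - A) * (B * u - A * w) ^ 2 * kD2 A B u w
        - (B - A) ^ 2 * (B * u - A * w) * kD2 A B u w
        - A * B * kM3 A B u w * (w - u) ^ 2 / 5) :
    0 < r * kM3 A B u w / (A * B)
      + (2 + X) * (X * (B + 3 * A) - (14 * B - 6 * A)) / u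
      + (2 - X) * (X * (3 * B + A) + (14 * A - 6 * B)) / w
      + 40 * (B - A) := by
  have hB : 0 < B := hA.trans hAB
  have hw : 0 < w := hu.trans huw
  have hD2 : 0 < kD2 A B u w := by
    unfold kD2
    have h1 : 0 < B * (u ^ 2 - A) := mul_pos hB (by linarith)
    have h2 : 0 < A * (w ^ 2 - B) := mul_pos hA (by linarith)
    linarith
  -- the constraint of KIc
  have hQ : 0 ≤ 2 * X ^ 2 * u ^ 2 * w ^ 2 - (2 + X) ^ 2 * A * w ^ 2 - (2 - X) ^ 2 * B * u ^ 2 := by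
    have h1 : 0 ≤ r * kD2 A B u w / (A * B) := by positivity
    rw [hrel] at h1
    have h2 : 0 ≤ (2 * X ^ 2 - (2 + X) ^ 2 * A / u ^ 2 - (2 - X) ^ 2 * B / w ^ 2)
        * (u ^ 2 * w ^ 2) := mul_nonneg h1 (by positivity)
    have h3 : (2 * X ^ 2 - (2 + X) ^ 2 * A / u ^ 2 - (2 - X) ^ 2 * B / w ^ 2) * (u ^ 2 * w ^ 2)
        = 2 * X ^ 2 * u ^ 2 * w ^ 2 - (2 + X) ^ 2 * A * w ^ 2 - (2 - X) ^ 2 * B * u ^ 2 := by
      field_simp
    rwa [h3] at h2
  have hcon : 2 * A * B * (A + B) ≤ (B * u + A * w) ^ 2 := by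
    -- `Q` at `X_W`
    have hs : 0 < 2 * (B * u + A * w) - X * (B * u - A * w) := by linarith
    have hid : 8 * u ^ 2 * w ^ 2 * ((B * u + A * w) ^ 2 - 2 * A * B * (A + B))
        = (B * u - A * w) ^ 2 * (2 * X ^ 2 * u ^ 2 * w ^ 2 - (2 + X) ^ 2 * A * w ^ 2
            - (2 - X) ^ 2 * B * u ^ 2)
          + (2 * (B * u + A * w) - X * (B * u - A * w))
            * ((2 * (B * u + A * w) + X * (B * u - A * w))
                * ((u ^ 2 - A) * w ^ 2 + (w ^ 2 - B) * u ^ 2)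
              + 4 * (B * u - A * w) * (B * u ^ 2 - A * w ^ 2)) := by
      ring
    have h1 : 0 ≤ (B * u - A * w) ^ 2 * (2 * X ^ 2 * u ^ 2 * w ^ 2 - (2 + X) ^ 2 * A * w ^ 2
            - (2 - X) ^ 2 * B * u ^ 2) := mul_nonneg (sq_nonneg _) hQ
    have h2 : 0 ≤ 2 * (B * u + A * w) + X * (B * u - A * w) := by positivity
    have h3 : 0 ≤ (u ^ 2 - A) * w ^ 2 + (w ^ 2 - B) * u ^ 2 := by
      have := mul_nonneg (sub_nonneg.2 hp.le) (sq_nonneg w)
      have := mul_nonneg (sub_nonneg.2 hq.le) (sq_nonneg u)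
      linarith
    have h4 : 0 ≤ 4 * (B * u - A * w) * (B * u ^ 2 - A * w ^ 2) :=
      mul_nonneg (by linarith) (by linarith)
    have h5 := mul_nonneg hs.le (add_nonneg (mul_nonneg h2 h3) h4)
    have h6 : 0 ≤ 8 * u ^ 2 * w ^ 2 * ((B * u + A * w) ^ 2 - 2 * A * B * (A + B)) := by
      rw [hid]; linarith
    have h7 : 0 < 8 * u ^ 2 * w ^ 2 := by positivity
    have h8 := nonneg_of_mul_nonneg_right h6 h7
    linarith
  have hZn := hZ hcon
  -- the polynomial
  have hP : 0 < kM3 A B u w * (2 * X ^ 2 * u ^ 2 * w ^ 2 - (2 + X) ^ 2 * A * w ^ 2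
        - (2 - X) ^ 2 * B * u ^ 2)
      + kD2 A B u w * ((2 + X) * (X * (B + 3 * A) - (14 * B - 6 * A)) * u * w ^ 2
        + (2 - X) * (X * (3 * B + A) + (14 * A - 6 * B)) * w * u ^ 2
        + 40 * (B - A) * u ^ 2 * w ^ 2) := by
    have hs : X * (B * u - A * w) - 2 * (B * u + A * w) < 0 := by linarith
    have h1 := mul_pos ha2 (pow_pos (neg_pos.2 hs) 2)
    rw [neg_sq] at h1
    have h2 : 0 ≤ (8 * A * B * u * w * (w - u) * kFI A B u w)
          * (2 * (B * u + A * w) - X * (B * u - A * w)) := by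
      have : 0 ≤ w - u := by linarith
      have h' : 0 ≤ 2 * (B * u + A * w) - X * (B * u - A * w) := by linarith
      positivity
    have h3 : 0 ≤ 40 * u ^ 2 * w ^ 2 * ((B - A) * (B * u - A * w) ^ 2 * kD2 A B u w
          - (B - A) ^ 2 * (B * u - A * w) * kD2 A B u w
          - A * B * kM3 A B u w * (w - u) ^ 2 / 5) := mul_nonneg (by positivity) hZn
    have h4 := KId_id2 A B u w X
    have h5 : 0 < (B * u - A * w) ^ 2 * (kM3 A B u w * (2 * X ^ 2 * u ^ 2 * w ^ 2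
          - (2 + X) ^ 2 * A * w ^ 2 - (2 - X) ^ 2 * B * u ^ 2)
      + kD2 A B u w * ((2 + X) * (X * (B + 3 * A) - (14 * B - 6 * A)) * u * w ^ 2
        + (2 - X) * (X * (3 * B + A) + (14 * A - 6 * B)) * w * u ^ 2
        + 40 * (B - A) * u ^ 2 * w ^ 2)) := by
      rw [h4]; linarith
    exact pos_of_mul_pos_right h5 (sq_nonneg _)
  -- back to the fractions
  have hrM : r * kM3 A B u w / (A * B)
      = (2 * X ^ 2 * u ^ 2 * w ^ 2 - (2 + X) ^ 2 * A * w ^ 2 - (2 - X) ^ 2 * B * u ^ 2)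
        * kM3 A B u w / (kD2 A B u w * u ^ 2 * w ^ 2) := by
    have h1 : r / (A * B) = (2 * X ^ 2 - (2 + X) ^ 2 * A / u ^ 2 - (2 - X) ^ 2 * B / w ^ 2)
        / kD2 A B u w := by
      rw [← hrel]; field_simp
    have h2 : r * kM3 A B u w / (A * B) = r / (A * B) * kM3 A B u w := by ring
    rw [h2, h1]
    field_simp
  have hfin : r * kM3 A B u w / (A * B)
      + (2 + X) * (X * (B + 3 * A) - (14 * B - 6 * A)) / u
      + (2 - X) * (X * (3 * B + A) + (14 * A - 6 * B)) / w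
      + 40 * (B - A)
      = (kM3 A B u w * (2 * X ^ 2 * u ^ 2 * w ^ 2 - (2 + X) ^ 2 * A * w ^ 2
        - (2 - X) ^ 2 * B * u ^ 2)
      + kD2 A B u w * ((2 + X) * (X * (B + 3 * A) - (14 * B - 6 * A)) * u * w ^ 2
        + (2 - X) * (X * (3 * B + A) + (14 * A - 6 * B)) * w * u ^ 2
        + 40 * (B - A) * u ^ 2 * w ^ 2)) / (kD2 A B u w * u ^ 2 * w ^ 2) := by
    rw [hrM]
    field_simp
    ring
  rw [hfin]
  exact div_pos hP (by positivity)

/-- `sinh t / t` is increasing: `y sinh x > x sinh y` for `0 < y < x`. -/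
theorem KId_sinh {x y : ℝ} (hy : 0 < y) (hxy : y < x) : x * Real.sinh y < y * Real.sinh x := by
  have hpos : ∀ t : ℝ, 0 < t → 0 < t * Real.cosh t - Real.sinh t := by
    intro z hz
    have hmono : StrictMonoOn (fun t : ℝ => t * Real.cosh t - Real.sinh t) (Set.Ici 0) := by
      apply strictMonoOn_of_deriv_pos (convex_Ici 0)
      · exact ((continuous_id.mul Real.continuous_cosh).sub Real.continuous_sinh).continuousOn
      · intro t ht
        rw [interior_Ici] at ht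
        have hd : HasDerivAt (fun t : ℝ => t * Real.cosh t - Real.sinh t)
            (1 * Real.cosh t + t * Real.sinh t - Real.cosh t) t :=
          ((hasDerivAt_id t).mul (Real.hasDerivAt_cosh t)).sub (Real.hasDerivAt_sinh t)
        rw [hd.deriv]
        have ht' : 0 < t := ht
        have hs : 0 < Real.sinh t := Real.sinh_pos_iff.2 ht'
        have := mul_pos ht' hs
        linarith
    have := hmono (Set.mem_Ici.2 le_rfl) (Set.mem_Ici.2 hz.le) hz
    simpa using this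
  have hmono : StrictMonoOn (fun t : ℝ => Real.sinh t / t) (Set.Ioi 0) := by
    apply strictMonoOn_of_deriv_pos (convex_Ioi 0)
    · apply ContinuousOn.div Real.continuous_sinh.continuousOn continuousOn_id
      intro t ht
      exact (ne_of_gt ht)
    · intro t ht
      rw [interior_Ioi] at ht
      have ht' : 0 < t := ht
      have hd : HasDerivAt (fun t : ℝ => Real.sinh t / t)
          ((Real.cosh t * t - Real.sinh t * 1) / t ^ 2) t :=
        (Real.hasDerivAt_sinh t).div (hasDerivAt_id t) ht'.ne'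
      rw [hd.deriv]
      have := hpos t ht'
      apply div_pos _ (by positivity)
      linarith
  have hx : 0 < x := hy.trans hxy
  have h := hmono (Set.mem_Ioi.2 hy) (Set.mem_Ioi.2 hx) hxy
  simp only at h
  rw [div_lt_div_iff₀ hy hx] at h
  linarith

theorem kid {a b X r : ℝ} (ha : 0 < a) (hab : a < b) (hX : 0 ≤ X) (hr : 0 ≤ r)
    (hrel : r * kD2 (a ^ 2) (b ^ 2) (uc a) (uc b) / (a ^ 2 * b ^ 2)
      = 2 * X ^ 2 - (2 + X) ^ 2 * a ^ 2 / uc a ^ 2 - (2 - X) ^ 2 * b ^ 2 / uc b ^ 2)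
    (hdom : X * (b ^ 2 * uc a - a ^ 2 * uc b) < 2 * (b ^ 2 * uc a + a ^ 2 * uc b)) :
    0 < r * kM3 (a ^ 2) (b ^ 2) (uc a) (uc b) / (a ^ 2 * b ^ 2)
      + (2 + X) * (X * (b ^ 2 + 3 * a ^ 2) - (14 * b ^ 2 - 6 * a ^ 2)) / uc a
      + (2 - X) * (X * (3 * b ^ 2 + a ^ 2) + (14 * a ^ 2 - 6 * b ^ 2)) / uc b
      + 40 * (b ^ 2 - a ^ 2) := by
  have hb : 0 < b := ha.trans hab
  have hsa : 0 < Real.sinh a := Real.sinh_pos_iff.2 ha
  have hsb : 0 < Real.sinh b := Real.sinh_pos_iff.2 hb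
  have hca : 0 < Real.cosh a := Real.cosh_pos a
  have hcb : 0 < Real.cosh b := Real.cosh_pos b
  have hqa : Real.cosh a ^ 2 = Real.sinh a ^ 2 + 1 := Real.cosh_sq a
  have hqb : Real.cosh b ^ 2 = Real.sinh b ^ 2 + 1 := Real.cosh_sq b
  have hua : uc a * Real.sinh a = a * Real.cosh a := by
    unfold uc; field_simp
  have hub : uc b * Real.sinh b = b * Real.cosh b := by
    unfold uc; field_simp
  have hu : 0 < uc a := by unfold uc; positivity
  have hw : 0 < uc b := by unfold uc; positivity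
  -- `u < w`
  have huw : uc a < uc b := by
    have h1 := KId_sinh (x := b + a) (y := b - a) (by linarith) (by linarith)
    rw [Real.sinh_add, Real.sinh_sub] at h1
    unfold uc
    rw [div_lt_div_iff₀ hsa hsb]
    nlinarith [h1]
  -- `coth a > coth b`
  have hcoth : Real.cosh b * Real.sinh a < Real.cosh a * Real.sinh b := by
    have h1 : 0 < Real.sinh (b - a) := Real.sinh_pos_iff.2 (by linarith)
    rw [Real.sinh_sub] at h1
    linarith
  have hcomp : a * uc b < b * uc a := by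
    unfold uc
    rw [← mul_div_assoc, ← mul_div_assoc, div_lt_div_iff₀ hsb hsa]
    have := mul_lt_mul_of_pos_left hcoth (mul_pos ha hb)
    nlinarith [this]
  have hp : a ^ 2 < uc a ^ 2 := by
    have h1 : uc a ^ 2 - a ^ 2 = a ^ 2 / Real.sinh a ^ 2 := by
      unfold uc
      field_simp
      linear_combination hqa
    have h2 : 0 < a ^ 2 / Real.sinh a ^ 2 := by positivity
    linarith
  have hq : b ^ 2 < uc b ^ 2 := by
    have h1 : uc b ^ 2 - b ^ 2 = b ^ 2 / Real.sinh b ^ 2 := by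
      unfold uc
      field_simp
      linear_combination hqb
    have h2 : 0 < b ^ 2 / Real.sinh b ^ 2 := by positivity
    linarith
  have hD1 : 0 < b ^ 2 * uc a - a ^ 2 * uc b := by
    have h1 : a * (a * uc b) < b * (b * uc a) :=
      mul_lt_mul'' hab hcomp ha.le (by positivity)
    nlinarith [h1]
  have hBA : a ^ 2 * uc b ^ 2 ≤ b ^ 2 * uc a ^ 2 := by
    have h1 := pow_le_pow_left₀ (by positivity) hcomp.le 2
    rw [mul_pow, mul_pow] at h1
    exact h1
  have hA : 0 < a ^ 2 := by positivity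
  have hAB : a ^ 2 < b ^ 2 := pow_lt_pow_left₀ hab ha.le (by norm_num)
  refine KId_alg hA hAB hu huw hp hq hD1 hBA hX hr hrel hdom (kia ha hab) (kib ha hab) ?_
  intro hc
  exact kic ha hab hc

end B92K
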