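import Mathlib
import Pool.Agent.Lib.B92K.Ok
import Pool.Agent.Lib.B92K.KId

/-!
# MP_b92fc8_an, `kappa > 1`, module PairK : the K-lemma for matched points

PROOF. Write `π = nu/2 (P S + M W)`, `κ = nu/2 (P W - M S)`, so `F = 1+N A+π`, `F~ = 1+N A-π`,
`G = 1-N A-κ`, `G~ = 1-N A+κ`; `S = (P π - M κ)/(nu N)`, `W = (M π + P κ)/(nu N)` (use `P²+M² = 2N`,
`nu² = N`), `π² + κ² = 2 N² A²`. Let `a := log (F x / F y) / 2 > 0`, `b := P a / M > a`.
`T x = T y` gives `G x = G y e^{-2b}`; `H x = H y` gives `F~ x = F~ y e^{-2a}` (fF_mul) and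
`(G G~) x = (G G~) y`, so `G~ x = G~ y e^{2b}`. With `c = coth a, d = coth b` (`uc a = a c`, ...),
`X := N (A_x + A_y)`, `ρ := A_x - A_y`:
 `π_x + π_y = N ρ c`, `π_x - π_y = (2+X)/c`, `κ_x + κ_y = - N ρ d`, `κ_x - κ_y = (2-X)/d`.
 (e.g. from `F_x = E F_y`, `F~_x = F~_y / E`, `E = e^{2a}`, `c = (E+1)/(E-1)`: linear equations.)
 * (rel) of KId with `r = N² ρ²`: add `π² + κ² = 2 N² A²` for x and y.
 * (dom): `W_x > W_y` is `M (π_x - π_y) + P (κ_x - κ_y) > 0`, i.e. `(2+X) M/c + (2-X) P/d > 0`,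
   `P/M = b/a`, i.e. `(2+X) a² w + (2-X) b² u > 0`.
 * `N nu Alg = P π ((N - 1/2) A - 1 - 5/(2N)) + M κ ((N + 1/2) A + 1 - 5/(2N))` (identity), and
   `Z x - Z y = 5/(2N² nu) (P (N+1-N H) 2a + M (N(H-1)+1) 2b) + Alg x - Alg y
             = 10 P a/(N² nu) + Alg x - Alg y`  (`P a = M b`), so
   `4 N² nu (Z x - Z y)/M = r ((P/M)(2N-1) c - (2N+1) d) + (P/M)(2+X)(X(2N-1) - 4N - 10)/c
        + (2-X)(X(2N+1) + 4N - 10)/d + 40 P a/M`  (checked numerically); EXACTLY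
   `(b²-a²)/b * [4 N² nu (Z x - Z y)/M] =` (expression of KId), because
   `P²/M² = (N+1)/(N-1) = b²/a²` gives `N = (b²+a²)/(b²-a²)`, `c = uc a / a`, `d = uc b / b`,
   `P/M = b/a`.
-/

set_option autoImplicit false

noncomputable section

namespace B92K

theorem pairK_el {p q a : ℝ} (h : p = q * Real.exp (2 * a)) :
    (p - q) * Real.cosh a = (p + q) * Real.sinh a := by
  have h1 : Real.exp (2 * a) = Real.exp a * Real.exp a := by rw [← Real.exp_add]; ring_nf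
  have h2 : Real.exp a * Real.exp (-a) = 1 := by rw [← Real.exp_add]; simp
  rw [Real.cosh_eq, Real.sinh_eq, h, h1]
  linear_combination (q * Real.exp a) * h2

theorem pairK_uc {a : ℝ} (ha : 0 < a) : uc a * Real.sinh a = a * Real.cosh a := by
  have : 0 < Real.sinh a := Real.sinh_pos_iff.2 ha
  unfold uc; field_simp

/-- from `F_x = E F_y`, `F~_x = F~_y / E`. -/
theorem pairK_lin {a s q1 q2 R : ℝ} (ha : 0 < a)
    (h1 : (R + (q1 - q2)) * Real.cosh a = (s + (q1 + q2)) * Real.sinh a)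
    (h2 : (R - (q1 - q2)) * Real.cosh a = -((s - (q1 + q2)) * Real.sinh a)) :
    (q1 + q2) * a = R * uc a ∧ (q1 - q2) * uc a = s * a := by
  have hs : 0 < Real.sinh a := Real.sinh_pos_iff.2 ha
  have hu := pairK_uc ha
  constructor
  · apply mul_right_cancel₀ hs.ne'
    linear_combination (-a / 2) * h1 + (-a / 2) * h2 - R * hu
  · apply mul_right_cancel₀ hs.ne'
    linear_combination (a / 2) * h1 - (a / 2) * h2 + (q1 - q2) * hu

/-- the pure algebra. -/
theorem pairK_alg {a b N P M nu lam u w : ℝ} {Ax Sx Wx Ay Sy Wy : ℝ}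
    (ha : 0 < a) (hab : a < b) (hu : 0 < u) (hw : 0 < w)
    (hN : 1 < N) (hnu : 0 < nu) (hnu2 : nu ^ 2 = N) (hP : 0 < P) (hP2 : P ^ 2 = N + 1)
    (hM : 0 < M) (hM2 : M ^ 2 = N - 1) (hPM : P * M = lam) (hPa : P * a = M * b)
    (c1 : (nu / 2 * (P * Sx + M * Wx) + nu / 2 * (P * Sy + M * Wy)) * a
      = (N * (Ax - Ay)) * u)
    (c2 : (nu / 2 * (P * Sx + M * Wx) - nu / 2 * (P * Sy + M * Wy)) * u
      = (2 + N * (Ax + Ay)) * a)
    (c3 : (nu / 2 * (P * Wx - M * Sx) + nu / 2 * (P * Wy - M * Sy)) * b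
      = -(N * (Ax - Ay)) * w)
    (c4 : (nu / 2 * (P * Wx - M * Sx) - nu / 2 * (P * Wy - M * Sy)) * w
      = (2 - N * (Ax + Ay)) * b)
    (hkx : Sx ^ 2 + Wx ^ 2 = 4 * Ax ^ 2) (hky : Sy ^ 2 + Wy ^ 2 = 4 * Ay ^ 2)
    (hAx : 0 < Ax) (hAy : 0 < Ay) (hW : Wy < Wx)
    (kid : ∀ X r : ℝ, 0 ≤ X → 0 ≤ r →
      r * kD2 (a ^ 2) (b ^ 2) u w / (a ^ 2 * b ^ 2)
        = 2 * X ^ 2 - (2 + X) ^ 2 * a ^ 2 / u ^ 2 - (2 - X) ^ 2 * b ^ 2 / w ^ 2 →
      X * (b ^ 2 * u - a ^ 2 * w) < 2 * (b ^ 2 * u + a ^ 2 * w) →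
      0 < r * kM3 (a ^ 2) (b ^ 2) u w / (a ^ 2 * b ^ 2)
        + (2 + X) * (X * (b ^ 2 + 3 * a ^ 2) - (14 * b ^ 2 - 6 * a ^ 2)) / u
        + (2 - X) * (X * (3 * b ^ 2 + a ^ 2) + (14 * a ^ 2 - 6 * b ^ 2)) / w
        + 40 * (b ^ 2 - a ^ 2)) :
    0 < 10 * P * a / (N ^ 2 * nu)
      + (Ax * Sx / 2 + lam * Ax * Wx - (1 + 5 / (2 * N ^ 2)) * Sx - 5 * lam / (2 * N ^ 2) * Wx)
      - (Ay * Sy / 2 + lam * Ay * Wy - (1 + 5 / (2 * N ^ 2)) * Sy
        - 5 * lam / (2 * N ^ 2) * Wy) := by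
  have hb : 0 < b := ha.trans hab
  have hN0 : 0 < N := by linarith
  set qx := nu / 2 * (P * Sx + M * Wx) with hqx
  set qy := nu / 2 * (P * Sy + M * Wy) with hqy
  set kx := nu / 2 * (P * Wx - M * Sx) with hkx'
  set ky := nu / 2 * (P * Wy - M * Sy) with hky'
  have eSx : nu * N * Sx = P * qx - M * kx := by
    rw [hqx, hkx']; linear_combination (-nu * Sx / 2) * hP2 - (nu * Sx / 2) * hM2
  have eSy : nu * N * Sy = P * qy - M * ky := by
    rw [hqy, hky']; linear_combination (-nu * Sy / 2) * hP2 - (nu * Sy / 2) * hM2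
  have eWx : nu * N * Wx = M * qx + P * kx := by
    rw [hqx, hkx']; linear_combination (-nu * Wx / 2) * hP2 - (nu * Wx / 2) * hM2
  have eWy : nu * N * Wy = M * qy + P * ky := by
    rw [hqy, hky']; linear_combination (-nu * Wy / 2) * hP2 - (nu * Wy / 2) * hM2
  have rx : qx ^ 2 + kx ^ 2 = 2 * N ^ 2 * Ax ^ 2 := by
    rw [hqx, hkx']
    linear_combination (N ^ 2 / 2) * hkx + (1 / 4 * (P ^ 2 + M ^ 2) * (Sx ^ 2 + Wx ^ 2)) * hnu2
      + (N / 4 * (Sx ^ 2 + Wx ^ 2)) * hP2 + (N / 4 * (Sx ^ 2 + Wx ^ 2)) * hM2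
  have ry : qy ^ 2 + ky ^ 2 = 2 * N ^ 2 * Ay ^ 2 := by
    rw [hqy, hky']
    linear_combination (N ^ 2 / 2) * hky + (1 / 4 * (P ^ 2 + M ^ 2) * (Sy ^ 2 + Wy ^ 2)) * hnu2
      + (N / 4 * (Sy ^ 2 + Wy ^ 2)) * hP2 + (N / 4 * (Sy ^ 2 + Wy ^ 2)) * hM2
  set X := N * (Ax + Ay) with hX
  set R := N * (Ax - Ay) with hR
  clear_value qx qy kx ky
  have e1 : qx + qy = R * u / a := by rw [eq_div_iff ha.ne']; exact c1
  have e2 : qx - qy = (2 + X) * a / u := by rw [eq_div_iff hu.ne']; exact c2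
  have e3 : kx + ky = -(R * w / b) := by
    rw [← neg_div, eq_div_iff hb.ne', c3]; ring
  have e4 : kx - ky = (2 - X) * b / w := by rw [eq_div_iff hw.ne']; exact c4
  have hX0 : 0 ≤ X := by positivity
  have hrel : R ^ 2 * kD2 (a ^ 2) (b ^ 2) u w / (a ^ 2 * b ^ 2)
        = 2 * X ^ 2 - (2 + X) ^ 2 * a ^ 2 / u ^ 2 - (2 - X) ^ 2 * b ^ 2 / w ^ 2 := by
    have h1 : (qx + qy) ^ 2 + (qx - qy) ^ 2 + (kx + ky) ^ 2 + (kx - ky) ^ 2
        = 2 * X ^ 2 + 2 * R ^ 2 := by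
      rw [hX, hR]; linear_combination 2 * rx + 2 * ry
    rw [e1, e2, e3, e4] at h1
    have h2 : R ^ 2 * kD2 (a ^ 2) (b ^ 2) u w / (a ^ 2 * b ^ 2)
        = (R * u / a) ^ 2 + (-(R * w / b)) ^ 2 - 2 * R ^ 2 := by
      unfold kD2; field_simp; ring
    have h3 : (2 + X) ^ 2 * a ^ 2 / u ^ 2 = ((2 + X) * a / u) ^ 2 := by ring
    have h4 : (2 - X) ^ 2 * b ^ 2 / w ^ 2 = ((2 - X) * b / w) ^ 2 := by ring
    rw [h2, h3, h4]; linarith
  have hdom : X * (b ^ 2 * u - a ^ 2 * w) < 2 * (b ^ 2 * u + a ^ 2 * w) := by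
    have h1 : 0 < M * (qx - qy) + P * (kx - ky) := by
      have : M * (qx - qy) + P * (kx - ky) = nu * N * (Wx - Wy) := by
        linear_combination -eWx + eWy
      rw [this]
      have : 0 < Wx - Wy := by linarith
      positivity
    rw [e2, e4] at h1
    have h2 : M * ((2 + X) * a / u) + P * ((2 - X) * b / w)
        = M / (a * u * w) * ((2 + X) * a ^ 2 * w + (2 - X) * b ^ 2 * u) := by
      have h3 : P = M * b / a := by rw [eq_div_iff ha.ne']; exact hPa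
      rw [h3]; field_simp
    rw [h2] at h1
    have h3 := pos_of_mul_pos_right h1 (by positivity)
    linarith
  have hk := kid X (R ^ 2) hX0 (sq_nonneg R) hrel hdom
  -- the difference
  have hNab : N * (b ^ 2 - a ^ 2) = b ^ 2 + a ^ 2 := by
    have h3 : P = M * b / a := by rw [eq_div_iff ha.ne']; exact hPa
    have h4 : M ^ 2 * b ^ 2 = (N + 1) * a ^ 2 := by
      rw [← hP2, h3]; field_simp
    rw [hM2] at h4; linarith
  have hba : 0 < b ^ 2 - a ^ 2 := sub_pos.2 (pow_lt_pow_left₀ hab ha.le (by norm_num))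
  have hAlg : ∀ A S W q k : ℝ, nu * N * S = P * q - M * k → nu * N * W = M * q + P * k →
      2 * N ^ 2 * nu * (A * S / 2 + lam * A * W - (1 + 5 / (2 * N ^ 2)) * S
        - 5 * lam / (2 * N ^ 2) * W)
      = P * q * (N * (2 * N - 1) * A - 2 * N - 5)
        + M * k * (N * (2 * N + 1) * A + 2 * N - 5) := by
    intro A S W q k h1 h2
    have h3 : 2 * N ^ 2 * nu * (A * S / 2 + lam * A * W - (1 + 5 / (2 * N ^ 2)) * S
        - 5 * lam / (2 * N ^ 2) * W)
        = nu * (N ^ 2 * A * S + 2 * N ^ 2 * lam * A * W - (2 * N ^ 2 + 5) * S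
          - 5 * lam * W) := by
      field_simp
      try ring
    rw [h3, ← hPM]
    apply mul_left_cancel₀ hN0.ne'
    linear_combination (N ^ 2 * A - 2 * N ^ 2 - 5) * h1 + (2 * N ^ 2 * A - 5) * P * M * h2
      + (2 * N ^ 2 * A - 5) * P * q * hM2 + (2 * N ^ 2 * A - 5) * M * k * hP2
  have hdiff : 4 * N ^ 2 * nu * (10 * P * a / (N ^ 2 * nu)
      + (Ax * Sx / 2 + lam * Ax * Wx - (1 + 5 / (2 * N ^ 2)) * Sx - 5 * lam / (2 * N ^ 2) * Wx)
      - (Ay * Sy / 2 + lam * Ay * Wy - (1 + 5 / (2 * N ^ 2)) * Sy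
        - 5 * lam / (2 * N ^ 2) * Wy))
      = 40 * P * a + P * (2 * N - 1) * ((qx + qy) * R + (qx - qy) * X)
        - P * (4 * N + 10) * (qx - qy)
        + M * (2 * N + 1) * ((kx + ky) * R + (kx - ky) * X) + M * (4 * N - 10) * (kx - ky) := by
    have h1 := hAlg Ax Sx Wx qx kx eSx eWx
    have h2 := hAlg Ay Sy Wy qy ky eSy eWy
    have h3 : 4 * N ^ 2 * nu * (10 * P * a / (N ^ 2 * nu)) = 40 * P * a := by
      field_simp; try ring
    rw [hX, hR]
    linear_combination h3 + 2 * h1 - 2 * h2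
  have hPb : P = M * b / a := by rw [eq_div_iff ha.ne']; exact hPa
  have k1 : (b ^ 2 - a ^ 2) * (2 * N - 1) = b ^ 2 + 3 * a ^ 2 := by linarith
  have k2 : (b ^ 2 - a ^ 2) * (2 * N + 1) = 3 * b ^ 2 + a ^ 2 := by linarith
  have k3 : (b ^ 2 - a ^ 2) * (4 * N + 10) = 14 * b ^ 2 - 6 * a ^ 2 := by linarith
  have k4 : (b ^ 2 - a ^ 2) * (4 * N - 10) = 14 * a ^ 2 - 6 * b ^ 2 := by linarith
  have hfin : (b ^ 2 - a ^ 2) * (40 * P * a + P * (2 * N - 1) * ((qx + qy) * R + (qx - qy) * X)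
        - P * (4 * N + 10) * (qx - qy)
        + M * (2 * N + 1) * ((kx + ky) * R + (kx - ky) * X) + M * (4 * N - 10) * (kx - ky))
      = M * b * (R ^ 2 * kM3 (a ^ 2) (b ^ 2) u w / (a ^ 2 * b ^ 2)
        + (2 + X) * (X * (b ^ 2 + 3 * a ^ 2) - (14 * b ^ 2 - 6 * a ^ 2)) / u
        + (2 - X) * (X * (3 * b ^ 2 + a ^ 2) + (14 * a ^ 2 - 6 * b ^ 2)) / w
        + 40 * (b ^ 2 - a ^ 2)) := by
    unfold kM3
    rw [e1, e2, e3, e4, ← k1, ← k2, ← k3, ← k4, hPb]
    field_simp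
    ring
  have hpos : 0 < (b ^ 2 - a ^ 2) * (40 * P * a + P * (2 * N - 1) * ((qx + qy) * R
        + (qx - qy) * X) - P * (4 * N + 10) * (qx - qy)
        + M * (2 * N + 1) * ((kx + ky) * R + (kx - ky) * X)
        + M * (4 * N - 10) * (kx - ky)) := by
    rw [hfin]
    exact mul_pos (mul_pos hM hb) hk
  rw [← hdiff] at hpos
  have h5 := pos_of_mul_pos_right hpos hba.le
  exact pos_of_mul_pos_right h5 (by positivity)

theorem pair_K {p : Prm} {x y : Pt} (hx : Ok p x) (hy : Ok p y) (hH : fH p x = fH p y)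
    (hT : fT p x = fT p y) (hW : y.W < x.W) (hF : fF p y < fF p x) : fZ p y < fZ p x := by
  have hFy := hy.F_pos
  have hFx := hx.F_pos
  have hFtx := hx.Ft_pos
  have hFty := hy.Ft_pos
  have hGx := hx.G_pos
  have hGy := hy.G_pos
  have hN0 := p.N_pos
  have hP := p.hP
  have hM := p.hM
  have hnu := p.hnu
  set a := (Real.log (fF p x) - Real.log (fF p y)) / 2 with ha_def
  have ha : 0 < a := by
    have := Real.log_lt_log hFy hF
    linarith
  set b := p.P * a / p.M with hb_def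
  have hPa : p.P * a = p.M * b := by rw [hb_def]; field_simp
  have hMP : p.M < p.P := by
    have h1 := p.hP2
    have h2 := p.hM2
    nlinarith
  have hab : a < b := by
    rw [hb_def, lt_div_iff₀ hM]
    nlinarith
  have hb : 0 < b := ha.trans hab
  have hlogG : Real.log (fG p y) - Real.log (fG p x) = 2 * b := by
    have h1 : p.P * Real.log (fF p x) + p.M * Real.log (fG p x)
        = p.P * Real.log (fF p y) + p.M * Real.log (fG p y) := by
      unfold fT at hT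
      have h2 : (2 * p.N * p.nu) ≠ 0 := by positivity
      rw [div_left_inj' h2] at hT
      linarith
    have h3 : p.M * (Real.log (fG p y) - Real.log (fG p x)) = p.M * (2 * b) := by
      linear_combination -h1 + 2 * hPa - 2 * p.P * ha_def
    exact mul_left_cancel₀ hM.ne' h3
  have eF : fF p x = fF p y * Real.exp (2 * a) := by
    have : 2 * a = Real.log (fF p x) - Real.log (fF p y) := by rw [ha_def]; ring
    rw [this, Real.exp_sub, Real.exp_log hFx, Real.exp_log hFy]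
    field_simp
  have eG : fG p x = fG p y * Real.exp (2 * (-b)) := by
    have : 2 * (-b) = Real.log (fG p x) - Real.log (fG p y) := by linarith
    rw [this, Real.exp_sub, Real.exp_log hGx, Real.exp_log hGy]
    field_simp
  have eFt : fFt p x = fFt p y * Real.exp (2 * (-a)) := by
    have h1 := fF_mul p x hx.cone
    have h2 := fF_mul p y hy.cone
    rw [hH, ← h2, eF] at h1
    have h3 : Real.exp (2 * a) * Real.exp (2 * (-a)) = 1 := by rw [← Real.exp_add]; simp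
    have h4 : 0 < fF p y * Real.exp (2 * a) := by positivity
    apply mul_left_cancel₀ h4.ne'
    linear_combination h1 - fF p y * fFt p y * h3
  have eGt : fGt p x = fGt p y * Real.exp (2 * b) := by
    have h1 := fG_mul p x hx.cone
    have h2 := fG_mul p y hy.cone
    rw [hH, ← h2, eG] at h1
    have h3 : Real.exp (2 * (-b)) * Real.exp (2 * b) = 1 := by rw [← Real.exp_add]; simp
    have h4 : 0 < fG p y * Real.exp (2 * (-b)) := by positivity
    apply mul_left_cancel₀ h4.ne'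
    linear_combination h1 - fG p y * fGt p y * h3
  have l1 := pairK_el eF
  have l2 := pairK_el eFt
  have l3 := pairK_el eG
  have l4 := pairK_el eGt
  rw [Real.cosh_neg, Real.sinh_neg] at l2 l3
  obtain ⟨c1, c2⟩ := pairK_lin (q1 := p.nu / 2 * (p.P * x.S + p.M * x.W))
    (q2 := p.nu / 2 * (p.P * y.S + p.M * y.W)) (s := 2 + p.N * (x.A + y.A))
    (R := p.N * (x.A - y.A)) ha
    (by simp only [fF] at l1; linear_combination l1)
    (by simp only [fFt] at l2; linear_combination l2)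
  obtain ⟨c3, c4⟩ := pairK_lin (q1 := p.nu / 2 * (p.P * x.W - p.M * x.S))
    (q2 := p.nu / 2 * (p.P * y.W - p.M * y.S)) (s := 2 - p.N * (x.A + y.A))
    (R := -(p.N * (x.A - y.A))) hb
    (by simp only [fGt] at l4; linear_combination l4)
    (by simp only [fG] at l3; linear_combination l3)
  have hsa : 0 < Real.sinh a := Real.sinh_pos_iff.2 ha
  have hsb : 0 < Real.sinh b := Real.sinh_pos_iff.2 hb
  have hca := Real.cosh_pos a
  have hcb := Real.cosh_pos b
  have hua : 0 < uc a := by unfold uc; positivity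
  have hub : 0 < uc b := by unfold uc; positivity
  have key := pairK_alg ha hab hua hub p.hN1 hnu p.hnu2 hP p.hP2 hM p.hM2 p.hPM hPa
    c1 c2 c3 c4 hx.cone.1 hy.cone.1 hx.cone.2 hy.cone.2 hW
    (fun X r hX hr h1 h2 => kid ha hab hX hr h1 h2)
  have hlogF : Real.log (fF p x) = Real.log (fF p y) + 2 * a := by rw [ha_def]; ring
  have hlogG' : Real.log (fG p x) = Real.log (fG p y) - 2 * b := by linarith
  have hfin : fZ p x - fZ p y = 10 * p.P * a / (p.N ^ 2 * p.nu) + fAlg p x - fAlg p y := by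
    simp only [fZ]
    rw [hH, hlogF, hlogG']
    have h1 : 10 * p.P * a / (p.N ^ 2 * p.nu) = 5 / (2 * p.N ^ 2 * p.nu) * (4 * (p.P * a)) := by
      field_simp
      ring
    rw [h1]
    linear_combination (5 / (2 * p.N ^ 2 * p.nu)) * (-(2 * (p.N * (fH p y - 1) + 1))) * hPa
  have : 0 < fZ p x - fZ p y := by
    rw [hfin]
    simp only [fAlg]
    linarith [key]
  linarith

end B92K
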