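import Mathlib
import Pool.Agent.Lib.B92K.LevA
import Pool.Agent.Lib.B92K.PairA
import Pool.Agent.Lib.B92K.PairB
import Pool.Agent.Lib.B92K.PairK

/-!
# MP_b92fc8_an, `kappa > 1`, module LevB : comparison facts on a level in `Pi`

`x` on the side `W > 0`, `y` on the side `W < 0`, equal `H`, both in `Pi`.
(0) `AllU p h`: every point of `Pi` of level `h` has `U ≥ 0`.
(K) `lev_K`: `T x = T y`, `0 ≤ x.W`, `y.W ≤ 0`, not both `W = 0` imply `Z y < Z x`: PairB.pair_F_lt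
   (`A < 1`: InPi.A_lt) and PairK.pair_K.
(B) `lev_B`: `y.W ≤ 0 < x.W`, `U y ≥ 0`, (`V y < 0` or AllU), `T y ≤ T x` imply `Z y < Z x`. PROOF: `y = slE h (-1) a`,
   `x = slE h 1 b`, `b < pi`. `T(slE (-1) a) ≤ T x < T(slE 1 pi) = T(slE (-1) pi)`; by the intermediate value theorem there is
   `c ∈ [a, pi)` with `T(slE (-1) c) = T x`, `y' = slE h (-1) c`. `U ≥ 0` on `[a, pi]` (U_le_right, or AllU), so
   `Z y ≤ Z y'` (slE_Z_mono), and `Z y' < Z x` by (K).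
(E) `lev_end`: `x` the point `W = 0`, `S = -2A`: `Z y ≤ Z x` (slE_Z_mono up to `pi`, slE_pi, eq_slE_pi).
(T) `lev_T_end`: `y.W < 0` implies `T y < T x` for the same `x` (slE_T_mono).
(C) `lev_C`: `U x ≤ 0`, `U y ≤ 0`, `T x ≤ T y`, `0 < x.W`, `y.W < 0` imply `Z y < Z x`. PROOF: `y = slE h (-1) a`,
   `x = slE h 1 b`; `T(slE (-1) 0) = T(slE 1 0) < T x ≤ T(slE (-1) a)`: there is `c ∈ (0, a]` with `T(slE (-1) c) = T x`,
   `y' = slE h (-1) c`. CLAIM `U y' ≤ 0`: suppose `U y' > 0 ≥ U x`: then `N² W_{y'}² < 2h ≤ N² W_x²`, so `x.W + y'.W > 0`;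
   PairB.pair_sum_pos: `T (neg y') < T y'`. Let `q = neg y'` (`q.W > 0`, `neg q = y'`). If `V q ≤ 0`, PairA.top_sign
   (`fGt q = fG y' > 0`) gives `T y' = T (neg q) < T q`: contradiction; so `V q > 0`, `V y' < 0` (fV_neg). Then U_le_right:
   `0 < U y' ≤ U y`: contradiction. So `U y' ≤ 0`, and U_nonpos_between gives `U ≤ 0` on `[c, a]`, slE_Z_anti: `Z y ≤ Z y'`,
   and (K): `Z y' < Z x`.
(C') `lev_C'`: `U x ≤ 0`, `U y = 0`, `V y < 0`: `Z y < Z x` for any `T` : (C) if `T x ≤ T y`, (B) if `T y ≤ T x`.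
-/

set_option autoImplicit false

open Set Filter Topology

noncomputable section

namespace B92K

/-- Every point of `Pi` of level `h` has `U ≥ 0`. -/
def AllU (p : Prm) (h : ℝ) : Prop := ∀ z, InPi p z → fH p z = h → 0 ≤ fU p z

/-- If there is a gate with `U ≥ 0` at a level `≤ h`, then `AllU p h`. -/
theorem allU_of_gate {p : Prm} {z0 : Pt} {h : ℝ} (h0 : Gate p z0) (hU0 : 0 ≤ fU p z0)
    (hh : fH p z0 ≤ h) : AllU p h := by
  intro z hz hzh
  by_contra hneg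
  push Not at hneg
  rcases Q1 h0 hU0 hz hneg.le with h1 | h1
  · linarith
  · linarith [h1.2.2]

theorem lev_K {p : Prm} {x y : Pt} (hx : InPi p x) (hy : InPi p y) (hH : fH p x = fH p y)
    (hT : fT p x = fT p y) (hW : y.W < x.W) : fZ p y < fZ p x := by
  refine pair_K hx.ok hy.ok hH hT hW (pair_F_lt hx.ok hy.ok hH hT hW ?_)
  linarith [hx.A_lt, hy.A_lt]

theorem lev_B {p : Prm} {x y : Pt} (hx : InPi p x) (hy : InPi p y) (hH : fH p x = fH p y)
    (hWx : 0 < x.W) (hWy : y.W ≤ 0) (hU : 0 ≤ fU p y) (hV : fV p y < 0 ∨ AllU p (fH p y))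
    (hT : fT p y ≤ fT p x) : fZ p y < fZ p x := by
  obtain ⟨a, ha, hya⟩ := exists_phi (e := -1) hy (Or.inr rfl) (by linarith)
  obtain ⟨b, hb, hxb⟩ := exists_phi_Ioo (e := 1) hx (Or.inl rfl) (by linarith)
  rw [hH] at hxb
  obtain ⟨h, hh⟩ : ∃ h, h = fH p y := ⟨_, rfl⟩
  rw [← hh] at hya hxb hV
  have hg : p.N - 1 < p.N * h := by rw [hh]; exact hy.H_gt
  have h1 : h < 1 := by rw [hh]; exact hy.H_lt
  have hmono := slE_T_mono (p := p) hg h1 (e := 1) (Or.inl rfl)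
  have hTx : fT p x < fT p (slE p h (-1) Real.pi) := by
    rw [slE_pi (Or.inr rfl), hxb]
    exact hmono ⟨hb.1.le, hb.2.le⟩ ⟨Real.pi_pos.le, le_rfl⟩ hb.2
  have hcont := (slE_T_cont (p := p) hg h1 (-1)).continuousOn (s := Icc a Real.pi)
  have hTy : fT p (slE p h (-1) a) ≤ fT p x := by rw [← hya]; exact hT
  obtain ⟨c, hc, hcT⟩ := intermediate_value_Icc ha.2 hcont ⟨hTy, hTx.le⟩
  have hcT' : fT p (slE p h (-1) c) = fT p x := hcT
  have hc0 : 0 ≤ c := ha.1.trans hc.1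
  have hU' : ∀ ph ∈ Ioo a c, 0 ≤ fU p (slE p h (-1) ph) := by
    intro ph hph
    rcases hV with hV | hV
    · have h2 := U_le_right (p := p) hg h1 (e := -1) (Or.inr rfl) (a := a) (b := ph) ha.1
        hph.1.le (hph.2.le.trans hc.2) (by rw [← hya]; exact hV.le)
      rw [← hya] at h2
      exact hU.trans h2
    · exact hV _ (slE_inPi hg h1 _ _) (slE_H hg h1 _ _)
  have hZ := slE_Z_mono (p := p) hg h1 (e := -1) (Or.inr rfl) ha.1 hc.1 hc.2 hU'
  rw [← hya] at hZ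
  refine lt_of_le_of_lt hZ (lev_K hx (slE_inPi hg h1 _ _) ?_ hcT'.symm ?_)
  · rw [slE_H hg h1, hH, hh]
  · have h3 := slE_W_nonneg (p := p) hg h1 (e := -1) (Or.inr rfl) (ph := c) ⟨hc0, hc.2⟩
    linarith

theorem lev_end {p : Prm} {x y : Pt} (hx : InPi p x) (hy : InPi p y) (hH : fH p x = fH p y)
    (hWx : x.W = 0) (hSx : x.S = -2 * x.A) (hWy : y.W ≤ 0) (hU : 0 ≤ fU p y)
    (hV : fV p y < 0 ∨ AllU p (fH p y)) : fZ p y ≤ fZ p x := by
  obtain ⟨a, ha, hya⟩ := exists_phi (e := -1) hy (Or.inr rfl) (by linarith)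
  have hxb := eq_slE_pi hx hWx hSx
  rw [hH] at hxb
  obtain ⟨h, hh⟩ : ∃ h, h = fH p y := ⟨_, rfl⟩
  rw [← hh] at hya hxb hV
  have hg : p.N - 1 < p.N * h := by rw [hh]; exact hy.H_gt
  have h1 : h < 1 := by rw [hh]; exact hy.H_lt
  rw [← slE_pi (p := p) (h := h) (e := -1) (Or.inr rfl)] at hxb
  have hU' : ∀ ph ∈ Ioo a Real.pi, 0 ≤ fU p (slE p h (-1) ph) := by
    intro ph hph
    rcases hV with hV | hV
    · have h2 := U_le_right (p := p) hg h1 (e := -1) (Or.inr rfl) (a := a) (b := ph) ha.1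
        hph.1.le hph.2.le (by rw [← hya]; exact hV.le)
      rw [← hya] at h2
      exact hU.trans h2
    · exact hV _ (slE_inPi hg h1 _ _) (slE_H hg h1 _ _)
  have hZ := slE_Z_mono (p := p) hg h1 (e := -1) (Or.inr rfl) ha.1 ha.2 le_rfl hU'
  rw [← hya, ← hxb] at hZ
  exact hZ

theorem lev_T_end {p : Prm} {x y : Pt} (hx : InPi p x) (hy : InPi p y) (hH : fH p x = fH p y)
    (hWx : x.W = 0) (hSx : x.S = -2 * x.A) (hWy : y.W < 0) : fT p y < fT p x := by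
  obtain ⟨a, ha, hya⟩ := exists_phi_Ioo (e := -1) hy (Or.inr rfl) (by linarith)
  have hxb := eq_slE_pi hx hWx hSx
  rw [hH] at hxb
  obtain ⟨h, hh⟩ : ∃ h, h = fH p y := ⟨_, rfl⟩
  rw [← hh] at hya hxb
  have hg : p.N - 1 < p.N * h := by rw [hh]; exact hy.H_gt
  have h1 : h < 1 := by rw [hh]; exact hy.H_lt
  rw [← slE_pi (p := p) (h := h) (e := -1) (Or.inr rfl)] at hxb
  have hmono := slE_T_mono (p := p) hg h1 (e := -1) (Or.inr rfl)
    ⟨ha.1.le, ha.2.le⟩ ⟨Real.pi_pos.le, le_rfl⟩ ha.2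
  have h2 : fT p (slE p h (-1) a) < fT p (slE p h (-1) Real.pi) := hmono
  rw [← hya, ← hxb] at h2
  exact h2

theorem lev_C {p : Prm} {x y : Pt} (hx : InPi p x) (hy : InPi p y) (hH : fH p x = fH p y)
    (hWx : 0 < x.W) (hWy : y.W < 0) (hUx : fU p x ≤ 0) (hUy : fU p y ≤ 0)
    (hT : fT p x ≤ fT p y) : fZ p y < fZ p x := by
  obtain ⟨a, ha, hya⟩ := exists_phi_Ioo (e := -1) hy (Or.inr rfl) (by linarith)
  obtain ⟨b, hb, hxb⟩ := exists_phi_Ioo (e := 1) hx (Or.inl rfl) (by linarith)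
  rw [hH] at hxb
  obtain ⟨h, hh⟩ : ∃ h, h = fH p y := ⟨_, rfl⟩
  rw [← hh] at hya hxb
  have hg : p.N - 1 < p.N * h := by rw [hh]; exact hy.H_gt
  have h1 : h < 1 := by rw [hh]; exact hy.H_lt
  have hmono := slE_T_mono (p := p) hg h1 (e := 1) (Or.inl rfl)
  have hT0 : fT p (slE p h (-1) 0) < fT p x := by
    rw [slE_zero, hxb]
    exact hmono ⟨le_rfl, Real.pi_pos.le⟩ ⟨hb.1.le, hb.2.le⟩ hb.1
  have hcont := (slE_T_cont (p := p) hg h1 (-1)).continuousOn (s := Icc 0 a)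
  have hTy : fT p x ≤ fT p (slE p h (-1) a) := by rw [← hya]; exact hT
  obtain ⟨c, hc, hcT⟩ := intermediate_value_Icc ha.1.le hcont ⟨hT0.le, hTy⟩
  have hcT' : fT p (slE p h (-1) c) = fT p x := hcT
  have hc0 : 0 < c := by
    refine lt_of_le_of_ne hc.1 ?_
    rintro rfl
    rw [hcT'] at hT0
    exact lt_irrefl _ hT0
  have hcpi : c < Real.pi := lt_of_le_of_lt hc.2 ha.2
  have hy' := slE_inPi (p := p) hg h1 (-1) c
  have hHy' := slE_H (p := p) hg h1 (-1) c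
  have hWy' := slE_W_pos (p := p) hg h1 (e := -1) (Or.inr rfl) ⟨hc0, hcpi⟩
  have hUa : fU p (slE p h (-1) a) ≤ 0 := by rw [← hya]; exact hUy
  have hHxy' : fH p x = fH p (slE p h (-1) c) := by rw [hHy', hH, hh]
  have hUc : fU p (slE p h (-1) c) ≤ 0 := by
    by_contra hcon
    push Not at hcon
    obtain ⟨y', hyy'⟩ : ∃ y', y' = slE p h (-1) c := ⟨_, rfl⟩
    rw [← hyy'] at hcon hy' hHy' hWy' hHxy' hcT'
    have hN := p.N_pos
    have k1 : p.N ^ 2 * y'.W ^ 2 < p.N ^ 2 * x.W ^ 2 := by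
      simp only [fU] at hcon hUx
      rw [hHxy'] at hUx
      linarith
    have k2 : y'.W ^ 2 < x.W ^ 2 := lt_of_mul_lt_mul_left k1 (by positivity)
    have k3 : 0 < x.W + y'.W := by
      have := abs_lt_of_sq_lt_sq' k2 hWx.le
      linarith [this.1]
    have k4 := pair_sum_pos hx hy' hHxy' hcT'.symm (by linarith) k3
    have k5 : fV p y' < 0 := by
      by_contra hV
      push Not at hV
      have hq : InPi p y'.neg := hy'.neg
      have hnn : y'.neg.neg = y' := by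
        simp only [Pt.neg, neg_neg]
      have h6 := top_sign (x := y'.neg) hq.ok hq.G_pos.2 (by simp only [Pt.neg]; linarith)
        (by rw [fV_neg]; linarith)
      rw [hnn] at h6
      linarith
    have k6 := U_le_right (p := p) hg h1 (e := -1) (Or.inr rfl) (a := c) (b := a) hc0.le hc.2
      ha.2.le (by rw [← hyy']; exact k5.le)
    rw [← hyy'] at k6
    linarith
  have hUb : ∀ ph ∈ Ioo c a, fU p (slE p h (-1) ph) ≤ 0 := fun ph hph =>
    U_nonpos_between hg h1 (Or.inr rfl) hc0.le hph.1.le hph.2.le ha.2.le hUc hUa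
  have hZ := slE_Z_anti (p := p) hg h1 (e := -1) (Or.inr rfl) hc0.le hc.2 ha.2.le hUb
  rw [← hya] at hZ
  refine lt_of_le_of_lt hZ (lev_K hx hy' hHxy' hcT'.symm ?_)
  linarith

theorem lev_C' {p : Prm} {x y : Pt} (hx : InPi p x) (hy : InPi p y) (hH : fH p x = fH p y)
    (hWx : 0 < x.W) (hWy : y.W < 0) (hUx : fU p x ≤ 0) (hUy : fU p y = 0)
    (hVy : fV p y < 0) : fZ p y < fZ p x := by
  rcases le_total (fT p x) (fT p y) with h | h
  · exact lev_C hx hy hH hWx hWy hUx hUy.le h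
  · exact lev_B hx hy hH hWx hWy.le hUy.ge (Or.inl hVy) h

end B92K
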