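import Mathlib
import Pool.Agent.Lib.B92K.Ok
import Pool.Agent.Lib.B92K.GateC

/-!
# MP_b92fc8_an, `kappa > 1`, module Reg : regions of the arcs

`x` is a backward arc of sector `-` (`W < 0` inside), `N* ≥ 0`, `H > 0` on `[0, L]`.
(1) `A < 1`: at `A = 1`: `D = -H`, `N* = -2kH + 2 lam W < 0` (`W ≤ 0`, `H > 0`). So `A ≠ 1` on
   `[0,L]`, and `A(0) < 1`.
(2) `D > 0`: `D(0) = A (1-A) > 0` (`H = (1-A)²` on `W = 0`). At `D = 0`, `0 < A < 1`: `W ≠ 0`
   (`H = (1-A)² = 1-A` impossible), so `W < 0`; `2 A (1-A) = W (lam S - W)` gives `lam S < W < 0`,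
   and `N* = - S (1-A) + 2 lam A W = W² (S + lam W)/(2A) < 0`: contradiction.
(3) `H < 1 - A < 1` by (2).
(4) `G > 0`: `G(0) = 1 - N A + nu M A` with `W = 0, S = 2A`... (`G - G~ = nu M S > 0` at `t = 0`; if
   `G(0) ≤ 0` then both `G, G~ ≤ 0`: `1 - N A ≤ 0`, and `G G~ ≥ 0`..., use `N D = (1-NA) N A + κ²`,
   `D > 0` and `G + G~ = 2 (1 - N A)`: if `G, G~ ≤ 0` then `κ² ≤ (1-NA)²` and
   `N D ≤ (1-NA)(NA + 1 - NA) = 1 - NA ≤ 0`, contradiction).
   Let `t1` be the first zero of `G` on `(0, L]`. There `G = 0`, `H = 1 - 1/N` (fG_mul), and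
   `D > 0` gives `A < 1 - H = 1/N`, `G~ = 2 (1 - N A) > 0`. If `t1 < L`: `W < 0`, `U > 0` by
   `gate_G0`, and from `(G G~)' = N H'`: `G' G~ = N H' = N |W| U / mu > 0`: `G' > 0` at a first zero:
   contradiction. If `t1 = L`: `W = 0`, `U = 2H > 0` near `L`, so `H` is strictly increasing near `L`
   and `H(t) < 1 - 1/N`, `G~ > 0` just before `L`: `G < 0` there: contradiction.
(5) `pi_persist`: `D` is continuous and `≠ 0` where `H > 1 - 1/N` (D_ne_zero).
-/

set_option autoImplicit false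

open Set Filter Topology

noncomputable section

namespace B92K

theorem Reg_contH {p : Prm} {e : ℝ} {x : ℝ → Pt} (h : Traj p e x) :
    Continuous fun r => fH p (x r) := by
  have hA := h.contA
  have hS := h.contS
  have hW := h.contW
  simp only [fH]
  fun_prop

theorem Reg_contD {p : Prm} {e : ℝ} {x : ℝ → Pt} (h : Traj p e x) :
    Continuous fun r => fD p (x r) := by
  have hA := h.contA
  have hH := Reg_contH h
  simp only [fD]
  fun_prop

theorem Reg_contU {p : Prm} {e : ℝ} {x : ℝ → Pt} (h : Traj p e x) :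
    Continuous fun r => fU p (x r) := by
  have hW := h.contW
  have hH := Reg_contH h
  simp only [fU]
  fun_prop

theorem Reg_contG {p : Prm} {e : ℝ} {x : ℝ → Pt} (h : Traj p e x) :
    Continuous fun r => fG p (x r) := by
  have hA := h.contA
  have hS := h.contS
  have hW := h.contW
  simp only [fG]
  fun_prop

theorem Reg_contGt {p : Prm} {e : ℝ} {x : ℝ → Pt} (h : Traj p e x) :
    Continuous fun r => fGt p (x r) := by
  have hA := h.contA
  have hS := h.contS
  have hW := h.contW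
  simp only [fGt]
  fun_prop

/-- A continuous function that is positive at `a` and has no zero on `[a, b]` is positive. -/
theorem Reg_pos_of_ne {f : ℝ → ℝ} (hf : Continuous f) {a b : ℝ} (ha : 0 < f a)
    (hne : ∀ t ∈ Icc a b, f t ≠ 0) : ∀ t ∈ Icc a b, 0 < f t := by
  intro t ht
  by_contra hcon
  push Not at hcon
  have h1 : (0 : ℝ) ∈ Icc (f t) (f a) := ⟨hcon, ha.le⟩
  obtain ⟨s, hs, hs0⟩ := intermediate_value_Icc' ht.1 hf.continuousOn h1
  exact hne s ⟨hs.1, hs.2.trans ht.2⟩ hs0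

theorem BArc.A_lt {p : Prm} {x : ℝ → Pt} {L : ℝ} (h : BArc p (-1) x L) :
    ∀ t ∈ Icc 0 L, (x t).A < 1 := by
  have hc : Continuous fun t => 1 - (x t).A := continuous_const.sub h.traj.contA
  have h0 : 0 < 1 - (x 0).A := by linarith [h.A0]
  intro t ht
  have key := Reg_pos_of_ne (b := L) hc h0 ?_ t ht
  · linarith
  · intro s hs hs0
    have hA : (x s).A = 1 := by linarith
    have hH := h.Hpos s hs
    have hst := h.star s hs
    have hW : (x s).W ≤ 0 := by
      rcases eq_or_lt_of_le hs.1 with e | h1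
      · rw [← e, h.W0]
      · rcases eq_or_lt_of_le hs.2 with e | h2
        · rw [e, h.WL]
        · have := h.Wpos s ⟨h1, h2⟩
          linarith
    simp only [fNs, fD] at hst
    rw [hA] at hst
    have h1 : 0 < p.k * fH p (x s) := mul_pos (by linarith [p.hk]) hH
    have h2 : p.lam * (x s).W ≤ 0 := mul_nonpos_of_nonneg_of_nonpos p.hlam0.le hW
    nlinarith

theorem BArc.D_pos {p : Prm} {x : ℝ → Pt} {L : ℝ} (h : BArc p (-1) x L) :
    ∀ t ∈ Icc 0 L, 0 < fD p (x t) := by
  have h00 : 0 < fD p (x 0) := by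
    have h1 := h.A0
    have h2 := (h.traj.cone 0).2
    simp only [fD, fH, h.W0]
    nlinarith
  refine Reg_pos_of_ne (Reg_contD h.traj) h00 ?_
  intro s hs hs0
  have hA := h.A_lt s hs
  have hc := h.traj.cone s
  have hA0 := hc.2
  have hst := h.star s hs
  have hHs : fH p (x s) = 1 - (x s).A := by simp only [fD] at hs0; linarith
  have hW0 : (x s).W = 0 → False := by
    intro hW
    simp only [fH, hW] at hHs
    nlinarith
  have hW : (x s).W < 0 := by
    rcases eq_or_lt_of_le hs.1 with e | h1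
    · exact (hW0 (by rw [← e, h.W0])).elim
    · rcases eq_or_lt_of_le hs.2 with e | h2
      · exact (hW0 (by rw [e, h.WL])).elim
      · have := h.Wpos s ⟨h1, h2⟩
        linarith
  have e1 : 2 * (x s).A * (1 - (x s).A) = (x s).W * (p.lam * (x s).S - (x s).W) := by
    simp only [fH] at hHs
    linarith
  have h3 : 0 < (x s).W * (p.lam * (x s).S - (x s).W) := by
    rw [← e1]
    have : 0 < 1 - (x s).A := by linarith
    positivity
  have h4 : p.lam * (x s).S - (x s).W < 0 := by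
    by_contra hcon
    push Not at hcon
    nlinarith
  have h5 : (x s).S < 0 := by
    by_contra hcon
    push Not at hcon
    have := mul_nonneg p.hlam0.le hcon
    linarith
  have e2 : 2 * (x s).A * fNs p (x s) = (x s).W ^ 2 * ((x s).S + p.lam * (x s).W) := by
    simp only [fNs, hs0]
    linear_combination (-(x s).S) * e1 - p.lam * (x s).W * hc.1
  have h6 : (x s).S + p.lam * (x s).W < 0 := by
    have := mul_neg_of_pos_of_neg p.hlam0 hW
    linarith
  have h7 : (x s).W ^ 2 * ((x s).S + p.lam * (x s).W) < 0 := by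
    have : 0 < (x s).W ^ 2 := by positivity
    exact mul_neg_of_pos_of_neg this h6
  have h8 : 0 ≤ 2 * (x s).A * fNs p (x s) := by positivity
  linarith

/-- `G(0) > 0` for arcs of both sectors (`W = 0`, `S = 2 A`, `A < 1`). -/
theorem BArc.G0_pos {p : Prm} {sg : ℝ} {x : ℝ → Pt} {L : ℝ} (h : BArc p sg x L) :
    0 < fG p (x 0) := by
  have hA := (h.traj.cone 0).2
  have hA1 := h.A0
  have hnu := p.hnu
  have hM := p.hM
  have hN := p.hN1
  have e1 : fG p (x 0) = 1 - p.N * (x 0).A + p.nu * p.M * (x 0).A := by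
    simp only [fG, h.W0, h.S0]
    ring
  rw [e1]
  by_contra hcon
  push Not at hcon
  have h1 : p.nu * p.M * (x 0).A ≤ p.N * (x 0).A - 1 := by linarith
  have h2 : 0 < p.nu * p.M * (x 0).A := by positivity
  have h3 : (p.nu * p.M * (x 0).A) ^ 2 ≤ (p.N * (x 0).A - 1) ^ 2 :=
    pow_le_pow_left₀ h2.le h1 2
  have e2 : (p.nu * p.M * (x 0).A) ^ 2 = p.N * (p.N - 1) * (x 0).A ^ 2 := by
    rw [← p.hM2, ← p.hnu2]
    ring
  rw [e2] at h3
  have h4 : 1 < p.N * (x 0).A := by linarith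
  nlinarith

theorem BArc.G_pos {p : Prm} {x : ℝ → Pt} {L : ℝ} (h : BArc p (-1) x L) :
    ∀ t ∈ Icc 0 L, 0 < fG p (x t) := by
  have hGc := Reg_contG h.traj
  have hGtc := Reg_contGt h.traj
  have hUc := Reg_contU h.traj
  have hHc := Reg_contH h.traj
  have hN := p.N_pos
  by_contra hcon
  push Not at hcon
  obtain ⟨t0, ht0, hGt0⟩ := hcon
  set Z : Set ℝ := {t | t ∈ Icc 0 L ∧ fG p (x t) ≤ 0} with hZ
  have hZcl : IsClosed Z := isClosed_Icc.inter (isClosed_le hGc continuous_const)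
  have hZne : Z.Nonempty := ⟨t0, ht0, hGt0⟩
  have hZbd : BddBelow Z := ⟨0, fun t ht => ht.1.1⟩
  have hmem : sInf Z ∈ Z := hZcl.csInf_mem hZne hZbd
  set t1 := sInf Z with ht1
  have hbefore : ∀ t, 0 ≤ t → t < t1 → 0 < fG p (x t) := by
    intro t h0 h1
    by_contra hc
    push Not at hc
    have : t ∈ Z := ⟨⟨h0, h1.le.trans hmem.1.2⟩, hc⟩
    exact absurd (csInf_le hZbd this) (not_le.2 h1)
  have ht1pos : 0 < t1 := by
    rcases eq_or_lt_of_le hmem.1.1 with e | h1
    · exfalso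
      have h2 := h.G0_pos
      have h3 := hmem.2
      rw [← e] at h3
      linarith
    · exact h1
  have hG0 : fG p (x t1) = 0 := by
    refine le_antisymm hmem.2 ?_
    by_contra hc
    push Not at hc
    have h1 : ∀ᶠ t in 𝓝 t1, fG p (x t) < 0 :=
      (hGc.tendsto t1).eventually_lt_const hc
    have h2 : ∀ᶠ t in 𝓝[<] t1, fG p (x t) < 0 := h1.filter_mono nhdsWithin_le_nhds
    have h3 : ∀ᶠ t in 𝓝[<] t1, t ∈ Ioo 0 t1 := Ioo_mem_nhdsLT ht1pos
    obtain ⟨t, ht2, ht3⟩ := (h2.and h3).exists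
    have := hbefore t ht3.1.le ht3.2
    linarith
  have hcone := h.traj.cone t1
  have hD := h.D_pos t1 hmem.1
  have hHt1 : p.N * (fH p (x t1) - 1) + 1 = 0 := by
    rw [← fG_mul p (x t1) hcone, hG0, zero_mul]
  have hNA : p.N * (x t1).A < 1 := by
    simp only [fD] at hD
    have := mul_pos hN hD
    nlinarith
  have hGtp : 0 < fGt p (x t1) := by
    have := fG_add p (x t1)
    linarith
  have hUp : 0 < fU p (x t1) := by
    rcases eq_or_lt_of_le hmem.1.2 with e | h1
    · have h2 := h.Hpos t1 hmem.1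
      have h3 : (x t1).W = 0 := by rw [e]; exact h.WL
      simp only [fU, h3]
      linarith
    · have h2 := h.Wpos t1 ⟨ht1pos, h1⟩
      exact gate_G0 hcone hG0 hNA (by linarith)
  have e1 : ∀ᶠ t in 𝓝 t1, 0 < fU p (x t) := (hUc.tendsto t1).eventually_const_lt hUp
  have e2 : ∀ᶠ t in 𝓝 t1, 0 < fGt p (x t) := (hGtc.tendsto t1).eventually_const_lt hGtp
  obtain ⟨d, hd, hball⟩ := Metric.eventually_nhds_iff.1 (e1.and e2)
  set a := max 0 (t1 - d / 2) with ha
  have ha0 : 0 ≤ a := le_max_left _ _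
  have had : t1 - d / 2 ≤ a := le_max_right _ _
  have hat : a < t1 := max_lt ht1pos (by linarith)
  have hnear : ∀ t ∈ Icc a t1, 0 < fU p (x t) ∧ 0 < fGt p (x t) := by
    intro t ht
    apply hball
    rw [Real.dist_eq, abs_lt]
    constructor <;> linarith [ht.1, ht.2]
  have hmono : StrictMonoOn (fun r => fH p (x r)) (Icc a t1) := by
    apply strictMonoOn_of_deriv_pos (convex_Icc _ _) hHc.continuousOn
    intro t ht
    rw [interior_Icc] at ht
    rw [(h.traj.dH t).deriv]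
    have h1 := (hnear t ⟨ht.1.le, ht.2.le⟩).1
    have h2 := h.Wpos t ⟨ha0.trans_lt ht.1, ht.2.trans_le hmem.1.2⟩
    have h3 : (x t).W < 0 := by linarith
    have h4 : -(-(-1) * (x t).W * fU p (x t) / p.mu) = (-(x t).W) * fU p (x t) / p.mu := by
      ring
    rw [h4]
    have h5 : 0 < -(x t).W := by linarith
    have := p.hmu
    positivity
  have h1 : fH p (x a) < fH p (x t1) :=
    hmono ⟨le_refl _, hat.le⟩ ⟨hat.le, le_refl _⟩ hat
  have h2 := hbefore a ha0 hat
  have h3 := (hnear a ⟨le_refl _, hat.le⟩).2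
  have h4 := fG_mul p (x a) (h.traj.cone a)
  have h5 := mul_pos h2 h3
  nlinarith

theorem BArc.ok {p : Prm} {x : ℝ → Pt} {L : ℝ} (h : BArc p (-1) x L) :
    ∀ t ∈ Icc 0 L, Ok p (x t) := by
  intro t ht
  have h1 := h.D_pos t ht
  have h2 := h.traj.cone t
  refine ⟨h2, ?_, h.G_pos t ht⟩
  have h3 : fH p (x t) < 1 := by
    simp only [fD] at h1
    linarith [h2.2]
  nlinarith [p.N_pos]

theorem pi_persist {p : Prm} {e : ℝ} {x : ℝ → Pt} (h : Traj p e x) {t1 t2 : ℝ} (h12 : t1 ≤ t2)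
    (hH : ∀ t ∈ Icc t1 t2, p.N - 1 < p.N * fH p (x t)) (h1 : InPi p (x t1)) :
    ∀ t ∈ Icc t1 t2, InPi p (x t) := by
  have key := Reg_pos_of_ne (b := t2) (Reg_contD h) h1.D_pos
    (fun t ht => D_ne_zero (h.cone t) (hH t ht))
  exact fun t ht => ⟨h.cone t, hH t ht, key t ht⟩

end B92K
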