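import Mathlib
import Pool.Agent.Lib.B92K.LevB
import Pool.Agent.Lib.B92K.Equil
import Pool.Agent.Lib.B92K.Reg

/-!
# MP_b92fc8_an, `kappa > 1`, module PhA : the sign of `U` along a backward arc, local rules

`x` a BArc of sector `sg = ± 1` on `[0,L]`, `e = - sg`; inside, `- e W = sg W = |W| > 0`.
 * `H' = |W| U/mu` (Traj.dH).
 * where `D > 0` : `U' = (|W|/mu) ((2 + N² W²/D) U - 2 N² V N*/D)` (Traj.dU), `N* ≥ 0` (star), and `N* > 0` where
   `U = 0` (BArc.Ns_pos, `t ∈ (0,L)`). So at `U = 0` : `U'` has the sign of `- V`. Where `U < 0`, `V ≥ 0` : `U' < 0`.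
 * at `L`: `W = 0`, `D > 0`..., `U(L) = 2 H(L) > 0`.
 * at a gate with `U = 0` at time `g ∈ (0,L)`: Gate.apex: `W XV > 0`, so `V' = e XV/mu = - sg XV/mu` is `< 0`.
(1) `rule_pos` (LOCAL): if `U(g) = 0`, `V(g) ≤ 0`, `x g ∈ Pi`, `g ∈ (0,L)`, then `U > 0` on `(g, g+ε)` for some ε.
   PROOF: if `V(g) < 0` then `U'(g) > 0`. If `V(g) = 0`: `V'(g) < 0`, so `V < 0` on `(g,g+ε)`; there (and `N* > 0`, `D > 0`
   by continuity) `U' = a U + b` with `b > 0`, `a` bounded; if `U(t1) ≤ 0` for some `t1` in `(g,g+ε)`: `U exp(-K t)`...,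
   e.g. with `K ≥ |a|`: let `t2` = the last point of `[g,t1]` where `U ≥ 0`...: on `(t2,t1]` `U < 0` hence
   `(U exp(-K t))' = (a - K) U + b > 0`: `U(t1) exp(..) > U(t2) exp(..) ≥ 0`: contradiction; and if `U(t1) = 0` with
   `U ≥ 0` on `[g,t1]`, `U'(t1) = b > 0` contradicts `U ≥ 0` before `t1`.
(2) `after_gate`: `g` a time with `x g` a gate in `Pi`, `U(g) ≥ 0`. Then for `t ∈ (g, L]` : `U > 0`, `x t ∈ Pi`, `H(x g) < H(x t)`.
   PROOF: `U > 0` just after `g` ((1) or continuity). If `U` vanishes later, let `t1` be its first zero after `g`: on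
   `(g,t1)` `U > 0`, `H` is strictly increasing on `[g,t1]` (`H' > 0` inside), so `H > 1-1/N` and `x t ∈ Pi` on `[g,t1]`
   (pi_persist), `H(x t1) > H(x g)`, but Q1 (`z0 = x g`, `z = x t1`, `U z = 0`) gives `H(x t1) ≤ H(x g)`.
   (`t1 < L` or `t1 = L` : both excluded in the same way.) So `U > 0` on `(g,L]` and the same argument gives the rest.
(3) `after_rise`: `a ∈ (0,L)`, `x a ∈ Pi`, `U(a) = 0`, `V(a) < 0`. Then for `t ∈ (a,L]`: `U > 0`, `x t ∈ Pi`, `H(x a) < H(x t)`, and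
   for `t ∈ [a,L]`: `V(t) < 0` or `AllU p (H(x t))`. PROOF: `U'(a) > 0`. Suppose `U` vanishes on `(a,L]`, first at `t1`;
   `U > 0` on `(a,t1)`, so `U'(t1) ≤ 0`, `V(t1) ≥ 0` (`t1 < L` since `U(L) > 0`). Let `t2` = first zero of `V` in `(a,t1]`:
   `x t2` is a gate with `U ≥ 0`. If `t2 < t1`: (2) says `U(t1) > 0`: contradiction. If `t2 = t1`: `V(t1) = 0 = U(t1)`,
   `V < 0` before, so `V'(t1) ≥ 0`, but `V'(t1) < 0` (apex). So `U > 0` on `(a,L]`, `H` strictly increasing, Pi persists.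
   Last claim: if `V(t) ≥ 0` for some `t ∈ [a,L]`, then `V` vanishes at some `t2 ∈ (a,t]` (`V(a) < 0`), a gate with `U ≥ 0`, level
   `H(x t2) ≤ H(x t)`: allU_of_gate.
(4) `fold`: `c ∈ (0,L)`, `U(c) = 0`, `V(c) > 0`, `D > 0` on `[c,t2]`. `U'(c) < 0`, so `U < 0` just after `c`. If `U < 0` on `(c,t2]`
   fine. Otherwise let `a` = first zero of `U` in `(c,t2]`, `U < 0` on `(c,a)`; `a < L` (`U(L) > 0`). If `V(a) > 0`:
   `U'(a) < 0`, impossible (`U < 0` before `a` and `U(a) = 0` give `U'(a) ≥ 0`). If `V(a) = 0`: `U(a) = V(a) = 0`; is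
   `x a ∈ Pi`? (hypothesis `hPi` below: gate_Q2 gives it when `A < 1`; it is assumed in the form
   `∀ t ∈ (c,t2], A < 1`) so Gate.apex: `V'(a) < 0`, so `V > 0` just before `a`, where `U < 0`, `V > 0` gives `U' < 0`: `U` is
   strictly decreasing to `U(a) = 0`, so `U > 0` before: contradiction. So `V(a) < 0`.
-/

set_option autoImplicit false

open Set Filter Topology

noncomputable section

namespace B92K

theorem PhA_right_gt {f : ℝ → ℝ} {f' g : ℝ} (h : HasDerivAt f f' g) (hf : 0 < f') :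
    ∀ᶠ t in 𝓝[>] g, f g < f t := by
  have h1 := hasDerivAt_iff_tendsto_slope.1 h
  have h2 : ∀ᶠ t in 𝓝[≠] g, 0 < slope f g t := h1.eventually (Ioi_mem_nhds hf)
  have h3 : ∀ᶠ t in 𝓝[>] g, 0 < slope f g t :=
    h2.filter_mono (nhdsWithin_mono _ (fun y hy => ne_of_gt hy))
  filter_upwards [h3, self_mem_nhdsWithin] with t ht hgt
  rw [slope_def_field] at ht
  have h4 : 0 < t - g := sub_pos.2 hgt
  have h5 := (div_pos_iff_of_pos_right h4).1 ht
  linarith

theorem PhA_left_lt {f : ℝ → ℝ} {f' g : ℝ} (h : HasDerivAt f f' g) (hf : 0 < f') :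
    ∀ᶠ t in 𝓝[<] g, f t < f g := by
  have h1 := hasDerivAt_iff_tendsto_slope.1 h
  have h2 : ∀ᶠ t in 𝓝[≠] g, 0 < slope f g t := h1.eventually (Ioi_mem_nhds hf)
  have h3 : ∀ᶠ t in 𝓝[<] g, 0 < slope f g t :=
    h2.filter_mono (nhdsWithin_mono _ (fun y hy => ne_of_lt hy))
  filter_upwards [h3, self_mem_nhdsWithin] with t ht hgt
  rw [slope_def_field] at ht
  have h4 : t - g < 0 := sub_neg.2 hgt
  by_contra hcon
  push Not at hcon
  have h5 := div_nonpos_of_nonneg_of_nonpos (sub_nonneg.2 hcon) h4.le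
  linarith

theorem PhA_barrier {f f' : ℝ → ℝ} {a b : ℝ} (hc : ∀ t ∈ Ico a b, ContinuousAt f t)
    (hd : ∀ t ∈ Ioo a b, HasDerivAt f (f' t) t) (h0 : 0 ≤ f a)
    (hp : ∀ t ∈ Ioo a b, f t ≤ 0 → 0 < f' t) : ∀ t ∈ Ioo a b, 0 < f t := by
  intro t1 ht1
  by_contra hcon
  push Not at hcon
  obtain ⟨s, hs, hmin⟩ := isCompact_Icc.exists_isMinOn (nonempty_Icc.2 ht1.1.le)
    (fun t ht => (hc t ⟨ht.1, ht.2.trans_lt ht1.2⟩).continuousWithinAt)
  have key : ∀ s ∈ Ioc a t1, (∀ r ∈ Icc a t1, f s ≤ f r) → False := by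
    intro s hs hm
    have h1 : f s ≤ 0 := (hm t1 ⟨ht1.1.le, le_rfl⟩).trans hcon
    have hsI : s ∈ Ioo a b := ⟨hs.1, hs.2.trans_lt ht1.2⟩
    have h2 := PhA_left_lt (hd s hsI) (hp s hsI h1)
    have h3 : ∀ᶠ t in 𝓝[<] s, t ∈ Ioo a s := Ioo_mem_nhdsLT hs.1
    obtain ⟨t, k1, k2⟩ := (h2.and h3).exists
    exact absurd (hm t ⟨k2.1.le, k2.2.le.trans hs.2⟩) (not_le.2 k1)
  rcases hs.1.eq_or_lt with h | h
  · refine key t1 ⟨ht1.1, le_rfl⟩ ?_
    intro r hr
    have h5 : f s ≤ f r := hmin hr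
    rw [← h] at h5
    linarith
  · exact key s ⟨h, hs.2⟩ (fun r hr => hmin hr)

theorem PhA_first {f : ℝ → ℝ} (hf : Continuous f) {g b : ℝ} (h0 : ∀ᶠ t in 𝓝[>] g, 0 < f t)
    (hex : ∃ t ∈ Ioc g b, f t ≤ 0) :
    ∃ t1 ∈ Ioc g b, f t1 = 0 ∧ ∀ t ∈ Ioo g t1, 0 < f t := by
  obtain ⟨u, hu, hsub⟩ := mem_nhdsGT_iff_exists_Ioo_subset.1 h0
  have hu' : g < u := hu
  obtain ⟨t0, ht0, hft0⟩ := hex
  have hut : u ≤ t0 := by
    by_contra hlt
    push Not at hlt
    have h1 : 0 < f t0 := hsub ⟨ht0.1, hlt⟩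
    linarith
  have hcomp : IsCompact (Icc u t0 ∩ {t | f t ≤ 0}) :=
    isCompact_Icc.inter_right (isClosed_le hf continuous_const)
  obtain ⟨t1, ht1, hmin⟩ := hcomp.exists_isLeast ⟨t0, ⟨hut, le_rfl⟩, hft0⟩
  have hg1 : g < t1 := lt_of_lt_of_le hu' ht1.1.1
  have hpos : ∀ t ∈ Ioo g t1, 0 < f t := by
    intro t ht
    rcases lt_or_ge t u with h1 | h1
    · exact hsub ⟨ht.1, h1⟩
    · by_contra hcon
      push Not at hcon
      have h2 := hmin ⟨⟨h1, ht.2.le.trans ht1.1.2⟩, hcon⟩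
      exact absurd ht.2 (not_lt.2 h2)
  refine ⟨t1, ⟨hg1, ht1.1.2.trans ht0.2⟩, le_antisymm ht1.2 ?_, hpos⟩
  have h4 : Tendsto f (𝓝[<] t1) (𝓝 (f t1)) := (hf.tendsto t1).mono_left nhdsWithin_le_nhds
  refine ge_of_tendsto h4 ?_
  have h3 : ∀ᶠ t in 𝓝[<] t1, t ∈ Ioo g t1 := Ioo_mem_nhdsLT hg1
  filter_upwards [h3] with t ht
  exact (hpos t ht).le

theorem PhA_cV {p : Prm} {e : ℝ} {x : ℝ → Pt} (h : Traj p e x) :
    Continuous fun r => fV p (x r) := by
  have hA := h.contA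
  have hS := h.contS
  have hW := h.contW
  simp only [fV]
  fun_prop

theorem PhA_cNs {p : Prm} {e : ℝ} {x : ℝ → Pt} (h : Traj p e x) :
    Continuous fun r => fNs p (x r) := by
  have hA := h.contA
  have hS := h.contS
  have hW := h.contW
  have hD := Reg_contD h
  simp only [fNs]
  fun_prop

section

variable {p : Prm} {sg : ℝ} {x : ℝ → Pt} {L : ℝ}

theorem BArc.U_L (h : BArc p sg x L) : 0 < fU p (x L) := by
  have h1 := h.Hpos L ⟨h.pos.le, le_rfl⟩
  simp only [fU, h.WL]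
  linarith

theorem BArc.V_L (h : BArc p sg x L) : fV p (x L) < 0 := by
  have h1 := (h.traj.cone L).2
  have h2 := h.AL
  simp only [fV, h.WL, h.SL]
  nlinarith

theorem PhA_dU (h : BArc p sg x L) {t : ℝ} (hD : fD p (x t) ≠ 0) :
    HasDerivAt (fun r => fU p (x r)) (sg * (x t).W / p.mu
      * ((2 + p.N ^ 2 * (x t).W ^ 2 / fD p (x t)) * fU p (x t)
        - 2 * p.N ^ 2 * fV p (x t) * fNs p (x t) / fD p (x t))) t :=
  (h.traj.dU hD).congr_deriv (by ring)

theorem PhA_W_ne (h : BArc p sg x L) {t : ℝ} (ht : t ∈ Ioo 0 L) : (x t).W ≠ 0 := by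
  intro h0
  have h1 := h.Wpos t ht
  rw [h0, mul_zero] at h1
  exact lt_irrefl _ h1

theorem PhA_apex (h : BArc p sg x L) {g : ℝ} (hg : g ∈ Ioo 0 L) (hPi : InPi p (x g))
    (hU : fU p (x g) = 0) (hV : fV p (x g) = 0) :
    ∃ v, HasDerivAt (fun r => fV p (x r)) v g ∧ v < 0 := by
  refine ⟨_, h.traj.dV g, ?_⟩
  have hW0 := PhA_W_ne h hg
  have hN := h.Ns_pos hg hU hPi.D_pos.ne'
  have h1 := Gate.apex (z := x g) ⟨hPi, hV, hW0⟩ hU hN
  have h2 := h.Wpos g hg
  have h3 : 0 < (sg * XV p (x g)) * (x g).W ^ 2 := by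
    have h4 := mul_pos h2 h1
    have e1 : (sg * XV p (x g)) * (x g).W ^ 2 = (sg * (x g).W) * ((x g).W * XV p (x g)) := by
      ring
    rw [e1]
    exact h4
  have h5 : 0 < sg * XV p (x g) := pos_of_mul_pos_left h3 (sq_nonneg _)
  have h6 := div_pos h5 p.hmu
  have e2 : -sg * XV p (x g) / p.mu = -(sg * XV p (x g) / p.mu) := by ring
  rw [e2]
  linarith

theorem PhA_H_mono (h : BArc p sg x L) {a b : ℝ} (ha : 0 ≤ a) (hb : b ≤ L)
    (hU : ∀ t ∈ Ioo a b, 0 < fU p (x t)) :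
    StrictMonoOn (fun t => fH p (x t)) (Icc a b) := by
  refine strictMonoOn_of_deriv_pos (convex_Icc a b) (Reg_contH h.traj).continuousOn ?_
  intro t ht
  rw [interior_Icc] at ht
  rw [(h.traj.dH t).deriv]
  have h1 := h.Wpos t ⟨lt_of_le_of_lt ha ht.1, lt_of_lt_of_le ht.2 hb⟩
  have h2 := hU t ht
  have h3 := p.hmu
  have e1 : -(-sg * (x t).W * fU p (x t) / p.mu) = (sg * (x t).W) * fU p (x t) / p.mu := by ring
  rw [e1]
  positivity

theorem PhA_pi (h : BArc p sg x L) {a b : ℝ} (hab : a ≤ b)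
    (hm : StrictMonoOn (fun t => fH p (x t)) (Icc a b)) (hPi : InPi p (x a)) :
    ∀ t ∈ Icc a b, InPi p (x t) := by
  refine pi_persist h.traj hab ?_ hPi
  intro t ht
  have h1 : fH p (x a) ≤ fH p (x t) := hm.monotoneOn (left_mem_Icc.2 hab) ht ht.1
  have h2 := mul_le_mul_of_nonneg_left h1 p.N_pos.le
  linarith [hPi.H_gt]

theorem BArc.rule_pos (h : BArc p sg x L) (hsg : sg = 1 ∨ sg = -1) {g : ℝ} (hg : g ∈ Ioo 0 L)
    (hPi : InPi p (x g)) (hU : fU p (x g) = 0) (hV : fV p (x g) ≤ 0) :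
    ∀ᶠ t in 𝓝[>] g, 0 < fU p (x t) := by
  have hD := hPi.D_pos
  have hN := h.Ns_pos hg hU hD.ne'
  have hmu := p.hmu
  have hNp := p.N_pos
  have hVr : ∀ᶠ t in 𝓝[>] g, fV p (x t) < 0 := by
    rcases hV.lt_or_eq with hV | hV
    · exact (((PhA_cV h.traj).tendsto g).eventually (Iio_mem_nhds hV)).filter_mono
        nhdsWithin_le_nhds
    · obtain ⟨v, hv, hv0⟩ := PhA_apex h hg hPi hU hV
      have h2 := PhA_right_gt hv.neg (by linarith)
      filter_upwards [h2] with t ht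
      have h3 : -fV p (x g) < -fV p (x t) := ht
      rw [hV] at h3
      linarith
  obtain ⟨Af, hAf⟩ : ∃ Af : ℝ → ℝ, Af = fun t => sg * (x t).W / p.mu
    * (2 + p.N ^ 2 * (x t).W ^ 2 / fD p (x t)) := ⟨_, rfl⟩
  have hAc : ContinuousAt Af g := by
    rw [hAf]
    have h1 : ContinuousAt (fun r => (x r).W) g := h.traj.contW.continuousAt
    have h2 : ContinuousAt (fun r => fD p (x r)) g := (Reg_contD h.traj).continuousAt
    exact ((continuousAt_const.mul h1).div_const _).mul (continuousAt_const.add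
      ((continuousAt_const.mul (h1.pow 2)).div h2 hD.ne'))
  have hAK : ∀ᶠ t in 𝓝[>] g, Af t < Af g + 1 :=
    (hAc.tendsto.eventually (Iio_mem_nhds (by linarith))).filter_mono nhdsWithin_le_nhds
  have hNr : ∀ᶠ t in 𝓝[>] g, 0 < fNs p (x t) :=
    (((PhA_cNs h.traj).tendsto g).eventually (Ioi_mem_nhds hN)).filter_mono nhdsWithin_le_nhds
  have hDr : ∀ᶠ t in 𝓝[>] g, 0 < fD p (x t) :=
    (((Reg_contD h.traj).tendsto g).eventually (Ioi_mem_nhds hD)).filter_mono nhdsWithin_le_nhds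
  have hLr : ∀ᶠ t in 𝓝[>] g, t ∈ Ioo g L := Ioo_mem_nhdsGT hg.2
  obtain ⟨u, hu, hsub⟩ := mem_nhdsGT_iff_exists_Ioo_subset.1
    (hVr.and (hAK.and (hNr.and (hDr.and hLr))))
  obtain ⟨K, hK⟩ : ∃ K, K = Af g + 1 := ⟨_, rfl⟩
  have hd : ∀ t ∈ Ioo g u, HasDerivAt (fun t => fU p (x t) * Real.exp (-K * t))
      (sg * (x t).W / p.mu * ((2 + p.N ^ 2 * (x t).W ^ 2 / fD p (x t)) * fU p (x t)
        - 2 * p.N ^ 2 * fV p (x t) * fNs p (x t) / fD p (x t)) * Real.exp (-K * t)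
        + fU p (x t) * (Real.exp (-K * t) * (-K))) t := by
    intro t ht
    obtain ⟨-, -, -, k4, -⟩ := hsub ht
    have h1 := PhA_dU h (t := t) k4.ne'
    have h2 : HasDerivAt (fun t : ℝ => -K * t) (-K) t := by
      simpa using (hasDerivAt_id t).const_mul (-K)
    exact h1.mul h2.exp
  have hbar := PhA_barrier (a := g) (b := u) (f := fun t => fU p (x t) * Real.exp (-K * t))
    (f' := fun t => sg * (x t).W / p.mu * ((2 + p.N ^ 2 * (x t).W ^ 2 / fD p (x t)) * fU p (x t)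
        - 2 * p.N ^ 2 * fV p (x t) * fNs p (x t) / fD p (x t)) * Real.exp (-K * t)
        + fU p (x t) * (Real.exp (-K * t) * (-K)))
    (fun t _ => ((Reg_contU h.traj).mul (by fun_prop)).continuousAt) hd
    (by simp only [hU, zero_mul, le_refl]) ?_
  · filter_upwards [Ioo_mem_nhdsGT hu] with t ht
    exact pos_of_mul_pos_left (hbar t ht) (Real.exp_pos _).le
  · intro t ht hle
    obtain ⟨k1, k2, k3, k4, k5⟩ := hsub ht
    have hw := h.Wpos t ⟨hg.1.trans k5.1, k5.2⟩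
    have hexp := Real.exp_pos (-K * t)
    have hUt : fU p (x t) ≤ 0 := by
      by_contra hcon
      push Not at hcon
      have : 0 < fU p (x t) * Real.exp (-K * t) := mul_pos hcon hexp
      exact absurd hle (not_le.2 this)
    have k2' : sg * (x t).W / p.mu * (2 + p.N ^ 2 * (x t).W ^ 2 / fD p (x t)) < K := by
      rw [hK]
      have k2'' : Af t < Af g + 1 := k2
      have e1 : Af t = sg * (x t).W / p.mu * (2 + p.N ^ 2 * (x t).W ^ 2 / fD p (x t)) := by
        rw [hAf]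
      rw [e1] at k2''
      exact k2''
    have hB : 0 < sg * (x t).W / p.mu * (2 * p.N ^ 2 * (-fV p (x t)) * fNs p (x t)
        / fD p (x t)) := by
      have hV' : 0 < -fV p (x t) := by linarith [show fV p (x t) < 0 from k1]
      have k3' : 0 < fNs p (x t) := k3
      have k4' : 0 < fD p (x t) := k4
      positivity
    have hA : 0 ≤ (sg * (x t).W / p.mu * (2 + p.N ^ 2 * (x t).W ^ 2 / fD p (x t)) - K)
        * fU p (x t) := mul_nonneg_of_nonpos_of_nonpos (by linarith) hUt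
    have hsum := mul_pos (add_pos_of_nonneg_of_pos hA hB) hexp
    have e2 : ((sg * (x t).W / p.mu * (2 + p.N ^ 2 * (x t).W ^ 2 / fD p (x t)) - K)
        * fU p (x t) + sg * (x t).W / p.mu * (2 * p.N ^ 2 * (-fV p (x t)) * fNs p (x t)
        / fD p (x t))) * Real.exp (-K * t)
        = sg * (x t).W / p.mu * ((2 + p.N ^ 2 * (x t).W ^ 2 / fD p (x t)) * fU p (x t)
        - 2 * p.N ^ 2 * fV p (x t) * fNs p (x t) / fD p (x t)) * Real.exp (-K * t)
        + fU p (x t) * (Real.exp (-K * t) * (-K)) := by ring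
    rw [e2] at hsum
    exact hsum

theorem BArc.after_gate (h : BArc p sg x L) (hsg : sg = 1 ∨ sg = -1) {g : ℝ}
    (hg : g ∈ Ioo 0 L) (hPi : InPi p (x g)) (hV : fV p (x g) = 0) (hU : 0 ≤ fU p (x g)) :
    ∀ t ∈ Ioc g L, 0 < fU p (x t) ∧ InPi p (x t) ∧ fH p (x g) < fH p (x t) := by
  have hW0 := PhA_W_ne h hg
  have hgate : Gate p (x g) := ⟨hPi, hV, hW0⟩
  have hUr : ∀ᶠ t in 𝓝[>] g, 0 < fU p (x t) := by
    rcases hU.lt_or_eq with hU | hU
    · exact (((Reg_contU h.traj).tendsto g).eventually (Ioi_mem_nhds hU)).filter_mono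
        nhdsWithin_le_nhds
    · exact h.rule_pos hsg hg hPi hU.symm hV.le
  have hall : ∀ t ∈ Ioc g L, 0 < fU p (x t) := by
    by_contra hcon
    push Not at hcon
    obtain ⟨t1, ht1, hz, hpos⟩ := PhA_first (Reg_contU h.traj) hUr hcon
    have h1 := PhA_H_mono h hg.1.le ht1.2 hpos
    have h2 := h1 (left_mem_Icc.2 ht1.1.le) (right_mem_Icc.2 ht1.1.le) ht1.1
    have h3 : fH p (x g) < fH p (x t1) := h2
    have h4 := PhA_pi h ht1.1.le h1 hPi t1 (right_mem_Icc.2 ht1.1.le)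
    rcases Q1 hgate hU h4 hz.le with h5 | h5
    · linarith
    · linarith [h5.1]
  intro t ht
  have h1 := PhA_H_mono h hg.1.le ht.2 (fun s hs => hall s ⟨hs.1, hs.2.le.trans ht.2⟩)
  have h2 : fH p (x g) < fH p (x t) :=
    h1 (left_mem_Icc.2 ht.1.le) (right_mem_Icc.2 ht.1.le) ht.1
  exact ⟨hall t ht, PhA_pi h ht.1.le h1 hPi t (right_mem_Icc.2 ht.1.le), h2⟩

theorem BArc.after_rise (h : BArc p sg x L) (hsg : sg = 1 ∨ sg = -1) {a : ℝ}
    (ha : a ∈ Ioo 0 L) (hPi : InPi p (x a)) (hU : fU p (x a) = 0) (hV : fV p (x a) < 0) :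
    (∀ t ∈ Ioc a L, 0 < fU p (x t) ∧ InPi p (x t) ∧ fH p (x a) < fH p (x t)) ∧
      ∀ t ∈ Icc a L, fV p (x t) < 0 ∨ AllU p (fH p (x t)) := by
  have hUr := h.rule_pos hsg ha hPi hU hV.le
  have hall : ∀ t ∈ Ioc a L, 0 < fU p (x t) := by
    by_contra hcon
    push Not at hcon
    obtain ⟨t1, ht1, hz, hpos⟩ := PhA_first (Reg_contU h.traj) hUr hcon
    have ht1L : t1 < L := by
      refine lt_of_le_of_ne ht1.2 ?_
      rintro rfl
      linarith [h.U_L]
    have ht10 : t1 ∈ Ioo 0 L := ⟨ha.1.trans ht1.1, ht1L⟩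
    have h1 := PhA_H_mono h ha.1.le ht1.2 hpos
    have hPi1 := PhA_pi h ht1.1.le h1 hPi
    have hVneg : ∀ t ∈ Ioo a t1, fV p (x t) < 0 := by
      intro t ht
      by_contra hcon2
      push Not at hcon2
      obtain ⟨t2, ht2, ht20⟩ := intermediate_value_Icc ht.1.le
        (PhA_cV h.traj).continuousOn ⟨hV.le, hcon2⟩
      have ht20' : fV p (x t2) = 0 := ht20
      have hat2 : a < t2 := by
        refine lt_of_le_of_ne ht2.1 ?_
        rintro rfl
        rw [ht20'] at hV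
        exact lt_irrefl _ hV
      have ht21 : t2 < t1 := lt_of_le_of_lt ht2.2 ht.2
      have h3 := h.after_gate hsg (g := t2) ⟨ha.1.trans hat2, ht21.trans ht1L⟩
        (hPi1 t2 ⟨ht2.1, ht21.le⟩) ht20' (hpos t2 ⟨hat2, ht21⟩).le t1 ⟨ht21, ht1.2⟩
      rw [hz] at h3
      exact lt_irrefl _ h3.1
    have hPit1 := hPi1 t1 (right_mem_Icc.2 ht1.1.le)
    have hlt : ∀ᶠ t in 𝓝[<] t1, t ∈ Ioo a t1 := Ioo_mem_nhdsLT ht1.1
    have hVt1 : fV p (x t1) ≤ 0 := by
      have h4 : Tendsto (fun r => fV p (x r)) (𝓝[<] t1) (𝓝 (fV p (x t1))) :=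
        ((PhA_cV h.traj).tendsto t1).mono_left nhdsWithin_le_nhds
      refine le_of_tendsto h4 ?_
      filter_upwards [hlt] with t ht
      exact (hVneg t ht).le
    rcases hVt1.lt_or_eq with hV1 | hV1
    · have h4 := PhA_left_lt (PhA_dU h (t := t1) hPit1.D_pos.ne') (by
        have hN := h.Ns_pos ht10 hz hPit1.D_pos.ne'
        have hw := h.Wpos t1 ht10
        have hD := hPit1.D_pos
        have hmu := p.hmu
        have hNp := p.N_pos
        have hV' : 0 < -fV p (x t1) := by linarith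
        rw [hz]
        have e1 : sg * (x t1).W / p.mu * ((2 + p.N ^ 2 * (x t1).W ^ 2 / fD p (x t1)) * 0
            - 2 * p.N ^ 2 * fV p (x t1) * fNs p (x t1) / fD p (x t1))
            = sg * (x t1).W / p.mu * (2 * p.N ^ 2 * (-fV p (x t1)) * fNs p (x t1)
              / fD p (x t1)) := by ring
        rw [e1]
        positivity)
      obtain ⟨t, k1, k2⟩ := (h4.and hlt).exists
      have k3 : fU p (x t) < fU p (x t1) := k1
      have k4 := hpos t k2
      linarith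
    · obtain ⟨v, hv, hv0⟩ := PhA_apex h ht10 hPit1 hz hV1
      have h4 := PhA_left_lt hv.neg (by linarith)
      obtain ⟨t, k1, k2⟩ := (h4.and hlt).exists
      have k3 : -fV p (x t) < -fV p (x t1) := k1
      have k4 := hVneg t k2
      linarith
  have h1 := PhA_H_mono h ha.1.le le_rfl (fun s hs => hall s ⟨hs.1, hs.2.le⟩)
  have hPi1 := PhA_pi h ha.2.le h1 hPi
  refine ⟨fun t ht => ⟨hall t ht, hPi1 t ⟨ht.1.le, ht.2⟩, ?_⟩, ?_⟩
  · exact h1 (left_mem_Icc.2 ha.2.le) ⟨ht.1.le, ht.2⟩ ht.1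
  · intro t ht
    by_cases hVt : fV p (x t) < 0
    · exact Or.inl hVt
    · right
      push Not at hVt
      obtain ⟨t2, ht2, ht20⟩ := intermediate_value_Icc ht.1
        (PhA_cV h.traj).continuousOn ⟨hV.le, hVt⟩
      have ht20' : fV p (x t2) = 0 := ht20
      have hat2 : a < t2 := by
        refine lt_of_le_of_ne ht2.1 ?_
        rintro rfl
        rw [ht20'] at hV
        exact lt_irrefl _ hV
      have ht2L : t2 < L := by
        refine lt_of_le_of_ne (ht2.2.trans ht.2) ?_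
        rintro rfl
        linarith [h.V_L]
      have hgate : Gate p (x t2) := ⟨hPi1 t2 ⟨hat2.le, ht2L.le⟩, ht20',
        PhA_W_ne h ⟨ha.1.trans hat2, ht2L⟩⟩
      refine allU_of_gate hgate (hall t2 ⟨hat2, ht2L.le⟩).le ?_
      exact h1.monotoneOn ⟨hat2.le, ht2L.le⟩ ht ht2.2

theorem BArc.fold (h : BArc p sg x L) (hsg : sg = 1 ∨ sg = -1) {c t2 : ℝ} (hc : c ∈ Ioo 0 L)
    (ht2 : t2 ∈ Ioc c L) (hD : ∀ t ∈ Icc c t2, 0 < fD p (x t))
    (hA : ∀ t ∈ Icc c t2, (x t).A < 1) (hU : fU p (x c) = 0) (hV : 0 < fV p (x c)) :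
    (∀ t ∈ Ioc c t2, fU p (x t) < 0) ∨
      ∃ a ∈ Ioc c t2, a < L ∧ (∀ t ∈ Ioo c a, fU p (x t) < 0) ∧ fU p (x a) = 0 ∧
        fV p (x a) < 0 := by
  have hmu := p.hmu
  have hNp := p.N_pos
  have hc2 : c ∈ Icc c t2 := left_mem_Icc.2 ht2.1.le
  have hdUc : ∀ t ∈ Ioo 0 L, 0 < fD p (x t) → fU p (x t) = 0 → 0 < fV p (x t) →
      sg * (x t).W / p.mu * ((2 + p.N ^ 2 * (x t).W ^ 2 / fD p (x t)) * fU p (x t)
        - 2 * p.N ^ 2 * fV p (x t) * fNs p (x t) / fD p (x t)) < 0 := by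
    intro t ht hDt hUt hVt
    have hN := h.Ns_pos ht hUt hDt.ne'
    have hw := h.Wpos t ht
    rw [hUt]
    have e1 : sg * (x t).W / p.mu * ((2 + p.N ^ 2 * (x t).W ^ 2 / fD p (x t)) * 0
        - 2 * p.N ^ 2 * fV p (x t) * fNs p (x t) / fD p (x t))
        = -(sg * (x t).W / p.mu * (2 * p.N ^ 2 * fV p (x t) * fNs p (x t)
          / fD p (x t))) := by ring
    rw [e1, neg_lt_zero]
    positivity
  have hUr : ∀ᶠ t in 𝓝[>] c, 0 < -fU p (x t) := by
    have h1 := PhA_right_gt (PhA_dU h (t := c) (hD c hc2).ne').neg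
      (by linarith [hdUc c hc (hD c hc2) hU hV])
    filter_upwards [h1] with t ht
    have h2 : -fU p (x c) < -fU p (x t) := ht
    rw [hU] at h2
    linarith
  by_cases hall : ∀ t ∈ Ioc c t2, fU p (x t) < 0
  · exact Or.inl hall
  · right
    push Not at hall
    obtain ⟨a, ha, hz, hneg⟩ := PhA_first (f := fun t => -fU p (x t)) (b := t2)
      (Reg_contU h.traj).neg hUr (by
        obtain ⟨t, ht, ht0⟩ := hall
        exact ⟨t, ht, by simpa using ht0⟩)
    have hz' : fU p (x a) = 0 := by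
      have : -fU p (x a) = 0 := hz
      linarith
    have hneg' : ∀ t ∈ Ioo c a, fU p (x t) < 0 := by
      intro t ht
      have : 0 < -fU p (x t) := hneg t ht
      linarith
    have haL : a < L := by
      refine lt_of_le_of_ne (ha.2.trans ht2.2) ?_
      rintro rfl
      linarith [h.U_L]
    have ha0 : a ∈ Ioo 0 L := ⟨hc.1.trans ha.1, haL⟩
    have ha2 : a ∈ Icc c t2 := ⟨ha.1.le, ha.2⟩
    have hlt : ∀ᶠ t in 𝓝[<] a, t ∈ Ioo c a := Ioo_mem_nhdsLT ha.1
    refine ⟨a, ha, haL, hneg', hz', ?_⟩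
    by_contra hcon
    push Not at hcon
    rcases hcon.lt_or_eq with hV1 | hV1
    · have h4 := PhA_left_lt (PhA_dU h (t := a) (hD a ha2).ne').neg
        (by linarith [hdUc a ha0 (hD a ha2) hz' hV1])
      obtain ⟨t, k1, k2⟩ := (h4.and hlt).exists
      have k3 : -fU p (x t) < -fU p (x a) := k1
      have k4 := hneg' t k2
      linarith
    · have hgate := gate_of (h.traj.cone a) (hA a ha2) (hD a ha2) hV1.symm hz'.ge
        (PhA_W_ne h ha0)
      obtain ⟨v, hv, hv0⟩ := PhA_apex h ha0 hgate.pi hz' hV1.symm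
      have h4 := PhA_left_lt hv.neg (by linarith)
      have h5 : ∀ᶠ t in 𝓝[<] a, 0 < fV p (x t) ∧ t ∈ Ioo c a := by
        filter_upwards [h4, hlt] with t k1 k2
        have k3 : -fV p (x t) < -fV p (x a) := k1
        rw [← hV1] at k3
        exact ⟨by linarith, k2⟩
      obtain ⟨u, hu, hsub⟩ := mem_nhdsLT_iff_exists_Ioo_subset.1 h5
      have hu' : u < a := hu
      obtain ⟨m, hm1, hm2⟩ := exists_between hu'
      have hmc : c < m := (hsub ⟨hm1, hm2⟩).2.1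
      have hanti : StrictAntiOn (fun t => fU p (x t)) (Icc m a) := by
        refine strictAntiOn_of_deriv_neg (convex_Icc m a) (Reg_contU h.traj).continuousOn ?_
        intro t ht
        rw [interior_Icc] at ht
        obtain ⟨k1, k2⟩ := hsub (show t ∈ Ioo u a from ⟨hm1.trans ht.1, ht.2⟩)
        have htI : t ∈ Ioo 0 L := ⟨hc.1.trans k2.1, k2.2.trans haL⟩
        have hDt := hD t ⟨k2.1.le, k2.2.le.trans ha.2⟩
        rw [(PhA_dU h (t := t) hDt.ne').deriv]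
        have hw := h.Wpos t htI
        have hNs := h.star t ⟨htI.1.le, htI.2.le⟩
        have hUt := hneg' t k2
        have q1 : 0 < sg * (x t).W / p.mu := by positivity
        have q2 : (2 + p.N ^ 2 * (x t).W ^ 2 / fD p (x t)) * fU p (x t) < 0 :=
          mul_neg_of_pos_of_neg (by positivity) hUt
        have q3 : 0 ≤ 2 * p.N ^ 2 * fV p (x t) * fNs p (x t) / fD p (x t) := by positivity
        exact mul_neg_of_pos_of_neg q1 (by linarith)
      have h6 : fU p (x a) < fU p (x m) :=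
        hanti (left_mem_Icc.2 hm2.le) (right_mem_Icc.2 hm2.le) hm2
      have h7 := hneg' m ⟨hmc, hm2⟩
      linarith

end

end B92K
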