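import Mathlib
import Pool.Agent.Lib.B92K.PhA

/-!
# MP_b92fc8_an, `kappa > 1`, module PhM : the two types of arcs of sector `-`

`y` a BArc of sector `-` (`sg = -1`, `W < 0` inside) on `[0,M]`. Known (Reg): `A < 1`, `D > 0`, `G > 0` on `[0,M]`.
At `0`: `W = 0`, `S = 2A`, `A < 1`: `V(0) = 2A(1-A) > 0`, `U(0) = 2H > 0`. `V(M) < 0` (V_L).
Let `τ` = the first time where `min(U, V) = 0` (it exists by continuity, `V(M) < 0`; `0 < τ < M` because `V(M) < 0`
means `τ ≠ M`...: `min(U,V)(M) < 0` so the first zero is `< M`). On `[0,τ)`: `U > 0`, `V > 0`.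
 * If `V(τ) = 0` (then `U(τ) ≥ 0`): `x τ` is a gate: gate_Q2 (`W(τ) ≠ 0` since `0 < τ < M`) gives `Pi`; after_gate: TYPE 0, `g = τ`.
 * If `V(τ) > 0`, `U(τ) = 0`: `b = τ`. BArc.fold with `c = b`, `t2 = M`: the first alternative contradicts `U(M) > 0`; so there is
   `a ∈ (b,M)`, `U < 0` on `(b,a)`, `U(a) = 0`, `V(a) < 0`. gate_Q3 (`A < 1, W < 0, G > 0, U = 0, V ≤ 0`) gives
   `H(y a) > 1 - 1/N`. `H` decreases on `[b,a]` (`H' = |W| U/mu`), so `H ≥ H(y a) > 1 - 1/N` there, and `D > 0`: `y t ∈ Pi` on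
   `[b,a]`. after_rise at `a`: TYPE 1.
-/

set_option autoImplicit false

open Set Filter Topology

noncomputable section

namespace B92K

/-- Type 0 : one gate time `g`; `U, V > 0` before, `U > 0` in `Pi` after. -/
def Type0 (p : Prm) (y : ℝ → Pt) (M g : ℝ) : Prop :=
  g ∈ Ioo 0 M ∧ (∀ t ∈ Ico 0 g, 0 < fU p (y t) ∧ 0 < fV p (y t)) ∧ fV p (y g) = 0 ∧
    0 ≤ fU p (y g) ∧ InPi p (y g) ∧
    ∀ t ∈ Ioc g M, 0 < fU p (y t) ∧ InPi p (y t) ∧ fH p (y g) < fH p (y t)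

/-- Type 1 : `U > 0` on `[0,b)`, `U < 0` on `(b,a)`, `U > 0` on `(a,M]`, in `Pi` on `[b,M]`. -/
def Type1 (p : Prm) (y : ℝ → Pt) (M b a : ℝ) : Prop :=
  0 < b ∧ b < a ∧ a < M ∧ (∀ t ∈ Ico 0 b, 0 < fU p (y t) ∧ 0 < fV p (y t)) ∧
    fU p (y b) = 0 ∧ 0 < fV p (y b) ∧ (∀ t ∈ Ioo b a, fU p (y t) < 0) ∧
    fU p (y a) = 0 ∧ fV p (y a) < 0 ∧ (∀ t ∈ Icc b M, InPi p (y t)) ∧
    (∀ t ∈ Ioc a M, 0 < fU p (y t)) ∧
    ∀ t ∈ Icc a M, fV p (y t) < 0 ∨ AllU p (fH p (y t))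

theorem PhM_first {f : ℝ → ℝ} (hf : Continuous f) {a b : ℝ} (hab : a ≤ b) (ha : 0 < f a)
    (hb : f b < 0) : ∃ τ ∈ Ioo a b, f τ = 0 ∧ ∀ t ∈ Ico a τ, 0 < f t := by
  set Z : Set ℝ := {t | t ∈ Icc a b ∧ f t ≤ 0} with hZ
  have hZcl : IsClosed Z := isClosed_Icc.inter (isClosed_le hf continuous_const)
  have hZne : Z.Nonempty := ⟨b, ⟨hab, le_rfl⟩, hb.le⟩
  have hZbd : BddBelow Z := ⟨a, fun t ht => ht.1.1⟩
  have hmem : sInf Z ∈ Z := hZcl.csInf_mem hZne hZbd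
  have hbefore : ∀ t, a ≤ t → t < sInf Z → 0 < f t := by
    intro t h0 h1
    by_contra hc
    push Not at hc
    have : t ∈ Z := ⟨⟨h0, h1.le.trans hmem.1.2⟩, hc⟩
    exact absurd (csInf_le hZbd this) (not_le.2 h1)
  have ha1 : a < sInf Z := by
    rcases eq_or_lt_of_le hmem.1.1 with h1 | h1
    · exfalso
      have h2 := hmem.2
      rw [← h1] at h2
      linarith
    · exact h1
  have h0 : f (sInf Z) = 0 := by
    refine le_antisymm hmem.2 ?_
    by_contra hc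
    push Not at hc
    have h1 : ∀ᶠ t in 𝓝 (sInf Z), f t < 0 := (hf.tendsto (sInf Z)).eventually_lt_const hc
    have h2 : ∀ᶠ t in 𝓝[<] (sInf Z), f t < 0 := h1.filter_mono nhdsWithin_le_nhds
    have h3 : ∀ᶠ t in 𝓝[<] (sInf Z), t ∈ Ioo a (sInf Z) := Ioo_mem_nhdsLT ha1
    obtain ⟨t, ht2, ht3⟩ := (h2.and h3).exists
    have := hbefore t ht3.1.le ht3.2
    linarith
  have hb1 : sInf Z < b := by
    rcases eq_or_lt_of_le hmem.1.2 with h1 | h1
    · exfalso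
      rw [h1] at h0
      linarith
    · exact h1
  exact ⟨sInf Z, ⟨ha1, hb1⟩, h0, fun t ht => hbefore t ht.1 ht.2⟩

theorem PhM_contV {p : Prm} {e : ℝ} {x : ℝ → Pt} (h : Traj p e x) :
    Continuous fun r => fV p (x r) := by
  have hA := h.contA
  have hS := h.contS
  have hW := h.contW
  simp only [fV]
  fun_prop

theorem phase_minus {p : Prm} {y : ℝ → Pt} {M : ℝ} (h : BArc p (-1) y M) :
    (∃ g, Type0 p y M g) ∨ ∃ b a, Type1 p y M b a := by
  have hUc := Reg_contU h.traj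
  have hVc := PhM_contV h.traj
  have hm : Continuous fun t => min (fU p (y t)) (fV p (y t)) := hUc.min hVc
  have hW : ∀ t ∈ Ioo 0 M, (y t).W < 0 := by
    intro t ht
    have := h.Wpos t ht
    linarith
  have hU0 : 0 < fU p (y 0) := by
    have h1 := h.Hpos 0 ⟨le_rfl, h.pos.le⟩
    simp only [fU, h.W0]
    linarith
  have hV0 : 0 < fV p (y 0) := by
    have h1 := (h.traj.cone 0).2
    have h2 : 0 < 1 - (y 0).A := by linarith [h.A0]
    simp only [fV, h.W0, h.S0]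
    have h3 : 0 < 2 * (y 0).A * (1 - (y 0).A) := by positivity
    linarith
  have hVM := h.V_L
  have hUM := h.U_L
  obtain ⟨τ, hτ, hτ0, hbef⟩ := PhM_first hm h.pos.le (lt_min hU0 hV0)
    (lt_of_le_of_lt (min_le_right _ _) hVM)
  have hτI : τ ∈ Icc 0 M := ⟨hτ.1.le, hτ.2.le⟩
  have hbef' : ∀ t ∈ Ico 0 τ, 0 < fU p (y t) ∧ 0 < fV p (y t) := by
    intro t ht
    exact lt_min_iff.1 (hbef t ht)
  have hUτ : 0 ≤ fU p (y τ) := by rw [← hτ0]; exact min_le_left _ _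
  have hVτ : 0 ≤ fV p (y τ) := by rw [← hτ0]; exact min_le_right _ _
  rcases eq_or_lt_of_le hVτ with hV | hV
  · left
    have hH := gate_Q2 (h.traj.cone τ) (h.A_lt τ hτI) (h.D_pos τ hτI) hV.symm hUτ (hW τ hτ).ne
    have hPi : InPi p (y τ) := ⟨h.traj.cone τ, hH, h.D_pos τ hτI⟩
    exact ⟨τ, hτ, hbef', hV.symm, hUτ, hPi, h.after_gate (Or.inr rfl) hτ hPi hV.symm hUτ⟩
  · right
    have hU : fU p (y τ) = 0 := by
      rcases min_choice (fU p (y τ)) (fV p (y τ)) with h1 | h1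
      · rw [← h1]; exact hτ0
      · exfalso
        rw [h1] at hτ0
        linarith
    rcases h.fold (Or.inr rfl) hτ ⟨hτ.2, le_rfl⟩ (fun t ht => h.D_pos t ⟨hτ.1.le.trans ht.1, ht.2⟩)
      (fun t ht => h.A_lt t ⟨hτ.1.le.trans ht.1, ht.2⟩) hU hV with h1 | h1
    · exfalso
      have := h1 M ⟨hτ.2, le_rfl⟩
      linarith
    · obtain ⟨a, ha, haM, hneg, hUa, hVa⟩ := h1
      have haI : a ∈ Ioo 0 M := ⟨hτ.1.trans ha.1, haM⟩
      have haI' : a ∈ Icc 0 M := ⟨haI.1.le, haI.2.le⟩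
      have hHa := gate_Q3 (h.traj.cone a) (h.A_lt a haI') (hW a haI) (h.G_pos a haI') hUa hVa.le
      have hanti : AntitoneOn (fun r => fH p (y r)) (Icc τ a) := by
        refine antitoneOn_of_deriv_nonpos (convex_Icc _ _) (Reg_contH h.traj).continuousOn ?_ ?_
        · intro t _
          exact (h.traj.dH t).differentiableAt.differentiableWithinAt
        · intro t ht
          rw [interior_Icc] at ht
          rw [(h.traj.dH t).deriv]
          have h2 := hneg t ht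
          have h3 := hW t ⟨hτ.1.trans ht.1, ht.2.trans haM⟩
          have h4 := mul_pos_of_neg_of_neg h3 h2
          have h5 : 0 < (y t).W * fU p (y t) / p.mu := div_pos h4 p.hmu
          have h6 : -(-(-1) * (y t).W * fU p (y t) / p.mu) = -((y t).W * fU p (y t) / p.mu) := by
            ring
          rw [h6]
          linarith
      have hPi : ∀ t ∈ Icc τ a, InPi p (y t) := by
        intro t ht
        refine ⟨h.traj.cone t, ?_, h.D_pos t ⟨hτ.1.le.trans ht.1, ht.2.trans haM.le⟩⟩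
        have h2 : fH p (y a) ≤ fH p (y t) := hanti ht ⟨ha.1.le, le_rfl⟩ ht.2
        have h3 := mul_le_mul_of_nonneg_left h2 p.N_pos.le
        linarith
      have h7 := h.after_rise (Or.inr rfl) haI (hPi a ⟨ha.1.le, le_rfl⟩) hUa hVa
      refine ⟨τ, a, hτ.1, ha.1, haM, hbef', hU, hV, hneg, hUa, hVa, ?_, fun t ht => (h7.1 t ht).1,
        h7.2⟩
      intro t ht
      rcases le_or_gt t a with h8 | h8
      · exact hPi t ⟨ht.1, h8⟩
      · exact (h7.1 t ⟨h8, ht.2⟩).2.1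

end B92K
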