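import Mathlib
import Pool.Agent.Lib.B92.KInv

/-!
# MP_b92fc8_an, `kappa > 1`, module RA : four lemmas of real analysis

(1) `sheet_up`: `σ` = inverse of the strictly increasing continuous `H` on `[a,b]`; cf.
   `B92.exists_inv_mono` (KInv) for its continuity. DERIVATIVE of `Z ∘ σ` at `h0 = H t0`, `t0 ∈ (a,b)`:
   given `ε > 0`, `|g t - g t0| ≤ ε` for `t` near `t0`; on such an interval
   `Z - (g t0 + ε) H` is antitone (derivative `(g t - g t0 - ε) H' ≤ 0`) and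
   `Z - (g t0 - ε) H` is monotone, so `|Z t - Z t0 - g t0 (H t - H t0)| ≤ ε |H t - H t0|`; put
   `t = σ h` (`σ` is continuous). NOTE: `H'` may vanish at some points.
(2) `sheet_down`: the same for strictly decreasing `H` (apply (1) to `t ↦ -t`, or to `-H`...).
(3) `persist`: if not, let `t1` = the first zero of `f`; `f < 0` on `[a, t1)`, so `f' ≤ 0` on `(a,t1)`,
   `f` is antitone on `[a,t1]`, `f t1 ≤ f a < 0`.
(4) `gron_start`: first `D ≤ 0` on `(0,ε)`: if `D t1 > 0`, let `t0` be the last zero of `D` before `t1`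
   (`D 0 = 0`); on `(t0,t1)`, `D > 0`, and `D' = 5 δ g ≤ (5 K/c) D` (if `δ ≤ 0` then `D' ≤ 0`; if
   `δ > 0` then `δ < D/c`, `g ≤ K`), so `D exp(-(5K/c) t)` is antitone on `[t0,t1]`, `D t1 ≤ 0`:
   contradiction. Then `δ t ≥ 0` would give `0 ≤ c δ < D ≤ 0`; so `δ < 0`, `D' < 0` on `(0,ε)`,
   `D t < D 0 = 0`.
-/

set_option autoImplicit false

open Set Filter Topology

noncomputable section

namespace B92K

theorem RA_local {H Z g H' : ℝ → ℝ} {l u t0 e : ℝ} (hl : l < t0) (hu : t0 < u)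
    (hm : StrictMonoOn H (Ioo l u)) (dH : ∀ t ∈ Ioo l u, HasDerivAt H (H' t) t)
    (hH' : ∀ t ∈ Ioo l u, 0 ≤ H' t) (dZ : ∀ t ∈ Ioo l u, HasDerivAt Z (g t * H' t) t)
    (hg : ∀ t ∈ Ioo l u, |g t - g t0| ≤ e) :
    ∀ t ∈ Ioo l u, |Z t - Z t0 - (H t - H t0) * g t0| ≤ e * |H t - H t0| := by
  have ht0 : t0 ∈ Ioo l u := ⟨hl, hu⟩
  have h1 : AntitoneOn (fun t => Z t - (g t0 + e) * H t) (Ioo l u) := by
    refine antitoneOn_of_deriv_nonpos (convex_Ioo l u) ?_ ?_ ?_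
    · exact fun t ht => (((dZ t ht).sub ((dH t ht).const_mul _)).continuousAt).continuousWithinAt
    · intro t ht
      rw [interior_Ioo] at ht
      exact ((dZ t ht).sub ((dH t ht).const_mul _)).differentiableAt.differentiableWithinAt
    · intro t ht
      rw [interior_Ioo] at ht
      have hd : HasDerivAt (fun t => Z t - (g t0 + e) * H t) (g t * H' t - (g t0 + e) * H' t) t :=
        (dZ t ht).sub ((dH t ht).const_mul _)
      rw [hd.deriv]
      have a1 := (abs_le.mp (hg t ht)).2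
      have a2 := hH' t ht
      nlinarith
  have h2 : MonotoneOn (fun t => Z t - (g t0 - e) * H t) (Ioo l u) := by
    refine monotoneOn_of_deriv_nonneg (convex_Ioo l u) ?_ ?_ ?_
    · exact fun t ht => (((dZ t ht).sub ((dH t ht).const_mul _)).continuousAt).continuousWithinAt
    · intro t ht
      rw [interior_Ioo] at ht
      exact ((dZ t ht).sub ((dH t ht).const_mul _)).differentiableAt.differentiableWithinAt
    · intro t ht
      rw [interior_Ioo] at ht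
      have hd : HasDerivAt (fun t => Z t - (g t0 - e) * H t) (g t * H' t - (g t0 - e) * H' t) t :=
        (dZ t ht).sub ((dH t ht).const_mul _)
      rw [hd.deriv]
      have a1 := (abs_le.mp (hg t ht)).1
      have a2 := hH' t ht
      nlinarith
  intro t ht
  rcases le_total t0 t with h | h
  · have b1 := h1 ht0 ht h
    have b2 := h2 ht0 ht h
    have b3 := hm.monotoneOn ht0 ht h
    simp only at b1 b2
    rw [abs_of_nonneg (sub_nonneg.mpr b3), abs_le]
    constructor <;> linarith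
  · have b1 := h1 ht ht0 h
    have b2 := h2 ht ht0 h
    have b3 := hm.monotoneOn ht ht0 h
    simp only at b1 b2
    rw [abs_of_nonpos (sub_nonpos.mpr b3), abs_le]
    constructor <;> linarith

theorem sheet_up {H Z g H' : ℝ → ℝ} {a b : ℝ} (hab : a < b) (hHc : ContinuousOn H (Icc a b))
    (hZc : ContinuousOn Z (Icc a b)) (hgc : ContinuousOn g (Icc a b))
    (hm : StrictMonoOn H (Icc a b)) (dH : ∀ t ∈ Ioo a b, HasDerivAt H (H' t) t)
    (hH' : ∀ t ∈ Ioo a b, 0 ≤ H' t) (dZ : ∀ t ∈ Ioo a b, HasDerivAt Z (g t * H' t) t) :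
    ∃ σ : ℝ → ℝ, (∀ t ∈ Icc a b, σ (H t) = t) ∧
      (∀ h ∈ Icc (H a) (H b), σ h ∈ Icc a b ∧ H (σ h) = h) ∧
      ContinuousOn σ (Icc (H a) (H b)) ∧
      (∀ h ∈ Ioo (H a) (H b), σ h ∈ Ioo a b ∧ HasDerivAt (fun r => Z (σ r)) (g (σ h)) h) := by
  obtain ⟨σ, h1, h2, h3, h4, -⟩ := B92.exists_inv_mono hab hHc hm
  refine ⟨σ, h2, h1, h3, fun h hh => ⟨h4 h hh, ?_⟩⟩
  have ht0 := h4 h hh
  have hnb : Icc (H a) (H b) ∈ 𝓝 h := Icc_mem_nhds hh.1 hh.2
  have hσc : ContinuousAt σ h := h3.continuousAt hnb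
  have hgc0 : ContinuousAt g (σ h) := hgc.continuousAt (Icc_mem_nhds ht0.1 ht0.2)
  rw [hasDerivAt_iff_isLittleO, Asymptotics.isLittleO_iff]
  intro e he
  have hev : ∀ᶠ t in 𝓝 (σ h), t ∈ Ioo a b ∧ |g t - g (σ h)| ≤ e := by
    have e1 : ∀ᶠ t in 𝓝 (σ h), t ∈ Ioo a b := isOpen_Ioo.mem_nhds ht0
    have e2 : ∀ᶠ t in 𝓝 (σ h), dist (g t) (g (σ h)) < e := Metric.tendsto_nhds.mp hgc0 e he
    filter_upwards [e1, e2] with t ht1 ht2
    exact ⟨ht1, by rw [← Real.dist_eq]; exact ht2.le⟩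
  obtain ⟨l, u, hlu, hsub⟩ := mem_nhds_iff_exists_Ioo_subset.mp hev
  have hloc := RA_local (Z := Z) (g := g) (e := e) hlu.1 hlu.2
    (hm.mono fun t ht => Ioo_subset_Icc_self (hsub ht).1)
    (fun t ht => dH t (hsub ht).1) (fun t ht => hH' t (hsub ht).1) (fun t ht => dZ t (hsub ht).1)
    (fun t ht => (hsub ht).2)
  have hev2 : ∀ᶠ r in 𝓝 h, σ r ∈ Ioo l u := hσc (isOpen_Ioo.mem_nhds hlu)
  filter_upwards [hev2, hnb] with r hr hr2
  have k1 := hloc (σ r) hr
  rw [(h1 r hr2).2, (h1 h (Ioo_subset_Icc_self hh)).2] at k1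
  rw [Real.norm_eq_abs, Real.norm_eq_abs, smul_eq_mul]
  exact k1

theorem sheet_down {H Z g H' : ℝ → ℝ} {a b : ℝ} (hab : a < b) (hHc : ContinuousOn H (Icc a b))
    (hZc : ContinuousOn Z (Icc a b)) (hgc : ContinuousOn g (Icc a b))
    (hm : StrictAntiOn H (Icc a b)) (dH : ∀ t ∈ Ioo a b, HasDerivAt H (H' t) t)
    (hH' : ∀ t ∈ Ioo a b, H' t ≤ 0) (dZ : ∀ t ∈ Ioo a b, HasDerivAt Z (g t * H' t) t) :
    ∃ σ : ℝ → ℝ, (∀ t ∈ Icc a b, σ (H t) = t) ∧
      (∀ h ∈ Icc (H b) (H a), σ h ∈ Icc a b ∧ H (σ h) = h) ∧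
      ContinuousOn σ (Icc (H b) (H a)) ∧
      (∀ h ∈ Ioo (H b) (H a), σ h ∈ Ioo a b ∧ HasDerivAt (fun r => Z (σ r)) (g (σ h)) h) := by
  obtain ⟨σ, h1, h2, h3, h4⟩ := sheet_up (H := fun t => -H t) (Z := Z) (g := fun t => -g t)
    (H' := fun t => -H' t) hab hHc.neg hZc hgc.neg
    (fun x hx y hy hxy => neg_lt_neg (hm hx hy hxy))
    (fun t ht => (dH t ht).neg) (fun t ht => neg_nonneg.mpr (hH' t ht))
    (fun t ht => (dZ t ht).congr_deriv (by ring))
  have hin : ∀ h ∈ Icc (H b) (H a), -h ∈ Icc (-H a) (-H b) := fun h hh =>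
    ⟨neg_le_neg hh.2, neg_le_neg hh.1⟩
  refine ⟨fun h => σ (-h), h1, ?_, ?_, ?_⟩
  · intro h hh
    have k := h2 (-h) (hin h hh)
    exact ⟨k.1, neg_inj.mp k.2⟩
  · exact h3.comp continuous_neg.continuousOn hin
  · intro h hh
    have k := h4 (-h) ⟨neg_lt_neg hh.2, neg_lt_neg hh.1⟩
    refine ⟨k.1, ?_⟩
    have k2 := k.2.comp h (hasDerivAt_neg h)
    refine k2.congr_deriv ?_
    ring

theorem persist {f f' : ℝ → ℝ} {a b : ℝ} (hc : ContinuousOn f (Icc a b))
    (hd : ∀ t ∈ Ioo a b, HasDerivAt f (f' t) t) (h0 : f a < 0)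
    (hneg : ∀ t ∈ Ioo a b, f t < 0 → f' t ≤ 0) : ∀ t ∈ Icc a b, f t < 0 := by
  intro t ht
  by_contra hcon
  have hft : 0 ≤ f t := not_lt.mp hcon
  have hsub : Icc a t ⊆ Icc a b := Icc_subset_Icc le_rfl ht.2
  have hcl : IsClosed (Icc a t ∩ f ⁻¹' Ici 0) :=
    (hc.mono hsub).preimage_isClosed_of_isClosed isClosed_Icc isClosed_Ici
  have hcp : IsCompact (Icc a t ∩ f ⁻¹' Ici 0) :=
    isCompact_Icc.of_isClosed_subset hcl inter_subset_left
  obtain ⟨t1, ht1, hleast⟩ := hcp.exists_isLeast ⟨t, ⟨ht.1, le_rfl⟩, hft⟩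
  have hlt : ∀ s ∈ Icc a t, s < t1 → f s < 0 := by
    intro s hs hst
    by_contra hh
    exact absurd (hleast ⟨hs, not_lt.mp hh⟩) (not_le.mpr hst)
  have h1t : 0 ≤ f t1 := ht1.2
  have hat : a < t1 := by
    rcases eq_or_lt_of_le ht1.1.1 with h | h
    · rw [← h] at h1t
      linarith
    · exact h
  have hsub1 : Icc a t1 ⊆ Icc a b := Icc_subset_Icc le_rfl (ht1.1.2.trans ht.2)
  have hanti : AntitoneOn f (Icc a t1) := by
    refine antitoneOn_of_deriv_nonpos (convex_Icc a t1) (hc.mono hsub1) ?_ ?_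
    · intro s hs
      rw [interior_Icc] at hs
      exact (hd s ⟨hs.1, hs.2.trans_le (ht1.1.2.trans ht.2)⟩).differentiableAt.differentiableWithinAt
    · intro s hs
      rw [interior_Icc] at hs
      have hs2 : s ∈ Ioo a b := ⟨hs.1, hs.2.trans_le (ht1.1.2.trans ht.2)⟩
      rw [(hd s hs2).deriv]
      exact hneg s hs2 (hlt s ⟨hs.1.le, hs.2.le.trans ht1.1.2⟩ hs.2)
  have := hanti ⟨le_rfl, hat.le⟩ ⟨hat.le, le_rfl⟩ hat.le
  linarith

theorem gron_start {D δ g : ℝ → ℝ} {ε K c : ℝ} (hDc : ContinuousOn D (Icc 0 ε))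
    (hD0 : D 0 = 0) (hD : ∀ t ∈ Ioo 0 ε, HasDerivAt D (5 * δ t * g t) t)
    (hg : ∀ t ∈ Ioo 0 ε, 0 < g t ∧ g t ≤ K) (hc : 0 < c)
    (hpos : ∀ t ∈ Ioo 0 ε, 0 ≤ δ t → c * δ t < D t) : ∀ t ∈ Ioo 0 ε, δ t < 0 ∧ D t < 0 := by
  have hA : ∀ t ∈ Ioo 0 ε, D t ≤ 0 := by
    intro t1 ht1
    by_contra hcon
    have hDt : 0 < D t1 := not_le.mp hcon
    have hsub : Icc 0 t1 ⊆ Icc 0 ε := Icc_subset_Icc le_rfl ht1.2.le
    have hcl : IsClosed (Icc 0 t1 ∩ D ⁻¹' Iic 0) :=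
      (hDc.mono hsub).preimage_isClosed_of_isClosed isClosed_Icc isClosed_Iic
    have hcp : IsCompact (Icc 0 t1 ∩ D ⁻¹' Iic 0) :=
      isCompact_Icc.of_isClosed_subset hcl inter_subset_left
    obtain ⟨t0, ht0, hgr⟩ := hcp.exists_isGreatest ⟨0, ⟨le_rfl, ht1.1.le⟩, hD0.le⟩
    have hgt : ∀ s ∈ Icc 0 t1, t0 < s → 0 < D s := by
      intro s hs hst
      by_contra hh
      exact absurd (hgr ⟨hs, not_lt.mp hh⟩) (not_le.mpr hst)
    have h0 : D t0 ≤ 0 := ht0.2
    have h01 : t0 < t1 := by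
      rcases eq_or_lt_of_le ht0.1.2 with h | h
      · rw [h] at h0
        linarith
      · exact h
    have hmem : ∀ s ∈ Ioo t0 t1, s ∈ Ioo 0 ε := fun s hs =>
      ⟨ht0.1.1.trans_lt hs.1, hs.2.trans ht1.2⟩
    set κ : ℝ := 5 * K / c with hκ
    have hder : ∀ s ∈ Ioo t0 t1, HasDerivAt (fun r => D r * Real.exp (-(κ * r)))
        ((5 * δ s * g s - κ * D s) * Real.exp (-(κ * s))) s := by
      intro s hs
      have e1 : HasDerivAt (fun r : ℝ => -(κ * r)) (-(κ * 1)) s :=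
        ((hasDerivAt_id s).const_mul κ).neg
      have e2 := (hD s (hmem s hs)).mul e1.exp
      refine e2.congr_deriv ?_
      ring
    have hanti : AntitoneOn (fun r => D r * Real.exp (-(κ * r))) (Icc t0 t1) := by
      refine antitoneOn_of_deriv_nonpos (convex_Icc t0 t1) ?_ ?_ ?_
      · refine ContinuousOn.mul (hDc.mono ?_) (by fun_prop)
        exact Icc_subset_Icc ht0.1.1 ht1.2.le
      · intro s hs
        rw [interior_Icc] at hs
        exact (hder s hs).differentiableAt.differentiableWithinAt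
      · intro s hs
        rw [interior_Icc] at hs
        rw [(hder s hs).deriv]
        refine mul_nonpos_of_nonpos_of_nonneg ?_ (Real.exp_pos _).le
        have hs2 := hmem s hs
        obtain ⟨g1, g2⟩ := hg s hs2
        have hDs := hgt s ⟨hs2.1.le, hs.2.le⟩ hs.1
        have hK : 0 < K := g1.trans_le g2
        have hκ0 : 0 ≤ κ * D s := mul_nonneg (div_nonneg (by linarith) hc.le) hDs.le
        rcases le_total (δ s) 0 with hd | hd
        · have : δ s * g s ≤ 0 := mul_nonpos_of_nonpos_of_nonneg hd g1.le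
          linarith
        · have k1 := hpos s hs2 hd
          have k2 : δ s < D s / c := by
            rw [lt_div_iff₀ hc]
            linarith
          have k3 : δ s * g s ≤ D s / c * K :=
            mul_le_mul k2.le g2 g1.le (div_nonneg hDs.le hc.le)
          have k4 : κ * D s = 5 * (D s / c * K) := by
            rw [hκ]
            ring
          rw [k4]
          linarith
    have h5 := hanti ⟨le_rfl, h01.le⟩ ⟨h01.le, le_rfl⟩ h01.le
    simp only at h5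
    have h6 : D t0 * Real.exp (-(κ * t0)) ≤ 0 :=
      mul_nonpos_of_nonpos_of_nonneg h0 (Real.exp_pos _).le
    have h7 : 0 < D t1 * Real.exp (-(κ * t1)) := mul_pos hDt (Real.exp_pos _)
    linarith
  have hB : ∀ t ∈ Ioo 0 ε, δ t < 0 := by
    intro t ht
    by_contra hcon
    have h1 : 0 ≤ δ t := not_lt.mp hcon
    have h2 := hpos t ht h1
    have h3 := hA t ht
    have h4 : 0 ≤ c * δ t := mul_nonneg hc.le h1
    linarith
  intro t ht
  refine ⟨hB t ht, ?_⟩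
  have hanti : StrictAntiOn D (Icc 0 t) := by
    refine strictAntiOn_of_deriv_neg (convex_Icc 0 t) (hDc.mono (Icc_subset_Icc le_rfl ht.2.le)) ?_
    intro s hs
    rw [interior_Icc] at hs
    have hs2 : s ∈ Ioo 0 ε := ⟨hs.1, hs.2.trans ht.2⟩
    rw [(hD s hs2).deriv]
    have k1 := hB s hs2
    have k2 := (hg s hs2).1
    nlinarith
  have := hanti ⟨le_rfl, ht.1.le⟩ ⟨ht.1.le, le_rfl⟩ ht.1
  rw [hD0] at this
  exact this

end B92K
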