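import Mathlib
import Pool.Agent.Lib.B92K.SlA
import Pool.Agent.Lib.B92K.PairA
import Pool.Agent.Lib.B92K.PairB
import Pool.Agent.Lib.B92K.PairK

/-!
# MP_b92fc8_an, `kappa > 1`, module St0 : pairs of points of equal level near an exit

Exit point `q0 = (A,S,W) = (a0, 2 a0, 0)`, `0 < a0 < 1`; `h1 = H(q0) = (1-a0)² ∈ (0,1)`, `U(q0) = 2 h1`,
`D(q0) = a0 (1-a0) > 0`, `V(q0) = 2 a0 (1-a0) > 0`, `G(q0) > 0` (if `G ≤ 0`: `G~ = G - nu M S < 0` too, so `1 - N A < 0`, `G G~ ≥ 0`...: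
`|κ| ≤ |1-NA|` and ND_eq gives `N D ≤ (1-NA) N A + (1-NA)² = 1 - N A ≤ 0`; same argument as in Reg, G0_pos).
Let `O` = the open set `{D > 0, G > 0, U > h1, V > 0, 0 < H < 1, A < 1, A > 0}`, `q0 ∈ O`.
(1) `(h, th) ↦ sl p h th` is continuous at `(h1, 0)` with value `q0` (`C = 1`, `Delta = sqrt h1 = 1 - a0`,
   `A = (1-h1)/(1+sqrt h1) = 1 - sqrt h1`), so there is `η > 0` such that for `|h-h1| < η`, `|th| < η`:
   `0 < 1-(1-h) slC`, `sl p h th ∈ O`. For `x` close to `q0` on the cone, `x = sl p (H x) (± th)` (exists_angle_*),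
   `cos th = S/(2A)` is close to 1, so `th ∈ [0, η)`. Choose `ε` accordingly.
(2) FIRST CLAIM (with `c = h1`), `T y ≤ T x`: on `[0, th_x]` the function `T(sl h th)` is continuous and strictly increasing
   (hasDerivAt_slT, `F, G > 0`), `T(sl h 0) < T y` (same on the side `W < 0`: `d/dth T(sl h (-th)) = - W/(2 Delta) > 0`),
   so there is `th' ∈ (0, th_x]` with `T(x') = T y`, `x' = sl h th'`. pair_F_lt, pair_K: `Z y < Z x'`. On `[th', th_x]`:
   `(Z - c T)' = (U - c) W/(2 Delta) ≥ 0`, so `Z x - Z x' ≥ c (T x - T x') = c (T x - T y)`.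
(3) SECOND CLAIM, `T x ≤ T y`, `F y < F x`: for `th' ∈ [0, th_x]`, `x' = sl h th'`: `T x' ≤ T x ≤ T y`, `y.W < 0 ≤ x'.W`, so
   pair_F_ne: `F x' ≠ F y`; by continuity `F x' > F y` on `[0, th_x]`. For `th' ∈ (0, th_x]` pair_W_ne: `x'.W + y.W ≠ 0`;
   at `th' = 0` the sum is `y.W < 0`; by continuity `x.W + y.W < 0`.
-/

set_option autoImplicit false

open Set Filter Topology

noncomputable section

namespace B92K

/-- The exit point. -/
def St0_q (a0 : ℝ) : Pt := ⟨a0, 2 * a0, 0⟩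

theorem St0_fH (p : Prm) (a0 : ℝ) : fH p (St0_q a0) = (1 - a0) ^ 2 := by
  simp only [fH, St0_q]; ring

/-- The point of the cone with `S > 0` in terms of its angle. -/
theorem St0_eq {p : Prm} {x : Pt} (hx : x.Cone) (hD : 0 < fD p x) (hS : 0 < x.S) :
    x = sl p (fH p x) (Real.arcsin (x.W / (2 * x.A))) := by
  have hx' := hx
  obtain ⟨hc, hA⟩ := hx'
  have hW1 : |x.W| ≤ 2 * x.A := abs_le_of_sq_le_sq (by nlinarith [sq_nonneg x.S]) (by positivity)
  have hW2 := abs_le.1 hW1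
  have hs : Real.sin (Real.arcsin (x.W / (2 * x.A))) = x.W / (2 * x.A) :=
    Real.sin_arcsin (by rw [le_div_iff₀ (by positivity)]; linarith [hW2.1])
      (by rw [div_le_iff₀ (by positivity)]; linarith [hW2.2])
  have hcs : Real.cos (Real.arcsin (x.W / (2 * x.A))) = x.S / (2 * x.A) := by
    rw [Real.cos_arcsin]
    have e1 : 1 - (x.W / (2 * x.A)) ^ 2 = (x.S / (2 * x.A)) ^ 2 := by
      field_simp
      linear_combination -hc
    rw [e1, Real.sqrt_sq (by positivity)]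
  exact (SlA_angle hx hD hcs hs).1

theorem St0_cont (p : Prm) : Continuous (fun q : ℝ × ℝ => (sl p q.1 q.2).A) ∧
    Continuous (fun q : ℝ × ℝ => (sl p q.1 q.2).S) ∧
    Continuous (fun q : ℝ × ℝ => (sl p q.1 q.2).W) ∧
    Continuous (fun q : ℝ × ℝ => slC p q.2) := by
  have h1 : Continuous (fun q : ℝ × ℝ => slC p q.2) := by
    unfold slC
    fun_prop
  have h2 : Continuous (fun q : ℝ × ℝ => slD p q.1 q.2) := by
    unfold slD
    exact (continuous_const.sub ((continuous_const.sub continuous_fst).mul h1)).sqrt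
  have h3 : Continuous (fun q : ℝ × ℝ => slA p q.1 q.2) := by
    unfold slA
    refine (continuous_const.sub continuous_fst).div (continuous_const.add h2) ?_
    intro q
    have : 0 ≤ slD p q.1 q.2 := Real.sqrt_nonneg _
    positivity
  exact ⟨h3, (continuous_const.mul h3).mul (Real.continuous_cos.comp continuous_snd),
    (continuous_const.mul h3).mul (Real.continuous_sin.comp continuous_snd), h1⟩

/-- A neighbourhood of `(h1, 0)` in the `(h, theta)`-plane. -/
theorem St0_nhd (p : Prm) {a0 : ℝ} (h0 : 0 < a0) (h1 : a0 < 1) :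
    ∃ e > 0, e < 1 ∧ ∀ h th : ℝ, |h - (1 - a0) ^ 2| < e → |th| < e →
      h < 1 ∧ 0 < 1 - (1 - h) * slC p th ∧ 0 < fG p (sl p h th)
        ∧ (1 - a0) ^ 2 < fU p (sl p h th) ∧ (sl p h th).A < 1 ∧ 0 < fV p (sl p h th) := by
  have hH0 : 0 < (1 - a0) ^ 2 := pow_pos (by linarith) 2
  have hH1 : (1 - a0) ^ 2 < 1 := by nlinarith
  obtain ⟨cA, cS, cW, c2⟩ := St0_cont p
  have cG : Continuous (fun q : ℝ × ℝ => fG p (sl p q.1 q.2)) := by
    unfold fG
    fun_prop
  have cU : Continuous (fun q : ℝ × ℝ => fU p (sl p q.1 q.2)) := by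
    unfold fU fH
    fun_prop
  have cV : Continuous (fun q : ℝ × ℝ => fV p (sl p q.1 q.2)) := by
    unfold fV
    fun_prop
  have cC : Continuous (fun q : ℝ × ℝ => 1 - (1 - q.1) * slC p q.2) := by fun_prop
  have hC0 : slC p 0 = 1 := by simp [slC]
  have hxs : sl p ((1 - a0) ^ 2) 0 = St0_q a0 := by
    have hco : (St0_q a0).Cone := ⟨by simp only [St0_q]; ring, h0⟩
    have h2 := St0_eq (p := p) hco (by
      rw [fD, St0_fH]
      simp only [St0_q]
      nlinarith [mul_pos h0 (sub_pos.2 h1)]) (by simp only [St0_q]; positivity)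
    have h3 : (St0_q a0).W = 0 := rfl
    rw [h3, zero_div, Real.arcsin_zero, St0_fH] at h2
    exact h2.symm
  have hG0 : 0 < fG p (St0_q a0) := by
    have h1' : (p.nu * p.M) ^ 2 = p.N * (p.N - 1) := by rw [mul_pow, p.hnu2, p.hM2]
    have h2 : p.N - 1 < p.nu * p.M := by
      have h3 : 0 < p.nu * p.M := mul_pos p.hnu p.hM
      nlinarith [p.hN1]
    simp only [fG, St0_q]
    nlinarith
  have hopen : IsOpen {q : ℝ × ℝ | q.1 < 1 ∧ 0 < 1 - (1 - q.1) * slC p q.2 ∧
      0 < fG p (sl p q.1 q.2) ∧ (1 - a0) ^ 2 < fU p (sl p q.1 q.2) ∧ (sl p q.1 q.2).A < 1 ∧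
      0 < fV p (sl p q.1 q.2)} := by
    refine (isOpen_lt continuous_fst continuous_const).inter ((isOpen_lt continuous_const cC).inter
      ((isOpen_lt continuous_const cG).inter ((isOpen_lt continuous_const cU).inter
      ((isOpen_lt cA continuous_const).inter (isOpen_lt continuous_const cV)))))
  have hmem : ((1 - a0) ^ 2, (0 : ℝ)) ∈ {q : ℝ × ℝ | q.1 < 1 ∧ 0 < 1 - (1 - q.1) * slC p q.2 ∧
      0 < fG p (sl p q.1 q.2) ∧ (1 - a0) ^ 2 < fU p (sl p q.1 q.2) ∧ (sl p q.1 q.2).A < 1 ∧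
      0 < fV p (sl p q.1 q.2)} := by
    simp only [mem_ofPred_eq]
    rw [hxs, hC0]
    refine ⟨hH1, by linarith, hG0, ?_, h1, ?_⟩
    · simp only [fU, St0_fH]
      simp only [St0_q]
      linarith
    · simp only [fV, St0_q]
      nlinarith [mul_pos h0 (sub_pos.2 h1)]
  obtain ⟨e, he, hball⟩ := Metric.isOpen_iff.1 hopen _ hmem
  refine ⟨min e (1 / 2), lt_min he (by norm_num), (min_le_right _ _).trans_lt (by norm_num), ?_⟩
  intro h th h2 h3
  have h4 : (h, th) ∈ Metric.ball ((1 - a0) ^ 2, (0 : ℝ)) e := by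
    rw [Metric.mem_ball, Prod.dist_eq, max_lt_iff, Real.dist_eq, Real.dist_eq, sub_zero]
    exact ⟨h2.trans_le (min_le_left _ _), h3.trans_le (min_le_left _ _)⟩
  exact hball h4

/-- Points near the exit. -/
theorem St0_near (p : Prm) {a0 : ℝ} (h0 : 0 < a0) (h1 : a0 < 1) {e : ℝ} (he : 0 < e) :
    ∃ d > 0, ∀ x : Pt, |x.A - a0| < d → |x.S - 2 * a0| < d → |x.W| < d →
      |fH p x - (1 - a0) ^ 2| < e ∧ |Real.arcsin (x.W / (2 * x.A))| < e ∧ 0 < fD p x
        ∧ 0 < x.S := by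
  have cH : Continuous (fun q : ℝ × ℝ × ℝ => fH p ⟨q.1, q.2.1, q.2.2⟩) := by unfold fH; fun_prop
  have cD : Continuous (fun q : ℝ × ℝ × ℝ => fD p ⟨q.1, q.2.1, q.2.2⟩) := by
    unfold fD fH; fun_prop
  have cS : Continuous (fun q : ℝ × ℝ × ℝ => q.2.1) := by fun_prop
  have ca : ContinuousAt (fun q : ℝ × ℝ × ℝ => Real.arcsin (q.2.2 / (2 * q.1)))
      (a0, 2 * a0, 0) := by
    refine Real.continuous_arcsin.continuousAt.comp ?_
    refine ContinuousAt.div (by fun_prop) (by fun_prop) ?_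
    simp only
    positivity
  have hq := St0_fH p a0
  simp only [St0_q] at hq
  have hev : ∀ᶠ q : ℝ × ℝ × ℝ in 𝓝 (a0, 2 * a0, 0),
      |fH p ⟨q.1, q.2.1, q.2.2⟩ - (1 - a0) ^ 2| < e ∧
      |Real.arcsin (q.2.2 / (2 * q.1))| < e ∧ 0 < fD p ⟨q.1, q.2.1, q.2.2⟩ ∧ 0 < q.2.1 := by
    have k1 : ∀ᶠ q : ℝ × ℝ × ℝ in 𝓝 (a0, 2 * a0, 0),
        |fH p ⟨q.1, q.2.1, q.2.2⟩ - (1 - a0) ^ 2| < e :=
      (isOpen_lt (cH.sub continuous_const).abs continuous_const).mem_nhds (by
        simpa [hq] using he)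
    have k2 : ∀ᶠ q : ℝ × ℝ × ℝ in 𝓝 (a0, 2 * a0, 0),
        |Real.arcsin (q.2.2 / (2 * q.1))| < e := by
      have := ca.abs
      refine this.eventually_lt continuousAt_const ?_
      simp only [zero_div, Real.arcsin_zero, abs_zero]
      exact he
    have k3 : ∀ᶠ q : ℝ × ℝ × ℝ in 𝓝 (a0, 2 * a0, 0), 0 < fD p ⟨q.1, q.2.1, q.2.2⟩ :=
      (isOpen_lt continuous_const cD).mem_nhds (by
        simp only [mem_ofPred_eq]
        rw [fD, hq]
        simp only
        nlinarith [mul_pos h0 (sub_pos.2 h1)])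
    have k4 : ∀ᶠ q : ℝ × ℝ × ℝ in 𝓝 (a0, 2 * a0, 0), 0 < q.2.1 :=
      (isOpen_lt continuous_const cS).mem_nhds (by
        simp only [mem_ofPred_eq]
        positivity)
    filter_upwards [k1, k2, k3, k4] with t a b c d using ⟨a, b, c, d⟩
  obtain ⟨d, hd, hd1⟩ := Metric.eventually_nhds_iff.1 hev
  refine ⟨d, hd, fun x hA hS hW => ?_⟩
  have h3 : dist ((x.A, x.S, x.W) : ℝ × ℝ × ℝ) (a0, 2 * a0, 0) < d := by
    rw [Prod.dist_eq, Prod.dist_eq, max_lt_iff, max_lt_iff, Real.dist_eq, Real.dist_eq,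
      Real.dist_eq]
    refine ⟨hA, hS, ?_⟩
    simpa using hW
  exact hd1 h3

theorem St0_W_pos {p : Prm} {h th : ℝ} (hA : 0 < (sl p h th).A) (ht0 : 0 < th) (ht1 : th < 1) :
    0 < (sl p h th).W := by
  have h1 : 0 < Real.sin th := Real.sin_pos_of_pos_of_lt_pi ht0 (by linarith [Real.pi_gt_three])
  have h2 : (sl p h th).W = 2 * (sl p h th).A * Real.sin th := rfl
  rw [h2]
  positivity

theorem St0_W_neg {p : Prm} {h th : ℝ} (hA : 0 < (sl p h th).A) (ht0 : th < 0) (ht1 : -1 < th) :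
    (sl p h th).W < 0 := by
  have h1 : Real.sin th < 0 := Real.sin_neg_of_neg_of_neg_pi_lt ht0
    (by linarith [Real.pi_gt_three])
  have h2 : (sl p h th).W = 2 * (sl p h th).A * Real.sin th := rfl
  rw [h2]
  have : 0 < 2 * (sl p h th).A := by positivity
  exact mul_neg_of_pos_of_neg this h1

theorem St0_W_zero (p : Prm) (h : ℝ) : (sl p h 0).W = 0 := by
  simp [sl]

/-- A continuous function without zero keeps its sign (from the right end). -/
theorem St0_sign {f : ℝ → ℝ} {a b : ℝ} (hf : ContinuousOn f (Icc a b))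
    (hb : 0 < f b) (hne : ∀ t ∈ Icc a b, f t ≠ 0) : ∀ t ∈ Icc a b, 0 < f t := by
  intro t ht
  by_contra hcon
  push Not at hcon
  have h1 : (0 : ℝ) ∈ Icc (f t) (f b) := ⟨hcon, hb.le⟩
  obtain ⟨s, hs, hs0⟩ := intermediate_value_Icc ht.2
    (hf.mono (Icc_subset_Icc_left ht.1)) h1
  exact hne s ⟨ht.1.trans hs.1, hs.2⟩ hs0

/-- The comparison on one slice. -/
theorem St0_slice {p : Prm} {a0 h e tx ty : ℝ} (he1 : e < 1)
    (hn : ∀ th : ℝ, |th| < e → h < 1 ∧ 0 < 1 - (1 - h) * slC p th ∧ 0 < fG p (sl p h th)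
        ∧ (1 - a0) ^ 2 < fU p (sl p h th) ∧ (sl p h th).A < 1 ∧ 0 < fV p (sl p h th))
    (htx0 : 0 < tx) (htx : tx < e) (hty0 : ty < 0) (hty : -e < ty) :
    (fT p (sl p h ty) ≤ fT p (sl p h tx) → (1 - a0) ^ 2 * (fT p (sl p h tx) - fT p (sl p h ty))
      < fZ p (sl p h tx) - fZ p (sl p h ty)) ∧
    (fT p (sl p h tx) ≤ fT p (sl p h ty) → fF p (sl p h ty) < fF p (sl p h tx) →
      (sl p h tx).W + (sl p h ty).W < 0) := by
  have hab : ∀ r ∈ Icc ty tx, |r| < e := by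
    intro r hr
    rw [abs_lt]
    exact ⟨hty.trans_le hr.1, hr.2.trans_lt htx⟩
  have hh1 : h < 1 := (hn 0 (by rw [abs_zero]; linarith)).1
  have hco : ∀ r ∈ Icc ty tx, (sl p h r).Cone := fun r hr => sl_cone hh1 (hn r (hab r hr)).2.1
  have hH : ∀ r ∈ Icc ty tx, fH p (sl p h r) = h := fun r hr => sl_H hh1 (hn r (hab r hr)).2.1
  have hok : ∀ r ∈ Icc ty tx, Ok p (sl p h r) := fun r hr =>
    ⟨hco r hr, by rw [hH r hr]; nlinarith [p.N_pos], (hn r (hab r hr)).2.2.1⟩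
  have hWp : ∀ r ∈ Ioc 0 tx, 0 < (sl p h r).W := fun r hr =>
    St0_W_pos (hco r ⟨by linarith [hr.1], hr.2⟩).2 hr.1 (by linarith [hr.2])
  have hWn : ∀ r ∈ Ico ty 0, (sl p h r).W < 0 := fun r hr =>
    St0_W_neg (hco r ⟨hr.1, by linarith [hr.2]⟩).2 hr.2 (by linarith [hr.1])
  have hW0 : (sl p h 0).W = 0 := St0_W_zero p h
  have hdT : ∀ r ∈ Icc ty tx, HasDerivAt (fun r => fT p (sl p h r))
      ((sl p h r).W / (2 * slD p h r)) r := fun r hr =>
    hasDerivAt_slT hh1 (hn r (hab r hr)).2.1 (hok r hr).F_pos.ne' (hok r hr).G_pos.ne'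
  have hdZ : ∀ r ∈ Icc ty tx, HasDerivAt (fun r => fZ p (sl p h r))
      (fU p (sl p h r) * (sl p h r).W / (2 * slD p h r)) r := fun r hr =>
    hasDerivAt_slZ hh1 (hn r (hab r hr)).2.1 (hok r hr).F_pos.ne' (hok r hr).G_pos.ne'
  have hDp : ∀ r ∈ Icc ty tx, 0 < slD p h r := fun r hr => slD_pos (hn r (hab r hr)).2.1
  have hcT : ContinuousOn (fun r => fT p (sl p h r)) (Icc ty tx) := fun r hr =>
    (hdT r hr).continuousAt.continuousWithinAt
  have hcZ : ContinuousOn (fun r => fZ p (sl p h r)) (Icc ty tx) := fun r hr =>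
    (hdZ r hr).continuousAt.continuousWithinAt
  have h0m : (0 : ℝ) ∈ Icc ty tx := ⟨hty0.le, htx0.le⟩
  have htxm : tx ∈ Icc ty tx := ⟨by linarith, le_rfl⟩
  have htym : ty ∈ Icc ty tx := ⟨le_rfl, by linarith⟩
  have hsub : Icc 0 tx ⊆ Icc ty tx := Icc_subset_Icc_left hty0.le
  have hsub' : Icc ty 0 ⊆ Icc ty tx := Icc_subset_Icc_right htx0.le
  -- `T` increases on `[0, tx]`
  have hmT : StrictMonoOn (fun r => fT p (sl p h r)) (Icc 0 tx) := by
    refine strictMonoOn_of_deriv_pos (convex_Icc 0 tx) (hcT.mono hsub) ?_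
    intro r hr
    rw [interior_Icc] at hr
    have hr' : r ∈ Icc ty tx := ⟨by linarith [hr.1], hr.2.le⟩
    rw [(hdT r hr').deriv]
    have := hWp r ⟨hr.1, hr.2.le⟩
    have := hDp r hr'
    positivity
  -- `T` decreases on `[ty, 0]`
  have haT : StrictAntiOn (fun r => fT p (sl p h r)) (Icc ty 0) := by
    refine strictAntiOn_of_deriv_neg (convex_Icc ty 0) (hcT.mono hsub') ?_
    intro r hr
    rw [interior_Icc] at hr
    have hr' : r ∈ Icc ty tx := ⟨hr.1.le, by linarith [hr.2]⟩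
    rw [(hdT r hr').deriv]
    have h2 := hWn r ⟨hr.1.le, hr.2⟩
    have h3 := hDp r hr'
    exact div_neg_of_neg_of_pos h2 (by positivity)
  have hT0 : fT p (sl p h 0) < fT p (sl p h ty) :=
    haT ⟨le_rfl, hty0.le⟩ ⟨hty0.le, le_rfl⟩ hty0
  have hWy := hWn ty ⟨le_rfl, hty0⟩
  constructor
  · intro hTT
    -- the matched point
    obtain ⟨t', ht', hTt'⟩ := intermediate_value_Icc htx0.le (hcT.mono hsub) ⟨hT0.le, hTT⟩
    simp only at hTt'
    have ht'0 : 0 < t' := by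
      rcases eq_or_lt_of_le ht'.1 with h2 | h2
      · exfalso
        rw [← h2] at hTt'
        linarith
      · exact h2
    have ht'm := hsub ht'
    have hWt' := hWp t' ⟨ht'0, ht'.2⟩
    have hHH : fH p (sl p h t') = fH p (sl p h ty) := by rw [hH t' ht'm, hH ty htym]
    have hF := pair_F_lt (hok t' ht'm) (hok ty htym) hHH hTt' (hWy.trans hWt')
      (by linarith [(hn t' (hab t' ht'm)).2.2.2.2.1, (hn ty (hab ty htym)).2.2.2.2.1])
    have hZ := pair_K (hok t' ht'm) (hok ty htym) hHH hTt' (hWy.trans hWt') hF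
    -- monotonicity of `Z - c T`
    have hmono : MonotoneOn (fun r => fZ p (sl p h r) - (1 - a0) ^ 2 * fT p (sl p h r))
        (Icc 0 tx) := by
      have hd : ∀ r ∈ Icc ty tx, HasDerivAt
          (fun r => fZ p (sl p h r) - (1 - a0) ^ 2 * fT p (sl p h r))
          (fU p (sl p h r) * (sl p h r).W / (2 * slD p h r)
            - (1 - a0) ^ 2 * ((sl p h r).W / (2 * slD p h r))) r := fun r hr =>
        (hdZ r hr).sub ((hdT r hr).const_mul _)
      refine monotoneOn_of_deriv_nonneg (convex_Icc 0 tx)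
        (fun r hr => (hd r (hsub hr)).continuousAt.continuousWithinAt) ?_ ?_
      · intro r hr
        rw [interior_Icc] at hr
        exact (hd r ⟨by linarith [hr.1], hr.2.le⟩).differentiableAt.differentiableWithinAt
      · intro r hr
        rw [interior_Icc] at hr
        have hr' : r ∈ Icc ty tx := ⟨by linarith [hr.1], hr.2.le⟩
        rw [(hd r hr').deriv]
        have h2 := hWp r ⟨hr.1, hr.2.le⟩
        have h3 := hDp r hr'
        have h4 := (hn r (hab r hr')).2.2.2.1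
        have h5 : fU p (sl p h r) * (sl p h r).W / (2 * slD p h r)
            - (1 - a0) ^ 2 * ((sl p h r).W / (2 * slD p h r))
            = (fU p (sl p h r) - (1 - a0) ^ 2) * ((sl p h r).W / (2 * slD p h r)) := by
          ring
        rw [h5]
        have h6 : 0 ≤ fU p (sl p h r) - (1 - a0) ^ 2 := by linarith
        positivity
    have hm := hmono ht' ⟨htx0.le, le_rfl⟩ ht'.2
    simp only at hm
    rw [hTt'] at hm
    linarith
  · intro hTT hFF
    have hcon : ∀ r ∈ Icc ty tx, ContinuousAt (fun r => (sl p h r).A) r ∧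
        ContinuousAt (fun r => (sl p h r).S) r ∧ ContinuousAt (fun r => (sl p h r).W) r :=
      fun r hr => ⟨(hasDerivAt_slA hh1 (hn r (hab r hr)).2.1).continuousAt,
        (hasDerivAt_slS hh1 (hn r (hab r hr)).2.1).continuousAt,
        (hasDerivAt_slW hh1 (hn r (hab r hr)).2.1).continuousAt⟩
    have hcF : ContinuousOn (fun r => fF p (sl p h r) - fF p (sl p h ty)) (Icc 0 tx) := by
      intro r hr
      have hd := hasDerivAt_fF p (hasDerivAt_slA hh1 (hn r (hab r (hsub hr))).2.1)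
        (hasDerivAt_slS hh1 (hn r (hab r (hsub hr))).2.1)
        (hasDerivAt_slW hh1 (hn r (hab r (hsub hr))).2.1)
      exact (hd.continuousAt.sub continuousAt_const).continuousWithinAt
    have hWnn : ∀ r ∈ Icc 0 tx, 0 ≤ (sl p h r).W := by
      intro r hr
      rcases eq_or_lt_of_le hr.1 with h2 | h2
      · rw [← h2, hW0]
      · exact (hWp r ⟨h2, hr.2⟩).le
    have hTle : ∀ r ∈ Icc 0 tx, fT p (sl p h r) ≤ fT p (sl p h ty) := fun r hr =>
      (hmT.monotoneOn hr ⟨htx0.le, le_rfl⟩ hr.2).trans hTT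
    have hHH : ∀ r ∈ Icc 0 tx, fH p (sl p h r) = fH p (sl p h ty) := fun r hr => by
      rw [hH r (hsub hr), hH ty htym]
    have hFpos : ∀ r ∈ Icc 0 tx, 0 < fF p (sl p h r) - fF p (sl p h ty) := by
      refine St0_sign hcF (by linarith) ?_
      intro r hr h2
      exact pair_F_ne (hok r (hsub hr)) (hok ty htym) (hHH r hr) (hTle r hr)
        (hWy.trans_le (hWnn r hr)) (by linarith)
    have hcW : ContinuousOn (fun r => (sl p h r).W + (sl p h ty).W) (Icc 0 tx) := fun r hr =>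
      ((hcon r (hsub hr)).2.2.add continuousAt_const).continuousWithinAt
    have hne : ∀ r ∈ Icc 0 tx, (sl p h r).W + (sl p h ty).W ≠ 0 := by
      intro r hr
      rcases eq_or_lt_of_le hr.1 with h2 | h2
      · rw [← h2, hW0]
        intro h4
        linarith
      · exact pair_W_ne (hok r (hsub hr)) (hok ty htym) (hHH r hr) (hTle r hr)
          (hWp r ⟨h2, hr.2⟩) hWy (by linarith [hFpos r hr])
          (hn ty (hab ty htym)).2.2.2.2.2.le
    by_contra hcon2
    push Not at hcon2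
    have h3 : 0 < (sl p h tx).W + (sl p h ty).W :=
      lt_of_le_of_ne hcon2 (hne tx ⟨htx0.le, le_rfl⟩).symm
    have h4 := St0_sign hcW h3 hne 0 ⟨le_rfl, htx0.le⟩
    simp only [hW0] at h4
    linarith

theorem start_pt (p : Prm) {a0 : ℝ} (h0 : 0 < a0) (h1 : a0 < 1) :
    ∃ ε > 0, ∃ c > 0, ∀ x y : Pt, x.Cone → y.Cone → fH p x = fH p y →
      |x.A - a0| < ε → |x.S - 2 * a0| < ε → |x.W| < ε →
      |y.A - a0| < ε → |y.S - 2 * a0| < ε → |y.W| < ε → 0 < x.W → y.W < 0 →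
      (fT p y ≤ fT p x → c * (fT p x - fT p y) < fZ p x - fZ p y) ∧
        (fT p x ≤ fT p y → fF p y < fF p x → x.W + y.W < 0) := by
  obtain ⟨e, he, he1, hn⟩ := St0_nhd p h0 h1
  obtain ⟨d, hd, hd1⟩ := St0_near p h0 h1 he
  refine ⟨d, hd, (1 - a0) ^ 2, pow_pos (by linarith) 2, ?_⟩
  intro x y hx hy hHH xA xS xW yA yS yW hWx hWy
  obtain ⟨x1, x2, x3, x4⟩ := hd1 x xA xS xW
  obtain ⟨y1, y2, y3, y4⟩ := hd1 y yA yS yW
  have ex := St0_eq hx x3 x4
  have ey := St0_eq hy y3 y4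
  rw [← hHH] at ey
  have hxA := hx.2
  have hyA := hy.2
  have htx0 : 0 < Real.arcsin (x.W / (2 * x.A)) := Real.arcsin_pos.2 (by positivity)
  have hty0 : Real.arcsin (y.W / (2 * y.A)) < 0 :=
    Real.arcsin_lt_zero.2 (div_neg_of_neg_of_pos hWy (by positivity))
  have key := St0_slice (p := p) (a0 := a0) (h := fH p x) he1 (fun th hth => hn _ th x1 hth)
    htx0 (abs_lt.1 x2).2 hty0 (abs_lt.1 y2).1
  rw [← ex, ← ey] at key
  exact key

end B92K
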