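import Mathlib

/-! General one variable lemmas: inverse functions, reparametrisation by a monotone function,
persistence of signs. -/

set_option autoImplicit false

open Set Filter Topology

namespace B92K

theorem monoOn_of_hasDerivAt {f f' : ℝ → ℝ} {a b : ℝ} (hc : ContinuousOn f (Icc a b))
    (hd : ∀ t ∈ Ioo a b, HasDerivAt f (f' t) t) (hn : ∀ t ∈ Ioo a b, 0 ≤ f' t) :
    MonotoneOn f (Icc a b) := by
  refine monotoneOn_of_deriv_nonneg (convex_Icc _ _) hc ?_ ?_
  · intro r hr
    rw [interior_Icc] at hr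
    exact (hd r hr).differentiableAt.differentiableWithinAt
  · intro r hr
    rw [interior_Icc] at hr
    rw [(hd r hr).deriv]
    exact hn r hr

theorem strictMonoOn_of_hasDerivAt {f f' : ℝ → ℝ} {a b : ℝ} (hc : ContinuousOn f (Icc a b))
    (hd : ∀ t ∈ Ioo a b, HasDerivAt f (f' t) t) (hn : ∀ t ∈ Ioo a b, 0 < f' t) :
    StrictMonoOn f (Icc a b) := by
  refine strictMonoOn_of_deriv_pos (convex_Icc _ _) hc ?_
  intro r hr
  rw [interior_Icc] at hr
  rw [(hd r hr).deriv]
  exact hn r hr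

theorem antiOn_of_hasDerivAt {f f' : ℝ → ℝ} {a b : ℝ} (hc : ContinuousOn f (Icc a b))
    (hd : ∀ t ∈ Ioo a b, HasDerivAt f (f' t) t) (hn : ∀ t ∈ Ioo a b, f' t ≤ 0) :
    AntitoneOn f (Icc a b) := by
  refine antitoneOn_of_deriv_nonpos (convex_Icc _ _) hc ?_ ?_
  · intro r hr
    rw [interior_Icc] at hr
    exact (hd r hr).differentiableAt.differentiableWithinAt
  · intro r hr
    rw [interior_Icc] at hr
    rw [(hd r hr).deriv]
    exact hn r hr

/-- A continuous strictly monotone function on an interval has a continuous strictly monotone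
inverse. -/
theorem exists_inv {f : ℝ → ℝ} {a b : ℝ} (hab : a ≤ b) (hc : ContinuousOn f (Icc a b))
    (hm : StrictMonoOn f (Icc a b)) :
    ∃ g : ℝ → ℝ, ContinuousOn g (Icc (f a) (f b)) ∧ StrictMonoOn g (Icc (f a) (f b)) ∧
      (∀ x ∈ Icc a b, g (f x) = x) ∧ (∀ y ∈ Icc (f a) (f b), g y ∈ Icc a b ∧ f (g y) = y) := by
  have himg : f '' Icc a b = Icc (f a) (f b) := by
    apply Subset.antisymm
    · rintro _ ⟨x, hx, rfl⟩
      exact ⟨hm.monotoneOn ⟨le_rfl, hab⟩ hx hx.1, hm.monotoneOn hx ⟨hab, le_rfl⟩ hx.2⟩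
    · exact intermediate_value_Icc hab hc
  have hex : ∀ y : ℝ, ∃ x : ℝ, y ∈ Icc (f a) (f b) → x ∈ Icc a b ∧ f x = y := by
    intro y
    by_cases hy : y ∈ Icc (f a) (f b)
    · rw [← himg] at hy
      obtain ⟨x, hx, hxy⟩ := hy
      exact ⟨x, fun _ => ⟨hx, hxy⟩⟩
    · exact ⟨0, fun h => absurd h hy⟩
  choose g hg using hex
  have hgf : ∀ x ∈ Icc a b, g (f x) = x := by
    intro x hx
    have hy : f x ∈ Icc (f a) (f b) := by rw [← himg]; exact ⟨x, hx, rfl⟩
    obtain ⟨h1, h2⟩ := hg (f x) hy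
    exact hm.injOn h1 hx h2
  have hgm : StrictMonoOn g (Icc (f a) (f b)) := by
    intro y1 h1 y2 h2 h12
    obtain ⟨k1, l1⟩ := hg y1 h1
    obtain ⟨k2, l2⟩ := hg y2 h2
    by_contra hcon
    push Not at hcon
    have := hm.monotoneOn k2 k1 hcon
    rw [l1, l2] at this
    linarith
  refine ⟨g, ?_, hgm, hgf, hg⟩
  -- continuity of a monotone surjection
  have hsurj : g '' Icc (f a) (f b) = Icc a b := by
    apply Subset.antisymm
    · rintro _ ⟨y, hy, rfl⟩; exact (hg y hy).1
    · intro x hx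
      refine ⟨f x, ?_, hgf x hx⟩
      rw [← himg]; exact ⟨x, hx, rfl⟩
  rcases hab.lt_or_eq with hlt | heq
  · intro y hy
    rw [Metric.continuousWithinAt_iff]
    intro ε hε
    obtain ⟨hx1, hx2⟩ := hg y hy
    set x := g y with hxdef
    -- left and right points
    set p := max a (x - ε / 2) with hp
    set q := min b (x + ε / 2) with hq
    have hpI : p ∈ Icc a b := ⟨le_max_left _ _, max_le hlt.le (by linarith [hx1.2])⟩
    have hqI : q ∈ Icc a b := ⟨le_min hlt.le (by linarith [hx1.1]), min_le_left _ _⟩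
    have hpx : p ≤ x := max_le hx1.1 (by linarith)
    have hxq : x ≤ q := le_min hx1.2 (by linarith)
    -- δ
    have hδ : ∃ δ > 0, ∀ z ∈ Icc (f a) (f b), |z - y| < δ → p ≤ g z ∧ g z ≤ q := by
      have hl : ∃ δ > 0, ∀ z ∈ Icc (f a) (f b), |z - y| < δ → p ≤ g z := by
        rcases hpx.lt_or_eq with h | h
        · have h1 : f p < f x := hm hpI hx1 h
          refine ⟨f x - f p, by linarith, fun z hz hzy => ?_⟩
          rw [hx2] at hzy
          have h2 : f p < z := by have := (abs_lt.1 hzy).1; linarith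
          by_contra hcon
          push Not at hcon
          have := hm.monotoneOn (hg z hz).1 hpI hcon.le
          rw [(hg z hz).2] at this
          linarith
        · -- `p = x`, so `x = a`
          have hxa : x = a := by
            rcases le_total a (x - ε / 2) with h1 | h1
            · rw [hp, max_eq_right h1] at h; linarith
            · rw [hp, max_eq_left h1] at h; exact h.symm
          refine ⟨1, one_pos, fun z hz _ => ?_⟩
          rw [h, hxa]; exact (hg z hz).1.1
      have hr : ∃ δ > 0, ∀ z ∈ Icc (f a) (f b), |z - y| < δ → g z ≤ q := by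
        rcases hxq.lt_or_eq with h | h
        · have h1 : f x < f q := hm hx1 hqI h
          refine ⟨f q - f x, by linarith, fun z hz hzy => ?_⟩
          rw [hx2] at hzy
          have h2 : z < f q := by have := (abs_lt.1 hzy).2; linarith
          by_contra hcon
          push Not at hcon
          have := hm.monotoneOn hqI (hg z hz).1 hcon.le
          rw [(hg z hz).2] at this
          linarith
        · have hxb : x = b := by
            rcases le_total b (x + ε / 2) with h1 | h1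
            · rw [hq, min_eq_left h1] at h; exact h
            · rw [hq, min_eq_right h1] at h; linarith
          refine ⟨1, one_pos, fun z hz _ => ?_⟩
          rw [← h, hxb]; exact (hg z hz).1.2
      obtain ⟨δ1, h1, h1'⟩ := hl
      obtain ⟨δ2, h2, h2'⟩ := hr
      exact ⟨min δ1 δ2, lt_min h1 h2, fun z hz hzy =>
        ⟨h1' z hz (hzy.trans_le (min_le_left _ _)), h2' z hz (hzy.trans_le (min_le_right _ _))⟩⟩
    obtain ⟨δ, hδ0, hδ1⟩ := hδ
    refine ⟨δ, hδ0, fun z hz hzy => ?_⟩
    rw [Real.dist_eq] at hzy ⊢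
    obtain ⟨h1, h2⟩ := hδ1 z hz hzy
    have h3 : x - ε / 2 ≤ g z := (le_max_right _ _).trans h1
    have h4 : g z ≤ x + ε / 2 := h2.trans (min_le_right _ _)
    rw [abs_lt]
    constructor <;> linarith
  · subst heq
    simp only [Icc_self]
    exact continuousOn_singleton g _

/-- Reparametrisation by a strictly monotone function `h`: if `z' = p h'` then `z ∘ h⁻¹` has the
derivative `p ∘ h⁻¹` (also where `h' = 0`). -/
theorem hasDerivAt_reparam {h z p h' g : ℝ → ℝ} {a b : ℝ}
    (hc : ContinuousOn h (Icc a b)) (hz : ContinuousOn z (Icc a b)) (hp : ContinuousOn p (Icc a b))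
    (dh : ∀ t ∈ Ioo a b, HasDerivAt h (h' t) t) (dz : ∀ t ∈ Ioo a b, HasDerivAt z (p t * h' t) t)
    (hn : ∀ t ∈ Ioo a b, 0 ≤ h' t)
    (hg : ∀ y ∈ Icc (h a) (h b), g y ∈ Icc a b ∧ h (g y) = y)
    (hgc : ContinuousOn g (Icc (h a) (h b))) {y : ℝ} (hy : y ∈ Ioo (h a) (h b)) :
    HasDerivAt (fun s => z (g s)) (p (g y)) y := by
  have hyI : y ∈ Icc (h a) (h b) := ⟨hy.1.le, hy.2.le⟩
  obtain ⟨hx1, hx2⟩ := hg y hyI
  -- key inequality
  have key : ∀ ε > 0, ∀ s t : ℝ, s ∈ Icc a b → t ∈ Icc a b → s ≤ t →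
      (∀ r ∈ Icc s t, |p r - p (g y)| ≤ ε) →
      |z t - z s - p (g y) * (h t - h s)| ≤ ε * (h t - h s) := by
    intro ε hε s t hs ht hst hr
    have hIcc : Icc s t ⊆ Icc a b := Icc_subset_Icc hs.1 ht.2
    have hIoo : Ioo s t ⊆ Ioo a b := Ioo_subset_Ioo hs.1 ht.2
    have hA : MonotoneOn (fun r => ε * h r - (z r - p (g y) * h r)) (Icc s t) := by
      refine monoOn_of_hasDerivAt ?_ (fun r hr' => ((dh r (hIoo hr')).const_mul ε).sub
        ((dz r (hIoo hr')).sub ((dh r (hIoo hr')).const_mul (p (g y))))) ?_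
      · exact ((hc.mono hIcc).const_smul ε).sub
          ((hz.mono hIcc).sub ((hc.mono hIcc).const_smul (p (g y))))
      · intro r hr'
        have h1 := hn r (hIoo hr')
        have h2 := (abs_le.1 (hr r ⟨hr'.1.le, hr'.2.le⟩)).2
        nlinarith
    have hB : MonotoneOn (fun r => ε * h r + (z r - p (g y) * h r)) (Icc s t) := by
      refine monoOn_of_hasDerivAt ?_ (fun r hr' => ((dh r (hIoo hr')).const_mul ε).add
        ((dz r (hIoo hr')).sub ((dh r (hIoo hr')).const_mul (p (g y))))) ?_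
      · exact ((hc.mono hIcc).const_smul ε).add
          ((hz.mono hIcc).sub ((hc.mono hIcc).const_smul (p (g y))))
      · intro r hr'
        have h1 := hn r (hIoo hr')
        have h2 := (abs_le.1 (hr r ⟨hr'.1.le, hr'.2.le⟩)).1
        nlinarith
    have h1 := hA ⟨le_rfl, hst⟩ ⟨hst, le_rfl⟩ hst
    have h2 := hB ⟨le_rfl, hst⟩ ⟨hst, le_rfl⟩ hst
    simp only at h1 h2
    rw [abs_le]
    constructor <;> linarith
  rw [hasDerivAt_iff_isLittleO, Asymptotics.isLittleO_iff]
  intro ε hε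
  -- continuity of `p` at `g y`, and of `g` at `y`
  have hpc := Metric.continuousWithinAt_iff.1 (hp _ hx1) ε hε
  obtain ⟨δ, hδ, hpδ⟩ := hpc
  have hgc' : ContinuousAt g y := hgc.continuousAt (Icc_mem_nhds hy.1 hy.2)
  have hev : ∀ᶠ s in 𝓝 y, dist (g s) (g y) < δ := (Metric.tendsto_nhds.1 hgc') δ hδ
  filter_upwards [hev, Icc_mem_nhds hy.1 hy.2] with s hs hsI
  obtain ⟨hs1, hs2⟩ := hg s hsI
  rw [Real.dist_eq] at hs
  rw [smul_eq_mul, Real.norm_eq_abs, Real.norm_eq_abs]
  rcases le_total (g y) (g s) with hle | hle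
  · have h1 := key ε hε (g y) (g s) hx1 hs1 hle (fun r hr => by
      have hrI : r ∈ Icc a b := ⟨hx1.1.trans hr.1, hr.2.trans hs1.2⟩
      have hd : dist r (g y) < δ := by
        rw [Real.dist_eq, abs_of_nonneg (by linarith [hr.1])]
        have := (abs_lt.1 hs).2
        linarith [hr.2]
      have := hpδ hrI hd
      rw [Real.dist_eq] at this
      exact this.le)
    rw [hx2, hs2] at h1
    have h2 : z (g s) - z (g y) - (s - y) * p (g y) = z (g s) - z (g y) - p (g y) * (s - y) := by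
      ring
    rw [h2]
    exact h1.trans (mul_le_mul_of_nonneg_left (le_abs_self _) hε.le)
  · have h1 := key ε hε (g s) (g y) hs1 hx1 hle (fun r hr => by
      have hrI : r ∈ Icc a b := ⟨hs1.1.trans hr.1, hr.2.trans hx1.2⟩
      have hd : dist r (g y) < δ := by
        rw [Real.dist_eq, abs_of_nonpos (by linarith [hr.2])]
        have := (abs_lt.1 hs).1
        linarith [hr.1]
      have := hpδ hrI hd
      rw [Real.dist_eq] at this
      exact this.le)
    rw [hx2, hs2] at h1
    have h2 : |z (g s) - z (g y) - (s - y) * p (g y)| =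
        |z (g y) - z (g s) - p (g y) * (y - s)| := by
      rw [← abs_neg]; congr 1; ring
    rw [h2]
    refine h1.trans (mul_le_mul_of_nonneg_left ?_ hε.le)
    rw [abs_sub_comm]; exact le_abs_self _

/-- Persistence: `D ≤ 0 → D' ≤ 0` and `D < 0` at the start give `D < 0`. -/
theorem neg_persist {D D' : ℝ → ℝ} {a b : ℝ} (hc : ContinuousOn D (Icc a b))
    (hd : ∀ t ∈ Ioo a b, HasDerivAt D (D' t) t) (h0 : D a < 0)
    (h : ∀ t ∈ Ioo a b, D t < 0 → D' t ≤ 0) : ∀ t ∈ Icc a b, D t ≤ D a := by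
  by_contra hcon
  push Not at hcon
  obtain ⟨t, ht, hDt⟩ := hcon
  have hat : a < t := by
    rcases lt_or_eq_of_le ht.1 with h1 | h1
    · exact h1
    · rw [h1] at hDt; exact absurd hDt (lt_irrefl _)
  -- choose a level `c` strictly between `D a` and `min (D t) 0`
  obtain ⟨c, hc1, hc2⟩ := exists_between (show D a < min (D t) 0 from lt_min hDt h0)
  have hcD : c < D t := hc2.trans_le (min_le_left _ _)
  have hc0 : c < 0 := hc2.trans_le (min_le_right _ _)
  have hcI : ContinuousOn D (Icc a t) := hc.mono (Icc_subset_Icc_right ht.2)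
  -- first time with value `c`
  have hne : (Icc a t ∩ D ⁻¹' {c}).Nonempty := by
    obtain ⟨s, hs1, hs2⟩ := intermediate_value_Icc ht.1 hcI (show c ∈ Icc (D a) (D t) from
      ⟨hc1.le, hcD.le⟩)
    exact ⟨s, hs1, hs2⟩
  have hcomp : IsCompact (Icc a t ∩ D ⁻¹' {c}) := by
    have := hcI.preimage_isClosed_of_isClosed isClosed_Icc (isClosed_singleton (x := c))
    exact isCompact_Icc.of_isClosed_subset this inter_subset_left
  obtain ⟨s, hs, hsmin⟩ := hcomp.exists_isMinOn hne continuousOn_id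
  have hDs : D s = c := hs.2
  have has : a < s := by
    rcases lt_or_eq_of_le hs.1.1 with h1 | h1
    · exact h1
    · rw [← h1] at hDs; linarith
  have hle : ∀ r ∈ Icc a s, D r ≤ c := by
    intro r hr
    by_contra hgt
    push Not at hgt
    obtain ⟨q, hq1, hq2⟩ := intermediate_value_Icc hr.1
      (hcI.mono (Icc_subset_Icc_right (hr.2.trans hs.1.2)))
      (show c ∈ Icc (D a) (D r) from ⟨hc1.le, hgt.le⟩)
    have h2 : s ≤ q := hsmin ⟨⟨hq1.1, hq1.2.trans (hr.2.trans hs.1.2)⟩, hq2⟩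
    have h3 : r = s := le_antisymm hr.2 (h2.trans hq1.2)
    rw [h3, hDs] at hgt
    exact absurd hgt (lt_irrefl _)
  have hanti : AntitoneOn D (Icc a s) := by
    refine antiOn_of_hasDerivAt (hcI.mono (Icc_subset_Icc_right hs.1.2))
      (fun r hr => hd r ⟨hr.1, hr.2.trans_le (hs.1.2.trans ht.2)⟩) fun r hr => ?_
    exact h r ⟨hr.1, hr.2.trans_le (hs.1.2.trans ht.2)⟩ ((hle r ⟨hr.1.le, hr.2.le⟩).trans_lt hc0)
  have := hanti ⟨le_rfl, has.le⟩ ⟨has.le, le_rfl⟩ has.le
  rw [hDs] at this
  linarith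

end B92K
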