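import Mathlib
import Pool.Agent.Lib.B92K.Sl0
import Pool.Agent.Lib.B92K.Gen
import Pool.Agent.Lib.B92K.PairK
import Pool.Agent.Lib.B92K.PairB

/-!
# MP_b92fc8_an, `kappa > 1`, module Start : the comparison near the exit

Near the exit both arcs are described by the slices `sl p h theta`, `h` near `H(0)` and `theta`
near `0`; `T_theta = W / (2 Delta)`, `Z_theta = U T_theta`, `U` near `2 H(0) > 0`. For `X = x t`,
`Y = y s` on the level `h` with `T Y ≤ T X` there is a point `Q` of the slice between `theta = 0`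
and `X` with `T Q = T Y`; `Z Y < Z Q` by the K-lemma and `Z X - Z Q ≥ H(0) (T X - T Q)`.
-/

set_option autoImplicit false

open Set Filter Topology

noncomputable section

namespace B92K

section slice

variable (p : Prm) {h th : ℝ}

private theorem Start_cone (h1 : h < 1) (th : ℝ) : (sl p h th).Cone := by
  have hD : 0 ≤ slD p h th := Real.sqrt_nonneg _
  have hA : 0 < slA p h th := div_pos (by linarith) (by linarith)
  refine ⟨?_, hA⟩
  simp only [sl]
  linear_combination (4 * slA p h th ^ 2) * Real.sin_sq_add_cos_sq th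

private theorem Start_C (th : ℝ) : slC p th
    = 1 - 2 * Real.sin th ^ 2 + 2 * p.lam * Real.sin th * Real.cos th := by
  simp only [slC]
  rw [Real.cos_two_mul, Real.sin_two_mul]
  linear_combination 2 * Real.sin_sq_add_cos_sq th

private theorem Start_AD : slA p h th * (1 + slD p h th) = 1 - h := by
  have hD : 0 ≤ slD p h th := Real.sqrt_nonneg _
  exact div_mul_cancel₀ _ (by positivity)

private theorem Start_AC (h1 : 0 ≤ 1 - (1 - h) * slC p th) :
    slA p h th ^ 2 * slC p th = slA p h th * (1 - slD p h th) := by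
  have hD : 0 ≤ slD p h th := Real.sqrt_nonneg _
  have hD2 : slD p h th ^ 2 = 1 - (1 - h) * slC p th := Real.sq_sqrt h1
  have hA := Start_AD p (h := h) (th := th)
  have h2 : (1 + slD p h th) ≠ 0 := by positivity
  apply mul_right_cancel₀ h2
  linear_combination (slA p h th * slC p th) * hA + slA p h th * hD2

private theorem Start_fH (h1 : 0 ≤ 1 - (1 - h) * slC p th) : fH p (sl p h th) = h := by
  have hA := Start_AD p (h := h) (th := th)
  have hC := Start_AC p h1
  rw [Start_C] at hC
  simp only [fH, sl]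
  linear_combination hC - hA

private theorem Start_fD (h1 : 0 ≤ 1 - (1 - h) * slC p th) :
    fD p (sl p h th) = slA p h th * slD p h th := by
  have hA := Start_AD p (h := h) (th := th)
  rw [fD, Start_fH p h1]
  simp only [sl]
  linear_combination -hA

private theorem Start_dA (h1 : 0 < 1 - (1 - h) * slC p th) :
    HasDerivAt (fun r => (sl p h r).A) (YA p (sl p h th) / slD p h th) th := by
  have hD : 0 < slD p h th := Real.sqrt_pos.2 h1
  have e1 : HasDerivAt (fun r : ℝ => 2 * r) 2 th := by simpa using (hasDerivAt_id th).const_mul 2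
  have e2 : HasDerivAt (fun r => slC p r)
      (-Real.sin (2 * th) * 2 + p.lam * (Real.cos (2 * th) * 2)) th :=
    e1.cos.add ((e1.sin).const_mul p.lam)
  have e3 := (((e2.const_mul (1 - h)).const_sub 1).sqrt h1.ne')
  have e4 := (e3.const_add 1)
  have h3 : 1 + Real.sqrt (1 - (1 - h) * slC p th) ≠ 0 := by positivity
  have e5 := (hasDerivAt_const th (1 - h)).div e4 h3
  have e6 : HasDerivAt (fun r => (sl p h r).A) _ th := e5
  refine e6.congr_deriv ?_
  have hsq : Real.sqrt (1 - (1 - h) * slC p th) = slD p h th := rfl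
  rw [hsq]
  have hA : slA p h th = (1 - h) / (1 + slD p h th) := rfl
  simp only [YA, sl]
  rw [hA, Real.sin_two_mul, Real.cos_two_mul']
  have h4 : (1 + slD p h th) ≠ 0 := by positivity
  field_simp
  ring

private theorem Start_dS (h1 : 0 < 1 - (1 - h) * slC p th) (hh : h < 1) :
    HasDerivAt (fun r => (sl p h r).S) (YS p (sl p h th) / slD p h th) th := by
  have hD : 0 < slD p h th := Real.sqrt_pos.2 h1
  have e1 := ((Start_dA p h1).const_mul 2).mul (Real.hasDerivAt_cos th)
  have e2 : HasDerivAt (fun r => (sl p h r).S) _ th := e1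
  refine e2.congr_deriv ?_
  have hc := Start_cone p hh th
  have e3 := Yang_eq p (sl p h th) hc
  rw [Start_fD p h1.le] at e3
  have hA := hc.2
  have hS : (sl p h th).S = 2 * (sl p h th).A * Real.cos th := rfl
  have hW : (sl p h th).W = 2 * (sl p h th).A * Real.sin th := rfl
  have hAA : slA p h th = (sl p h th).A := rfl
  rw [hAA] at e3
  have e4 : YS p (sl p h th) = 2 * Real.cos th * YA p (sl p h th)
      - (sl p h th).W * slD p h th := by
    apply mul_left_cancel₀ hA.ne'
    rw [hS] at e3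
    linear_combination e3
  rw [e4, hW]
  field_simp
  ring

private theorem Start_dW (h1 : 0 < 1 - (1 - h) * slC p th) (hh : h < 1) :
    HasDerivAt (fun r => (sl p h r).W) (fV p (sl p h th) / slD p h th) th := by
  have hD : 0 < slD p h th := Real.sqrt_pos.2 h1
  have e1 := ((Start_dA p h1).const_mul 2).mul (Real.hasDerivAt_sin th)
  have e2 : HasDerivAt (fun r => (sl p h r).W) _ th := e1
  refine e2.congr_deriv ?_
  have hA := Start_AD p (h := h) (th := th)
  have hC := Start_AC p h1.le
  rw [Start_C] at hC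
  have hs := Real.sin_sq_add_cos_sq th
  have hc := Start_cone p hh th
  have hA0 : 0 < slA p h th := hc.2
  -- `1 - A = A C' ...`
  have e3 : slD p h th = 1 - slA p h th
      * (1 - 2 * Real.sin th ^ 2 + 2 * p.lam * Real.sin th * Real.cos th) := by
    apply mul_left_cancel₀ hA0.ne'
    linear_combination hC
  have e4 : 2 * Real.sin th * YA p (sl p h th) + 2 * slA p h th * Real.cos th * slD p h th
      = fV p (sl p h th) := by
    rw [e3]
    simp only [YA, fV, sl]
    linear_combination (-(2 * slA p h th ^ 2 * p.lam * Real.sin th)) * hs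
  rw [← e4]
  have hAA : (sl p h th).A = slA p h th := rfl
  rw [hAA]
  field_simp

private theorem Start_dT (h1 : 0 < 1 - (1 - h) * slC p th) (hh : h < 1)
    (hF : fF p (sl p h th) ≠ 0) (hG : fG p (sl p h th) ≠ 0) :
    HasDerivAt (fun r => fT p (sl p h r)) ((sl p h th).W / (2 * slD p h th)) th := by
  have hD : 0 < slD p h th := Real.sqrt_pos.2 h1
  have e1 := hasDerivAt_fT p (Start_dA p h1) (Start_dS p h1 hh) (Start_dW p h1 hh) hF hG
  refine e1.congr_deriv ?_
  have hc := Start_cone p hh th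
  have k1 := YF_eq p (sl p h th) hc
  have k2 := YG_eq p (sl p h th) hc
  have e2 : (p.N * (YA p (sl p h th) / slD p h th) + p.nu / 2 * (p.P * (YS p (sl p h th)
      / slD p h th) + p.M * (fV p (sl p h th) / slD p h th))) / fF p (sl p h th)
      = -(p.nu / 2 * (p.P * (sl p h th).W - p.M * (sl p h th).S)) / slD p h th := by
    field_simp
    linear_combination 2 * k1
  have e3 : (-(p.N * (YA p (sl p h th) / slD p h th)) - p.nu / 2 * (p.P * (fV p (sl p h th)
      / slD p h th) - p.M * (YS p (sl p h th) / slD p h th))) / fG p (sl p h th)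
      = -(p.nu / 2 * (p.P * (sl p h th).S + p.M * (sl p h th).W)) / slD p h th := by
    field_simp
    linear_combination 2 * k2
  rw [e2, e3]
  have hN := p.N_pos.ne'
  have hnu := p.hnu.ne'
  have h3 := p.hP2
  have h4 := p.hM2
  field_simp
  linear_combination (sl p h th).W * h3 + (sl p h th).W * h4

private theorem Start_dZ (h1 : 0 < 1 - (1 - h) * slC p th) (hh : h < 1)
    (hF : fF p (sl p h th) ≠ 0) (hG : fG p (sl p h th) ≠ 0) :
    HasDerivAt (fun r => fZ p (sl p h r))
      (fU p (sl p h th) * ((sl p h th).W / (2 * slD p h th))) th := by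
  have hD : 0 < slD p h th := Real.sqrt_pos.2 h1
  have hc := Start_cone p hh th
  have k1 := Y_tan p (sl p h th)
  have e1 := hasDerivAt_fZ p (Start_dA p h1) (Start_dS p h1 hh) (Start_dW p h1 hh) hc
    (by field_simp; linear_combination k1) hF hG
  refine e1.congr_deriv ?_
  have k2 := YH_eq p (sl p h th)
  have k3 := YZ_eq p (sl p h th) hc
  have e2 : -2 * (1 - (sl p h th).A) * (YA p (sl p h th) / slD p h th)
      - (sl p h th).W * (fV p (sl p h th) / slD p h th)
      + p.lam * (fV p (sl p h th) / slD p h th * (sl p h th).S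
        + (sl p h th).W * (YS p (sl p h th) / slD p h th)) / 2 = 0 := by
    field_simp
    linear_combination 2 * k2
  rw [e2]
  have e3 : fU p (sl p h th) * ((sl p h th).W / (2 * slD p h th))
      = (sl p h th).W * fU p (sl p h th) / 2 / slD p h th := by
    field_simp
  rw [e3, ← k3]
  ring

private theorem Start_eq {x : Pt} (hx : x.Cone) (hD : 0 < fD p x) (hS : 0 < x.S) :
    sl p (fH p x) (Real.arcsin (x.W / (2 * x.A))) = x := by
  obtain ⟨hc, hA⟩ := hx
  have hW1 : |x.W| ≤ 2 * x.A := abs_le_of_sq_le_sq (by nlinarith [sq_nonneg x.S]) (by positivity)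
  have hW2 := abs_le.1 hW1
  have hs : Real.sin (Real.arcsin (x.W / (2 * x.A))) = x.W / (2 * x.A) :=
    Real.sin_arcsin (by rw [le_div_iff₀ (by positivity)]; linarith [hW2.1])
      (by rw [div_le_iff₀ (by positivity)]; linarith [hW2.2])
  have hcs : Real.cos (Real.arcsin (x.W / (2 * x.A))) = x.S / (2 * x.A) := by
    rw [Real.cos_arcsin]
    have e1 : 1 - (x.W / (2 * x.A)) ^ 2 = (x.S / (2 * x.A)) ^ 2 := by
      field_simp
      linear_combination -hc
    rw [e1, Real.sqrt_sq (by positivity)]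
  have hC : slC p (Real.arcsin (x.W / (2 * x.A)))
      = (4 * x.A ^ 2 - 2 * x.W ^ 2 + 2 * p.lam * x.W * x.S) / (4 * x.A ^ 2) := by
    rw [Start_C, hs, hcs]
    field_simp
    ring
  have e0 : fD p x = x.A * (1 - x.A * ((4 * x.A ^ 2 - 2 * x.W ^ 2 + 2 * p.lam * x.W * x.S)
      / (4 * x.A ^ 2))) := by
    simp only [fD, fH]
    field_simp
    ring
  have e1 : 0 < 1 - x.A * ((4 * x.A ^ 2 - 2 * x.W ^ 2 + 2 * p.lam * x.W * x.S)
      / (4 * x.A ^ 2)) := by
    rw [e0] at hD
    exact pos_of_mul_pos_right hD hA.le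
  have e2 : slD p (fH p x) (Real.arcsin (x.W / (2 * x.A)))
      = 1 - x.A * ((4 * x.A ^ 2 - 2 * x.W ^ 2 + 2 * p.lam * x.W * x.S) / (4 * x.A ^ 2)) := by
    rw [slD, hC]
    rw [← Real.sqrt_sq e1.le]
    congr 1
    simp only [fH]
    field_simp
    ring
  have e3 : slA p (fH p x) (Real.arcsin (x.W / (2 * x.A))) = x.A := by
    rw [slA, e2, div_eq_iff (by linarith)]
    simp only [fH]
    field_simp
    ring
  ext
  · exact e3
  · simp only [sl]
    rw [e3, hcs]
    field_simp
  · simp only [sl]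
    rw [e3, hs]
    field_simp

private theorem Start_cont (p : Prm) : Continuous (fun q : ℝ × ℝ => slA p q.1 q.2) ∧
    Continuous (fun q : ℝ × ℝ => slC p q.2) := by
  have h1 : Continuous (fun q : ℝ × ℝ => slC p q.2) := by
    unfold slC
    fun_prop
  refine ⟨?_, h1⟩
  have h2 : Continuous (fun q : ℝ × ℝ => slD p q.1 q.2) := by
    unfold slD
    exact (continuous_const.sub ((continuous_const.sub continuous_fst).mul h1)).sqrt
  unfold slA
  refine (continuous_const.sub continuous_fst).div (continuous_const.add h2) ?_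
  intro q
  have : 0 ≤ slD p q.1 q.2 := Real.sqrt_nonneg _
  positivity

/-- A neighbourhood of `(H(0), 0)` in the `(h, theta)`-plane. -/
private theorem Start_nhd {x : Pt} (hx : x.Cone) (hW : x.W = 0) (hS : x.S = 2 * x.A)
    (hA : x.A < 1) : ∃ e > 0, e < 1 ∧ ∀ h th : ℝ, |h - fH p x| < e → |th| < e →
      h < 1 ∧ 0 < 1 - (1 - h) * slC p th ∧ 0 < fG p (sl p h th) ∧ fH p x < fU p (sl p h th)
        ∧ (sl p h th).A < 1 := by
  have hA0 := hx.2
  have hH : fH p x = (1 - x.A) ^ 2 := by simp only [fH, hW]; ring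
  have hH0 : 0 < fH p x := by rw [hH]; exact pow_pos (by linarith) 2
  have hH1 : fH p x < 1 := by rw [hH]; nlinarith
  obtain ⟨c1, c2⟩ := Start_cont p
  have cS : Continuous (fun q : ℝ × ℝ => (sl p q.1 q.2).S) :=
    (continuous_const.mul c1).mul (Real.continuous_cos.comp continuous_snd)
  have cW : Continuous (fun q : ℝ × ℝ => (sl p q.1 q.2).W) :=
    (continuous_const.mul c1).mul (Real.continuous_sin.comp continuous_snd)
  have cA : Continuous (fun q : ℝ × ℝ => (sl p q.1 q.2).A) := c1
  have cG : Continuous (fun q : ℝ × ℝ => fG p (sl p q.1 q.2)) := by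
    unfold fG
    fun_prop
  have cU : Continuous (fun q : ℝ × ℝ => fU p (sl p q.1 q.2)) := by
    unfold fU fH
    fun_prop
  have cC : Continuous (fun q : ℝ × ℝ => 1 - (1 - q.1) * slC p q.2) := by fun_prop
  have hC0 : slC p 0 = 1 := by simp [slC]
  have hxs : sl p (fH p x) 0 = x := by
    have h1 : fD p x = x.A * (1 - x.A) := by rw [fD, hH]; ring
    have h2 := Start_eq p hx (by rw [h1]; exact mul_pos hA0 (by linarith))
      (by rw [hS]; positivity)
    rw [hW, zero_div, Real.arcsin_zero] at h2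
    exact h2
  have hG0 : 0 < fG p x := by
    have h1 : (p.nu * p.M) ^ 2 = p.N * (p.N - 1) := by rw [mul_pow, p.hnu2, p.hM2]
    have h2 : p.N - 1 < p.nu * p.M := by
      have h3 : 0 < p.nu * p.M := mul_pos p.hnu p.hM
      nlinarith [p.hN1]
    simp only [fG, hW, hS]
    nlinarith
  have hopen : IsOpen {q : ℝ × ℝ | q.1 < 1 ∧ 0 < 1 - (1 - q.1) * slC p q.2 ∧
      0 < fG p (sl p q.1 q.2) ∧ fH p x < fU p (sl p q.1 q.2) ∧ (sl p q.1 q.2).A < 1} := by
    refine (isOpen_lt continuous_fst continuous_const).inter ((isOpen_lt continuous_const cC).inter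
      ((isOpen_lt continuous_const cG).inter ((isOpen_lt continuous_const cU).inter
      (isOpen_lt cA continuous_const))))
  have hmem : (fH p x, (0 : ℝ)) ∈ {q : ℝ × ℝ | q.1 < 1 ∧ 0 < 1 - (1 - q.1) * slC p q.2 ∧
      0 < fG p (sl p q.1 q.2) ∧ fH p x < fU p (sl p q.1 q.2) ∧ (sl p q.1 q.2).A < 1} := by
    simp only [mem_ofPred_eq]
    rw [hxs, hC0]
    refine ⟨hH1, by linarith, hG0, ?_, hA⟩
    simp only [fU, hW]
    linarith
  obtain ⟨e, he, hball⟩ := Metric.isOpen_iff.1 hopen _ hmem
  refine ⟨min e (1 / 2), lt_min he (by norm_num), (min_le_right _ _).trans_lt (by norm_num), ?_⟩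
  intro h th h1 h2
  have h3 : (h, th) ∈ Metric.ball (fH p x, (0 : ℝ)) e := by
    rw [Metric.mem_ball, Prod.dist_eq, max_lt_iff, Real.dist_eq, Real.dist_eq, sub_zero]
    exact ⟨h1.trans_le (min_le_left _ _), h2.trans_le (min_le_left _ _)⟩
  exact hball h3

/-- Points of a trajectory near the exit. -/
private theorem Start_traj {p : Prm} {sg : ℝ} {x : ℝ → Pt} {L : ℝ} (hx : BArc p sg x L) {e : ℝ}
    (he : 0 < e) : ∃ d > 0, ∀ t ∈ Ioo 0 d, |fH p (x t) - fH p (x 0)| < e ∧
      |Real.arcsin ((x t).W / (2 * (x t).A))| < e ∧ 0 < fD p (x t) ∧ 0 < (x t).S := by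
  have cA := hx.traj.contA
  have cS := hx.traj.contS
  have cW := hx.traj.contW
  have cH : Continuous (fun t => fH p (x t)) := by unfold fH; fun_prop
  have cD : Continuous (fun t => fD p (x t)) := by unfold fD; fun_prop
  have cW2 : Continuous (fun t => (x t).W / (2 * (x t).A)) :=
    cW.div (continuous_const.mul cA) fun t => by
      have := (hx.traj.cone t).2
      positivity
  have ca : Continuous (fun t => Real.arcsin ((x t).W / (2 * (x t).A))) :=
    Real.continuous_arcsin.comp cW2
  have hA0 := (hx.traj.cone 0).2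
  have hA1 := hx.A0
  have hH : fH p (x 0) = (1 - (x 0).A) ^ 2 := by simp only [fH, hx.W0]; ring
  have h1 : ∀ᶠ t in 𝓝 (0 : ℝ), |fH p (x t) - fH p (x 0)| < e ∧
      |Real.arcsin ((x t).W / (2 * (x t).A))| < e ∧ 0 < fD p (x t) ∧ 0 < (x t).S := by
    have k1 : ∀ᶠ t in 𝓝 (0 : ℝ), |fH p (x t) - fH p (x 0)| < e :=
      (isOpen_lt (cH.sub continuous_const).abs continuous_const).mem_nhds (by simpa using he)
    have k2 : ∀ᶠ t in 𝓝 (0 : ℝ), |Real.arcsin ((x t).W / (2 * (x t).A))| < e :=
      (isOpen_lt ca.abs continuous_const).mem_nhds (by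
        simp only [mem_ofPred_eq, hx.W0, zero_div, Real.arcsin_zero, abs_zero]; exact he)
    have k3 : ∀ᶠ t in 𝓝 (0 : ℝ), 0 < fD p (x t) :=
      (isOpen_lt continuous_const cD).mem_nhds (by
        simp only [mem_ofPred_eq, fD]
        rw [hH]
        nlinarith [mul_pos hA0 (sub_pos.2 hA1)])
    have k4 : ∀ᶠ t in 𝓝 (0 : ℝ), 0 < (x t).S :=
      (isOpen_lt continuous_const cS).mem_nhds (by
        simp only [mem_ofPred_eq]
        rw [hx.S0]
        positivity)
    filter_upwards [k1, k2, k3, k4] with t a b c d using ⟨a, b, c, d⟩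
  obtain ⟨d, hd, hd1⟩ := Metric.eventually_nhds_iff.1 h1
  refine ⟨d, hd, fun t ht => hd1 ?_⟩
  rw [Real.dist_eq, sub_zero, abs_of_pos ht.1]
  exact ht.2

end slice

theorem start_ineq {p : Prm} {x y : ℝ → Pt} {L M tc sb : ℝ} (hx : BArc p 1 x L)
    (hy : BArc p (-1) y M) (h0 : x 0 = y 0) (htc : 0 < tc) (htL : tc ≤ L) (hsb : 0 < sb)
    (hsM : sb ≤ M) (mx : StrictMonoOn (fun t => fH p (x t)) (Icc 0 tc))
    (my : StrictMonoOn (fun t => fH p (y t)) (Icc 0 sb)) :
    ∃ c0 > 0, ∃ e > 0, ∀ t ∈ Ioo 0 tc, ∀ s ∈ Ioo 0 sb, fH p (x t) = fH p (y s) →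
      fH p (x t) < fH p (x 0) + e → fT p (y s) ≤ fT p (x t) →
      c0 * (fT p (x t) - fT p (y s)) < fZ p (x t) - fZ p (y s) := by
  obtain ⟨e1, he1, he1', hn⟩ := Start_nhd p (hx.traj.cone 0) hx.W0 hx.S0 hx.A0
  obtain ⟨d1, hd1, hd1'⟩ := Start_traj hx he1
  obtain ⟨d2, hd2, hd2'⟩ := Start_traj hy he1
  rw [← h0] at hd2'
  set t1 := min (tc / 2) (d1 / 2) with ht1
  set s1 := min (sb / 2) (d2 / 2) with hs1
  have ht1p : 0 < t1 := lt_min (by linarith) (by linarith)
  have hs1p : 0 < s1 := lt_min (by linarith) (by linarith)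
  have ht1c : t1 < tc := (min_le_left _ _).trans_lt (by linarith)
  have hs1c : s1 < sb := (min_le_left _ _).trans_lt (by linarith)
  have ht1d : t1 < d1 := (min_le_right _ _).trans_lt (by linarith)
  have hs1d : s1 < d2 := (min_le_right _ _).trans_lt (by linarith)
  have hHx : fH p (x 0) < fH p (x t1) := mx ⟨le_rfl, htc.le⟩ ⟨ht1p.le, ht1c.le⟩ ht1p
  have hHy : fH p (y 0) < fH p (y s1) := my ⟨le_rfl, hsb.le⟩ ⟨hs1p.le, hs1c.le⟩ hs1p
  have hH0 : 0 < fH p (x 0) := hx.Hpos 0 ⟨le_rfl, hx.pos.le⟩
  refine ⟨fH p (x 0), hH0, min (fH p (x t1) - fH p (x 0)) (fH p (y s1) - fH p (y 0)),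
    lt_min (by linarith) (by linarith), ?_⟩
  intro t ht s hs hHH hHe hTT
  have hHe1 : fH p (x t) < fH p (x t1) := by
    have := min_le_left (fH p (x t1) - fH p (x 0)) (fH p (y s1) - fH p (y 0))
    linarith
  have hHe2 : fH p (y s) < fH p (y s1) := by
    have := min_le_right (fH p (x t1) - fH p (x 0)) (fH p (y s1) - fH p (y 0))
    have hy0 : fH p (y 0) = fH p (x 0) := by rw [h0]
    linarith
  have htt : t < t1 := by
    by_contra hcon
    push Not at hcon
    have : fH p (x t1) ≤ fH p (x t) := mx.monotoneOn ⟨ht1p.le, ht1c.le⟩ ⟨ht.1.le, ht.2.le⟩ hcon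
    linarith
  have hss : s < s1 := by
    by_contra hcon
    push Not at hcon
    have : fH p (y s1) ≤ fH p (y s) := my.monotoneOn ⟨hs1p.le, hs1c.le⟩ ⟨hs.1.le, hs.2.le⟩ hcon
    linarith
  obtain ⟨a1, a2, a3, a4⟩ := hd1' t ⟨ht.1, htt.trans ht1d⟩
  obtain ⟨b1, b2, b3, b4⟩ := hd2' s ⟨hs.1, hss.trans hs1d⟩
  have ex := Start_eq p (hx.traj.cone t) a3 a4
  have ey := Start_eq p (hy.traj.cone s) b3 b4
  have hWx : 0 < (x t).W := by
    have := hx.Wpos t ⟨ht.1, ht.2.trans_le htL⟩
    linarith
  have hWy : (y s).W < 0 := by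
    have := hy.Wpos s ⟨hs.1, hs.2.trans_le hsM⟩
    linarith
  have hAx := (hx.traj.cone t).2
  have hAy := (hy.traj.cone s).2
  set a := Real.arcsin ((x t).W / (2 * (x t).A)) with ha
  set b := Real.arcsin ((y s).W / (2 * (y s).A)) with hb
  have ha0 : 0 < a := Real.arcsin_pos.2 (by positivity)
  have hb0 : b < 0 := Real.arcsin_lt_zero.2 (div_neg_of_neg_of_pos hWy (by positivity))
  rw [abs_of_pos ha0] at a2
  rw [abs_of_neg hb0] at b2
  rw [← hHH] at ey
  set h := fH p (x t) with hh
  have hn' := fun th hth => hn h th a1 hth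
  have h1 : h < 1 := (hn' 0 (by simpa using he1)).1
  have hok : ∀ th : ℝ, |th| < e1 → Ok p (sl p h th) := by
    intro th hth
    obtain ⟨_, k2, k3, _, _⟩ := hn' th hth
    have k0 := Start_cone p h1 th
    refine ⟨k0, ?_, k3⟩
    rw [Start_fH p k2.le]
    nlinarith [p.N_pos]
  have hdT : ∀ th : ℝ, |th| < e1 → HasDerivAt (fun r => fT p (sl p h r))
      ((sl p h th).W / (2 * slD p h th)) th := fun th hth =>
    Start_dT p (hn' th hth).2.1 h1 (hok th hth).F_pos.ne' (hok th hth).G_pos.ne'
  have hdZ : ∀ th : ℝ, |th| < e1 → HasDerivAt (fun r => fZ p (sl p h r))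
      (fU p (sl p h th) * ((sl p h th).W / (2 * slD p h th))) th := fun th hth =>
    Start_dZ p (hn' th hth).2.1 h1 (hok th hth).F_pos.ne' (hok th hth).G_pos.ne'
  have hDp : ∀ th : ℝ, |th| < e1 → 0 < slD p h th := fun th hth =>
    Real.sqrt_pos.2 (hn' th hth).2.1
  have hWp : ∀ th : ℝ, 0 < th → th < e1 → 0 < (sl p h th).W := by
    intro th h2 h3
    have k0 := (Start_cone p h1 th).2
    have k1 : 0 < Real.sin th := Real.sin_pos_of_pos_of_lt_pi h2 (by linarith [Real.pi_gt_three])
    have k2 : (sl p h th).W = 2 * (sl p h th).A * Real.sin th := rfl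
    rw [k2]
    positivity
  have hWn : ∀ th : ℝ, th < 0 → -e1 < th → (sl p h th).W < 0 := by
    intro th h2 h3
    have k0 := (Start_cone p h1 th).2
    have k1 : Real.sin th < 0 := Real.sin_neg_of_neg_of_neg_pi_lt h2
      (by linarith [Real.pi_gt_three])
    have k2 : (sl p h th).W = 2 * (sl p h th).A * Real.sin th := rfl
    rw [k2]
    exact mul_neg_of_pos_of_neg (by positivity) k1
  -- `T` decreases on `[b, 0]`
  have hTb : fT p (sl p h 0) < fT p (sl p h b) := by
    have h2 : StrictMonoOn (fun th => -fT p (sl p h th)) (Icc b 0) := by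
      refine strictMonoOn_of_hasDerivAt (f' := fun th => -((sl p h th).W / (2 * slD p h th)))
        ?_ ?_ ?_
      · intro th hth
        exact (hdT th (by rw [abs_lt]; constructor <;> linarith [hth.1, hth.2])).neg.continuousAt
          |>.continuousWithinAt
      · intro th hth
        exact (hdT th (by rw [abs_lt]; constructor <;> linarith [hth.1, hth.2])).neg
      · intro th hth
        have k1 := hWn th hth.2 (by linarith [hth.1])
        have k2 := hDp th (by rw [abs_lt]; constructor <;> linarith [hth.1, hth.2])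
        have k3 := div_neg_of_neg_of_pos k1 (show 0 < 2 * slD p h th by positivity)
        linarith
    have := h2 ⟨le_rfl, hb0.le⟩ ⟨hb0.le, le_rfl⟩ hb0
    simp only at this
    linarith
  have hcT : ContinuousOn (fun th => fT p (sl p h th)) (Icc 0 a) := fun th hth =>
    (hdT th (by rw [abs_lt]; constructor <;> linarith [hth.1, hth.2])).continuousAt
      |>.continuousWithinAt
  rw [ey] at hTb
  obtain ⟨q, hq, hqT⟩ := intermediate_value_Icc ha0.le hcT
    (show fT p (y s) ∈ Icc (fT p (sl p h 0)) (fT p (sl p h a)) from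
      ⟨hTb.le, by rw [ex]; exact hTT⟩)
  simp only at hqT
  have hq0 : 0 < q := by
    rcases hq.1.lt_or_eq with h2 | h2
    · exact h2
    · rw [← h2] at hqT
      linarith
  have hqe : |q| < e1 := by rw [abs_of_pos hq0]; linarith [hq.2]
  have hbe : |b| < e1 := by rw [abs_of_neg hb0]; exact b2
  have hokq := hok q hqe
  have hoky := hok b hbe
  rw [ey] at hoky
  have hHq : fH p (sl p h q) = fH p (y s) := by
    rw [Start_fH p (hn' q hqe).2.1.le, ← hHH]
  have hWq := hWp q hq0 (by linarith [hq.2])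
  have hAy1 : (y s).A < 1 := by
    have := (hn' b hbe).2.2.2.2
    rw [ey] at this
    exact this
  have hF := pair_F_lt hokq hoky hHq hqT (hWy.trans hWq) (by linarith [(hn' q hqe).2.2.2.2])
  have hK := pair_K hokq hoky hHq hqT (hWy.trans hWq) hF
  -- from `q` to `a`
  have hmono : MonotoneOn (fun th => fZ p (sl p h th) - fH p (x 0) * fT p (sl p h th))
      (Icc q a) := by
    refine monoOn_of_hasDerivAt (f' := fun th => fU p (sl p h th) * ((sl p h th).W
      / (2 * slD p h th)) - fH p (x 0) * ((sl p h th).W / (2 * slD p h th))) ?_ ?_ ?_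
    · intro th hth
      have hth' : |th| < e1 := by rw [abs_lt]; constructor <;> linarith [hth.1, hth.2]
      exact ((hdZ th hth').sub ((hdT th hth').const_mul _)).continuousAt.continuousWithinAt
    · intro th hth
      have hth' : |th| < e1 := by rw [abs_lt]; constructor <;> linarith [hth.1, hth.2]
      exact (hdZ th hth').sub ((hdT th hth').const_mul _)
    · intro th hth
      have hth' : |th| < e1 := by rw [abs_lt]; constructor <;> linarith [hth.1, hth.2]
      have k1 := hWp th (by linarith [hth.1]) (by linarith [hth.2])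
      have k2 := hDp th hth'
      have k3 : 0 < (sl p h th).W / (2 * slD p h th) := by positivity
      have k4 := (hn' th hth').2.2.2.1
      nlinarith
  have h5 := hmono ⟨le_rfl, hq.2⟩ ⟨hq.2, le_rfl⟩ hq.2
  simp only at h5
  rw [ex, hqT] at h5
  linarith

end B92K
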