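import Mathlib
import Pool.Agent.Lib.B92K.St0
import Pool.Agent.Lib.B92K.Start
import Pool.Agent.Lib.B92K.Reg
import Pool.Agent.Lib.B92K.RA

/-!
# MP_b92fc8_an, `kappa > 1`, module StartD : the comparison just after the common exit

`x` BArc of sector `+` (`e = -1`), `y` BArc of sector `-` (`e = 1`), `x 0 = y 0 = q0 = (a0, 2 a0, 0)`.
(1) At `q0`: `XA = -2 lam A² (k-1) < 0`, `XS = 2 XA`, `XW = -4 A (1-A)(k-1) < 0`. So with
   `XF = N XA + nu/2 (P XS + M XW) < 0`: `F_x'(0) = -XF/mu > 0`, `F_y'(0) = XF/mu < 0` (Traj.dF). By continuity there is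
   `ρ ∈ (0, min L M)` with: `F_x' > 0`, `F_y' < 0` on `[0,ρ]`, `x t, y t` within the `ε` of start_pt of `q0`, `U(x t), U(y t) > 0`,
   `G(x t), G(y t) > 0`, `H < 1` (so `F > 0`). Hence `F(y s) < F(q0) < F(x t)` for `s, t ∈ (0,ρ]`.
(2) `H∘x`, `H∘y` are strictly increasing on `[0,ρ]` (`H' = |W| U/mu`, Traj.dH). Take `ε1 ∈ (0,ρ)` with `H(x ε1) < H(y ρ)`.
   RA.sheet_up for `y` on `[0,ρ]` (`g = 5 fT∘y + cc`, Traj.dZ): `σ`. `D t = Z(x t) - Z(y (σ (H(x t))))`, `D 0 = 0`, continuous on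
   `[0,ε1]`, `D' = 5 δ H_x'`, `δ t = T(x t) - T(y (σ (H (x t))))`, `0 < H_x' ≤ K`. start_pt (first claim) (or Start.start_ineq):
   `δ ≥ 0 → D > c δ`.
   RA.gron_start: `δ < 0`, `D < 0` on `(0,ε1)`. start_pt (second claim) with (1): `x.W + y.W < 0`.
(3) Take `ε < ε1`; for `t, s ∈ (0,ε]` with `H(x t) = H(y s)`: `s = σ(H(x t))` because `σ (H (y s)) = s`.
-/

set_option autoImplicit false

open Set Filter Topology

noncomputable section

namespace B92K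


/-- `N XA + nu/2 (P XS + M XW)`, the derivative of `F` along `mu X`. -/
private def sdXF (p : Prm) (x : Pt) : ℝ :=
  p.N * XA p x + p.nu / 2 * (p.P * XS p x + p.M * XW p x)

private theorem SD_XF_neg {p : Prm} {x : Pt} (hA : 0 < x.A) (hA1 : x.A < 1) (hW : x.W = 0)
    (hS : x.S = 2 * x.A) : sdXF p x < 0 := by
  have h1 : 0 < p.k - 1 := by linarith [p.hk]
  have e1 : XA p x = -(2 * p.lam * x.A ^ 2 * (p.k - 1)) := by
    simp only [XA, hW, hS]; ring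
  have e2 : XS p x = -(4 * p.lam * x.A ^ 2 * (p.k - 1)) := by
    simp only [XS, hW, hS]; ring
  have e3 : XW p x = -(4 * x.A * (1 - x.A) * (p.k - 1)) := by
    simp only [XW, fV, hW, hS]; ring
  have h2 : 0 < 1 - x.A := by linarith
  have hN := p.N_pos
  have hnu := p.hnu
  have hP := p.hP
  have hM := p.hM
  have hl := p.hlam0
  have k1 : 0 < p.N * (2 * p.lam * x.A ^ 2 * (p.k - 1)) := by positivity
  have k2 : 0 < p.nu / 2 * (p.P * (4 * p.lam * x.A ^ 2 * (p.k - 1))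
      + p.M * (4 * x.A * (1 - x.A) * (p.k - 1))) := by positivity
  rw [sdXF, e1, e2, e3]
  linarith

/-- Everything that is needed on a small interval after the exit, for one arc. -/
private theorem SD_near {p : Prm} {sg : ℝ} {x : ℝ → Pt} {L : ℝ} (hx : BArc p sg x L) {e : ℝ}
    (he : 0 < e) : ∃ d > 0, ∀ t ∈ Icc 0 d, |(x t).A - (x 0).A| < e ∧
      |(x t).S - 2 * (x 0).A| < e ∧ |(x t).W| < e ∧ 0 < fU p (x t) ∧ 0 < fG p (x t) ∧
      sdXF p (x t) < 0 ∧ fH p (x t) < 1 ∧ t < L := by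
  have cA := hx.traj.contA
  have cS := hx.traj.contS
  have cW := hx.traj.contW
  have cH : Continuous (fun t => fH p (x t)) := by unfold fH; fun_prop
  have cU : Continuous (fun t => fU p (x t)) := by unfold fU; fun_prop
  have cG : Continuous (fun t => fG p (x t)) := by unfold fG; fun_prop
  have cV : Continuous (fun t => fV p (x t)) := by unfold fV; fun_prop
  have cF : Continuous (fun t => sdXF p (x t)) := by
    unfold sdXF XA XS XW
    fun_prop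
  have hA0 := (hx.traj.cone 0).2
  have hA1 := hx.A0
  have hH : fH p (x 0) = (1 - (x 0).A) ^ 2 := by simp only [fH, hx.W0]; ring
  have k1 : ∀ᶠ t in 𝓝 (0 : ℝ), |(x t).A - (x 0).A| < e :=
    (isOpen_lt (cA.sub continuous_const).abs continuous_const).mem_nhds (by simpa using he)
  have k2 : ∀ᶠ t in 𝓝 (0 : ℝ), |(x t).S - 2 * (x 0).A| < e :=
    (isOpen_lt (cS.sub continuous_const).abs continuous_const).mem_nhds (by
      change |(x 0).S - 2 * (x 0).A| < e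
      rw [hx.S0, sub_self, abs_zero]; exact he)
  have k3 : ∀ᶠ t in 𝓝 (0 : ℝ), |(x t).W| < e :=
    (isOpen_lt cW.abs continuous_const).mem_nhds (by
      simp only [mem_ofPred_eq, hx.W0, abs_zero]; exact he)
  have k4 : ∀ᶠ t in 𝓝 (0 : ℝ), 0 < fU p (x t) :=
    (isOpen_lt continuous_const cU).mem_nhds (by
      have := hx.Hpos 0 ⟨le_rfl, hx.pos.le⟩
      simp only [mem_ofPred_eq, fU, hx.W0]
      linarith)
  have k5 : ∀ᶠ t in 𝓝 (0 : ℝ), 0 < fG p (x t) :=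
    (isOpen_lt continuous_const cG).mem_nhds hx.G0_pos
  have k6 : ∀ᶠ t in 𝓝 (0 : ℝ), sdXF p (x t) < 0 :=
    (isOpen_lt cF continuous_const).mem_nhds (SD_XF_neg hA0 hA1 hx.W0 hx.S0)
  have k7 : ∀ᶠ t in 𝓝 (0 : ℝ), fH p (x t) < 1 :=
    (isOpen_lt cH continuous_const).mem_nhds (by
      simp only [mem_ofPred_eq]
      rw [hH]
      nlinarith)
  have k8 : ∀ᶠ t in 𝓝 (0 : ℝ), t < L := (isOpen_lt continuous_id continuous_const).mem_nhds hx.pos
  have h1 := (k1.and (k2.and (k3.and (k4.and (k5.and (k6.and (k7.and k8)))))))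
  obtain ⟨d, hd, hd1⟩ := Metric.eventually_nhds_iff.1 h1
  refine ⟨d / 2, by linarith, fun t ht => hd1 ?_⟩
  rw [Real.dist_eq, sub_zero, abs_of_nonneg ht.1]
  linarith [ht.2]

theorem start_dyn {p : Prm} {x y : ℝ → Pt} {L M : ℝ} (hx : BArc p 1 x L)
    (hy : BArc p (-1) y M) (h0 : x 0 = y 0) :
    ∃ ε > 0, ε < L ∧ ε < M ∧ (∀ t ∈ Icc 0 ε, 0 < fU p (x t) ∧ 0 < fG p (x t)) ∧
      ∀ t ∈ Ioc 0 ε, ∀ s ∈ Ioc 0 ε, fH p (x t) = fH p (y s) →
        fT p (x t) < fT p (y s) ∧ fZ p (x t) < fZ p (y s) ∧ fF p (y s) < fF p (x t) ∧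
          (x t).W + (y s).W < 0 := by
  have hA0 := (hx.traj.cone 0).2
  have hA1 := hx.A0
  obtain ⟨e0, he0, c, hc, hpt⟩ := start_pt p hA0 hA1
  obtain ⟨d1, hd1, hn1⟩ := SD_near hx he0
  obtain ⟨d2, hd2, hn2⟩ := SD_near hy he0
  rw [← h0] at hn2
  set ρ := min d1 d2 with hρ
  have hρ0 : 0 < ρ := lt_min hd1 hd2
  have n1 := fun t (ht : t ∈ Icc 0 ρ) => hn1 t ⟨ht.1, ht.2.trans (min_le_left _ _)⟩
  have n2 := fun t (ht : t ∈ Icc 0 ρ) => hn2 t ⟨ht.1, ht.2.trans (min_le_right _ _)⟩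
  have hmu := p.hmu
  have hρρ : ρ ∈ Icc 0 ρ := ⟨hρ0.le, le_rfl⟩
  have h00 : (0 : ℝ) ∈ Icc 0 ρ := ⟨le_rfl, hρ0.le⟩
  have hWx : ∀ t ∈ Ioc 0 ρ, 0 < (x t).W := fun t ht => by
    have := hx.Wpos t ⟨ht.1, (n1 t ⟨ht.1.le, ht.2⟩).2.2.2.2.2.2.2⟩
    linarith
  have hWy : ∀ t ∈ Ioc 0 ρ, (y t).W < 0 := fun t ht => by
    have := hy.Wpos t ⟨ht.1, (n2 t ⟨ht.1.le, ht.2⟩).2.2.2.2.2.2.2⟩
    linarith
  have okx : ∀ t ∈ Icc 0 ρ, Ok p (x t) := fun t ht => by
    obtain ⟨_, _, _, _, k5, _, k7, _⟩ := n1 t ht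
    exact ⟨hx.traj.cone t, by nlinarith [p.N_pos], k5⟩
  have oky : ∀ t ∈ Icc 0 ρ, Ok p (y t) := fun t ht => by
    obtain ⟨_, _, _, _, k5, _, k7, _⟩ := n2 t ht
    exact ⟨hy.traj.cone t, by nlinarith [p.N_pos], k5⟩
  -- monotonicity of `F`
  have mFx : StrictMonoOn (fun t => fF p (x t)) (Icc 0 ρ) := by
    refine strictMonoOn_of_hasDerivAt (fun t _ => (hx.traj.dF t).continuousAt.continuousWithinAt)
      (fun t _ => hx.traj.dF t) fun t ht => ?_
    have k6 := (n1 t ⟨ht.1.le, ht.2.le⟩).2.2.2.2.2.1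
    rw [sdXF] at k6
    apply div_pos _ hmu
    linarith
  have mFy : StrictMonoOn (fun t => -fF p (y t)) (Icc 0 ρ) := by
    refine strictMonoOn_of_hasDerivAt
      (fun t _ => (hy.traj.dF t).neg.continuousAt.continuousWithinAt)
      (fun t _ => (hy.traj.dF t).neg) fun t ht => ?_
    have k6 := (n2 t ⟨ht.1.le, ht.2.le⟩).2.2.2.2.2.1
    rw [sdXF] at k6
    rw [← neg_div]
    apply div_pos _ hmu
    linarith
  -- monotonicity of `H`
  have dHx : ∀ t, HasDerivAt (fun r => fH p (x r)) ((x t).W * fU p (x t) / p.mu) t := fun t =>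
    (hx.traj.dH t).congr_deriv (by ring)
  have dHy : ∀ t, HasDerivAt (fun r => fH p (y r)) (-((y t).W * fU p (y t) / p.mu)) t := fun t =>
    (hy.traj.dH t).congr_deriv (by ring)
  have mHx : StrictMonoOn (fun t => fH p (x t)) (Icc 0 ρ) := by
    refine strictMonoOn_of_hasDerivAt (fun t _ => (dHx t).continuousAt.continuousWithinAt)
      (fun t _ => dHx t) fun t ht => ?_
    have k1 := hWx t ⟨ht.1, ht.2.le⟩
    have k2 := (n1 t ⟨ht.1.le, ht.2.le⟩).2.2.2.1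
    positivity
  have dHypos : ∀ t ∈ Ioo 0 ρ, 0 < -((y t).W * fU p (y t) / p.mu) := fun t ht => by
    have k1 := hWy t ⟨ht.1, ht.2.le⟩
    have k2 := (n2 t ⟨ht.1.le, ht.2.le⟩).2.2.2.1
    have k3 := div_neg_of_neg_of_pos (mul_neg_of_neg_of_pos k1 k2) hmu
    linarith
  have mHy : StrictMonoOn (fun t => fH p (y t)) (Icc 0 ρ) :=
    strictMonoOn_of_hasDerivAt (fun t _ => (dHy t).continuousAt.continuousWithinAt)
      (fun t _ => dHy t) dHypos
  -- continuity of `T`, `Z`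
  have cTx : ContinuousOn (fun t => fT p (x t)) (Icc 0 ρ) := fun t ht =>
    (hasDerivAt_fT p (hx.traj.dA t) (hx.traj.dS t) (hx.traj.dW t) (okx t ht).F_pos.ne'
      (okx t ht).G_pos.ne').continuousAt.continuousWithinAt
  have cTy : ContinuousOn (fun t => fT p (y t)) (Icc 0 ρ) := fun t ht =>
    (hasDerivAt_fT p (hy.traj.dA t) (hy.traj.dS t) (hy.traj.dW t) (oky t ht).F_pos.ne'
      (oky t ht).G_pos.ne').continuousAt.continuousWithinAt
  have dZx : ∀ t ∈ Icc 0 ρ, HasDerivAt (fun r => fZ p (x r))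
      ((5 * fT p (x t) + cc p) * ((x t).W * fU p (x t) / p.mu)) t := fun t ht =>
    (hx.traj.dZ (okx t ht).F_pos.ne' (okx t ht).G_pos.ne').congr_deriv (by ring)
  have dZy : ∀ t ∈ Icc 0 ρ, HasDerivAt (fun r => fZ p (y r))
      ((5 * fT p (y t) + cc p) * (-((y t).W * fU p (y t) / p.mu))) t := fun t ht =>
    (hy.traj.dZ (oky t ht).F_pos.ne' (oky t ht).G_pos.ne').congr_deriv (by ring)
  have cZx : ContinuousOn (fun t => fZ p (x t)) (Icc 0 ρ) := fun t ht =>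
    (dZx t ht).continuousAt.continuousWithinAt
  have cZy : ContinuousOn (fun t => fZ p (y t)) (Icc 0 ρ) := fun t ht =>
    (dZy t ht).continuousAt.continuousWithinAt
  obtain ⟨σ, s1, s2, s3, s4⟩ := sheet_up (H := fun t => fH p (y t)) (Z := fun t => fZ p (y t))
    (g := fun t => 5 * fT p (y t) + cc p) (H' := fun t => -((y t).W * fU p (y t) / p.mu)) hρ0
    (fun t _ => (dHy t).continuousAt.continuousWithinAt) cZy
    ((cTy.const_smul (5 : ℝ)).add continuousOn_const) mHy (fun t _ => dHy t)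
    (fun t ht => (dHypos t ht).le) (fun t ht => dZy t ⟨ht.1.le, ht.2.le⟩)
  have hHy0 : fH p (y 0) = fH p (x 0) := by rw [h0]
  have hHyρ : fH p (x 0) < fH p (y ρ) := by
    rw [← hHy0]
    exact mHy h00 hρρ hρ0
  obtain ⟨e1, he1, he1ρ, hHe1⟩ : ∃ e1 > 0, e1 < ρ ∧ fH p (x e1) < fH p (y ρ) := by
    have cHx : Continuous (fun t => fH p (x t)) :=
      continuous_iff_continuousAt.2 fun t => (dHx t).continuousAt
    have k1 : ∀ᶠ t in 𝓝 (0 : ℝ), fH p (x t) < fH p (y ρ) :=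
      (isOpen_lt cHx continuous_const).mem_nhds hHyρ
    obtain ⟨d, hd, hd'⟩ := Metric.eventually_nhds_iff.1 k1
    refine ⟨min (d / 2) (ρ / 2), lt_min (by linarith) (by linarith),
      (min_le_right _ _).trans_lt (by linarith), hd' ?_⟩
    rw [Real.dist_eq, sub_zero, abs_of_pos (lt_min (by linarith) (by linarith))]
    exact (min_le_left _ _).trans_lt (by linarith)
  have hsub : ∀ t ∈ Icc 0 e1, t ∈ Icc 0 ρ := fun t ht => ⟨ht.1, ht.2.trans he1ρ.le⟩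
  have hHI : ∀ t ∈ Icc 0 e1, fH p (x t) ∈ Icc (fH p (y 0)) (fH p (y ρ)) := fun t ht => by
    rw [hHy0]
    refine ⟨mHx.monotoneOn h00 (hsub t ht) ht.1, ?_⟩
    exact (mHx.monotoneOn (hsub t ht) ⟨he1.le, he1ρ.le⟩ ht.2).trans hHe1.le
  have hHI' : ∀ t ∈ Ioo 0 e1, fH p (x t) ∈ Ioo (fH p (y 0)) (fH p (y ρ)) := fun t ht => by
    have ht' : t ∈ Icc 0 e1 := ⟨ht.1.le, ht.2.le⟩
    rw [hHy0]
    refine ⟨mHx h00 (hsub t ht') ht.1, ?_⟩
    exact (mHx (hsub t ht') ⟨he1.le, he1ρ.le⟩ ht.2).trans hHe1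
  -- the point of the arc `y` on the level of `x t`
  have hs : ∀ t ∈ Ioo 0 e1, σ (fH p (x t)) ∈ Ioo 0 ρ ∧ fH p (y (σ (fH p (x t)))) = fH p (x t) :=
    fun t ht => ⟨(s4 _ (hHI' t ht)).1, (s2 _ (hHI t ⟨ht.1.le, ht.2.le⟩)).2⟩
  have cD : ContinuousOn (fun t => fZ p (x t) - fZ p (y (σ (fH p (x t))))) (Icc 0 e1) := by
    refine (cZx.mono hsub).sub ?_
    refine ContinuousOn.comp (g := fun s => fZ p (y s)) (f := fun t => σ (fH p (x t))) cZy ?_
      fun t ht => (s2 _ (hHI t ht)).1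
    exact ContinuousOn.comp (g := σ) (f := fun t => fH p (x t)) s3
      (fun t _ => (dHx t).continuousAt.continuousWithinAt) hHI
  have hD0 : fZ p (x 0) - fZ p (y (σ (fH p (x 0)))) = 0 := by
    have h1 : σ (fH p (y 0)) = 0 := s1 0 h00
    rw [← hHy0, h1, h0, sub_self]
  have dD : ∀ t ∈ Ioo 0 e1, HasDerivAt (fun t => fZ p (x t) - fZ p (y (σ (fH p (x t)))))
      (5 * (fT p (x t) - fT p (y (σ (fH p (x t))))) * ((x t).W * fU p (x t) / p.mu)) t := by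
    intro t ht
    have k1 := dZx t (hsub t ⟨ht.1.le, ht.2.le⟩)
    have k2 := (s4 _ (hHI' t ht)).2
    have k3 := HasDerivAt.comp t k2 (dHx t)
    refine (k1.sub k3).congr_deriv ?_
    ring
  -- a bound of `H'`
  have cW := hx.traj.contW
  have cA := hx.traj.contA
  have cS := hx.traj.contS
  have cU : Continuous (fun t => fU p (x t)) := by unfold fU fH; fun_prop
  obtain ⟨K, hK⟩ := isCompact_Icc.exists_bound_of_continuousOn (s := Icc (0 : ℝ) e1)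
    (f := fun t => (x t).W * fU p (x t) / p.mu) ((cW.mul cU).div_const _).continuousOn
  have key := gron_start (D := fun t => fZ p (x t) - fZ p (y (σ (fH p (x t)))))
    (δ := fun t => fT p (x t) - fT p (y (σ (fH p (x t)))))
    (g := fun t => (x t).W * fU p (x t) / p.mu) (ε := e1) (K := K) (c := c) cD hD0 dD
    (fun t ht => by
      have ht' : t ∈ Icc 0 e1 := ⟨ht.1.le, ht.2.le⟩
      refine ⟨?_, (le_abs_self _).trans (hK t ht')⟩
      have k1 := hWx t ⟨ht.1, ht.2.le.trans he1ρ.le⟩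
      have k2 := (n1 t (hsub t ht')).2.2.2.1
      positivity) hc
    (fun t ht hδ => by
      have ht' : t ∈ Icc 0 e1 := ⟨ht.1.le, ht.2.le⟩
      obtain ⟨hsI, hsH⟩ := hs t ht
      obtain ⟨a1, a2, a3, _⟩ := n1 t (hsub t ht')
      obtain ⟨b1, b2, b3, _⟩ := n2 _ ⟨hsI.1.le, hsI.2.le⟩
      exact (hpt (x t) (y (σ (fH p (x t)))) (hx.traj.cone t) (hy.traj.cone _) hsH.symm a1 a2 a3
        b1 b2 b3 (hWx t ⟨ht.1, ht.2.le.trans he1ρ.le⟩) (hWy _ ⟨hsI.1, hsI.2.le⟩)).1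
        (by linarith))
  refine ⟨e1 / 2, by linarith, ?_, ?_, ?_, ?_⟩
  · have := (n1 ρ hρρ).2.2.2.2.2.2.2
    linarith
  · have := (n2 ρ hρρ).2.2.2.2.2.2.2
    linarith
  · intro t ht
    obtain ⟨_, _, _, k4, k5, _⟩ := n1 t ⟨ht.1, by linarith [ht.2]⟩
    exact ⟨k4, k5⟩
  · intro t ht s hs' hHH
    have ht1 : t ∈ Ioo 0 e1 := ⟨ht.1, by linarith [ht.2]⟩
    have htρ : t ∈ Icc 0 ρ := hsub t ⟨ht1.1.le, ht1.2.le⟩
    have hsρ : s ∈ Icc 0 ρ := ⟨hs'.1.le, by linarith [hs'.2]⟩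
    have hσ : σ (fH p (x t)) = s := by rw [hHH]; exact s1 s hsρ
    have h1 := key t ht1
    rw [hσ] at h1
    have hFx : fF p (x 0) < fF p (x t) := mFx h00 htρ ht1.1
    have hFy : fF p (y s) < fF p (x 0) := by
      have h2 : -fF p (y 0) < -fF p (y s) := mFy h00 hsρ hs'.1
      rw [← h0] at h2
      linarith
    have hT : fT p (x t) < fT p (y s) := by linarith [h1.1]
    have hZ : fZ p (x t) < fZ p (y s) := by linarith [h1.2]
    refine ⟨hT, hZ, hFy.trans hFx, ?_⟩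
    obtain ⟨a1, a2, a3, _⟩ := n1 t htρ
    obtain ⟨b1, b2, b3, _⟩ := n2 s hsρ
    exact (hpt (x t) (y s) (hx.traj.cone t) (hy.traj.cone s) hHH a1 a2 a3 b1 b2 b3
      (hWx t ⟨ht1.1, htρ.2⟩) (hWy s ⟨hs'.1, hsρ.2⟩)).2 hT.le (hFy.trans hFx)

end B92K
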