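import Mathlib
import Pool.Agent.Lib.B92K.StartD
import Pool.Agent.Lib.B92K.LevB
import Pool.Agent.Lib.B92K.PhM

/-!
# MP_b92fc8_an, `kappa > 1`, module S1 : comparison on the first monotone phase of the minus arc

`x` (sector `+`, `e = -1`) on `[0,L]`, `y` (sector `-`, `e = 1`) on `[0,M]`, `x 0 = y 0`. `H∘y` strictly increasing on `[0,m]`, `U(y s) ≥ 0`
there; `hm = H(y m)`. `y s` is Ok on `[0,M]` (BArc.ok), `H(y s) < 1`. RA.sheet_up for `y` on `[0,m]`: `σ`, `z(h) = Z(y (σ h))`,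
`z' = 5 T(y (σ h)) + cc`. Let `g*` = `m` in the first alternative of `hV`, `g` in the second; `V(y s) ≥ 0` for `s ≤ g*`.
GOOD(r), `0 < r`: `0 < U(x r)`, `0 < G(x r)`, `H(x r) < hm`, and with `s = σ(H(x r))`: `T(x r) < T(y s)`, `F(y s) < F(x r)`, and
`s ≤ g* → x.W + y.W < 0`. Let `t0` = sup of the `t ∈ (0,L]` such that GOOD(r) for all `r ∈ (0,t)`. `t0 > 0` by start_dyn
(for small `r`, `s = σ(H(x r))` is small). On `(0,t0)`: `D = Z(x t) - z(H(x t))` is continuous on `[0,t0)`, `D(0) = 0`,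
`D' = 5 (T(x t) - T(y s)) H_x' < 0`.
At `t0` (limits): let `s0 = σ(H(x t0))`, `H(x t0) ≤ hm`, `s0 ∈ (0,m]`.
 (a) `G(x t0) > 0`: `P log F(x) + M log G(x) = - 2 N nu T(x) ≥ - 2 N nu T(y s)`, `F(x)` is bounded above and `T(y s)` bounded
     on `[0,M]`: `G(x r) ≥ const > 0` for `r < t0`. So `x t0` is Ok (`H ≤ hm < 1`), everything is continuous at `t0`, `D(t0) < 0`,
     `T(x t0) ≤ T(y s0)`, `F(y s0) ≤ F(x t0)`.
 (b) `t0 < L`: if `t0 = L`: `W = 0, S = -2A`, `G~ - G = nu (P W - M S) = 2 nu M A > 0`, so `G, G~ > 0`, `H(x L) > 1 - 1/N` (fG_mul), `x L ∈ Pi`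
     (inPi_of_G). If `s0 < M`: `y s0 ∈ Pi` (`D > 0` by Reg), `W < 0`: lev_T_end: `T(y s0) < T(x L)`: contradiction. If `s0 = M` (`= m`): `x L` and
     `y M` have `W = 0, S = -2A`, `A < 1`, equal `(1-A)²`: equal points, `D(t0) = 0`: contradiction.
 (c) if `s0 < M` : `y.W < 0 ≤ x.W`: pair_F_ne: `F(y s0) < F(x t0)`; if `T` were equal, pair_K gives `D(t0) > 0`: contradiction. So
     `T(x t0) < T(y s0)`.
 (d) `U(x t0) > 0`: if `s0 ≤ g*` (then `s0 < M`, since `V(y M) < 0 ≤ V(y s0)`): the sum `x.W + y.W ≤ 0` by the limit (`s < s0 ≤ g*` before), and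
     pair_W_ne (`0 < x.W` as `0 < t0 < L`) gives `x.W + y.W < 0`, so `W_x² < W_y²` and `U(x t0) > U(y s0) ≥ 0`. If `s0 > g*`: second alternative,
     `H(x t0) = H(y s0) > H(y g) > 1 - 1/N`, `x t0 ∈ Pi` (inPi_of_G); if `U(x t0) ≤ 0`, Q1 with the gate `y g` gives `H(x t0) ≤ H(y g)`: contradiction.
 If `H(x t0) < hm` then `s0 < m ≤ M` and (a)-(d) say GOOD(t0), and GOOD is open (if `s0 > g*` then `s > g*` nearby), `t0 < L`:
 contradiction with the definition of `t0`. So `H(x t0) = hm`, and `t = t0` does it (U > 0 on `(0,t0)` by GOOD, at `0`: `U = 2H > 0`).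
-/

set_option autoImplicit false

open Set Filter Topology

noncomputable section

namespace B92K

namespace S1Aux

theorem cont_ind {P Q : ℝ → Prop} {ε L : ℝ} (hε : 0 < ε) (hεL : ε < L)
    (h0 : ∀ r ∈ Ioc 0 ε, P r)
    (hopen : ∀ t ∈ Ioo 0 L, (∀ r ∈ Ioc 0 t, P r) → ∀ᶠ r in 𝓝 t, P r)
    (hclose : ∀ t ∈ Ioc 0 L, (∀ r ∈ Ioo 0 t, P r) → Q t ∨ (t < L ∧ P t)) :
    ∃ t ∈ Ioc 0 L, (∀ r ∈ Ioo 0 t, P r) ∧ Q t := by
  set S : Set ℝ := {t | t ∈ Ioc 0 L ∧ ∀ r ∈ Ioo 0 t, P r} with hS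
  have hεS : ε ∈ S := ⟨⟨hε, hεL.le⟩, fun r hr => h0 r ⟨hr.1, hr.2.le⟩⟩
  have hbd : BddAbove S := ⟨L, fun t ht => ht.1.2⟩
  have hle : ε ≤ sSup S := le_csSup hbd hεS
  have hL : sSup S ≤ L := csSup_le ⟨ε, hεS⟩ fun t ht => ht.1.2
  have hP : ∀ r ∈ Ioo 0 (sSup S), P r := by
    intro r hr
    obtain ⟨t, ht, hrt⟩ := exists_lt_of_lt_csSup ⟨ε, hεS⟩ hr.2
    exact ht.2 r ⟨hr.1, hrt⟩
  have hmem : sSup S ∈ Ioc 0 L := ⟨hε.trans_le hle, hL⟩
  refine ⟨sSup S, hmem, hP, ?_⟩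
  rcases hclose _ hmem hP with h | ⟨h1, h2⟩
  · exact h
  · exfalso
    have hP' : ∀ r ∈ Ioc 0 (sSup S), P r := by
      intro r hr
      rcases eq_or_lt_of_le hr.2 with h | h
      · rw [h]; exact h2
      · exact hP r ⟨hr.1, h⟩
    have hev := hopen _ ⟨hmem.1, h1⟩ hP'
    obtain ⟨δ, hδ, hball⟩ := Metric.eventually_nhds_iff.1 hev
    set t1 := min (sSup S + δ / 2) L with ht1
    have ht1' : sSup S < t1 := lt_min (by linarith) h1
    have hmem1 : t1 ∈ S := by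
      refine ⟨⟨hmem.1.trans ht1', min_le_right _ _⟩, fun r hr => ?_⟩
      rcases le_or_gt r (sSup S) with h | h
      · exact hP' r ⟨hr.1, h⟩
      · apply hball
        rw [Real.dist_eq, abs_of_pos (by linarith)]
        have : r < sSup S + δ / 2 := hr.2.trans_le (min_le_left _ _)
        linarith
    exact absurd (le_csSup hbd hmem1) (not_le.2 ht1')

theorem contH {p : Prm} {e : ℝ} {x : ℝ → Pt} (h : Traj p e x) :
    Continuous fun t => fH p (x t) :=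
  continuous_iff_continuousAt.2 fun t => (h.dH t).continuousAt

theorem contU {p : Prm} {e : ℝ} {x : ℝ → Pt} (h : Traj p e x) :
    Continuous fun t => fU p (x t) := by
  have h1 := contH h
  have h2 := h.contW
  simp only [fU]
  fun_prop

theorem contF {p : Prm} {e : ℝ} {x : ℝ → Pt} (h : Traj p e x) :
    Continuous fun t => fF p (x t) :=
  continuous_iff_continuousAt.2 fun t => (h.dF t).continuousAt

theorem contG {p : Prm} {e : ℝ} {x : ℝ → Pt} (h : Traj p e x) :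
    Continuous fun t => fG p (x t) :=
  continuous_iff_continuousAt.2 fun t => (h.dG t).continuousAt

theorem contT {p : Prm} {e : ℝ} {x : ℝ → Pt} (h : Traj p e x) {t : ℝ} (hs : Ok p (x t)) :
    ContinuousAt (fun t => fT p (x t)) t := by
  have h1 := hs.F_pos.ne'
  have h2 := hs.G_pos.ne'
  have h3 := (contF h).continuousAt (x := t)
  have h4 := (contG h).continuousAt (x := t)
  simp only [fT]
  exact ((((h3.log h1).const_mul p.P).add ((h4.log h2).const_mul p.M)).neg.div_const _)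

theorem contZ {p : Prm} {e : ℝ} {x : ℝ → Pt} (h : Traj p e x) {t : ℝ} (hs : Ok p (x t)) :
    ContinuousAt (fun t => fZ p (x t)) t :=
  (h.dZ hs.F_pos.ne' hs.G_pos.ne').continuousAt

theorem xW {p : Prm} {x : ℝ → Pt} {L : ℝ} (hx : BArc p 1 x L) {t : ℝ} (ht : t ∈ Ioo 0 L) :
    0 < (x t).W := by
  have := hx.Wpos t ht
  linarith

theorem yW {p : Prm} {y : ℝ → Pt} {M : ℝ} (hy : BArc p (-1) y M) {t : ℝ} (ht : t ∈ Ioo 0 M) :
    (y t).W < 0 := by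
  have := hy.Wpos t ht
  linarith

theorem xdH {p : Prm} {x : ℝ → Pt} {L : ℝ} (hx : BArc p 1 x L) (t : ℝ) :
    HasDerivAt (fun r => fH p (x r)) ((x t).W * fU p (x t) / p.mu) t :=
  (hx.traj.dH t).congr_deriv (by ring)

theorem ydH {p : Prm} {y : ℝ → Pt} {M : ℝ} (hy : BArc p (-1) y M) (t : ℝ) :
    HasDerivAt (fun r => fH p (y r)) (-((y t).W * fU p (y t) / p.mu)) t :=
  (hy.traj.dH t).congr_deriv (by ring)

theorem xMono {p : Prm} {x : ℝ → Pt} {L : ℝ} (hx : BArc p 1 x L) {a b : ℝ} (ha : 0 ≤ a)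
    (hb : b ≤ L) (hU : ∀ t ∈ Ioo a b, 0 < fU p (x t)) :
    StrictMonoOn (fun t => fH p (x t)) (Icc a b) := by
  apply strictMonoOn_of_deriv_pos (convex_Icc _ _) (contH hx.traj).continuousOn
  intro t ht
  rw [interior_Icc] at ht
  rw [(xdH hx t).deriv]
  have h1 := xW hx (t := t) ⟨ha.trans_lt ht.1, ht.2.trans_le hb⟩
  have h2 := hU t ht
  have h3 := p.hmu
  positivity

theorem yMono {p : Prm} {y : ℝ → Pt} {M : ℝ} (hy : BArc p (-1) y M) {a b : ℝ} (ha : 0 ≤ a)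
    (hb : b ≤ M) (hU : ∀ t ∈ Ioo a b, 0 < fU p (y t)) :
    StrictMonoOn (fun t => fH p (y t)) (Icc a b) := by
  apply strictMonoOn_of_deriv_pos (convex_Icc _ _) (contH hy.traj).continuousOn
  intro t ht
  rw [interior_Icc] at ht
  rw [(ydH hy t).deriv]
  have h1 := yW hy (t := t) ⟨ha.trans_lt ht.1, ht.2.trans_le hb⟩
  have h2 := hU t ht
  have h3 := p.hmu
  have h4 : 0 < -(y t).W * fU p (y t) / p.mu := by
    apply div_pos _ h3
    exact mul_pos (by linarith) h2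
  have h5 : -((y t).W * fU p (y t) / p.mu) = -(y t).W * fU p (y t) / p.mu := by ring
  rw [h5]
  exact h4

/-- the data -/
structure Sh (p : Prm) (x y : ℝ → Pt) (L M m gs : ℝ) (σ : ℝ → ℝ) : Prop where
  hx : BArc p 1 x L
  hy : BArc p (-1) y M
  h0 : x 0 = y 0
  m0 : 0 < m
  mM : m ≤ M
  hmono : StrictMonoOn (fun s => fH p (y s)) (Icc 0 m)
  hU : ∀ s ∈ Icc 0 m, 0 ≤ fU p (y s)
  gm : gs ≤ m
  gV : ∀ s ∈ Icc 0 gs, 0 ≤ fV p (y s)
  gP : gs < m → 0 < gs ∧ fV p (y gs) = 0 ∧ InPi p (y gs)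
  s1 : ∀ t ∈ Icc 0 m, σ (fH p (y t)) = t
  s2 : ∀ h ∈ Icc (fH p (y 0)) (fH p (y m)), σ h ∈ Icc 0 m ∧ fH p (y (σ h)) = h
  s3 : ContinuousOn σ (Icc (fH p (y 0)) (fH p (y m)))
  s4 : ∀ h ∈ Ioo (fH p (y 0)) (fH p (y m)), σ h ∈ Ioo 0 m ∧
    HasDerivAt (fun r => fZ p (y (σ r))) (5 * fT p (y (σ h)) + cc p) h

/-- the good times -/
def Good (p : Prm) (x y : ℝ → Pt) (m gs : ℝ) (σ : ℝ → ℝ) (r : ℝ) : Prop :=
  0 < fU p (x r) ∧ 0 < fG p (x r) ∧ fH p (x r) < fH p (y m) ∧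
    fT p (x r) < fT p (y (σ (fH p (x r)))) ∧ fF p (y (σ (fH p (x r)))) < fF p (x r) ∧
    (σ (fH p (x r)) ≤ gs → (x r).W + (y (σ (fH p (x r)))).W < 0)

section

variable {p : Prm} {x y : ℝ → Pt} {L M m gs : ℝ} {σ : ℝ → ℝ}

theorem Sh.Hlt (h : Sh p x y L M m gs σ) : fH p (y m) < 1 := by
  have h1 := h.hy.D_pos m ⟨h.m0.le, h.mM⟩
  have h2 := (h.hy.traj.cone m).2
  simp only [fD] at h1
  linarith

theorem Sh.ok_of (h : Sh p x y L M m gs σ) {r : ℝ} (hG : 0 < fG p (x r))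
    (hH : fH p (x r) ≤ fH p (y m)) : Ok p (x r) := by
  refine ⟨h.hx.traj.cone r, ?_, hG⟩
  have h1 := h.Hlt
  have h2 := p.N_pos
  nlinarith

theorem Sh.sheet {p : Prm} {x y : ℝ → Pt} {L M m : ℝ} (hx : BArc p 1 x L)
    (hy : BArc p (-1) y M) (h0 : x 0 = y 0) (hm : m ∈ Ioc 0 M)
    (hmono : StrictMonoOn (fun s => fH p (y s)) (Icc 0 m))
    (hU : ∀ s ∈ Icc 0 m, 0 ≤ fU p (y s)) {gs : ℝ} (gm : gs ≤ m)
    (gV : ∀ s ∈ Icc 0 gs, 0 ≤ fV p (y s))
    (gP : gs < m → 0 < gs ∧ fV p (y gs) = 0 ∧ InPi p (y gs)) :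
    ∃ σ, Sh p x y L M m gs σ := by
  have hok : ∀ s ∈ Icc 0 m, Ok p (y s) := fun s hs => hy.ok s ⟨hs.1, hs.2.trans hm.2⟩
  obtain ⟨σ, h1, h2, h3, h4⟩ := sheet_up (H := fun s => fH p (y s)) (Z := fun s => fZ p (y s))
    (g := fun s => 5 * fT p (y s) + cc p) (H' := fun t => -((y t).W * fU p (y t) / p.mu)) hm.1
    (contH hy.traj).continuousOn
    (fun s hs => (contZ hy.traj (hok s hs)).continuousWithinAt)
    (fun s hs => (((contT hy.traj (hok s hs)).const_mul 5).add_const _).continuousWithinAt)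
    hmono (fun t _ => ydH hy t) (fun t ht => by
      have a1 := yW hy (t := t) ⟨ht.1, ht.2.trans_le hm.2⟩
      have a2 := hU t ⟨ht.1.le, ht.2.le⟩
      have a3 := p.hmu
      have a4 : 0 ≤ -(y t).W * fU p (y t) / p.mu :=
        div_nonneg (mul_nonneg (by linarith) a2) a3.le
      have a5 : -((y t).W * fU p (y t) / p.mu) = -(y t).W * fU p (y t) / p.mu := by ring
      rw [a5]
      exact a4) (fun t ht => by
      have a1 := hok t ⟨ht.1.le, ht.2.le⟩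
      exact (hy.traj.dZ a1.F_pos.ne' a1.G_pos.ne').congr_deriv (by ring))
  exact ⟨σ, hx, hy, h0, hm.1, hm.2, hmono, hU, gm, gV, gP, h1, h2, h3, h4⟩

theorem Sh.s0_pos (h : Sh p x y L M m gs σ) {a : ℝ} (ha : fH p (y 0) < a)
    (ha' : a ≤ fH p (y m)) : 0 < σ a ∧ σ a ≤ m ∧ fH p (y (σ a)) = a := by
  obtain ⟨h1, h2⟩ := h.s2 a ⟨ha.le, ha'⟩
  refine ⟨lt_of_le_of_ne h1.1 fun h3 => ?_, h1.2, h2⟩
  rw [← h3] at h2
  linarith

theorem Sh.start (h : Sh p x y L M m gs σ) :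
    ∃ ε > 0, ε < L ∧ (∀ r ∈ Ioc 0 ε, Good p x y m gs σ r) := by
  obtain ⟨ε, hε, hεL, hεM, h1, h2⟩ := start_dyn h.hx h.hy h.h0
  have hxm : StrictMonoOn (fun t => fH p (x t)) (Icc 0 ε) :=
    xMono h.hx le_rfl hεL.le fun t ht => (h1 t ⟨ht.1.le, ht.2.le⟩).1
  set δ := min ε m with hδ
  have hδ0 : 0 < δ := lt_min hε h.m0
  have hδm : δ ≤ m := min_le_right _ _
  have hH0 : fH p (x 0) = fH p (y 0) := by rw [h.h0]
  have h3 : fH p (x 0) < fH p (y δ) := by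
    rw [hH0]
    exact h.hmono ⟨le_rfl, h.m0.le⟩ ⟨hδ0.le, hδm⟩ hδ0
  have h4 : ∀ᶠ r in 𝓝 (0:ℝ), fH p (x r) < fH p (y δ) :=
    ((contH h.hx.traj).tendsto 0).eventually_lt_const h3
  obtain ⟨ε', hε', hb⟩ := Metric.eventually_nhds_iff.1 h4
  refine ⟨min ε (ε' / 2), lt_min hε (by linarith), (min_le_left _ _).trans_lt hεL, ?_⟩
  intro r hr
  have hrε : r ≤ ε := hr.2.trans (min_le_left _ _)
  have hr' : r < ε' := by
    have := hr.2.trans (min_le_right _ _)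
    linarith
  have h5 : fH p (x r) < fH p (y δ) := by
    apply hb
    rw [Real.dist_eq, sub_zero, abs_of_pos hr.1]
    exact hr'
  have h6 : fH p (y δ) ≤ fH p (y m) := h.hmono.monotoneOn ⟨hδ0.le, hδm⟩ ⟨h.m0.le, le_rfl⟩ hδm
  have h7 : fH p (y 0) < fH p (x r) := by
    rw [← hH0]
    exact hxm ⟨le_rfl, hε.le⟩ ⟨hr.1.le, hrε⟩ hr.1
  obtain ⟨h8, h9, h10⟩ := h.s0_pos h7 (h5.le.trans h6)
  have h11 : σ (fH p (x r)) < δ := by
    by_contra hc
    push Not at hc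
    have := h.hmono.monotoneOn ⟨hδ0.le, hδm⟩ ⟨h8.le, h9⟩ hc
    rw [h10] at this
    linarith
  have h12 := h2 r ⟨hr.1, hrε⟩ (σ (fH p (x r))) ⟨h8, h11.le.trans (min_le_left _ _)⟩ h10.symm
  have h13 := h1 r ⟨hr.1.le, hrε⟩
  exact ⟨h13.1, h13.2, h5.trans_le h6, h12.1, h12.2.2.1, fun _ => h12.2.2.2⟩


/-- facts at a time `t` such that all earlier times are good -/
structure Cl (p : Prm) (x y : ℝ → Pt) (m gs : ℝ) (σ : ℝ → ℝ) (t : ℝ) : Prop where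
  Hl : fH p (y 0) < fH p (x t)
  Hr : fH p (x t) ≤ fH p (y m)
  okx : Ok p (x t)
  Z : fZ p (x t) < fZ p (y (σ (fH p (x t))))
  T : fT p (x t) ≤ fT p (y (σ (fH p (x t))))
  F : fF p (y (σ (fH p (x t)))) ≤ fF p (x t)
  W : σ (fH p (x t)) ≤ gs → (x t).W + (y (σ (fH p (x t)))).W ≤ 0

theorem le_limit {f : ℝ → ℝ} {t : ℝ} (ht : 0 < t) (hf : ContinuousWithinAt f (Iio t) t) {c : ℝ}
    (h : ∀ r ∈ Ioo 0 t, f r ≤ c) : f t ≤ c := by
  have h1 : ∀ᶠ r in 𝓝[<] t, f r ≤ c := by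
    filter_upwards [Ioo_mem_nhdsLT ht] with r hr using h r hr
  exact le_of_tendsto hf h1

theorem ge_limit {f : ℝ → ℝ} {t : ℝ} (ht : 0 < t) (hf : ContinuousWithinAt f (Iio t) t) {c : ℝ}
    (h : ∀ r ∈ Ioo 0 t, c ≤ f r) : c ≤ f t := by
  have h1 : ∀ᶠ r in 𝓝[<] t, c ≤ f r := by
    filter_upwards [Ioo_mem_nhdsLT ht] with r hr using h r hr
  exact ge_of_tendsto hf h1

theorem Sh.G_lower (h : Sh p x y L M m gs σ) {t : ℝ} (ht : t ∈ Ioc 0 L)
    (hg : ∀ r ∈ Ioo 0 t, Good p x y m gs σ r) (hl : ∀ r ∈ Ioo 0 t, fH p (y 0) < fH p (x r)) :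
    0 < fG p (x t) := by
  obtain ⟨C, hC⟩ : ∃ C, ∀ r ∈ Icc 0 t, fF p (x r) ≤ C := by
    obtain ⟨r0, -, hr0⟩ := isCompact_Icc.exists_isMaxOn (nonempty_Icc.2 ht.1.le)
      (contF h.hx.traj).continuousOn (s := Icc 0 t)
    exact ⟨_, hr0⟩
  obtain ⟨B, hB⟩ : ∃ B, ∀ s ∈ Icc 0 m, fT p (y s) ≤ B := by
    have hc : ContinuousOn (fun s => fT p (y s)) (Icc 0 m) := fun s hs =>
      (contT h.hy.traj (h.hy.ok s ⟨hs.1, hs.2.trans h.mM⟩)).continuousWithinAt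
    obtain ⟨r0, -, hr0⟩ := isCompact_Icc.exists_isMaxOn (nonempty_Icc.2 h.m0.le) hc
    exact ⟨_, hr0⟩
  have hN := p.N_pos
  have hnu := p.hnu
  have hP := p.hP
  have hM := p.hM
  have hlow : ∀ r ∈ Ioo 0 t,
      Real.exp ((-(2 * p.N * p.nu * B) - p.P * Real.log C) / p.M) ≤ fG p (x r) := by
    intro r hr
    obtain ⟨-, g2, g3, g4, -, -⟩ := hg r hr
    have hok := h.ok_of g2 g3.le
    have hF := hok.F_pos
    have h1 : fT p (y (σ (fH p (x r)))) ≤ B := hB _ (h.s2 _ ⟨(hl r hr).le, g3.le⟩).1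
    have h2 : fT p (x r) < B := g4.trans_le h1
    have h3 : Real.log (fF p (x r)) ≤ Real.log C := Real.log_le_log hF (hC r ⟨hr.1.le, hr.2.le⟩)
    have h4 : -(p.P * Real.log (fF p (x r)) + p.M * Real.log (fG p (x r)))
        < B * (2 * p.N * p.nu) := by
      have : fT p (x r) = -(p.P * Real.log (fF p (x r)) + p.M * Real.log (fG p (x r)))
        / (2 * p.N * p.nu) := rfl
      rw [this, div_lt_iff₀ (by positivity)] at h2
      exact h2
    rw [← Real.le_log_iff_exp_le g2, div_le_iff₀ hM]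
    have h5 : p.P * Real.log (fF p (x r)) ≤ p.P * Real.log C :=
      mul_le_mul_of_nonneg_left h3 hP.le
    nlinarith
  exact (Real.exp_pos _).trans_le (ge_limit ht.1
    (contG h.hx.traj).continuousAt.continuousWithinAt hlow)

theorem Sh.close (h : Sh p x y L M m gs σ) {t : ℝ} (ht : t ∈ Ioc 0 L)
    (hg : ∀ r ∈ Ioo 0 t, Good p x y m gs σ r) : Cl p x y m gs σ t := by
  have hxm : StrictMonoOn (fun t => fH p (x t)) (Icc 0 t) :=
    xMono h.hx le_rfl ht.2 fun r hr => (hg r hr).1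
  have hH0 : fH p (x 0) = fH p (y 0) := by rw [h.h0]
  have hl : ∀ r ∈ Ioc 0 t, fH p (y 0) < fH p (x r) := by
    intro r hr
    rw [← hH0]
    exact hxm ⟨le_rfl, ht.1.le⟩ ⟨hr.1.le, hr.2⟩ hr.1
  have hHt : fH p (x t) ≤ fH p (y m) :=
    le_limit ht.1 (contH h.hx.traj).continuousAt.continuousWithinAt fun r hr => (hg r hr).2.2.1.le
  have hG := h.G_lower ht hg fun r hr => hl r ⟨hr.1, hr.2.le⟩
  have hokt : Ok p (x t) := h.ok_of hG hHt
  have hok0 : Ok p (x 0) := by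
    rw [h.h0]
    exact h.hy.ok 0 ⟨le_rfl, h.m0.le.trans h.mM⟩
  have hokx : ∀ r ∈ Icc 0 t, Ok p (x r) := by
    intro r hr
    rcases eq_or_lt_of_le hr.1 with h1 | h1
    · rw [← h1]; exact hok0
    · rcases eq_or_lt_of_le hr.2 with h2 | h2
      · rw [h2]; exact hokt
      · obtain ⟨-, g2, g3, -⟩ := hg r ⟨h1, h2⟩
        exact h.ok_of g2 g3.le
  have hmaps : ∀ r ∈ Icc 0 t, fH p (x r) ∈ Icc (fH p (y 0)) (fH p (y m)) := by
    intro r hr
    refine ⟨?_, (hxm.monotoneOn hr ⟨ht.1.le, le_rfl⟩ hr.2).trans hHt⟩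
    rw [← hH0]
    exact hxm.monotoneOn ⟨le_rfl, ht.1.le⟩ hr hr.1
  have hqc : ContinuousOn (fun r => σ (fH p (x r))) (Icc 0 t) :=
    h.s3.comp (contH h.hx.traj).continuousOn hmaps
  have hqm : ∀ r ∈ Icc 0 t, σ (fH p (x r)) ∈ Icc 0 m := fun r hr => (h.s2 _ (hmaps r hr)).1
  have hoky : ∀ s ∈ Icc 0 m, Ok p (y s) := fun s hs => h.hy.ok s ⟨hs.1, hs.2.trans h.mM⟩
  have hTy : ContinuousOn (fun r => fT p (y (σ (fH p (x r))))) (Icc 0 t) := by
    have h1 : ContinuousOn (fun s => fT p (y s)) (Icc 0 m) := fun s hs =>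
      (contT h.hy.traj (hoky s hs)).continuousWithinAt
    exact h1.comp hqc hqm
  have hZy : ContinuousOn (fun r => fZ p (y (σ (fH p (x r))))) (Icc 0 t) := by
    have h1 : ContinuousOn (fun s => fZ p (y s)) (Icc 0 m) := fun s hs =>
      (contZ h.hy.traj (hoky s hs)).continuousWithinAt
    exact h1.comp hqc hqm
  have hFy : ContinuousOn (fun r => fF p (y (σ (fH p (x r))))) (Icc 0 t) :=
    (contF h.hy.traj).comp_continuousOn hqc
  have hWy : ContinuousOn (fun r => (y (σ (fH p (x r)))).W) (Icc 0 t) :=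
    h.hy.traj.contW.comp_continuousOn hqc
  have hTx : ContinuousOn (fun r => fT p (x r)) (Icc 0 t) := fun r hr =>
    (contT h.hx.traj (hokx r hr)).continuousWithinAt
  have hZx : ContinuousOn (fun r => fZ p (x r)) (Icc 0 t) := fun r hr =>
    (contZ h.hx.traj (hokx r hr)).continuousWithinAt
  have hFx : ContinuousOn (fun r => fF p (x r)) (Icc 0 t) := (contF h.hx.traj).continuousOn
  have hlim : ∀ {f : ℝ → ℝ}, ContinuousOn f (Icc 0 t) → ContinuousWithinAt f (Iio t) t := by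
    intro f hf
    have h1 : ContinuousWithinAt f (Icc 0 t) t := hf t ⟨ht.1.le, le_rfl⟩
    have h2 : ContinuousWithinAt f (Ioo 0 t) t := h1.mono Ioo_subset_Icc_self
    exact h2.mono_of_mem_nhdsWithin (Ioo_mem_nhdsLT ht.1)
  have hD : StrictAntiOn (fun r => fZ p (x r) - fZ p (y (σ (fH p (x r))))) (Icc 0 t) := by
    apply strictAntiOn_of_deriv_neg (convex_Icc _ _) (hZx.sub hZy)
    intro r hr
    rw [interior_Icc] at hr
    obtain ⟨g1, g2, g3, g4, -, -⟩ := hg r hr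
    have hok := hokx r ⟨hr.1.le, hr.2.le⟩
    have h1 : HasDerivAt (fun r => fZ p (x r))
        ((5 * fT p (x r) + cc p) * ((x r).W * fU p (x r) / p.mu)) r :=
      (h.hx.traj.dZ hok.F_pos.ne' hok.G_pos.ne').congr_deriv (by ring)
    have h2 := (h.s4 _ ⟨hl r ⟨hr.1, hr.2.le⟩, g3⟩).2
    have h3 : HasDerivAt (fun r => fZ p (y (σ (fH p (x r)))))
        ((5 * fT p (y (σ (fH p (x r)))) + cc p) * ((x r).W * fU p (x r) / p.mu)) r :=
      HasDerivAt.comp (h₂ := fun a => fZ p (y (σ a))) r h2 (xdH h.hx r)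
    rw [(h1.sub h3).deriv]
    have h4 := xW h.hx (t := r) ⟨hr.1, hr.2.trans_le ht.2⟩
    have h5 := p.hmu
    have h6 : 0 < (x r).W * fU p (x r) / p.mu := by positivity
    nlinarith
  have hD0 := hD ⟨le_rfl, ht.1.le⟩ ⟨ht.1.le, le_rfl⟩ ht.1
  simp only at hD0
  have hq0 : σ (fH p (x 0)) = 0 := by
    rw [h.h0]
    exact h.s1 0 ⟨le_rfl, h.m0.le⟩
  rw [hq0, h.h0, sub_self] at hD0
  refine ⟨hl t ⟨ht.1, le_rfl⟩, hHt, hokt, by linarith, ?_, ?_, ?_⟩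
  · have h1 := le_limit ht.1 (hlim (hTx.sub hTy)) (c := 0) fun r hr => by
      have := (hg r hr).2.2.2.1
      simp only [Pi.sub_apply]
      linarith
    simp only [Pi.sub_apply] at h1
    linarith
  · have h1 := le_limit ht.1 (hlim (hFy.sub hFx)) (c := 0) fun r hr => by
      have := (hg r hr).2.2.2.2.1
      simp only [Pi.sub_apply]
      linarith
    simp only [Pi.sub_apply] at h1
    linarith
  · intro hgs
    have h1 := le_limit ht.1 (hlim (h.hx.traj.contW.continuousOn.add hWy)) (c := 0)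
      fun r hr => by
        have h2 : σ (fH p (x r)) ≤ gs := by
          refine le_trans ?_ hgs
          by_contra hc
          push Not at hc
          have h3 := h.hmono (hqm t ⟨ht.1.le, le_rfl⟩) (hqm r ⟨hr.1.le, hr.2.le⟩) hc
          simp only at h3
          rw [(h.s2 _ (hmaps t ⟨ht.1.le, le_rfl⟩)).2,
            (h.s2 _ (hmaps r ⟨hr.1.le, hr.2.le⟩)).2] at h3
          have h4 := hxm ⟨hr.1.le, hr.2.le⟩ ⟨ht.1.le, le_rfl⟩ hr.2
          simp only at h4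
          linarith
        exact ((hg r hr).2.2.2.2.2 h2).le
    exact h1

theorem Sh.lt_L (h : Sh p x y L M m gs σ) {t : ℝ} (ht : t ∈ Ioc 0 L) (c : Cl p x y m gs σ t) :
    t < L := by
  refine lt_of_le_of_ne ht.2 fun htL => ?_
  obtain ⟨s1, s2, s3⟩ := h.s0_pos c.Hl c.Hr
  rw [htL] at c s1 s2 s3
  have hA := h.hx.AL
  have hA0 := (h.hx.traj.cone L).2
  have hW := h.hx.WL
  have hS := h.hx.SL
  have hnu := p.hnu
  have hM := p.hM
  have hGt : 0 < fGt p (x L) := by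
    have h1 : fGt p (x L) = fG p (x L) + 2 * (p.nu * p.M * (x L).A) := by
      simp only [fG, fGt, hW, hS]; ring
    have h2 : 0 < p.nu * p.M * (x L).A := by positivity
    have := c.okx.G_pos
    linarith
  have hH : p.N - 1 < p.N * fH p (x L) := by
    have h1 := fG_mul p (x L) c.okx.cone
    have h2 := mul_pos c.okx.G_pos hGt
    linarith
  have hPx : InPi p (x L) := inPi_of_G c.okx.cone hH c.okx.G_pos
  rcases eq_or_lt_of_le (s2.trans h.mM) with hsM | hsM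
  · have e1 := h.hy.WL
    have e2 := h.hy.SL
    have e3 := h.hy.AL
    have e4 := (h.hy.traj.cone M).2
    rw [hsM] at s3
    have e5 : (x L).A = (y M).A := by
      simp only [fH, hW, e1] at s3
      have : (1 - (y M).A) ^ 2 = (1 - (x L).A) ^ 2 := by linarith
      have h1 : 1 - (y M).A = 1 - (x L).A :=
        (sq_eq_sq₀ (by linarith) (by linarith)).1 this
      linarith
    have e6 : x L = y M := by
      ext
      · exact e5
      · rw [hS, e2, e5]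
      · rw [hW, e1]
    have hZ := c.Z
    rw [hsM, ← e6] at hZ
    exact lt_irrefl _ hZ
  · have hsI : σ (fH p (x L)) ∈ Ioo 0 M := ⟨s1, hsM⟩
    have hPy : InPi p (y (σ (fH p (x L)))) :=
      ⟨h.hy.traj.cone _, by rw [s3]; exact hH, h.hy.D_pos _ ⟨s1.le, hsM.le⟩⟩
    have := lev_T_end hPx hPy s3.symm hW hS (yW h.hy hsI)
    linarith [c.T]

theorem Sh.strict (h : Sh p x y L M m gs σ) {t : ℝ} (ht : t ∈ Ioo 0 L)
    (c : Cl p x y m gs σ t) (hs : σ (fH p (x t)) < M) :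
    fT p (x t) < fT p (y (σ (fH p (x t)))) ∧ fF p (y (σ (fH p (x t)))) < fF p (x t) := by
  obtain ⟨s1, s2, s3⟩ := h.s0_pos c.Hl c.Hr
  have hoky := h.hy.ok _ ⟨s1.le, hs.le⟩
  have hWx := xW h.hx ht
  have hWy := yW h.hy ⟨s1, hs⟩
  have hW : (y (σ (fH p (x t)))).W < (x t).W := hWy.trans hWx
  have h1 := pair_F_ne c.okx hoky s3.symm c.T hW
  have h2 : fF p (y (σ (fH p (x t)))) < fF p (x t) := lt_of_le_of_ne c.F (Ne.symm h1)
  refine ⟨lt_of_le_of_ne c.T fun hT => ?_, h2⟩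
  have := pair_K c.okx hoky s3.symm hT hW h2
  linarith [c.Z]

theorem Sh.lt_M (h : Sh p x y L M m gs σ) {s : ℝ} (h0 : 0 ≤ s) (hs : s ≤ gs) : s < M := by
  refine lt_of_le_of_ne (hs.trans (h.gm.trans h.mM)) fun h1 => ?_
  have h2 := h.gV s ⟨h0, hs⟩
  rw [h1] at h2
  linarith [h.hy.V_L]

theorem Sh.Wneg (h : Sh p x y L M m gs σ) {t : ℝ} (ht : t ∈ Ioo 0 L)
    (c : Cl p x y m gs σ t) (hs : σ (fH p (x t)) ≤ gs) :
    (x t).W + (y (σ (fH p (x t)))).W < 0 := by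
  obtain ⟨s1, s2, s3⟩ := h.s0_pos c.Hl c.Hr
  have hsM := h.lt_M s1.le hs
  have hoky := h.hy.ok _ ⟨s1.le, hsM.le⟩
  obtain ⟨-, h2⟩ := h.strict ht c hsM
  exact lt_of_le_of_ne (c.W hs) (pair_W_ne c.okx hoky s3.symm c.T (xW h.hx ht)
    (yW h.hy ⟨s1, hsM⟩) h2 (h.gV _ ⟨s1.le, hs⟩))

theorem Sh.U_pos (h : Sh p x y L M m gs σ) {t : ℝ} (ht : t ∈ Ioo 0 L)
    (c : Cl p x y m gs σ t) : 0 < fU p (x t) := by
  obtain ⟨s1, s2, s3⟩ := h.s0_pos c.Hl c.Hr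
  rcases le_or_gt (σ (fH p (x t))) gs with hs | hs
  · have h1 := h.Wneg ht c hs
    have h2 := xW h.hx ht
    have h3 := h.hU _ ⟨s1.le, s2⟩
    have h4 : fU p (x t) = fU p (y (σ (fH p (x t))))
        + p.N ^ 2 * ((y (σ (fH p (x t)))).W ^ 2 - (x t).W ^ 2) := by
      simp only [fU, s3]; ring
    have h5 : 0 < (y (σ (fH p (x t)))).W ^ 2 - (x t).W ^ 2 := by nlinarith
    have h6 : 0 < p.N ^ 2 := by have := p.N_pos; positivity
    have h7 := mul_pos h6 h5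
    linarith
  · obtain ⟨g1, g2, g3⟩ := h.gP (hs.trans_le s2)
    have h1 : fH p (y gs) < fH p (x t) := by
      rw [← s3]
      exact h.hmono ⟨g1.le, h.gm⟩ ⟨s1.le, s2⟩ hs
    have h2 : p.N - 1 < p.N * fH p (x t) := by
      have := g3.H_gt
      have h3 := mul_lt_mul_of_pos_left h1 p.N_pos
      linarith
    have h3 : InPi p (x t) := inPi_of_G c.okx.cone h2 c.okx.G_pos
    by_contra hc
    push Not at hc
    have hgM : gs < M := (hs.trans_le s2).trans_le h.mM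
    have h4 : Gate p (y gs) := ⟨g3, g2, (yW h.hy ⟨g1, hgM⟩).ne⟩
    rcases Q1 h4 (h.hU gs ⟨g1.le, h.gm⟩) h3 hc with h5 | h5
    · linarith
    · linarith [h5.1]

theorem Sh.closeGood (h : Sh p x y L M m gs σ) {t : ℝ} (ht : t ∈ Ioo 0 L)
    (c : Cl p x y m gs σ t) (hH : fH p (x t) < fH p (y m)) : Good p x y m gs σ t := by
  obtain ⟨s1, s2, s3⟩ := h.s0_pos c.Hl c.Hr
  have hs : σ (fH p (x t)) < M := (h.s4 _ ⟨c.Hl, hH⟩).1.2.trans_le h.mM
  obtain ⟨h1, h2⟩ := h.strict ht c hs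
  exact ⟨h.U_pos ht c, c.okx.G_pos, hH, h1, h2, fun h3 => h.Wneg ht c h3⟩

theorem Sh.openGood (h : Sh p x y L M m gs σ) {t : ℝ} (ht : t ∈ Ioo 0 L)
    (hg : ∀ r ∈ Ioc 0 t, Good p x y m gs σ r) : ∀ᶠ r in 𝓝 t, Good p x y m gs σ r := by
  have c := h.close ⟨ht.1, ht.2.le⟩ fun r hr => hg r ⟨hr.1, hr.2.le⟩
  obtain ⟨g1, g2, g3, g4, g5, g6⟩ := hg t ⟨ht.1, le_rfl⟩
  obtain ⟨s1, s2⟩ := h.s4 _ ⟨c.Hl, g3⟩
  have hoky := h.hy.ok _ ⟨s1.1.le, s1.2.le.trans h.mM⟩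
  have cH := (contH h.hx.traj).continuousAt (x := t)
  have cσ : ContinuousAt σ (fH p (x t)) := h.s3.continuousAt (Icc_mem_nhds c.Hl g3)
  have cq : ContinuousAt (fun r => σ (fH p (x r))) t := ContinuousAt.comp (f := fun r => fH p (x r)) cσ cH
  have cT : ContinuousAt (fun r => fT p (y (σ (fH p (x r))))) t :=
    ContinuousAt.comp (f := fun r => σ (fH p (x r))) (g := fun s => fT p (y s))
      (contT h.hy.traj hoky) cq
  have cF : ContinuousAt (fun r => fF p (y (σ (fH p (x r))))) t :=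
    ContinuousAt.comp (f := fun r => σ (fH p (x r))) (g := fun s => fF p (y s))
      (contF h.hy.traj).continuousAt cq
  have cW : ContinuousAt (fun r => (y (σ (fH p (x r)))).W) t :=
    ContinuousAt.comp (f := fun r => σ (fH p (x r))) (g := fun s => (y s).W)
      h.hy.traj.contW.continuousAt cq
  have e1 : ∀ᶠ r in 𝓝 t, 0 < fU p (x r) := (contU h.hx.traj).continuousAt.eventually (lt_mem_nhds g1)
  have e2 : ∀ᶠ r in 𝓝 t, 0 < fG p (x r) := (contG h.hx.traj).continuousAt.eventually (lt_mem_nhds g2)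
  have e3 : ∀ᶠ r in 𝓝 t, fH p (x r) < fH p (y m) := cH.eventually (gt_mem_nhds g3)
  have e4 : ∀ᶠ r in 𝓝 t, fT p (x r) < fT p (y (σ (fH p (x r)))) :=
    (contT h.hx.traj c.okx).eventually_lt cT g4
  have e5 : ∀ᶠ r in 𝓝 t, fF p (y (σ (fH p (x r)))) < fF p (x r) :=
    cF.eventually_lt (contF h.hx.traj).continuousAt g5
  have e6 : ∀ᶠ r in 𝓝 t, σ (fH p (x r)) ≤ gs → (x r).W + (y (σ (fH p (x r)))).W < 0 := by
    rcases le_or_gt (σ (fH p (x t))) gs with hs | hs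
    · have h1 : ContinuousAt (fun r => (x r).W + (y (σ (fH p (x r)))).W) t :=
        h.hx.traj.contW.continuousAt.add cW
      filter_upwards [h1.eventually (gt_mem_nhds (g6 hs))] with r hr using fun _ => hr
    · filter_upwards [cq.eventually (lt_mem_nhds hs)] with r hr hr2
      exact absurd hr2 (not_le.2 hr)
  filter_upwards [e1, e2, e3, e4, e5, e6] with r r1 r2 r3 r4 r5 r6
  exact ⟨r1, r2, r3, r4, r5, r6⟩

theorem Sh.main (h : Sh p x y L M m gs σ) :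
    ∃ t ∈ Ioo 0 L, fH p (x t) = fH p (y m) ∧ (∀ r ∈ Icc 0 t, 0 < fU p (x r)) ∧
      0 < fG p (x t) ∧ fZ p (x t) < fZ p (y m) := by
  obtain ⟨ε, hε, hεL, h1⟩ := h.start
  obtain ⟨t, ht, hP, hQ⟩ := cont_ind (P := Good p x y m gs σ)
    (Q := fun t => t < L ∧ fH p (x t) = fH p (y m) ∧ 0 < fU p (x t) ∧ 0 < fG p (x t) ∧
      fZ p (x t) < fZ p (y m)) hε hεL h1 (fun t ht hg => h.openGood ht hg) (fun t ht hg => by
      have c := h.close ht hg
      have hL := h.lt_L ht c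
      have hI : t ∈ Ioo 0 L := ⟨ht.1, hL⟩
      rcases eq_or_lt_of_le c.Hr with h2 | h2
      · left
        refine ⟨hL, h2, h.U_pos hI c, c.okx.G_pos, ?_⟩
        have h3 := c.Z
        rw [h2, h.s1 m ⟨h.m0.le, le_rfl⟩] at h3
        exact h3
      · exact Or.inr ⟨hL, h.closeGood hI c h2⟩)
  obtain ⟨q1, q2, q3, q4, q5⟩ := hQ
  refine ⟨t, ⟨ht.1, q1⟩, q2, fun r hr => ?_, q4, q5⟩
  rcases eq_or_lt_of_le hr.1 with h2 | h2
  · rw [← h2]
    have h3 := h.hx.Hpos 0 ⟨le_rfl, h.hx.pos.le⟩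
    simp only [fU, h.hx.W0]
    linarith
  · rcases eq_or_lt_of_le hr.2 with h3 | h3
    · rw [h3]; exact q3
    · exact (hP r ⟨h2, h3⟩).1

end

end S1Aux

open S1Aux

theorem s1 {p : Prm} {x y : ℝ → Pt} {L M : ℝ} (hx : BArc p 1 x L)
    (hy : BArc p (-1) y M) (h0 : x 0 = y 0) {m : ℝ} (hm : m ∈ Ioc 0 M)
    (hmono : StrictMonoOn (fun s => fH p (y s)) (Icc 0 m))
    (hU : ∀ s ∈ Icc 0 m, 0 ≤ fU p (y s))
    (hV : (∀ s ∈ Icc 0 m, 0 ≤ fV p (y s)) ∨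
      ∃ g ∈ Ioo 0 m, fV p (y g) = 0 ∧ InPi p (y g) ∧ ∀ s ∈ Icc 0 g, 0 ≤ fV p (y s)) :
    ∃ t ∈ Ioo 0 L, fH p (x t) = fH p (y m) ∧ (∀ r ∈ Icc 0 t, 0 < fU p (x r)) ∧
      0 < fG p (x t) ∧ fZ p (x t) < fZ p (y m) := by
  rcases hV with hV | ⟨g, hg, hg1, hg2, hg3⟩
  · obtain ⟨σ, h⟩ := Sh.sheet hx hy h0 hm hmono hU le_rfl hV
      (fun h => absurd h (lt_irrefl _))
    exact h.main
  · obtain ⟨σ, h⟩ := Sh.sheet hx hy h0 hm hmono hU hg.2.le hg3 (fun _ => ⟨hg.1, hg1, hg2⟩)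
    exact h.main

/-- The comparison for type 0. -/
theorem cmp0 {p : Prm} {x y : ℝ → Pt} {L M : ℝ} (hx : BArc p 1 x L)
    (hy : BArc p (-1) y M) (h0 : x 0 = y 0) {g : ℝ} (hg : Type0 p y M g) :
    fH p (y M) < fH p (x L) := by
  obtain ⟨g1, g2, g3, g4, g5, g6⟩ := hg
  have m1 : StrictMonoOn (fun s => fH p (y s)) (Icc 0 g) :=
    yMono hy le_rfl g1.2.le fun t ht => (g2 t ⟨ht.1.le, ht.2⟩).1
  have m2 : StrictMonoOn (fun s => fH p (y s)) (Icc g M) :=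
    yMono hy g1.1.le le_rfl fun t ht => (g6 t ⟨ht.1, ht.2.le⟩).1
  have hmono : StrictMonoOn (fun s => fH p (y s)) (Icc 0 M) := by
    intro a ha b hb hab
    rcases le_or_gt b g with h1 | h1
    · exact m1 ⟨ha.1, hab.le.trans h1⟩ ⟨hb.1, h1⟩ hab
    · rcases le_or_gt g a with h2 | h2
      · exact m2 ⟨h2, ha.2⟩ ⟨h1.le, hb.2⟩ hab
      · exact (m1 ⟨ha.1, h2.le⟩ ⟨g1.1.le, le_rfl⟩ h2).trans
          (m2 ⟨le_rfl, g1.2.le⟩ ⟨h1.le, hb.2⟩ h1)
  have hU : ∀ s ∈ Icc 0 M, 0 ≤ fU p (y s) := by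
    intro s hs
    rcases lt_trichotomy s g with h1 | h1 | h1
    · exact (g2 s ⟨hs.1, h1⟩).1.le
    · rw [h1]; exact g4
    · exact (g6 s ⟨h1, hs.2⟩).1.le
  have hgV : ∀ s ∈ Icc 0 g, 0 ≤ fV p (y s) := by
    intro s hs
    rcases eq_or_lt_of_le hs.2 with h1 | h1
    · rw [h1, g3]
    · exact (g2 s ⟨hs.1, h1⟩).2.le
  obtain ⟨t, ht, e1, e2, e3, e4⟩ := s1 hx hy h0 ⟨hy.pos, le_rfl⟩ hmono hU
    (Or.inr ⟨g, g1, g3, g5, hgV⟩)
  have hgate : Gate p (y g) := ⟨g5, g3, (yW hy g1).ne⟩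
  have hHg : fH p (y g) < fH p (x t) := by
    rw [e1]; exact (g6 M ⟨g1.2, le_rfl⟩).2.2
  have hHt : p.N - 1 < p.N * fH p (x t) := by
    have h1 := g5.H_gt
    have h2 := mul_lt_mul_of_pos_left hHg p.N_pos
    linarith
  have hPt : InPi p (x t) := inPi_of_G (hx.traj.cone t) hHt e3
  have hUall : ∀ r ∈ Icc t L, 0 < fU p (x r) := by
    by_contra hcon
    push Not at hcon
    obtain ⟨r, hr, hUr⟩ := hcon
    set Z : Set ℝ := {s | s ∈ Icc t L ∧ fU p (x s) ≤ 0} with hZ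
    have hZcl : IsClosed Z := isClosed_Icc.inter (isClosed_le (contU hx.traj) continuous_const)
    have hZne : Z.Nonempty := ⟨r, hr, hUr⟩
    have hZbd : BddBelow Z := ⟨t, fun s hs => hs.1.1⟩
    have hmem : sInf Z ∈ Z := hZcl.csInf_mem hZne hZbd
    have hbef : ∀ s, t ≤ s → s < sInf Z → 0 < fU p (x s) := by
      intro s hs1 hs2
      by_contra hc
      push Not at hc
      have : s ∈ Z := ⟨⟨hs1, hs2.le.trans hmem.1.2⟩, hc⟩
      exact absurd (csInf_le hZbd this) (not_le.2 hs2)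
    have hm2 : StrictMonoOn (fun s => fH p (x s)) (Icc t (sInf Z)) :=
      xMono hx ht.1.le hmem.1.2 fun s hs => hbef s hs.1.le hs.2
    have hHge : ∀ s ∈ Icc t (sInf Z), p.N - 1 < p.N * fH p (x s) := by
      intro s hs
      have h1 := hm2.monotoneOn ⟨le_rfl, hmem.1.1⟩ hs hs.1
      have h2 := mul_le_mul_of_nonneg_left h1 p.N_pos.le
      linarith
    have hP := pi_persist hx.traj hmem.1.1 hHge hPt (sInf Z) ⟨hmem.1.1, le_rfl⟩
    have h3 : fH p (x t) ≤ fH p (x (sInf Z)) :=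
      hm2.monotoneOn ⟨le_rfl, hmem.1.1⟩ ⟨hmem.1.1, le_rfl⟩ hmem.1.1
    rcases Q1 hgate g4 hP hmem.2 with h4 | h4
    · linarith
    · linarith [h4.1]
  have hfin := xMono hx ht.1.le le_rfl (fun s hs => hUall s ⟨hs.1.le, hs.2.le⟩)
    ⟨le_rfl, ht.2.le⟩ ⟨ht.2.le, le_rfl⟩ ht.2
  rw [← e1]
  exact hfin

end B92K
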