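import Mathlib
import Pool.Agent.Lib.B92K.PhA

/-!
# MP_b92fc8_an, `kappa > 1`, module PhP : structure of a `+` arc after a point of `Pi`

`x` a BArc of sector `+` on `[0,L]`, `x t1 ∈ Pi`, `U(t1) > 0`, `ha < H(x t1)`, `1 - 1/N < ha`.
PROOF. If `U > 0` on `[t1,L]`: `H` increases, Pi persists (pi_persist): NO FOLD. Otherwise let `c` = first zero of `U` in
`(t1,L]`, `c < L` (`U(L) > 0`), `U > 0` on `[t1,c)`, `H` increases on `[t1,c]`, Pi persists. `U'(c) ≤ 0` so `V(c) ≥ 0` (rule of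
PhA: if `V(c) < 0` then `U'(c) > 0`).
 * `V(c) = 0`: `x c` is a gate with `U = 0`: after_gate: `U > 0` and Pi on `(c,L]`: NO FOLD (`U ≥ 0` on `[t1,L]`).
 * `V(c) > 0`: FOLD. `H(x c) > ha`. `U < 0` just after `c`. Let `t2` = the first time in `(c,L]` with `H(x t) = ha` if there is one,
   otherwise `t2 = L`. On `[c,t2]`: `H ≥ ha > 1-1/N`, so `x t ∈ Pi` (pi_persist), `D > 0`, `A < 1` (InPi.A_lt). BArc.fold:
   - `U < 0` on `(c,t2]`: then `t2 < L` (`U(L) > 0`), so `H(x t2) = ha`: DOWN with `d = t2`.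
   - there is `a ∈ (c,t2]`, `a < L`, `U < 0` on `(c,a)`, `U(a) = 0`, `V(a) < 0`: if `H(x a) = ha`: DOWN with `d = a`; otherwise
     `H(x a) > ha`, after_rise: `U > 0`, Pi on `(a,L]`: TURN with `d = a`.
-/

set_option autoImplicit false

open Set Filter Topology

noncomputable section

namespace B92K

/-- `H` is strictly increasing along a `+` arc where `U > 0`. -/
theorem PhP_mono {p : Prm} {x : ℝ → Pt} {L : ℝ} (h : BArc p 1 x L) {a b : ℝ} (ha : 0 ≤ a)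
    (hb : b ≤ L) (hU : ∀ t ∈ Ioo a b, 0 < fU p (x t)) :
    StrictMonoOn (fun r => fH p (x r)) (Icc a b) := by
  apply strictMonoOn_of_deriv_pos (convex_Icc _ _) (Reg_contH h.traj).continuousOn
  intro t ht
  rw [interior_Icc] at ht
  rw [(h.traj.dH t).deriv]
  have h1 := hU t ht
  have h2 := h.Wpos t ⟨ha.trans_lt ht.1, ht.2.trans_le hb⟩
  have h3 : 0 < (x t).W := by linarith
  have h4 : -(-1 * (x t).W * fU p (x t) / p.mu) = (x t).W * fU p (x t) / p.mu := by ring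
  rw [h4]
  have := p.hmu
  positivity

/-- The first time where a continuous function that is positive at `a` is `≤ 0`. -/
theorem PhP_first {f : ℝ → ℝ} (hf : Continuous f) {a b : ℝ} (ha : 0 < f a)
    (hex : ∃ t ∈ Icc a b, f t ≤ 0) :
    ∃ c ∈ Ioc a b, f c = 0 ∧ ∀ t ∈ Ico a c, 0 < f t := by
  obtain ⟨t0, ht0, hft0⟩ := hex
  set Z : Set ℝ := {t | t ∈ Icc a b ∧ f t ≤ 0} with hZ
  have hZcl : IsClosed Z := isClosed_Icc.inter (isClosed_le hf continuous_const)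
  have hZne : Z.Nonempty := ⟨t0, ht0, hft0⟩
  have hZbd : BddBelow Z := ⟨a, fun t ht => ht.1.1⟩
  have hmem : sInf Z ∈ Z := hZcl.csInf_mem hZne hZbd
  set c := sInf Z with hc
  have hbefore : ∀ t ∈ Ico a c, 0 < f t := by
    intro t ht
    by_contra hcon
    push Not at hcon
    have : t ∈ Z := ⟨⟨ht.1, ht.2.le.trans hmem.1.2⟩, hcon⟩
    exact absurd (csInf_le hZbd this) (not_le.2 ht.2)
  have hac : a < c := by
    rcases eq_or_lt_of_le hmem.1.1 with e | h1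
    · have h2 := hmem.2
      rw [← e] at h2
      linarith
    · exact h1
  refine ⟨c, ⟨hac, hmem.1.2⟩, le_antisymm hmem.2 ?_, hbefore⟩
  by_contra hcon
  push Not at hcon
  have h0 : (0 : ℝ) ∈ Icc (f c) (f a) := ⟨hcon.le, ha.le⟩
  obtain ⟨s, hs, hs0⟩ := intermediate_value_Icc' hac.le hf.continuousOn h0
  rcases eq_or_lt_of_le hs.2 with e | h1
  · rw [e] at hs0
    linarith
  · have := hbefore s ⟨hs.1, h1⟩
    linarith

theorem phase_plus {p : Prm} {x : ℝ → Pt} {L : ℝ} (h : BArc p 1 x L) {t1 ha : ℝ}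
    (ht1 : t1 ∈ Ioo 0 L) (hPi : InPi p (x t1)) (hU : 0 < fU p (x t1))
    (hha : p.N - 1 < p.N * ha) (hlow : ha < fH p (x t1)) :
    (∀ t ∈ Icc t1 L, InPi p (x t) ∧ 0 ≤ fU p (x t)) ∨
    ∃ c ∈ Ioo t1 L, (∀ t ∈ Ico t1 c, 0 < fU p (x t)) ∧ fU p (x c) = 0 ∧
      (∀ t ∈ Icc t1 c, InPi p (x t)) ∧
      ((∃ d ∈ Ioo c L, (∀ t ∈ Ioo c d, fU p (x t) < 0) ∧ fU p (x d) = 0 ∧
          (∀ t ∈ Icc c L, InPi p (x t)) ∧ (∀ t ∈ Ioc d L, 0 < fU p (x t)) ∧
          ha < fH p (x d)) ∨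
        ∃ d ∈ Ioo c L, (∀ t ∈ Ioo c d, fU p (x t) < 0) ∧ fU p (x d) ≤ 0 ∧
          fH p (x d) = ha ∧ ∀ t ∈ Icc c d, InPi p (x t)) := by
  have hUc := Reg_contU h.traj
  have hHc := Reg_contH h.traj
  have hN := p.N_pos
  have h0t1 : 0 ≤ t1 := ht1.1.le
  by_cases hall : ∀ t ∈ Icc t1 L, 0 < fU p (x t)
  · left
    have hm := PhP_mono h h0t1 le_rfl (fun t ht => hall t ⟨ht.1.le, ht.2.le⟩)
    have hpi := pi_persist h.traj ht1.2.le (fun t ht => by
      have h1 : fH p (x t1) ≤ fH p (x t) := hm.monotoneOn ⟨le_rfl, ht1.2.le⟩ ht ht.1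
      have h2 := hPi.H_gt
      have h3 := mul_le_mul_of_nonneg_left h1 hN.le
      linarith) hPi
    exact fun t ht => ⟨hpi t ht, (hall t ht).le⟩
  push Not at hall
  obtain ⟨c, hc, hUc0, hUbef⟩ := PhP_first hUc hU hall
  have hcL : c < L := by
    rcases eq_or_lt_of_le hc.2 with e | h1
    · have := h.U_L
      rw [← e] at this
      linarith
    · exact h1
  have h0c : c ∈ Ioo 0 L := ⟨ht1.1.trans hc.1, hcL⟩
  have hm := PhP_mono h h0t1 hcL.le (fun t ht => hUbef t ⟨ht.1.le, ht.2⟩)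
  have hpic : ∀ t ∈ Icc t1 c, InPi p (x t) := pi_persist h.traj hc.1.le (fun t ht => by
    have h1 : fH p (x t1) ≤ fH p (x t) := hm.monotoneOn ⟨le_rfl, hc.1.le⟩ ht ht.1
    have h2 := hPi.H_gt
    have h3 := mul_le_mul_of_nonneg_left h1 hN.le
    linarith) hPi
  have hHc1 : ha < fH p (x c) := by
    have h1 : fH p (x t1) < fH p (x c) := hm ⟨le_rfl, hc.1.le⟩ ⟨hc.1.le, le_rfl⟩ hc.1
    linarith
  have hPc : InPi p (x c) := hpic c ⟨hc.1.le, le_rfl⟩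
  -- no fold
  have hnofold : (∀ t ∈ Ioc c L, 0 < fU p (x t) ∧ InPi p (x t)) →
      ∀ t ∈ Icc t1 L, InPi p (x t) ∧ 0 ≤ fU p (x t) := by
    intro hh t ht
    rcases lt_trichotomy t c with h1 | h1 | h1
    · exact ⟨hpic t ⟨ht.1, h1.le⟩, (hUbef t ⟨ht.1, h1⟩).le⟩
    · rw [h1]
      exact ⟨hPc, hUc0.ge⟩
    · exact ⟨(hh t ⟨h1, ht.2⟩).2, (hh t ⟨h1, ht.2⟩).1.le⟩
  rcases lt_trichotomy (fV p (x c)) 0 with hV | hV | hV
  · left
    have h1 := (h.after_rise (Or.inl rfl) h0c hPc hUc0 hV).1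
    exact hnofold (fun t ht => ⟨(h1 t ht).1, (h1 t ht).2.1⟩)
  · left
    have h1 := h.after_gate (Or.inl rfl) h0c hPc hV hUc0.ge
    exact hnofold (fun t ht => ⟨(h1 t ht).1, (h1 t ht).2.1⟩)
  right
  refine ⟨c, ⟨hc.1, hcL⟩, hUbef, hUc0, hpic, ?_⟩
  -- the end of the descent
  obtain ⟨t2, ht2, hge, hend⟩ : ∃ t2 ∈ Ioc c L, (∀ t ∈ Icc c t2, ha ≤ fH p (x t)) ∧
      (t2 = L ∨ fH p (x t2) = ha) := by
    by_cases hex : ∃ t ∈ Icc c L, fH p (x t) - ha ≤ 0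
    · have hf : Continuous fun t => fH p (x t) - ha := hHc.sub continuous_const
      obtain ⟨t2, ht2, h1, h2⟩ := PhP_first hf (by linarith) hex
      refine ⟨t2, ht2, fun t ht => ?_, Or.inr (by linarith)⟩
      rcases eq_or_lt_of_le ht.2 with e | h3
      · rw [e]
        linarith
      · have := h2 t ⟨ht.1, h3⟩
        linarith
    · push Not at hex
      exact ⟨L, ⟨hcL, le_rfl⟩, fun t ht => by linarith [hex t ht], Or.inl rfl⟩
  have hpi2 : ∀ t ∈ Icc c t2, InPi p (x t) := pi_persist h.traj ht2.1.le (fun t ht => by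
    have h3 := mul_le_mul_of_nonneg_left (hge t ht) hN.le
    linarith) hPc
  rcases h.fold (Or.inl rfl) h0c ht2 (fun t ht => (hpi2 t ht).D_pos)
    (fun t ht => (hpi2 t ht).A_lt) hUc0 hV with hA | ⟨a, ha1, haL, haU, haU0, haV⟩
  · right
    have h1 := hA t2 ⟨ht2.1, le_rfl⟩
    have h2 : t2 ≠ L := by
      intro e
      have := h.U_L
      rw [← e] at this
      linarith
    refine ⟨t2, ⟨ht2.1, lt_of_le_of_ne ht2.2 h2⟩, fun t ht => hA t ⟨ht.1, ht.2.le⟩, h1.le, ?_,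
      hpi2⟩
    rcases hend with e | e
    · exact absurd e h2
    · exact e
  · have h0a : a ∈ Ioo 0 L := ⟨h0c.1.trans ha1.1, haL⟩
    have hPa : InPi p (x a) := hpi2 a ⟨ha1.1.le, ha1.2⟩
    rcases eq_or_lt_of_le (hge a ⟨ha1.1.le, ha1.2⟩) with e | h1
    · right
      exact ⟨a, ⟨ha1.1, haL⟩, haU, haU0.le, e.symm, fun t ht => hpi2 t ⟨ht.1, ht.2.trans ha1.2⟩⟩
    · left
      have h2 := (h.after_rise (Or.inl rfl) h0a hPa haU0 haV).1
      refine ⟨a, ⟨ha1.1, haL⟩, haU, haU0, fun t ht => ?_, fun t ht => (h2 t ht).1, h1⟩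
      rcases le_or_gt t a with h3 | h3
      · exact hpi2 t ⟨ht.1, h3.trans ha1.2⟩
      · exact (h2 t ⟨h3, ht.2⟩).2.1

end B92K
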