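import Mathlib
import Pool.Agent.Lib.B92K.Gen
import Pool.Agent.Lib.B92.Cmp

/-!
# MP_b92fc8_an, case `kappa > 1`: comparison of fronts (abstract part)

A front is a curve `t ↦ (H t, T t, Z t)` with `Z' = (5 T + c) H'`.  `Piece` : a part on which `H`
increases strictly.  `front_start` is (S1), `front_type1` is (S2) of the text.
-/

set_option autoImplicit false

open Set Filter Topology

noncomputable section

namespace B92K

/-- A piece of a front on which `H` is strictly increasing. -/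
structure Piece (c : ℝ) (H T Z : ℝ → ℝ) (a b : ℝ) : Prop where
  ab : a < b
  cH : ContinuousOn H (Icc a b)
  cT : ContinuousOn T (Icc a b)
  cZ : ContinuousOn Z (Icc a b)
  d : ∃ H' : ℝ → ℝ, (∀ t ∈ Ioo a b, HasDerivAt H (H' t) t) ∧
    (∀ t ∈ Ioo a b, HasDerivAt Z ((5 * T t + c) * H' t) t) ∧ ∀ t ∈ Ioo a b, 0 ≤ H' t
  mono : StrictMonoOn H (Icc a b)

/-- A graph: `Z' = 5 T + c` on `(h1, h2)`. -/
structure Gr (c : ℝ) (Z T : ℝ → ℝ) (h1 h2 : ℝ) : Prop where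
  cZ : ContinuousOn Z (Icc h1 h2)
  cT : ContinuousOn T (Icc h1 h2)
  d : ∀ h ∈ Ioo h1 h2, HasDerivAt Z (5 * T h + c) h

theorem Gr.mono {c : ℝ} {Z T : ℝ → ℝ} {h1 h2 h3 h4 : ℝ} (G : Gr c Z T h1 h2) (h13 : h1 ≤ h3)
    (h42 : h4 ≤ h2) : Gr c Z T h3 h4 :=
  ⟨G.cZ.mono (Icc_subset_Icc h13 h42), G.cT.mono (Icc_subset_Icc h13 h42),
    fun h hh => G.d h ⟨h13.trans_lt hh.1, hh.2.trans_le h42⟩⟩

/-- The graph of a piece. -/
theorem Piece.graph {c : ℝ} {H T Z : ℝ → ℝ} {a b : ℝ} (P : Piece c H T Z a b) :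
    ∃ g : ℝ → ℝ, ContinuousOn g (Icc (H a) (H b)) ∧ (∀ x ∈ Icc a b, g (H x) = x) ∧
      (∀ y ∈ Icc (H a) (H b), g y ∈ Icc a b ∧ H (g y) = y) ∧
      Gr c (fun y => Z (g y)) (fun y => T (g y)) (H a) (H b) := by
  obtain ⟨g, h1, -, h3, h4⟩ := exists_inv P.ab.le P.cH P.mono
  obtain ⟨H', d1, d2, d3⟩ := P.d
  refine ⟨g, h1, h3, h4, P.cZ.comp h1 fun y hy => (h4 y hy).1,
    P.cT.comp h1 fun y hy => (h4 y hy).1, fun h hh => ?_⟩
  exact hasDerivAt_reparam (p := fun t => 5 * T t + c) P.cH P.cZ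
    ((P.cT.const_smul (5 : ℝ)).add continuousOn_const) d1 d2 d3 h4 h1 hh

/-- Comparison of graphs upwards. -/
theorem Gr.lt_up {c : ℝ} {Z1 T1 Z2 T2 : ℝ → ℝ} {h1 h2 : ℝ} (G1 : Gr c Z1 T1 h1 h2)
    (G2 : Gr c Z2 T2 h1 h2) (h0 : Z1 h1 < Z2 h1)
    (hT : ∀ h ∈ Ioo h1 h2, Z1 h < Z2 h → T1 h ≤ T2 h) : ∀ h ∈ Icc h1 h2, Z1 h < Z2 h := by
  intro h hh
  have := neg_persist (D := fun h => Z1 h - Z2 h) (D' := fun h => 5 * T1 h + c - (5 * T2 h + c))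
    (G1.cZ.sub G2.cZ) (fun t ht => (G1.d t ht).sub (G2.d t ht)) (by linarith)
    (fun t ht hD => by have := hT t ht (by linarith); linarith) h hh
  linarith

/-- Comparison of graphs downwards. -/
theorem Gr.lt_down {c : ℝ} {Z1 T1 Z2 T2 : ℝ → ℝ} {h1 h2 : ℝ} (G1 : Gr c Z1 T1 h1 h2)
    (G2 : Gr c Z2 T2 h1 h2) (h0 : Z1 h2 < Z2 h2)
    (hT : ∀ h ∈ Ioo h1 h2, Z1 h < Z2 h → T2 h ≤ T1 h) : ∀ h ∈ Icc h1 h2, Z1 h < Z2 h := by
  intro h hh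
  have hcont : ContinuousOn (fun s => Z1 (-s) - Z2 (-s)) (Icc (-h2) (-h1)) := by
    have h3 : MapsTo (fun s : ℝ => -s) (Icc (-h2) (-h1)) (Icc h1 h2) := fun s hs =>
      ⟨by linarith [hs.2], by linarith [hs.1]⟩
    exact (G1.cZ.comp continuous_neg.continuousOn h3).sub
      (G2.cZ.comp continuous_neg.continuousOn h3)
  have := neg_persist (D := fun s => Z1 (-s) - Z2 (-s))
    (D' := fun s => -(5 * T1 (-s) + c) - -(5 * T2 (-s) + c)) (a := -h2) (b := -h1) hcont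
    (fun t ht => by
      have hm : -t ∈ Ioo h1 h2 := ⟨by linarith [ht.2], by linarith [ht.1]⟩
      have e1 := HasDerivAt.comp t (G1.d (-t) hm) (hasDerivAt_neg t)
      have e2 := HasDerivAt.comp t (G2.d (-t) hm) (hasDerivAt_neg t)
      refine (e1.sub e2).congr_deriv ?_
      ring)
    (by simp only [neg_neg]; linarith)
    (fun t ht hD => by
      have hm : -t ∈ Ioo h1 h2 := ⟨by linarith [ht.2], by linarith [ht.1]⟩
      have := hT (-t) hm (by linarith)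
      linarith) (-h) ⟨by linarith [hh.2], by linarith [hh.1]⟩
  simp only [neg_neg] at this
  linarith

/-- Weak comparison of graphs, upwards. -/
theorem Gr.le_of_T {c : ℝ} {Z1 T1 Z2 T2 : ℝ → ℝ} {h1 h2 : ℝ} (G1 : Gr c Z1 T1 h1 h2)
    (G2 : Gr c Z2 T2 h1 h2) (h0 : Z1 h1 ≤ Z2 h1)
    (hT : ∀ h ∈ Ioo h1 h2, T1 h ≤ T2 h) : ∀ h ∈ Icc h1 h2, Z1 h ≤ Z2 h := by
  intro h hh
  have := antiOn_of_hasDerivAt (f := fun h => Z1 h - Z2 h)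
    (f' := fun h => 5 * T1 h + c - (5 * T2 h + c)) (G1.cZ.sub G2.cZ)
    (fun t ht => (G1.d t ht).sub (G2.d t ht))
    (fun t ht => by have := hT t ht; linarith) ⟨le_rfl, hh.1.trans hh.2⟩ hh hh.1
  simp only at this
  linarith

/-- Weak comparison of graphs, downwards. -/
theorem Gr.le_of_T' {c : ℝ} {Z1 T1 Z2 T2 : ℝ → ℝ} {h1 h2 : ℝ} (G1 : Gr c Z1 T1 h1 h2)
    (G2 : Gr c Z2 T2 h1 h2) (h0 : Z1 h2 ≤ Z2 h2)
    (hT : ∀ h ∈ Ioo h1 h2, T2 h ≤ T1 h) : ∀ h ∈ Icc h1 h2, Z1 h ≤ Z2 h := by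
  intro h hh
  have := monoOn_of_hasDerivAt (f := fun h => Z1 h - Z2 h)
    (f' := fun h => 5 * T1 h + c - (5 * T2 h + c)) (G1.cZ.sub G2.cZ)
    (fun t ht => (G1.d t ht).sub (G2.d t ht))
    (fun t ht => by have := hT t ht; linarith) hh ⟨hh.1.trans hh.2, le_rfl⟩ hh.2
  simp only at this
  linarith

/-- **(S1), graph form.** `D = Z1 - Z2`, `delta = T1 - T2`. -/
theorem Gr.start {c c0 e : ℝ} {Z1 T1 Z2 T2 : ℝ → ℝ} {h1 h2 : ℝ} (h12 : h1 < h2)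
    (G1 : Gr c Z1 T1 h1 h2) (G2 : Gr c Z2 T2 h1 h2) (h0 : Z1 h1 = Z2 h1) (hc0 : 0 < c0)
    (he : 0 < e)
    (hst : ∀ h ∈ Ioo h1 (h1 + e), h < h2 → T2 h ≤ T1 h → c0 * (T1 h - T2 h) < Z1 h - Z2 h)
    (hK : ∀ h ∈ Ioc h1 h2, T1 h = T2 h → Z2 h < Z1 h) :
    ∀ h ∈ Ioc h1 h2, T1 h < T2 h ∧ Z1 h < Z2 h := by
  set D : ℝ → ℝ := fun h => Z1 h - Z2 h with hD
  have hDc : ContinuousOn D (Icc h1 h2) := G1.cZ.sub G2.cZ
  have hDd : ∀ h ∈ Ioo h1 h2, HasDerivAt D (5 * (T1 h - T2 h)) h := fun h hh =>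
    ((G1.d h hh).sub (G2.d h hh)).congr_deriv (by ring)
  have hTc : ContinuousOn (fun h => T1 h - T2 h) (Icc h1 h2) := G1.cT.sub G2.cT
  -- the start
  obtain ⟨h3, h13, h32, h3e⟩ : ∃ h3, h1 < h3 ∧ h3 < h2 ∧ h3 < h1 + e := by
    refine ⟨min ((h1 + h2) / 2) (h1 + e / 2), lt_min (by linarith) (by linarith), ?_, ?_⟩
    · exact (min_le_left _ _).trans_lt (by linarith)
    · exact (min_le_right _ _).trans_lt (by linarith)
  have hstart : ∀ h ∈ Ioc h1 h3, D h < 0 ∧ T1 h < T2 h := by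
    have hneg : ∀ h ∈ Ioc h1 h3, D h < 0 := by
      refine B92.neg_of_deriv_lt (f := D) (f' := fun h => 5 * (T1 h - T2 h)) (C := 5 / c0)
        (hDc.mono (Icc_subset_Icc_right h32.le)) (by simp only [hD]; linarith) ?_ ?_
      · intro h hh
        exact (hDd h ⟨hh.1, hh.2.trans_lt h32⟩).hasDerivWithinAt
      · intro h hh hf
        rcases lt_or_ge (T1 h) (T2 h) with h4 | h4
        · have : 0 ≤ 5 / c0 * D h := mul_nonneg (by positivity) hf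
          linarith
        · have h5 := hst h ⟨hh.1, hh.2.trans_lt h3e⟩ (hh.2.trans_lt h32) h4
          have h6 : 5 / c0 * D h - 5 * (T1 h - T2 h) = 5 / c0 * (D h - c0 * (T1 h - T2 h)) := by
            field_simp
          have h7 : 0 < 5 / c0 * (D h - c0 * (T1 h - T2 h)) := by
            apply mul_pos (by positivity)
            simp only [hD]; linarith
          linarith
    intro h hh
    refine ⟨hneg h hh, ?_⟩
    by_contra hcon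
    push Not at hcon
    have h5 := hst h ⟨hh.1, hh.2.trans_lt h3e⟩ (hh.2.trans_lt h32) hcon
    have h6 := hneg h hh
    simp only [hD] at h6
    have h7 : 0 ≤ c0 * (T1 h - T2 h) := mul_nonneg hc0.le (by linarith)
    linarith
  -- `T1 < T2` everywhere
  have hall : ∀ h ∈ Ioc h1 h2, T1 h < T2 h := by
    by_contra hcon
    push Not at hcon
    obtain ⟨h', hh', hbad⟩ := hcon
    have h3h' : h3 < h' := by
      by_contra h5
      push Not at h5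
      have := (hstart h' ⟨hh'.1, h5⟩).2
      linarith
    -- first zero of `T1 - T2` on `[h3, h']`
    have hcI : ContinuousOn (fun h => T1 h - T2 h) (Icc h3 h') :=
      hTc.mono (Icc_subset_Icc h13.le hh'.2)
    have hne : (Icc h3 h' ∩ (fun h => T1 h - T2 h) ⁻¹' {0}).Nonempty := by
      obtain ⟨s, hs1, hs2⟩ := intermediate_value_Icc h3h'.le hcI (show (0 : ℝ) ∈
        Icc (T1 h3 - T2 h3) (T1 h' - T2 h') from ⟨by
          have := (hstart h3 ⟨h13, le_rfl⟩).2; linarith, by linarith⟩)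
      exact ⟨s, hs1, hs2⟩
    have hcomp : IsCompact (Icc h3 h' ∩ (fun h => T1 h - T2 h) ⁻¹' {0}) := by
      have := hcI.preimage_isClosed_of_isClosed isClosed_Icc (isClosed_singleton (x := (0 : ℝ)))
      exact isCompact_Icc.of_isClosed_subset this inter_subset_left
    obtain ⟨s, hs, hsmin⟩ := hcomp.exists_isMinOn hne continuousOn_id
    have hs0 : T1 s - T2 s = 0 := hs.2
    have hs3 : h3 < s := by
      rcases lt_or_eq_of_le hs.1.1 with h5 | h5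
      · exact h5
      · have := (hstart h3 ⟨h13, le_rfl⟩).2
        rw [← h5] at hs0; linarith
    have hs2 : s ≤ h2 := hs.1.2.trans hh'.2
    have hlt : ∀ r ∈ Ioo h3 s, T1 r < T2 r := by
      intro r hr
      by_contra h5
      push Not at h5
      obtain ⟨q, hq1, hq2⟩ := intermediate_value_Icc hr.1.le
        (hcI.mono (Icc_subset_Icc_right (hr.2.le.trans hs.1.2))) (show (0 : ℝ) ∈
        Icc (T1 h3 - T2 h3) (T1 r - T2 r) from ⟨by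
          have := (hstart h3 ⟨h13, le_rfl⟩).2; linarith, by linarith⟩)
      have h6 : s ≤ q := hsmin ⟨⟨hq1.1, hq1.2.trans (hr.2.le.trans hs.1.2)⟩, hq2⟩
      linarith [hq1.2, hr.2]
    have hanti : AntitoneOn D (Icc h3 s) := by
      refine antiOn_of_hasDerivAt (hDc.mono (Icc_subset_Icc h13.le hs2))
        (fun r hr => hDd r ⟨h13.trans hr.1, hr.2.trans_le hs2⟩) fun r hr => ?_
      have := hlt r hr
      linarith
    have h5 := hanti ⟨le_rfl, hs3.le⟩ ⟨hs3.le, le_rfl⟩ hs3.le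
    have h6 := (hstart h3 ⟨h13, le_rfl⟩).1
    have h7 := hK s ⟨h13.trans hs3, hs2⟩ (by linarith)
    have h8 : D s = Z1 s - Z2 s := rfl
    linarith
  intro h hh
  refine ⟨hall h hh, ?_⟩
  rcases le_or_gt h h3 with h4 | h4
  · have := (hstart h ⟨hh.1, h4⟩).1
    have h8 : D h = Z1 h - Z2 h := rfl
    linarith
  · have hanti : AntitoneOn D (Icc h3 h) := by
      refine antiOn_of_hasDerivAt (hDc.mono (Icc_subset_Icc h13.le hh.2))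
        (fun r hr => hDd r ⟨h13.trans hr.1, hr.2.trans_le hh.2⟩) fun r hr => ?_
      have := hall r ⟨h13.trans hr.1, hr.2.le.trans hh.2⟩
      linarith
    have h5 := hanti ⟨le_rfl, h4.le⟩ ⟨h4.le, le_rfl⟩ h4.le
    have h6 := (hstart h3 ⟨h13, le_rfl⟩).1
    have h8 : D h = Z1 h - Z2 h := rfl
    linarith

/-- A piece of a front on which `H` is strictly decreasing. -/
def PieceD (c : ℝ) (H T Z : ℝ → ℝ) (a b : ℝ) : Prop :=
  Piece c (fun t => H (-t)) (fun t => T (-t)) (fun t => Z (-t)) (-b) (-a)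

theorem PieceD.ab {c : ℝ} {H T Z : ℝ → ℝ} {a b : ℝ} (P : PieceD c H T Z a b) : a < b := by
  have := Piece.ab P; linarith

/-- Constructor for decreasing pieces. -/
theorem PieceD.mk' {c : ℝ} {H T Z H' : ℝ → ℝ} {a b : ℝ} (ab : a < b)
    (cH : ContinuousOn H (Icc a b)) (cT : ContinuousOn T (Icc a b))
    (cZ : ContinuousOn Z (Icc a b)) (dH : ∀ t ∈ Ioo a b, HasDerivAt H (H' t) t)
    (dZ : ∀ t ∈ Ioo a b, HasDerivAt Z ((5 * T t + c) * H' t) t)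
    (hn : ∀ t ∈ Ioo a b, H' t ≤ 0) (anti : StrictAntiOn H (Icc a b)) :
    PieceD c H T Z a b := by
  have hm : MapsTo (fun s : ℝ => -s) (Icc (-b) (-a)) (Icc a b) := fun s hs =>
    ⟨by linarith [hs.2], by linarith [hs.1]⟩
  have hm' : ∀ s ∈ Ioo (-b) (-a), -s ∈ Ioo a b := fun s hs =>
    ⟨by linarith [hs.2], by linarith [hs.1]⟩
  refine ⟨by linarith, cH.comp continuous_neg.continuousOn hm,
    cT.comp continuous_neg.continuousOn hm, cZ.comp continuous_neg.continuousOn hm,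
    ⟨fun t => -H' (-t), fun t ht => ?_, fun t ht => ?_, fun t ht => ?_⟩, ?_⟩
  · refine (HasDerivAt.comp t (dH (-t) (hm' t ht)) (hasDerivAt_neg t)).congr_deriv ?_
    ring
  · refine (HasDerivAt.comp t (dZ (-t) (hm' t ht)) (hasDerivAt_neg t)).congr_deriv ?_
    ring
  · have := hn (-t) (hm' t ht)
    linarith
  · intro s hs r hr hsr
    exact anti (hm hr) (hm hs) (by simpa using hsr)

/-- The graph of a decreasing piece. -/
theorem PieceD.graph {c : ℝ} {H T Z : ℝ → ℝ} {a b : ℝ} (P : PieceD c H T Z a b) :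
    H b < H a ∧ ∃ g : ℝ → ℝ, ContinuousOn g (Icc (H b) (H a)) ∧ (∀ x ∈ Icc a b, g (H x) = x) ∧
      (∀ y ∈ Icc (H b) (H a), g y ∈ Icc a b ∧ H (g y) = y) ∧
      Gr c (fun y => Z (g y)) (fun y => T (g y)) (H b) (H a) := by
  have hlt := Piece.mono P ⟨le_rfl, (Piece.ab P).le⟩ ⟨(Piece.ab P).le, le_rfl⟩ (Piece.ab P)
  obtain ⟨g, h1, h2, h3, h4⟩ := Piece.graph P
  simp only [neg_neg] at hlt h1 h3 h4
  refine ⟨hlt, fun y => -g y, h1.neg, fun x hx => ?_, fun y hy => ?_, h4⟩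
  · have := h2 (-x) ⟨by linarith [hx.2], by linarith [hx.1]⟩
    simp only [neg_neg] at this
    change -g (H x) = x
    rw [this, neg_neg]
  · obtain ⟨h5, h6⟩ := h3 y hy
    exact ⟨⟨by linarith [h5.2], by linarith [h5.1]⟩, h6⟩

theorem Piece.lt {c : ℝ} {H T Z : ℝ → ℝ} {a b : ℝ} (P : Piece c H T Z a b) : H a < H b :=
  P.mono ⟨le_rfl, P.ab.le⟩ ⟨P.ab.le, le_rfl⟩ P.ab

/-- Interior levels of a piece are attained at interior times. -/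
theorem Piece.graphI {c : ℝ} {H T Z : ℝ → ℝ} {a b : ℝ} (P : Piece c H T Z a b) :
    ∃ g : ℝ → ℝ, (∀ x ∈ Icc a b, g (H x) = x) ∧
      (∀ y ∈ Icc (H a) (H b), g y ∈ Icc a b ∧ H (g y) = y) ∧
      (∀ y ∈ Ioo (H a) (H b), g y ∈ Ioo a b ∧ H (g y) = y) ∧
      (∀ y ∈ Ioc (H a) (H b), g y ∈ Ioc a b ∧ H (g y) = y) ∧
      Gr c (fun y => Z (g y)) (fun y => T (g y)) (H a) (H b) := by
  obtain ⟨g, -, gl, gr, GG⟩ := P.graph
  refine ⟨g, gl, gr, fun h hh => ?_, fun h hh => ?_, GG⟩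
  · obtain ⟨h5, h6⟩ := gr h ⟨hh.1.le, hh.2.le⟩
    refine ⟨⟨lt_of_le_of_ne h5.1 fun h7 => ?_, lt_of_le_of_ne h5.2 fun h7 => ?_⟩, h6⟩
    · rw [← h7] at h6; linarith [hh.1]
    · rw [h7] at h6; linarith [hh.2]
  · obtain ⟨h5, h6⟩ := gr h ⟨hh.1.le, hh.2⟩
    refine ⟨⟨lt_of_le_of_ne h5.1 fun h7 => ?_, h5.2⟩, h6⟩
    rw [← h7] at h6; linarith [hh.1]

/-- Interior levels of a falling piece are attained at interior times. -/
theorem PieceD.graphI {c : ℝ} {H T Z : ℝ → ℝ} {a b : ℝ} (P : PieceD c H T Z a b) :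
    H b < H a ∧ ∃ g : ℝ → ℝ, (∀ x ∈ Icc a b, g (H x) = x) ∧
      (∀ y ∈ Icc (H b) (H a), g y ∈ Icc a b ∧ H (g y) = y) ∧
      (∀ y ∈ Ioo (H b) (H a), g y ∈ Ioo a b ∧ H (g y) = y) ∧
      Gr c (fun y => Z (g y)) (fun y => T (g y)) (H b) (H a) := by
  obtain ⟨hlt, g, -, gl, gr, GG⟩ := P.graph
  refine ⟨hlt, g, gl, gr, fun h hh => ?_, GG⟩
  obtain ⟨h5, h6⟩ := gr h ⟨hh.1.le, hh.2.le⟩
  refine ⟨⟨lt_of_le_of_ne h5.1 fun h7 => ?_, lt_of_le_of_ne h5.2 fun h7 => ?_⟩, h6⟩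
  · rw [← h7] at h6; linarith [hh.2]
  · rw [h7] at h6; linarith [hh.1]

/-- **(S1)**: before `tc` the front `x` is behind and below the first rising piece of the
front `y`. -/
theorem front_key {c c0 e : ℝ} {Hx Tx Zx Hy Ty Zy : ℝ → ℝ} {tc sb : ℝ}
    (P1 : Piece c Hx Tx Zx 0 tc) (Q1 : Piece c Hy Ty Zy 0 sb)
    (hH0 : Hx 0 = Hy 0) (hZ0 : Zx 0 = Zy 0) (hc0 : 0 < c0) (he : 0 < e)
    (St : ∀ t ∈ Ioo 0 tc, ∀ s ∈ Ioo 0 sb, Hx t = Hy s → Hx t < Hx 0 + e → Ty s ≤ Tx t →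
      c0 * (Tx t - Ty s) < Zx t - Zy s)
    (K1 : ∀ t ∈ Ioo 0 tc, ∀ s ∈ Ioc 0 sb, Hx t = Hy s → Tx t = Ty s → Zy s < Zx t) :
    ∀ t ∈ Ioo 0 tc, ∀ s ∈ Ioc 0 sb, Hx t = Hy s → Tx t < Ty s ∧ Zx t < Zy s := by
  obtain ⟨g, gl, gr, gI, gI', GG⟩ := P1.graphI
  obtain ⟨f, fl, fr, fI, fI', FF⟩ := Q1.graphI
  have hx := P1.lt
  have hy := Q1.lt
  have g0 : g (Hx 0) = 0 := gl 0 ⟨le_rfl, P1.ab.le⟩
  have f0 : f (Hx 0) = 0 := by rw [hH0]; exact fl 0 ⟨le_rfl, Q1.ab.le⟩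
  rw [← hH0] at FF fr fI fI' hy
  intro t ht s hs hts
  have gt : g (Hx t) = t := gl t ⟨ht.1.le, ht.2.le⟩
  have fs : f (Hy s) = s := fl s ⟨hs.1.le, hs.2⟩
  have h3 : Hx 0 < Hx t := P1.mono ⟨le_rfl, P1.ab.le⟩ ⟨ht.1.le, ht.2.le⟩ ht.1
  have h5 : Hx t < Hx tc := P1.mono ⟨ht.1.le, ht.2.le⟩ ⟨P1.ab.le, le_rfl⟩ ht.2
  have h4 : Hx t ≤ Hy sb := by
    rw [hts]; exact Q1.mono.monotoneOn ⟨hs.1.le, hs.2⟩ ⟨Q1.ab.le, le_rfl⟩ hs.2
  have key := Gr.start (c := c) (c0 := c0) (e := e) h3 (GG.mono le_rfl h5.le)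
    (FF.mono le_rfl h4) (by rw [g0, f0]; exact hZ0) hc0 he
    (by
      intro h hh hh2 hT
      obtain ⟨k1, e1⟩ := gI h ⟨hh.1, hh2.trans h5⟩
      obtain ⟨k2, e2⟩ := fI h ⟨hh.1, hh2.trans_le h4⟩
      exact St (g h) k1 (f h) k2 (by rw [e1, e2]) (by rw [e1]; exact hh.2) hT)
    (by
      intro h hh hT
      obtain ⟨k1, e1⟩ := gI h ⟨hh.1, hh.2.trans_lt h5⟩
      obtain ⟨k2, e2⟩ := fI' h ⟨hh.1, hh.2.trans h4⟩
      exact K1 (g h) k1 (f h) k2 (by rw [e1, e2]) hT)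
    (Hx t) ⟨h3, le_rfl⟩
  rw [gt, hts, fs] at key
  exact key

/-- **(S1)**: the first rising piece of the front `x` climbs higher than that of `y`. -/
theorem front_start {c c0 e : ℝ} {Hx Tx Zx Hy Ty Zy : ℝ → ℝ} {tc sb : ℝ}
    (P1 : Piece c Hx Tx Zx 0 tc) (Q1 : Piece c Hy Ty Zy 0 sb)
    (hH0 : Hx 0 = Hy 0) (hZ0 : Zx 0 = Zy 0) (hc0 : 0 < c0) (he : 0 < e)
    (St : ∀ t ∈ Ioo 0 tc, ∀ s ∈ Ioo 0 sb, Hx t = Hy s → Hx t < Hx 0 + e → Ty s ≤ Tx t →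
      c0 * (Tx t - Ty s) < Zx t - Zy s)
    (K1 : ∀ t ∈ Ioo 0 tc, ∀ s ∈ Ioc 0 sb, Hx t = Hy s → Tx t = Ty s → Zy s < Zx t)
    (U1 : ∀ s ∈ Ioc 0 sb, Hx tc = Hy s → Tx tc ≤ Ty s → Zx tc < Zy s → False) :
    Hy sb < Hx tc ∧ ∃ t1 ∈ Ioo 0 tc, Hx t1 = Hy sb ∧ Tx t1 < Ty sb ∧ Zx t1 < Zy sb := by
  have key0 := front_key P1 Q1 hH0 hZ0 hc0 he St K1
  obtain ⟨g, gl, gr, gI, gI', GG⟩ := P1.graphI
  obtain ⟨f, fl, fr, fI, fI', FF⟩ := Q1.graphI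
  have hx := P1.lt
  have hy := Q1.lt
  have gtc : g (Hx tc) = tc := gl tc ⟨P1.ab.le, le_rfl⟩
  rw [← hH0] at FF fr fI fI' hy
  have hlt : Hy sb < Hx tc := by
    by_contra hcon
    push Not at hcon
    -- limits at `Hx tc`
    set m := (Hx 0 + Hx tc) / 2 with hm
    have hm1 : Hx 0 < m := by rw [hm]; linarith
    have hm2 : m < Hx tc := by rw [hm]; linarith
    have hall : ∀ h ∈ Ioo (Hx 0) (Hx tc), Tx (g h) < Ty (f h) ∧ Zx (g h) < Zy (f h) := by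
      intro h hh
      obtain ⟨k1, e1⟩ := gI h hh
      obtain ⟨k2, e2⟩ := fI' h ⟨hh.1, hh.2.le.trans hcon⟩
      exact key0 _ k1 _ k2 (by rw [e1, e2])
    have hne : (𝓝[Ioo (Hx 0) (Hx tc)] (Hx tc)).NeBot := by
      rw [← mem_closure_iff_nhdsWithin_neBot, closure_Ioo hx.ne]
      exact ⟨hx.le, le_rfl⟩
    have hTle : Tx (g (Hx tc)) ≤ Ty (f (Hx tc)) := by
      have c1 : Tendsto (fun h => Tx (g h)) (𝓝[Ioo (Hx 0) (Hx tc)] (Hx tc))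
          (𝓝 (Tx (g (Hx tc)))) :=
        ((GG.cT (Hx tc) ⟨hx.le, le_rfl⟩).mono Ioo_subset_Icc_self)
      have c2 : Tendsto (fun h => Ty (f h)) (𝓝[Ioo (Hx 0) (Hx tc)] (Hx tc))
          (𝓝 (Ty (f (Hx tc)))) :=
        ((FF.cT (Hx tc) ⟨hx.le, hcon⟩).mono (fun h hh => ⟨hh.1.le, hh.2.le.trans hcon⟩))
      refine le_of_tendsto_of_tendsto c1 c2 ?_
      filter_upwards [self_mem_nhdsWithin] with h hh
      exact (hall h hh).1.le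
    have hZlt : Zx (g (Hx tc)) < Zy (f (Hx tc)) := by
      have hanti : AntitoneOn (fun h => Zx (g h) - Zy (f h)) (Icc m (Hx tc)) := by
        refine antiOn_of_hasDerivAt (f' := fun h => 5 * Tx (g h) + c - (5 * Ty (f h) + c))
          ((GG.cZ.mono (Icc_subset_Icc hm1.le le_rfl)).sub
          (FF.cZ.mono (Icc_subset_Icc hm1.le hcon)))
          (fun r hr => (GG.d r ⟨hm1.trans hr.1, hr.2⟩).sub
            (FF.d r ⟨hm1.trans hr.1, hr.2.trans_le hcon⟩)) fun r hr => ?_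
        have := (hall r ⟨hm1.trans hr.1, hr.2⟩).1
        linarith
      have h5 := hanti ⟨le_rfl, hm2.le⟩ ⟨hm2.le, le_rfl⟩ hm2.le
      have h6 := (hall m ⟨hm1, hm2⟩).2
      simp only at h5
      linarith
    rw [gtc] at hTle hZlt
    obtain ⟨k2, e2⟩ := fI' (Hx tc) ⟨hx, hcon⟩
    exact U1 (f (Hx tc)) k2 e2.symm hTle hZlt
  obtain ⟨k1, e1⟩ := gI (Hy sb) ⟨hy, hlt⟩
  exact ⟨hlt, g (Hy sb), k1, e1, key0 _ k1 sb ⟨Q1.ab, le_rfl⟩ e1⟩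

/-- `Z2 ≤ Z3` for a front with a falling piece followed by a rising piece, `T2 ≤ T3`. -/
theorem front_Z23 {c : ℝ} {Hy Ty Zy : ℝ → ℝ} {sb sa M : ℝ}
    (Q2 : PieceD c Hy Ty Zy sb sa) (Q3 : Piece c Hy Ty Zy sa M)
    (M23 : ∀ s ∈ Ioo sb sa, ∀ s' ∈ Ioo sa M, Hy s = Hy s' → Ty s ≤ Ty s') :
    ∀ s ∈ Icc sb sa, ∀ s' ∈ Icc sa M, Hy s = Hy s' → Zy s ≤ Zy s' := by
  obtain ⟨hab, f2, f2l, f2r, f2I, F2⟩ := Q2.graphI
  obtain ⟨f3, f3l, f3r, f3I, -, F3⟩ := Q3.graphI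
  intro s hs s' hs' hss
  have f2a : f2 (Hy sa) = sa := f2l sa ⟨Q2.ab.le, le_rfl⟩
  have f3a : f3 (Hy sa) = sa := f3l sa ⟨le_rfl, Q3.ab.le⟩
  have e2 := f2l s hs
  have e3 := f3l s' hs'
  have h5 : Hy sa ≤ Hy s := by
    rw [hss]; exact Q3.mono.monotoneOn ⟨le_rfl, Q3.ab.le⟩ hs' hs'.1
  have h7 : Hy s ≤ Hy M := by
    rw [hss]; exact Q3.mono.monotoneOn hs' ⟨Q3.ab.le, le_rfl⟩ hs'.2
  have h6 : Hy s ≤ Hy sb := by
    have := Piece.mono Q2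
    have h8 := this.monotoneOn (a := -s) (b := -sb) ⟨by linarith [hs.2], by linarith [hs.1]⟩
      ⟨by linarith [Q2.ab], le_rfl⟩ (by linarith [hs.1])
    simpa using h8
  have h9 := Gr.le_of_T (F2.mono le_rfl h6) (F3.mono le_rfl h7) (by rw [f2a, f3a])
    (fun r hr => by
      obtain ⟨k1, k2⟩ := f2I r ⟨hr.1, hr.2.trans_le h6⟩
      obtain ⟨k3, k4⟩ := f3I r ⟨hr.1, hr.2.trans_le h7⟩
      exact M23 _ k1 _ k3 (by rw [k2, k4])) (Hy s) ⟨h5, le_rfl⟩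
  rw [e2, hss, e3] at h9
  exact h9

/-- A rising piece of `x` which starts below the last piece of `y` stays below. -/
theorem front_up {c : ℝ} {Hx Tx Zx Hy Ty Zy : ℝ → ℝ} {ta tb sa M : ℝ}
    (P : Piece c Hx Tx Zx ta tb) (Q3 : Piece c Hy Ty Zy sa M) (h0 : Hy sa ≤ Hx ta)
    (hZ : ∀ s ∈ Icc sa M, Hx ta = Hy s → Zx ta < Zy s)
    (C3 : ∀ t ∈ Ioo ta tb, ∀ s ∈ Ioo sa M, Hx t = Hy s → Zx t < Zy s → Tx t ≤ Ty s) :
    ∀ t ∈ Icc ta tb, ∀ s ∈ Icc sa M, Hx t = Hy s → Zx t < Zy s := by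
  obtain ⟨g, gl, gr, gI, -, GG⟩ := P.graphI
  obtain ⟨f, fl, fr, fI, -, FF⟩ := Q3.graphI
  intro t ht s hs hts
  have e1 := gl t ht
  have e2 := fl s hs
  have h1 : Hx ta ≤ Hx t := P.mono.monotoneOn ⟨le_rfl, P.ab.le⟩ ht ht.1
  have h2 : Hx t ≤ Hx tb := P.mono.monotoneOn ht ⟨P.ab.le, le_rfl⟩ ht.2
  have h3 : Hx t ≤ Hy M := by
    rw [hts]; exact Q3.mono.monotoneOn hs ⟨Q3.ab.le, le_rfl⟩ hs.2
  have e3 : g (Hx ta) = ta := gl ta ⟨le_rfl, P.ab.le⟩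
  have h4 := fr (Hx ta) ⟨h0, h1.trans h3⟩
  have h5 := Gr.lt_up (GG.mono (h3 := Hx ta) (h4 := Hx t) le_rfl h2)
    (FF.mono (h3 := Hx ta) (h4 := Hx t) h0 h3)
    (by rw [e3]; exact hZ _ h4.1 h4.2.symm)
    (fun r hr hZr => by
      obtain ⟨k1, k2⟩ := gI r ⟨hr.1, hr.2.trans_le h2⟩
      obtain ⟨k3, k4⟩ := fI r ⟨h0.trans_lt hr.1, hr.2.trans_le h3⟩
      exact C3 _ k1 _ k3 (by rw [k2, k4]) hZr) (Hx t) ⟨h1, le_rfl⟩
  rw [e1, hts, e2] at h5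
  exact h5

/-- **End**: the last rising piece of `x` ends above `y`. -/
theorem front_end {c : ℝ} {Hx Tx Zx Hy Ty Zy : ℝ → ℝ} {ta L sa M : ℝ}
    (P : Piece c Hx Tx Zx ta L) (Q3 : Piece c Hy Ty Zy sa M) (h0 : Hy sa ≤ Hx ta)
    (hZ : ∀ s ∈ Icc sa M, Hx ta = Hy s → Zx ta < Zy s)
    (C3 : ∀ t ∈ Ioo ta L, ∀ s ∈ Ioo sa M, Hx t = Hy s → Zx t < Zy s → Tx t ≤ Ty s)
    (E3 : ∀ s ∈ Icc sa M, Hx L = Hy s → Zy s ≤ Zx L) : Hy M < Hx L := by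
  by_contra hcon
  push Not at hcon
  obtain ⟨f, fl, fr, -⟩ := Q3.graphI
  have h1 := fr (Hx L) ⟨h0.trans P.lt.le, hcon⟩
  have h2 := front_up P Q3 h0 hZ C3 L ⟨P.ab.le, le_rfl⟩ _ h1.1 h1.2.symm
  have h3 := E3 _ h1.1 h1.2.symm
  linarith

/-- Restriction of a piece. -/
theorem Piece.restrict {c : ℝ} {H T Z : ℝ → ℝ} {a b a' b' : ℝ} (P : Piece c H T Z a b)
    (h1 : a ≤ a') (h2 : a' < b') (h3 : b' ≤ b) : Piece c H T Z a' b' := by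
  obtain ⟨H', d1, d2, d3⟩ := P.d
  have hI : Icc a' b' ⊆ Icc a b := Icc_subset_Icc h1 h3
  have hJ : Ioo a' b' ⊆ Ioo a b := Ioo_subset_Ioo h1 h3
  exact ⟨h2, P.cH.mono hI, P.cT.mono hI, P.cZ.mono hI,
    ⟨H', fun t ht => d1 t (hJ ht), fun t ht => d2 t (hJ ht), fun t ht => d3 t (hJ ht)⟩,
    P.mono.mono hI⟩

/-- **(S2), the fold of `x`.** `x` rises on `[0, tc]`, falls on `[tc, td]`; `y` rises on `[0, sb]`,
falls on `[sb, sa]`, rises on `[sa, M]`.  Then `x` stays above the level `H (y sa)` and its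
position at `td` is below the last piece of `y`. -/
theorem front_fold {c : ℝ} {Hx Tx Zx Hy Ty Zy : ℝ → ℝ} {t1 tc td sb sa M : ℝ}
    (P1 : Piece c Hx Tx Zx t1 tc) (P2 : PieceD c Hx Tx Zx tc td)
    (Q2 : PieceD c Hy Ty Zy sb sa) (Q3 : Piece c Hy Ty Zy sa M)
    (e1 : Hx t1 = Hy sb) (z1 : Zx t1 < Zy sb)
    (M23 : ∀ s ∈ Ioo sb sa, ∀ s' ∈ Ioo sa M, Hy s = Hy s' → Ty s ≤ Ty s')
    (C3 : ∀ t ∈ Ioo t1 tc, ∀ s ∈ Ioo sa M, Hx t = Hy s → Zx t < Zy s → Tx t ≤ Ty s)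
    (C2 : ∀ t ∈ Ioo tc td, ∀ s ∈ Ioo sb sa, Hx t = Hy s → Zx t < Zy s → Ty s ≤ Tx t)
    (P12 : ∀ t ∈ Ioo t1 tc, ∀ t' ∈ Ioo tc td, Hx t = Hx t' → Tx t ≤ Tx t')
    (M0 : Hx td = Hy sa → Zy sa ≤ Zx td) (hd : Hy sa ≤ Hx td) :
    Hy sa < Hx td ∧ ∀ s ∈ Icc sa M, Hx td = Hy s → Zx td < Zy s := by
  have Z23 := front_Z23 Q2 Q3 M23
  obtain ⟨g, gl, gr, gI, -, GG⟩ := P1.graphI
  obtain ⟨hab, f2, f2l, f2r, f2I, F2⟩ := Q2.graphI
  obtain ⟨hdc, g2, g2l, g2r, g2I, G2⟩ := P2.graphI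
  have hx := P1.lt
  rw [e1] at hx
  have P1ab := P1.ab
  have P2ab := P2.ab
  have Q2ab := Q2.ab
  have Q3ab := Q3.ab
  have f2a : f2 (Hy sa) = sa := f2l sa ⟨Q2ab.le, le_rfl⟩
  have f2b : f2 (Hy sb) = sb := f2l sb ⟨le_rfl, Q2ab.le⟩
  have gt1 : g (Hy sb) = t1 := by rw [← e1]; exact gl t1 ⟨le_rfl, P1ab.le⟩
  have gtc : g (Hx tc) = tc := gl tc ⟨P1ab.le, le_rfl⟩
  have g2c' : g2 (Hx tc) = tc := g2l tc ⟨le_rfl, P2ab.le⟩
  have g2d : g2 (Hx td) = td := g2l td ⟨P2ab.le, le_rfl⟩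
  -- Claim A
  have hA := front_up P1 Q3 (by rw [e1]; exact hab.le)
    (fun s hs hts => by
      have := Z23 sb ⟨le_rfl, Q2ab.le⟩ s hs (by rw [← e1, hts])
      linarith) C3
  -- `Z2x ≤ Z1x` above `h_b`
  have hZ12 : ∀ h, Hy sb ≤ h → Hx td ≤ h → h ≤ Hx tc → Zx (g2 h) ≤ Zx (g h) := by
    intro h h5 h6 h7
    refine Gr.le_of_T' (G2.mono h6 le_rfl) (GG.mono (by rw [e1]; exact h5) le_rfl)
      (by rw [g2c', gtc]) ?_ h ⟨le_rfl, h7⟩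
    intro r hr
    obtain ⟨k1, k2⟩ := gI r ⟨by rw [e1]; exact h5.trans_lt hr.1, hr.2⟩
    obtain ⟨k3, k4⟩ := g2I r ⟨h6.trans_lt hr.1, hr.2⟩
    exact P12 _ k1 _ k3 (by rw [k2, k4])
  rcases le_or_gt (Hx td) (Hy sb) with h5 | h5
  · have hb : Zx (g2 (Hy sb)) < Zy (f2 (Hy sb)) := by
      have := hZ12 (Hy sb) le_rfl h5 hx.le
      rw [gt1] at this
      rw [f2b]; linarith
    have hdown : Zx (g2 (Hx td)) < Zy (f2 (Hx td)) := by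
      refine Gr.lt_down (G2.mono le_rfl hx.le) (F2.mono hd le_rfl) hb ?_ (Hx td)
        ⟨le_rfl, h5⟩
      intro r hr hZ
      obtain ⟨k1, k2⟩ := g2I r ⟨hr.1, hr.2.trans hx⟩
      obtain ⟨k3, k4⟩ := f2I r ⟨hd.trans_lt hr.1, hr.2⟩
      exact C2 _ k1 _ k3 (by rw [k2, k4]) hZ
    rw [g2d] at hdown
    have hlt : Hy sa < Hx td := by
      refine lt_of_le_of_ne hd fun h6 => ?_
      have h9 := M0 h6.symm
      rw [← h6, f2a] at hdown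
      linarith
    refine ⟨hlt, fun s hs hts => ?_⟩
    have h7 := f2r (Hx td) ⟨hlt.le, h5⟩
    exact hdown.trans_le (Z23 _ h7.1 s hs (by rw [h7.2, hts]))
  · refine ⟨hab.trans h5, fun s hs hts => ?_⟩
    have h6 := hZ12 (Hx td) h5.le le_rfl hdc.le
    have h8 := gr (Hx td) ⟨by rw [e1]; exact h5.le, hdc.le⟩
    have h7 := hA _ h8.1 s hs (by rw [h8.2, hts])
    rw [g2d] at h6
    linarith

end B92K
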