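import Mathlib
import Pool.Agent.Lib.B92K.Ok
import Pool.Agent.Lib.B92K.Front

/-!
# MP_b92fc8_an, case `kappa > 1`: pieces of backward arcs as fronts
-/

set_option autoImplicit false

open Set Filter Topology

noncomputable section

namespace B92K

variable {p : Prm} {sg e : ℝ} {x : ℝ → Pt} {L : ℝ}

theorem Traj.contH (h : Traj p e x) : Continuous fun t => fH p (x t) :=
  continuous_iff_continuousAt.2 fun t => (h.dH t).continuousAt

theorem Traj.contU (h : Traj p e x) : Continuous fun t => fU p (x t) := by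
  have h1 := h.contH
  have h2 := h.contW
  simp only [fU]
  fun_prop

theorem Traj.contV (h : Traj p e x) : Continuous fun t => fV p (x t) := by
  have h1 := h.contA
  have h2 := h.contW
  have h3 := h.contS
  simp only [fV]
  fun_prop

theorem Traj.contG (h : Traj p e x) : Continuous fun t => fG p (x t) :=
  continuous_iff_continuousAt.2 fun t => (h.dG t).continuousAt

theorem Traj.contF (h : Traj p e x) : Continuous fun t => fF p (x t) :=
  continuous_iff_continuousAt.2 fun t => (h.dF t).continuousAt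

/-- Continuity of `T` where `Ok`. -/
theorem Traj.contT (h : Traj p e x) {s : Set ℝ} (hs : ∀ t ∈ s, Ok p (x t)) :
    ContinuousOn (fun t => fT p (x t)) s := by
  intro t ht
  have h1 := (hs t ht).F_pos.ne'
  have h2 := (hs t ht).G_pos.ne'
  have h3 := h.contF.continuousAt (x := t)
  have h4 := h.contG.continuousAt (x := t)
  simp only [fT]
  exact ((((h3.log h1).const_mul p.P).add ((h4.log h2).const_mul p.M)).neg.div_const _)
    |>.continuousWithinAt

/-- Continuity of `Z` where `Ok`. -/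
theorem Traj.contZ (h : Traj p e x) {s : Set ℝ} (hs : ∀ t ∈ s, Ok p (x t)) :
    ContinuousOn (fun t => fZ p (x t)) s := fun t ht =>
  (h.dZ (hs t ht).F_pos.ne' (hs t ht).G_pos.ne').continuousAt.continuousWithinAt

theorem BArc.dH (h : BArc p sg x L) (t : ℝ) :
    HasDerivAt (fun r => fH p (x r)) (sg * (x t).W * fU p (x t) / p.mu) t :=
  (h.traj.dH t).congr_deriv (by ring)

/-- Rising piece. -/
theorem BArc.piece (h : BArc p sg x L) {a b : ℝ} (ha : 0 ≤ a) (hab : a < b) (hb : b ≤ L)
    (hok : ∀ t ∈ Icc a b, Ok p (x t)) (hU : ∀ t ∈ Ioo a b, 0 ≤ fU p (x t))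
    (hm : StrictMonoOn (fun t => fH p (x t)) (Icc a b)) :
    Piece (cc p) (fun t => fH p (x t)) (fun t => fT p (x t)) (fun t => fZ p (x t)) a b := by
  refine ⟨hab, h.traj.contH.continuousOn, h.traj.contT hok, h.traj.contZ hok,
    ⟨fun t => sg * (x t).W * fU p (x t) / p.mu, fun t _ => h.dH t, fun t ht => ?_,
      fun t ht => ?_⟩, hm⟩
  · have h1 := hok t (Ioo_subset_Icc_self ht)
    refine (h.traj.dZ h1.F_pos.ne' h1.G_pos.ne').congr_deriv ?_
    ring
  · have h1 := h.Wpos t ⟨ha.trans_lt ht.1, ht.2.trans_le hb⟩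
    have h2 := hU t ht
    have h3 := p.hmu
    positivity

/-- Falling piece. -/
theorem BArc.pieceD (h : BArc p sg x L) {a b : ℝ} (ha : 0 ≤ a) (hab : a < b) (hb : b ≤ L)
    (hok : ∀ t ∈ Icc a b, Ok p (x t)) (hU : ∀ t ∈ Ioo a b, fU p (x t) ≤ 0)
    (hm : StrictAntiOn (fun t => fH p (x t)) (Icc a b)) :
    PieceD (cc p) (fun t => fH p (x t)) (fun t => fT p (x t)) (fun t => fZ p (x t)) a b := by
  refine PieceD.mk' hab h.traj.contH.continuousOn (h.traj.contT hok) (h.traj.contZ hok)
    (H' := fun t => sg * (x t).W * fU p (x t) / p.mu) (fun t _ => h.dH t) (fun t ht => ?_)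
    (fun t ht => ?_) hm
  · have h1 := hok t (Ioo_subset_Icc_self ht)
    refine (h.traj.dZ h1.F_pos.ne' h1.G_pos.ne').congr_deriv ?_
    ring
  · have h1 := h.Wpos t ⟨ha.trans_lt ht.1, ht.2.trans_le hb⟩
    have h2 := hU t ht
    have h3 := p.hmu
    rw [mul_div_assoc]
    exact mul_nonpos_of_nonneg_of_nonpos h1.le (div_nonpos_of_nonpos_of_nonneg h2 h3.le)

/-- `H` increases strictly where `U > 0`. -/
theorem BArc.strictMono (h : BArc p sg x L) {a b : ℝ} (ha : 0 ≤ a) (hb : b ≤ L)
    (hU : ∀ t ∈ Ioo a b, 0 < fU p (x t)) : StrictMonoOn (fun t => fH p (x t)) (Icc a b) := by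
  apply strictMonoOn_of_deriv_pos (convex_Icc _ _) h.traj.contH.continuousOn
  intro t ht
  rw [interior_Icc] at ht
  rw [(h.dH t).deriv]
  have h1 := h.Wpos t ⟨ha.trans_lt ht.1, ht.2.trans_le hb⟩
  have h2 := hU t ht
  have h3 := p.hmu
  positivity

/-- `H` decreases strictly where `U < 0`. -/
theorem BArc.strictAnti (h : BArc p sg x L) {a b : ℝ} (ha : 0 ≤ a) (hb : b ≤ L)
    (hU : ∀ t ∈ Ioo a b, fU p (x t) < 0) : StrictAntiOn (fun t => fH p (x t)) (Icc a b) := by
  apply strictAntiOn_of_deriv_neg (convex_Icc _ _) h.traj.contH.continuousOn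
  intro t ht
  rw [interior_Icc] at ht
  rw [(h.dH t).deriv]
  have h1 := h.Wpos t ⟨ha.trans_lt ht.1, ht.2.trans_le hb⟩
  have h2 := hU t ht
  have h3 := p.hmu
  rw [mul_div_assoc]
  exact mul_neg_of_pos_of_neg h1 (div_neg_of_neg_of_pos h2 h3)

end B92K
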