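import Mathlib
import Pool.Agent.Lib.B92K.SlB
import Pool.Agent.Lib.B92K.GateB

/-!
# MP_b92fc8_an, case `kappa > 1`: facts on the levels of the region `Pi`
-/

set_option autoImplicit false

open Set Filter Topology

noncomputable section

namespace B92K

variable {p : Prm} {h e : ℝ}

/-- `U` in terms of `e W`. -/
theorem fU_eq_e (he : e = 1 ∨ e = -1) (x : Pt) :
    fU p x = 2 * fH p x - p.N ^ 2 * (e * x.W) ^ 2 := by
  have h1 : e ^ 2 = 1 := by rcases he with h | h <;> rw [h] <;> norm_num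
  simp only [fU]
  linear_combination (-(p.N ^ 2) * x.W ^ 2 * (-1)) * h1

theorem slE_slD_pos (hh : p.N - 1 < p.N * h) (h1 : h < 1) (th : ℝ) : 0 < slD p h th :=
  slD_pos (slC_ok hh h1 th)

theorem slE_W_zero (he : e = 1 ∨ e = -1) : (slE p h e 0).W = 0 ∧ (slE p h e Real.pi).W = 0 := by
  constructor
  · simp [slE, sl]
  · rcases he with h | h <;> simp [slE, sl, h]

theorem slE_V_zero (hh : p.N - 1 < p.N * h) (h1 : h < 1) (he : e = 1 ∨ e = -1) :
    0 < fV p (slE p h e 0) ∧ fV p (slE p h e Real.pi) < 0 := by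
  have hA0 := (slE_inPi hh h1 e 0).cone.2
  have hA1 := (slE_inPi hh h1 e 0).A_lt
  have hB0 := (slE_inPi hh h1 e Real.pi).cone.2
  have hB1 := (slE_inPi hh h1 e Real.pi).A_lt
  obtain ⟨w0, wp⟩ := slE_W_zero (p := p) (h := h) he
  have s0 := slE_S (p := p) (h := h) he 0
  have sp := slE_S (p := p) (h := h) he Real.pi
  rw [Real.cos_zero, mul_one] at s0
  rw [Real.cos_pi] at sp
  constructor
  · simp only [fV]
    rw [w0, s0]
    have : 0 < 2 * (slE p h e 0).A * (1 - (slE p h e 0).A) := by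
      apply mul_pos (by positivity); linarith
    linarith
  · simp only [fV]
    rw [wp, sp]
    have : 0 < 2 * (slE p h e Real.pi).A * (1 - (slE p h e Real.pi).A) := by
      apply mul_pos (by positivity); linarith
    linarith

theorem phi_inj (hh : p.N - 1 < p.N * h) (h1 : h < 1) (he : e = 1 ∨ e = -1) {a b : ℝ}
    (ha : a ∈ Icc 0 Real.pi) (hb : b ∈ Icc 0 Real.pi)
    (hT : fT p (slE p h e a) = fT p (slE p h e b)) : a = b :=
  (slE_T_mono hh h1 he).injOn ha hb hT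

/-- The top of a side of a level. -/
theorem exists_top (hh : p.N - 1 < p.N * h) (h1 : h < 1) (he : e = 1 ∨ e = -1) :
    ∃ c ∈ Ioo 0 Real.pi, Gate p (slE p h e c) ∧
      (∀ a ∈ Ico 0 c, 0 < fV p (slE p h e a)) ∧
      (∀ a ∈ Ioc c Real.pi, fV p (slE p h e a) < 0) ∧
      StrictMonoOn (fun r => e * (slE p h e r).W) (Icc 0 c) ∧
      StrictAntiOn (fun r => e * (slE p h e r).W) (Icc c Real.pi) := by
  obtain ⟨v0, vp⟩ := slE_V_zero hh h1 he
  have hVc := slE_V_cont hh h1 e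
  have hpi := Real.pi_pos
  obtain ⟨c, hc1, hc2⟩ := intermediate_value_Icc' hpi.le hVc.continuousOn
    (show (0 : ℝ) ∈ Icc (fV p (slE p h e Real.pi)) (fV p (slE p h e 0)) from ⟨vp.le, v0.le⟩)
  have hc2' : fV p (slE p h e c) = 0 := hc2
  have hc : c ∈ Ioo 0 Real.pi := by
    refine ⟨lt_of_le_of_ne hc1.1 fun h2 => ?_, lt_of_le_of_ne hc1.2 fun h2 => ?_⟩
    · rw [← h2] at hc2'; linarith
    · rw [h2] at hc2'; linarith
  have hgate : ∀ a ∈ Ioo 0 Real.pi, fV p (slE p h e a) = 0 → Gate p (slE p h e a) :=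
    fun a ha hV => ⟨slE_inPi hh h1 e a, hV, fun h2 => by
      have := slE_W_pos hh h1 he ha
      rw [h2] at this; simp at this⟩
  have huniq : ∀ a ∈ Ioo 0 Real.pi, fV p (slE p h e a) = 0 → a = c := by
    intro a ha hV
    have h3 := (hgate a ha hV).unique (hgate c hc hc2') (by
      rw [slE_H hh h1, slE_H hh h1]) (by
      have k1 := slE_W_pos hh h1 he ha
      have k2 := slE_W_pos hh h1 he hc
      have k3 : e ^ 2 = 1 := by rcases he with h | h <;> rw [h] <;> norm_num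
      have k4 := mul_pos k1 k2
      have k5 : e * (slE p h e a).W * (e * (slE p h e c).W)
        = e ^ 2 * ((slE p h e a).W * (slE p h e c).W) := by ring
      rw [k5, k3, one_mul] at k4
      exact k4)
    exact phi_inj hh h1 he ⟨ha.1.le, ha.2.le⟩ hc1 (by rw [h3])
  have hpos : ∀ a ∈ Ico 0 c, 0 < fV p (slE p h e a) := by
    intro a ha
    by_contra hcon
    push Not at hcon
    obtain ⟨q, hq1, hq2⟩ := intermediate_value_Icc' ha.1 hVc.continuousOn
      (show (0 : ℝ) ∈ Icc (fV p (slE p h e a)) (fV p (slE p h e 0)) from ⟨hcon, v0.le⟩)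
    have hq2' : fV p (slE p h e q) = 0 := hq2
    have hq0 : 0 < q := by
      refine lt_of_le_of_ne hq1.1 fun h2 => ?_
      rw [← h2] at hq2'; linarith
    have := huniq q ⟨hq0, (hq1.2.trans_lt ha.2).trans hc.2⟩ hq2'
    linarith [hq1.2, ha.2]
  have hneg : ∀ a ∈ Ioc c Real.pi, fV p (slE p h e a) < 0 := by
    intro a ha
    by_contra hcon
    push Not at hcon
    obtain ⟨q, hq1, hq2⟩ := intermediate_value_Icc' ha.2 hVc.continuousOn
      (show (0 : ℝ) ∈ Icc (fV p (slE p h e Real.pi)) (fV p (slE p h e a)) from ⟨vp.le, hcon⟩)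
    have hq2' : fV p (slE p h e q) = 0 := hq2
    have hq0 : q < Real.pi := by
      refine lt_of_le_of_ne hq1.2 fun h2 => ?_
      rw [h2] at hq2'; linarith
    have := huniq q ⟨(hc.1.trans ha.1).trans_le hq1.1, hq0⟩ hq2'
    linarith [hq1.1, ha.1]
  have hWd := fun ph => slE_dW hh h1 he ph
  have hWc : Continuous (fun r => e * (slE p h e r).W) :=
    continuous_iff_continuousAt.2 fun t => (hWd t).continuousAt
  refine ⟨c, hc, hgate c hc hc2', hpos, hneg, ?_, ?_⟩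
  · apply strictMonoOn_of_deriv_pos (convex_Icc _ _) hWc.continuousOn
    intro a ha
    rw [interior_Icc] at ha
    rw [(hWd a).deriv]
    exact div_pos (hpos a ⟨ha.1.le, ha.2⟩) (slE_slD_pos hh h1 _)
  · apply strictAntiOn_of_deriv_neg (convex_Icc _ _) hWc.continuousOn
    intro a ha
    rw [interior_Icc] at ha
    rw [(hWd a).deriv]
    exact div_neg_of_neg_of_pos (hneg a ⟨ha.1, ha.2.le⟩) (slE_slD_pos hh h1 _)

/-- Rising part of a level. -/
theorem lv_up {x y : Pt} (hx : InPi p x) (hy : InPi p y) (hH : fH p x = fH p y)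
    (he : e = 1 ∨ e = -1) (hWx : 0 ≤ e * x.W) (hWy : 0 ≤ e * y.W) (hT : fT p x ≤ fT p y)
    (hV : 0 ≤ fV p y) : 0 ≤ fV p x ∧ fU p y ≤ fU p x := by
  obtain ⟨a, ha, ea⟩ := exists_phi hx he hWx
  obtain ⟨b, hb, eb⟩ := exists_phi hy he hWy
  have hh := hx.H_gt
  have h1 := hx.H_lt
  rw [← hH] at eb
  obtain ⟨c, hc, -, c1, c2, c3, c4⟩ := exists_top hh h1 he
  have hab : a ≤ b := by
    rw [ea, eb] at hT
    exact (slE_T_mono hh h1 he).le_iff_le ha hb |>.1 hT
  have hbc : b ≤ c := by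
    by_contra h2
    push Not at h2
    have := c2 b ⟨h2, hb.2⟩
    rw [eb] at hV
    linarith
  have hV' : 0 ≤ fV p x := by
    rw [ea]
    rcases lt_or_eq_of_le (hab.trans hbc) with h2 | h2
    · exact (c1 a ⟨ha.1, h2⟩).le
    · have h3 : b = a := le_antisymm (hbc.trans_eq h2.symm) hab
      rw [eb, h3] at hV; exact hV
  refine ⟨hV', ?_⟩
  rw [fU_eq_e he x, fU_eq_e he y, hH]
  have h3 : e * x.W ≤ e * y.W := by
    have h4 := c3.monotoneOn ⟨ha.1, hab.trans hbc⟩ ⟨hb.1, hbc⟩ hab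
    rw [ea, eb]
    exact h4
  have h4 : (e * x.W) ^ 2 ≤ (e * y.W) ^ 2 := pow_le_pow_left₀ hWx h3 2
  have h5 : 0 ≤ p.N ^ 2 := sq_nonneg _
  nlinarith

/-- Falling part of a level. -/
theorem lv_down {x y : Pt} (hx : InPi p x) (hy : InPi p y) (hH : fH p x = fH p y)
    (he : e = 1 ∨ e = -1) (hWx : 0 ≤ e * x.W) (hWy : 0 ≤ e * y.W) (hT : fT p x ≤ fT p y)
    (hV : fV p x ≤ 0) : fV p y ≤ 0 ∧ fU p x ≤ fU p y := by
  obtain ⟨a, ha, ea⟩ := exists_phi hx he hWx
  obtain ⟨b, hb, eb⟩ := exists_phi hy he hWy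
  have hh := hx.H_gt
  have h1 := hx.H_lt
  rw [← hH] at eb
  obtain ⟨c, hc, -, c1, c2, c3, c4⟩ := exists_top hh h1 he
  have hab : a ≤ b := by
    rw [ea, eb] at hT
    exact (slE_T_mono hh h1 he).le_iff_le ha hb |>.1 hT
  have hca : c ≤ a := by
    by_contra h2
    push Not at h2
    have := c1 a ⟨ha.1, h2⟩
    rw [ea] at hV
    linarith
  have hV' : fV p y ≤ 0 := by
    rw [eb]
    rcases lt_or_eq_of_le (hca.trans hab) with h2 | h2
    · exact (c2 b ⟨h2, hb.2⟩).le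
    · have h3 : a = b := le_antisymm hab (h2.symm.le.trans hca)
      rw [ea, h3] at hV; exact hV
  refine ⟨hV', ?_⟩
  rw [fU_eq_e he x, fU_eq_e he y, hH]
  have h3 : e * y.W ≤ e * x.W := by
    have h4 := c4.antitoneOn ⟨hca, ha.2⟩ ⟨hca.trans hab, hb.2⟩ hab
    rw [ea, eb]
    exact h4
  have h4 : (e * y.W) ^ 2 ≤ (e * x.W) ^ 2 := pow_le_pow_left₀ hWy h3 2
  have h5 : 0 ≤ p.N ^ 2 := sq_nonneg _
  nlinarith

/-- Comparison with the top of the level. -/
theorem lv_top {x : Pt} (hx : InPi p x) :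
    ∃ z, Gate p z ∧ fH p z = fH p x ∧ fU p z ≤ fU p x := by
  have hh := hx.H_gt
  have h1 := hx.H_lt
  obtain ⟨e, he, hWx⟩ : ∃ e : ℝ, (e = 1 ∨ e = -1) ∧ 0 ≤ e * x.W := by
    rcases le_total 0 x.W with h | h
    · exact ⟨1, Or.inl rfl, by linarith⟩
    · exact ⟨-1, Or.inr rfl, by linarith⟩
  obtain ⟨c, hc, cg, c1, c2, c3, c4⟩ := exists_top hh h1 he
  have hcI : c ∈ Icc 0 Real.pi := ⟨hc.1.le, hc.2.le⟩
  have hWc := slE_W_nonneg hh h1 he hcI
  refine ⟨slE p (fH p x) e c, cg, slE_H hh h1 e c, ?_⟩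
  rcases le_total (fT p x) (fT p (slE p (fH p x) e c)) with h | h
  · exact (lv_up hx cg.pi (slE_H hh h1 e c).symm he hWx hWc h cg.V0.ge).2
  · exact (lv_down cg.pi hx (slE_H hh h1 e c) he hWc hWx h cg.V0.le).2

/-- **Above a gate with `U ≥ 0` one has `U ≥ 0`** (`U > 0` on higher levels). -/
theorem lv_gate {x z : Pt} (hx : InPi p x) (hz : Gate p z) (hU : 0 ≤ fU p z)
    (hH : fH p z ≤ fH p x) : 0 ≤ fU p x ∧ (fH p z < fH p x → 0 < fU p x) := by
  obtain ⟨z', hz', e1, e2⟩ := lv_top hx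
  have h1 := hz.U_nonneg.1 hU
  have h2 : z'.S / z'.W ≤ z.S / z.W := by
    by_contra h3
    push Not at h3
    have := hz.mono hz' h3
    linarith
  have h3 := hz'.U_nonneg.2 (h2.trans h1)
  refine ⟨h3.trans e2, fun h4 => ?_⟩
  have h5 : z'.S / z'.W ≠ z.S / z.W := by
    intro h6
    -- equal ratios give equal `H`
    have hne : fU p z' ≠ 0 ∨ fU p z' = 0 := by tauto
    have k1 := hz.V0
    have k2 := hz'.V0
    have k3 := hz.W0
    have k4 := hz'.W0
    have k5 := hz.pi.cone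
    have k6 := hz'.pi.cone
    have hS : z'.S = z.S / z.W * z'.W := by rw [← h6]; field_simp
    set r := z.S / z.W with hr
    have hS0 : z.S = r * z.W := by rw [hr]; field_simp
    simp only [fV] at k1 k2
    have a1 : r * (1 - z.A) = p.lam * z.A := by
      rw [hS0] at k1
      have : z.W * (r * (1 - z.A) - p.lam * z.A) = 0 := by linear_combination k1
      rcases mul_eq_zero.1 this with h | h
      · exact absurd h k3
      · linarith
    have a2 : r * (1 - z'.A) = p.lam * z'.A := by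
      rw [hS] at k2
      have : z'.W * (r * (1 - z'.A) - p.lam * z'.A) = 0 := by linear_combination k2
      rcases mul_eq_zero.1 this with h | h
      · exact absurd h k4
      · linarith
    have hrpos : 0 < r := hz.pos
    have a3 : z.A = z'.A := by
      have : (r + p.lam) * (z.A - z'.A) = 0 := by linear_combination a2 - a1
      have h0 : r + p.lam ≠ 0 := by have := p.hlam0; positivity
      rcases mul_eq_zero.1 this with h | h
      · exact absurd h h0
      · linarith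
    have a4 : z.W ^ 2 = z'.W ^ 2 := by
      have b1 := k5.1
      have b2 := k6.1
      rw [hS0] at b1
      rw [hS] at b2
      have : (1 + r ^ 2) * (z.W ^ 2 - z'.W ^ 2) = 0 := by
        rw [a3] at b1
        linear_combination b1 - b2
      have h0 : 1 + r ^ 2 ≠ 0 := by positivity
      rcases mul_eq_zero.1 this with h | h
      · exact absurd h h0
      · linarith
    have a5 : fH p z = fH p z' := by
      simp only [fH]
      rw [hS0, hS, a3]
      linear_combination (-1 / 2 + p.lam * r / 2) * a4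
    linarith
  have h6 : z'.S / z'.W < p.lam / 2 := (lt_of_le_of_ne h2 h5).trans_le h1
  have h7 : fU p z' ≠ 0 := fun h8 => by
    have := hz'.U_zero.1 h8; linarith
  exact (lt_of_le_of_ne h3 (Ne.symm h7)).trans_le e2

/-- Same `T` on the other side (or on the same side) of the level. -/
theorem lv_ex {x : Pt} {e' : ℝ} (hx : InPi p x) (he : e = 1 ∨ e = -1) (hW : 0 < e * x.W)
    (he' : e' = 1 ∨ e' = -1) :
    ∃ y, InPi p y ∧ fH p y = fH p x ∧ 0 < e' * y.W ∧ fT p y = fT p x := by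
  have hh := hx.H_gt
  have h1 := hx.H_lt
  obtain ⟨a, ha, ea⟩ := exists_phi_Ioo hx he hW
  have hpi := Real.pi_pos
  have m := slE_T_mono hh h1 he
  have c := slE_T_cont hh h1 e'
  have e0 : slE p (fH p x) e' 0 = slE p (fH p x) e 0 := by rw [slE_zero e', slE_zero e]
  have ep : slE p (fH p x) e' Real.pi = slE p (fH p x) e Real.pi := by
    rw [slE_pi he', slE_pi he]
  have m1 := m ⟨le_rfl, hpi.le⟩ ⟨ha.1.le, ha.2.le⟩ ha.1
  have m2 := m ⟨ha.1.le, ha.2.le⟩ ⟨hpi.le, le_rfl⟩ ha.2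
  simp only at m1 m2
  rw [← ea] at m1 m2
  obtain ⟨b, hb1, hb2⟩ := intermediate_value_Icc hpi.le c.continuousOn
    (show fT p x ∈ Icc (fT p (slE p (fH p x) e' 0)) (fT p (slE p (fH p x) e' Real.pi)) from
      ⟨by rw [e0]; exact m1.le, by rw [ep]; exact m2.le⟩)
  have hb2' : fT p (slE p (fH p x) e' b) = fT p x := hb2
  have hb : b ∈ Ioo 0 Real.pi := by
    refine ⟨lt_of_le_of_ne hb1.1 fun h => ?_, lt_of_le_of_ne hb1.2 fun h => ?_⟩
    · rw [← h, e0] at hb2'; linarith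
    · rw [h, ep] at hb2'; linarith
  exact ⟨slE p (fH p x) e' b, slE_inPi hh h1 e' b, slE_H hh h1 e' b, slE_W_pos hh h1 he' hb, hb2'⟩

/-- `Z` increases along a level where `U ≥ 0`. -/
theorem lv_Z {x y : Pt} (hx : InPi p x) (hy : InPi p y) (hH : fH p x = fH p y)
    (he : e = 1 ∨ e = -1) (hWx : 0 ≤ e * x.W) (hWy : 0 ≤ e * y.W) (hT : fT p x ≤ fT p y)
    (hU : ∀ z, InPi p z → fH p z = fH p x → 0 < e * z.W → fT p x ≤ fT p z → fT p z ≤ fT p y →
      0 ≤ fU p z) : fZ p x ≤ fZ p y := by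
  obtain ⟨a, ha, ea⟩ := exists_phi hx he hWx
  obtain ⟨b, hb, eb⟩ := exists_phi hy he hWy
  have hh := hx.H_gt
  have h1 := hx.H_lt
  rw [← hH] at eb
  have m := slE_T_mono hh h1 he
  have hab : a ≤ b := by
    rw [ea, eb] at hT
    exact m.le_iff_le ha hb |>.1 hT
  rw [ea, eb]
  refine slE_Z_mono hh h1 he ha.1 hab hb.2 fun ph hph => ?_
  have hI : ph ∈ Icc 0 Real.pi := ⟨ha.1.trans hph.1.le, hph.2.le.trans hb.2⟩
  refine hU _ (slE_inPi hh h1 e ph) (slE_H hh h1 e ph)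
    (slE_W_pos hh h1 he ⟨ha.1.trans_lt hph.1, hph.2.trans_le hb.2⟩) ?_ ?_
  · exact (congrArg (fT p) ea).trans_le (m.monotoneOn ha hI hph.1.le)
  · exact (m.monotoneOn hI hb hph.2.le).trans_eq (congrArg (fT p) eb).symm

/-- `Z` decreases along a level where `U ≤ 0`. -/
theorem lv_Z' {x y : Pt} (hx : InPi p x) (hy : InPi p y) (hH : fH p x = fH p y)
    (he : e = 1 ∨ e = -1) (hWx : 0 ≤ e * x.W) (hWy : 0 ≤ e * y.W) (hT : fT p x ≤ fT p y)
    (hU : ∀ z, InPi p z → fH p z = fH p x → 0 < e * z.W → fT p x ≤ fT p z → fT p z ≤ fT p y →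
      fU p z ≤ 0) : fZ p y ≤ fZ p x := by
  obtain ⟨a, ha, ea⟩ := exists_phi hx he hWx
  obtain ⟨b, hb, eb⟩ := exists_phi hy he hWy
  have hh := hx.H_gt
  have h1 := hx.H_lt
  rw [← hH] at eb
  have m := slE_T_mono hh h1 he
  have hab : a ≤ b := by
    rw [ea, eb] at hT
    exact m.le_iff_le ha hb |>.1 hT
  rw [ea, eb]
  refine slE_Z_anti hh h1 he ha.1 hab hb.2 fun ph hph => ?_
  have hI : ph ∈ Icc 0 Real.pi := ⟨ha.1.trans hph.1.le, hph.2.le.trans hb.2⟩
  refine hU _ (slE_inPi hh h1 e ph) (slE_H hh h1 e ph)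
    (slE_W_pos hh h1 he ⟨ha.1.trans_lt hph.1, hph.2.trans_le hb.2⟩) ?_ ?_
  · exact (congrArg (fT p) ea).trans_le (m.monotoneOn ha hI hph.1.le)
  · exact (m.monotoneOn hI hb hph.2.le).trans_eq (congrArg (fT p) eb).symm

/-- The end of a level. -/
theorem lv_end {x E : Pt} (hx : InPi p x) (hE : InPi p E) (hH : fH p x = fH p E)
    (hW : E.W = 0) (hS : E.S = -2 * E.A) (he : e = 1 ∨ e = -1) (hWx : 0 ≤ e * x.W) :
    fT p x ≤ fT p E := by
  obtain ⟨a, ha, ea⟩ := exists_phi hx he hWx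
  have hh := hx.H_gt
  have h1 := hx.H_lt
  have hpi := Real.pi_pos
  have eE := eq_slE_pi hE hW hS
  rw [← hH, ← slE_pi he] at eE
  rw [ea, eE]
  exact (slE_T_mono hh h1 he).monotoneOn ha ⟨hpi.le, le_rfl⟩ ha.2

end B92K
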