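import Mathlib
import Pool.Agent.Lib.B92K.Lv
import Pool.Agent.Lib.B92K.PairA
import Pool.Agent.Lib.B92K.PairB
import Pool.Agent.Lib.B92K.PairK

/-!
# MP_b92fc8_an, case `kappa > 1`: the pointwise hypotheses of the comparison of fronts
-/

set_option autoImplicit false

open Set Filter Topology

noncomputable section

namespace B92K

variable {p : Prm} {x y z : Pt}

/-- `U ≥ 0` on the level of `x`, on the side `e`, up to `x`. -/
def Ubef (p : Prm) (e : ℝ) (x : Pt) : Prop :=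
  ∀ z, InPi p z → fH p z = fH p x → 0 < e * z.W → fT p z ≤ fT p x → 0 ≤ fU p z

/-- `U ≥ 0` on the level of `x`, on the side `e`, beyond `x`. -/
def Uaft (p : Prm) (e : ℝ) (x : Pt) : Prop :=
  ∀ z, InPi p z → fH p z = fH p x → 0 < e * z.W → fT p x ≤ fT p z → 0 ≤ fU p z

theorem Ubef_of_V {e : ℝ} (he : e = 1 ∨ e = -1) (hx : InPi p x) (hW : 0 ≤ e * x.W)
    (hV : 0 ≤ fV p x) (hU : 0 ≤ fU p x) : Ubef p e x := fun z hz hH hWz hT =>
  hU.trans (lv_up hz hx hH he hWz.le hW hT hV).2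

theorem Uaft_of_V {e : ℝ} (he : e = 1 ∨ e = -1) (hx : InPi p x) (hW : 0 ≤ e * x.W)
    (hV : fV p x ≤ 0) (hU : 0 ≤ fU p x) : Uaft p e x := fun z hz hH hWz hT =>
  hU.trans (lv_down hx hz hH.symm he hW hWz.le hT hV).2

theorem Ubef_of_gate {e : ℝ} (hz : Gate p z) (hU : 0 ≤ fU p z) (hH : fH p z ≤ fH p x) :
    Ubef p e x := fun z' hz' hH' _ _ => (lv_gate hz' hz hU (by rw [hH']; exact hH)).1

theorem Uaft_of_gate {e : ℝ} (hz : Gate p z) (hU : 0 ≤ fU p z) (hH : fH p z ≤ fH p x) :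
    Uaft p e x := fun z' hz' hH' _ _ => (lv_gate hz' hz hU (by rw [hH']; exact hH)).1

/-- The K-lemma for matched points of `Pi`. -/
theorem pair_K_pi (hx : InPi p x) (hz : InPi p z) (hH : fH p x = fH p z)
    (hT : fT p x = fT p z) (hW : z.W < x.W) : fZ p z < fZ p x :=
  pair_K hx.ok hz.ok hH hT hW
    (pair_F_lt hx.ok hz.ok hH hT hW (by linarith [hx.A_lt, hz.A_lt]))

/-- The point of the side `-` matched with a point of the side `+`. -/
theorem match_minus (hx : InPi p x) (hW : 0 < x.W) :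
    ∃ z, InPi p z ∧ fH p z = fH p x ∧ z.W < 0 ∧ fT p z = fT p x ∧ fZ p z < fZ p x := by
  obtain ⟨z, h1, h2, h3, h4⟩ := lv_ex (e := 1) (e' := -1) hx (Or.inl rfl) (by linarith)
    (Or.inr rfl)
  have h3' : z.W < 0 := by linarith
  exact ⟨z, h1, h2, h3', h4, pair_K_pi hx h1 h2.symm h4.symm (by linarith)⟩

/-- (C3). -/
theorem pw_C3 (hx : InPi p x) (hy : InPi p y) (hH : fH p x = fH p y) (hWx : 0 < x.W)
    (hWy : y.W ≤ 0) (hQ : Uaft p (-1) y) (hZ : fZ p x < fZ p y) : fT p x ≤ fT p y := by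
  by_contra hcon
  push Not at hcon
  obtain ⟨z, h1, h2, h3, h4, h5⟩ := match_minus hx hWx
  have h6 := lv_Z (e := -1) hy h1 (by rw [h2, hH]) (Or.inr rfl) (by linarith) (by linarith)
    (by rw [h4]; exact hcon.le) (fun w hw hw1 hw2 hw3 _ => hQ w hw hw1 hw2 hw3)
  linarith

/-- (E3). -/
theorem pw_E3 {E : Pt} (hE : InPi p E) (hy : InPi p y) (hH : fH p E = fH p y) (hW : E.W = 0)
    (hS : E.S = -2 * E.A) (hWy : y.W ≤ 0) (hQ : Uaft p (-1) y) : fZ p y ≤ fZ p E := by
  have h1 := lv_end (e := -1) hy hE hH.symm hW hS (Or.inr rfl) (by linarith)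
  exact lv_Z (e := -1) hy hE hH.symm (Or.inr rfl) (by linarith) (by rw [hW]; norm_num) h1
    (fun w hw hw1 hw2 hw3 _ => hQ w hw hw1 hw2 hw3)

/-- (M23) and (P12). -/
theorem pw_T {e : ℝ} {x2 x3 : Pt} (h2 : InPi p x2) (hH : fH p x2 = fH p x3)
    (hW : 0 < e * x2.W) (hU : fU p x2 < 0) (hQ : Uaft p e x3) : fT p x2 ≤ fT p x3 := by
  by_contra hcon
  push Not at hcon
  have := hQ x2 h2 hH hW hcon.le
  linarith

theorem pw_T' {e : ℝ} {x1 x2 : Pt} (h2 : InPi p x2) (hH : fH p x1 = fH p x2)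
    (hW : 0 < e * x2.W) (hU : fU p x2 < 0) (hQ : Ubef p e x1) : fT p x1 ≤ fT p x2 := by
  by_contra hcon
  push Not at hcon
  have := hQ x2 h2 hH.symm hW hcon.le
  linarith

/-- If `U x ≤ 0` and `z` is matched with `x`, before a point `y` with `U y ≤ 0`, then `U ≤ 0`
between `z` and `y`. -/
theorem pw_U_le (hx : InPi p x) (hy : InPi p y) (hz : InPi p z) (hWx : 0 < x.W) (hWy : y.W ≤ 0)
    (hWz : z.W < 0) (hHy : fH p x = fH p y) (hHz : fH p z = fH p x) (hTz : fT p z = fT p x)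
    (hU : fU p x ≤ 0) (hUy : fU p y ≤ 0) (hT : fT p z ≤ fT p y) :
    ∀ w, InPi p w → fH p w = fH p z → 0 < -1 * w.W → fT p z ≤ fT p w → fT p w ≤ fT p y →
      fU p w ≤ 0 := by
  have hUz : fU p z ≤ 0 := by
    by_contra hcon
    push Not at hcon
    have hVz : 0 < fV p z := by
      by_contra h1
      push Not at h1
      have := (lv_down (e := -1) hz hy (by rw [hHz, hHy]) (Or.inr rfl) (by linarith)
        (by linarith) hT h1).2
      linarith
    have hsum : 0 < x.W + z.W := by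
      have h1 : z.W ^ 2 < x.W ^ 2 := by
        simp only [fU] at hU hcon
        rw [hHz] at hcon
        have h2 : 0 < p.N ^ 2 := by have := p.N_pos; positivity
        by_contra h3
        push Not at h3
        nlinarith
      by_contra h4
      push Not at h4
      nlinarith
    have h1 := pair_sum_pos hx hz hHz.symm hTz.symm (by linarith) hsum
    have h2 := top_sign (p := p) (x := z.neg) hz.neg.ok hz.neg.G_pos.2
      (by simp only [Pt.neg]; linarith) (by rw [fV_neg]; linarith)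
    have h3 : z.neg.neg = z := by simp [Pt.neg]
    rw [h3] at h2
    linarith
  intro w hw hH hW h1 h2
  rcases le_total 0 (fV p w) with h | h
  · exact (lv_up (e := -1) hz hw hH.symm (Or.inr rfl) (by linarith) hW.le h1 h).2.trans hUz
  · exact (lv_down (e := -1) hw hy (by rw [hH, hHz, hHy]) (Or.inr rfl) hW.le (by linarith)
      h2 h).2.trans hUy

/-- (C2). -/
theorem pw_C2 (hx : InPi p x) (hy : InPi p y) (hH : fH p x = fH p y) (hWx : 0 < x.W)
    (hWy : y.W < 0) (hUx : fU p x ≤ 0) (hUy : fU p y ≤ 0) (hZ : fZ p x < fZ p y) :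
    fT p y ≤ fT p x := by
  by_contra hcon
  push Not at hcon
  obtain ⟨z, h1, h2, h3, h4, h5⟩ := match_minus hx hWx
  have h6 := pw_U_le hx hy h1 hWx hWy.le h3 hH h2 h4 hUx hUy (by rw [h4]; exact hcon.le)
  have h7 := lv_Z' (e := -1) h1 hy (by rw [h2, hH]) (Or.inr rfl) (by linarith) (by linarith)
    (by rw [h4]; exact hcon.le) h6
  linarith

/-- (M0). -/
theorem pw_M0 (hx : InPi p x) (hy : InPi p y) (hH : fH p x = fH p y) (hWx : 0 < x.W)
    (hWy : y.W < 0) (hUx : fU p x ≤ 0) (hUy : fU p y ≤ 0) (hQ : Uaft p (-1) y) :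
    fZ p y ≤ fZ p x := by
  obtain ⟨z, h1, h2, h3, h4, h5⟩ := match_minus hx hWx
  rcases le_total (fT p z) (fT p y) with h | h
  · have h6 := pw_U_le hx hy h1 hWx hWy.le h3 hH h2 h4 hUx hUy h
    have h7 := lv_Z' (e := -1) h1 hy (by rw [h2, hH]) (Or.inr rfl) (by linarith) (by linarith)
      h h6
    linarith
  · have h6 := lv_Z (e := -1) hy h1 (by rw [h2, hH]) (Or.inr rfl) (by linarith) (by linarith)
      h (fun w hw hw1 hw2 hw3 _ => hQ w hw hw1 hw2 hw3)
    linarith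

end B92K
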