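import Mathlib
import Pool.Agent.Lib.B92K.Pw
import Pool.Agent.Lib.B92K.Pieces
import Pool.Agent.Lib.B92K.PhM
import Pool.Agent.Lib.B92K.PhP
import Pool.Agent.Lib.B92K.S1

/-!
# MP_b92fc8_an, case `kappa > 1`: comparison of the arcs when the minus arc has a fold (type 1)
-/

set_option autoImplicit false

open Set Filter Topology

noncomputable section

namespace B92K

namespace S2Aux

variable {p : Prm} {x y : ℝ → Pt} {L M : ℝ}

theorem uaft (hy : BArc p (-1) y M) {s : ℝ} (hs : s ∈ Icc 0 M) (hPi : InPi p (y s))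
    (hU : 0 ≤ fU p (y s)) (hV : fV p (y s) < 0 ∨ AllU p (fH p (y s))) : Uaft p (-1) (y s) := by
  have hW : 0 ≤ -1 * (y s).W := by
    rcases eq_or_lt_of_le hs.1 with h | h
    · rw [← h, hy.W0]; norm_num
    · rcases eq_or_lt_of_le hs.2 with h' | h'
      · rw [h', hy.WL]; norm_num
      · exact (hy.Wpos s ⟨h, h'⟩).le
  rcases hV with h | h
  · exact Uaft_of_V (Or.inr rfl) hPi hW h.le hU
  · exact fun z hz hH _ _ => h z hz hH

/-- Where `U ≥ 0` in `Pi`, `H` increases strictly. -/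
theorem strictMono_of_nonneg {sg : ℝ} (hx : BArc p sg x L) (hsg : sg = 1 ∨ sg = -1) {t1 : ℝ}
    (ht1 : 0 < t1) (hP : ∀ t ∈ Icc t1 L, InPi p (x t) ∧ 0 ≤ fU p (x t)) :
    StrictMonoOn (fun t => fH p (x t)) (Icc t1 L) := by
  have hmono : MonotoneOn (fun t => fH p (x t)) (Icc t1 L) := by
    refine monoOn_of_hasDerivAt (f' := fun t => sg * (x t).W * fU p (x t) / p.mu)
      hx.traj.contH.continuousOn (fun t _ => hx.dH t) (fun t ht => ?_)
    have h1 := hx.Wpos t ⟨ht1.trans ht.1, ht.2⟩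
    have h2 := (hP t ⟨ht.1.le, ht.2.le⟩).2
    have h3 := p.hmu
    positivity
  intro a ha b hb hab
  refine lt_of_le_of_ne (hmono ha hb hab.le) fun heq => ?_
  simp only at heq
  -- `H` is constant on `[a, b]`
  have hconst : ∀ t ∈ Icc a b, fH p (x t) = fH p (x a) := fun t ht => by
    have e1 := hmono ha ⟨ha.1.trans ht.1, ht.2.trans hb.2⟩ ht.1
    have e2 := hmono ⟨ha.1.trans ht.1, ht.2.trans hb.2⟩ hb ht.2
    simp only at e1 e2
    linarith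
  have hU0 : ∀ t ∈ Ioo a b, fU p (x t) = 0 := by
    intro t ht
    have h1 : (fun r => fH p (x r)) =ᶠ[𝓝 t] fun _ => fH p (x a) := by
      filter_upwards [Ioo_mem_nhds ht.1 ht.2] with r hr
      exact hconst r (Ioo_subset_Icc_self hr)
    have h2 := (h1.hasDerivAt_iff.2 (hasDerivAt_const t (fH p (x a)))).unique (hx.dH t)
    have h3 := hx.Wpos t ⟨ht1.trans_le (ha.1.trans ht.1.le), ht.2.trans_le hb.2⟩
    have h4 := p.hmu
    by_contra h5
    have h6 : sg * (x t).W * fU p (x t) / p.mu ≠ 0 :=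
      div_ne_zero (mul_ne_zero h3.ne' h5) h4.ne'
    exact h6 h2.symm
  set g := (a + b) / 2 with hg
  have hg1 : a < g := by rw [hg]; linarith
  have hg2 : g < b := by rw [hg]; linarith
  have hgL : g ∈ Ioo 0 L := ⟨ht1.trans_le (ha.1.trans hg1.le), hg2.trans_le hb.2⟩
  have hPg := (hP g ⟨ha.1.trans hg1.le, hg2.le.trans hb.2⟩).1
  rcases le_or_gt (fV p (x g)) 0 with hV | hV
  · have h1 := hx.rule_pos hsg hgL hPg (hU0 g ⟨hg1, hg2⟩) hV
    have h2 : ∀ᶠ t in 𝓝[>] g, t < b := by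
      filter_upwards [Ioo_mem_nhdsGT hg2] with r hr using hr.2
    obtain ⟨t, ht, ht1', ht2⟩ := (h1.and (h2.and self_mem_nhdsWithin)).exists
    have := hU0 t ⟨hg1.trans ht2, ht1'⟩
    linarith
  · set t2 := (g + b) / 2 with ht2
    have hgt : g < t2 := by rw [ht2]; linarith
    have htb : t2 < b := by rw [ht2]; linarith
    have hI : ∀ t ∈ Icc g t2, InPi p (x t) := fun t ht =>
      (hP t ⟨(ha.1.trans hg1.le).trans ht.1, (ht.2.trans htb.le).trans hb.2⟩).1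
    rcases hx.fold hsg hgL (t2 := t2) ⟨hgt, htb.le.trans hb.2⟩ (fun t ht => (hI t ht).D_pos)
      (fun t ht => (hI t ht).A_lt) (hU0 g ⟨hg1, hg2⟩) hV with h1 | ⟨q, hq, -, h1, -⟩
    · have h2 := h1 t2 ⟨hgt, le_rfl⟩
      have h3 := hU0 t2 ⟨hg1.trans hgt, htb⟩
      linarith
    · have h2 := h1 ((g + q) / 2) ⟨by linarith [hq.1], by linarith [hq.1]⟩
      have h3 := hU0 ((g + q) / 2) ⟨by linarith [hq.1], by linarith [hq.1, hq.2]⟩
      linarith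

end S2Aux

open S2Aux in
/-- The comparison for type 1. -/
theorem cmp1 {p : Prm} {x y : ℝ → Pt} {L M : ℝ} (hx : BArc p 1 x L)
    (hy : BArc p (-1) y M) (h0 : x 0 = y 0) {b a : ℝ} (h : Type1 p y M b a) :
    fH p (y M) < fH p (x L) := by
  obtain ⟨hb0, hba, haM, hUV, hUb, hVb, hUba, hUa, hVa, hPi, hUaM, hVaM⟩ := h
  have hbM : b < M := hba.trans haM
  have ha0 : 0 < a := hb0.trans hba
  -- (S1)
  obtain ⟨t1, ht1, e1, hUt1, hGt1, z1⟩ := s1 hx hy h0 (m := b) ⟨hb0, hbM.le⟩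
    (hy.strictMono le_rfl hbM.le fun t ht => (hUV t ⟨ht.1.le, ht.2⟩).1)
    (fun s hs => by
      rcases eq_or_lt_of_le hs.2 with h | h
      · rw [h, hUb]
      · exact (hUV s ⟨hs.1, h⟩).1.le)
    (Or.inl fun s hs => by
      rcases eq_or_lt_of_le hs.2 with h | h
      · rw [h]; exact hVb.le
      · exact (hUV s ⟨hs.1, h⟩).2.le)
  have hPa : InPi p (y a) := hPi a ⟨hba.le, haM.le⟩
  have hPb : InPi p (y b) := hPi b ⟨le_rfl, hbM.le⟩
  have hPt1 : InPi p (x t1) := inPi_of_G (hx.traj.cone t1) (by rw [e1]; exact hPb.H_gt) hGt1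
  have hanti := hy.strictAnti hb0.le haM.le hUba
  have hab : fH p (y a) < fH p (y b) := hanti ⟨le_rfl, hba.le⟩ ⟨hba.le, le_rfl⟩ hba
  -- the pieces of `y`
  have Q2 := hy.pieceD hb0.le hba haM.le (fun t ht => (hPi t ⟨ht.1, ht.2.trans haM.le⟩).ok)
    (fun t ht => (hUba t ht).le) hanti
  have Q3 := hy.piece ha0.le haM le_rfl (fun t ht => (hPi t ⟨hba.le.trans ht.1, ht.2⟩).ok)
    (fun t ht => (hUaM t ⟨ht.1, ht.2.le⟩).le)
    (hy.strictMono ha0.le le_rfl fun t ht => hUaM t ⟨ht.1, ht.2.le⟩)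
  -- facts on `y`
  have hWy : ∀ s ∈ Ioo 0 M, (y s).W < 0 := fun s hs => by
    have := hy.Wpos s hs; linarith
  have hWy' : ∀ s ∈ Icc a M, (y s).W ≤ 0 := fun s hs => by
    rcases eq_or_lt_of_le hs.2 with h | h
    · rw [h, hy.WL]
    · exact (hWy s ⟨ha0.trans_le hs.1, h⟩).le
  have hUy : ∀ s ∈ Icc a M, 0 ≤ fU p (y s) := fun s hs => by
    rcases eq_or_lt_of_le hs.1 with h | h
    · rw [← h, hUa]
    · exact (hUaM s ⟨h, hs.2⟩).le
  have hua : ∀ s ∈ Icc a M, Uaft p (-1) (y s) := fun s hs =>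
    uaft hy ⟨ha0.le.trans hs.1, hs.2⟩ (hPi s ⟨hba.le.trans hs.1, hs.2⟩) (hUy s hs) (hVaM s hs)
  have hWx : ∀ t ∈ Ioo 0 L, 0 < (x t).W := fun t ht => by
    have := hx.Wpos t ht; linarith
  have M23 : ∀ s ∈ Ioo b a, ∀ s' ∈ Ioo a M, fH p (y s) = fH p (y s') →
      fT p (y s) ≤ fT p (y s') := by
    intro s hs s' hs' hH
    refine pw_T (e := -1) (hPi s ⟨hs.1.le, (hs.2.trans haM).le⟩) hH ?_ (hUba s hs)
      (hua s' ⟨hs'.1.le, hs'.2.le⟩)
    have := hWy s ⟨hb0.trans hs.1, hs.2.trans haM⟩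
    linarith
  have Z23 := front_Z23 Q2 Q3 M23
  have C3 : ∀ t, InPi p (x t) → 0 < (x t).W → ∀ s ∈ Ioo a M, fH p (x t) = fH p (y s) →
      fZ p (x t) < fZ p (y s) → fT p (x t) ≤ fT p (y s) := by
    intro t ht htW s hs hH hZ
    exact pw_C3 ht (hPi s ⟨hba.le.trans hs.1.le, hs.2.le⟩) hH htW
      (hWy' s ⟨hs.1.le, hs.2.le⟩) (hua s ⟨hs.1.le, hs.2.le⟩) hZ
  have hz1 : ∀ s ∈ Icc a M, fH p (x t1) = fH p (y s) → fZ p (x t1) < fZ p (y s) := by
    intro s hs hH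
    exact z1.trans_le (Z23 b ⟨le_rfl, hba.le⟩ s hs (by rw [← e1, hH]))
  -- the end
  have key : ∀ ta, ta ∈ Ioo 0 L → (∀ t ∈ Icc ta L, InPi p (x t) ∧ 0 ≤ fU p (x t)) →
      fH p (y a) ≤ fH p (x ta) →
      (∀ s ∈ Icc a M, fH p (x ta) = fH p (y s) → fZ p (x ta) < fZ p (y s)) →
      fH p (y M) < fH p (x L) := by
    intro ta hta hP hH hZ
    have P := hx.piece hta.1.le hta.2 le_rfl (fun t ht => (hP t ht).1.ok)
      (fun t ht => (hP t (Ioo_subset_Icc_self ht)).2)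
      (strictMono_of_nonneg hx (Or.inl rfl) hta.1 hP)
    refine front_end (L := L) (M := M) (ta := ta) (sa := a) (Hx := fun t => fH p (x t))
      (Hy := fun t => fH p (y t)) P Q3 hH hZ (fun t ht s hs => C3 t (hP t (Ioo_subset_Icc_self ht)).1
      (hWx t ⟨hta.1.trans ht.1, ht.2⟩) s hs) fun s hs hH' => ?_
    exact pw_E3 (hP L ⟨hta.2.le, le_rfl⟩).1 (hPi s ⟨hba.le.trans hs.1, hs.2⟩) hH' hx.WL hx.SL
      (hWy' s hs) (hua s hs)
  rcases phase_plus hx (ha := fH p (y a)) ht1 hPt1 (hUt1 t1 ⟨ht1.1.le, le_rfl⟩) hPa.H_gt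
    (by rw [e1]; exact hab) with hNF | ⟨c, hc, hUc, hUc0, hPc, hcase⟩
  · exact key t1 ht1 hNF (by rw [e1]; exact hab.le) hz1
  -- facts on the fold
  have hcL : c ∈ Ioo 0 L := ⟨ht1.1.trans hc.1, hc.2⟩
  have hbef : (∃ q ∈ Ioc c L, ∀ r ∈ Ioo c q, fU p (x r) < 0) →
      ∀ t ∈ Icc t1 c, 0 ≤ fV p (x t) := by
    rintro ⟨q, hq, hq'⟩ t ht
    by_contra hV
    push Not at hV
    have hU' : ∀ r ∈ Icc t1 c, 0 ≤ fU p (x r) := fun r hr => by
      rcases eq_or_lt_of_le hr.2 with h | h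
      · rw [h, hUc0]
      · exact (hUc r ⟨hr.1, h⟩).le
    have hmid := hq' ((c + q) / 2) ⟨by linarith [hq.1], by linarith [hq.1]⟩
    rcases le_or_gt (fV p (x c)) 0 with hVc | hVc
    · have h1 := hx.rule_pos (Or.inl rfl) hcL (hPc c ⟨hc.1.le, le_rfl⟩) hUc0 hVc
      have h2 : ∀ᶠ r in 𝓝[>] c, r < q := by
        filter_upwards [Ioo_mem_nhdsGT hq.1] with r hr using hr.2
      obtain ⟨r, hr, hr1, hr2⟩ := (h1.and (h2.and self_mem_nhdsWithin)).exists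
      have := hq' r ⟨hr2, hr1⟩
      linarith
    · obtain ⟨g, hg1, hg2⟩ := intermediate_value_Icc ht.2 hx.traj.contV.continuousOn
        (show (0 : ℝ) ∈ Icc (fV p (x t)) (fV p (x c)) from ⟨hV.le, hVc.le⟩)
      have hgL : g ∈ Ioo 0 L := ⟨ht1.1.trans_le (ht.1.trans hg1.1), hg1.2.trans_lt hc.2⟩
      have h1 := hx.after_gate (Or.inl rfl) hgL (hPc g ⟨ht.1.trans hg1.1, hg1.2⟩) hg2
        (hU' g ⟨ht.1.trans hg1.1, hg1.2⟩) ((c + q) / 2)
        ⟨by linarith [hg1.2, hq.1], by linarith [hq.1, hq.2]⟩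
      linarith [h1.1]
  -- the pieces of `x`
  have P1 := hx.piece ht1.1.le hc.1 hc.2.le (fun t ht => (hPc t ht).ok)
    (fun t ht => (hUc t ⟨ht.1.le, ht.2⟩).le)
    (hx.strictMono ht1.1.le hc.2.le fun t ht => hUc t ⟨ht.1.le, ht.2⟩)
  have fold : ∀ d ∈ Ioo c L, (∀ t ∈ Ioo c d, fU p (x t) < 0) → fU p (x d) ≤ 0 →
      (∀ t ∈ Icc c d, InPi p (x t)) → fH p (y a) ≤ fH p (x d) →
      fH p (y a) < fH p (x d) ∧ ∀ s ∈ Icc a M, fH p (x d) = fH p (y s) →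
        fZ p (x d) < fZ p (y s) := by
    intro d hd hUd hUd0 hPd hH
    have P2 := hx.pieceD hcL.1.le hd.1 hd.2.le (fun t ht => (hPd t ht).ok)
      (fun t ht => (hUd t ht).le) (hx.strictAnti hcL.1.le hd.2.le hUd)
    have hbef' := hbef ⟨d, ⟨hd.1, hd.2.le⟩, hUd⟩
    refine front_fold P1 P2 Q2 Q3 e1 z1 M23 (fun t ht s hs => C3 t
      (hPc t (Ioo_subset_Icc_self ht)) (hWx t ⟨ht1.1.trans ht.1, ht.2.trans hc.2⟩) s hs)
      ?_ ?_ ?_ hH
    · intro t ht s hs hH' hZ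
      exact pw_C2 (hPd t (Ioo_subset_Icc_self ht))
        (hPi s ⟨hs.1.le, (hs.2.trans haM).le⟩) hH'
        (hWx t ⟨hcL.1.trans ht.1, ht.2.trans hd.2⟩) (hWy s ⟨hb0.trans hs.1, hs.2.trans haM⟩)
        (hUd t ht).le (hUba s hs).le hZ
    · intro t ht t' ht' hH'
      refine pw_T' (e := 1) (hPd t' (Ioo_subset_Icc_self ht')) hH' ?_ (hUd t' ht') ?_
      · have := hWx t' ⟨hcL.1.trans ht'.1, ht'.2.trans hd.2⟩
        linarith
      · refine Ubef_of_V (Or.inl rfl) (hPc t (Ioo_subset_Icc_self ht)) ?_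
          (hbef' t (Ioo_subset_Icc_self ht)) (hUc t ⟨ht.1.le, ht.2⟩).le
        have := hWx t ⟨ht1.1.trans ht.1, ht.2.trans hc.2⟩
        linarith
    · intro hH'
      exact pw_M0 (hPd d ⟨hd.1.le, le_rfl⟩) hPa hH' (hWx d ⟨hcL.1.trans hd.1, hd.2⟩)
        (hWy a ⟨ha0, haM⟩) hUd0 hUa.le (hua a ⟨le_rfl, haM.le⟩)
  rcases hcase with ⟨d, hd, hUd, hUd0, hPd, hUdL, hHd⟩ | ⟨d, hd, hUd, hUd0, hHd, hPd⟩
  · obtain ⟨k1, k2⟩ := fold d hd hUd hUd0.le (fun t ht => hPd t ⟨ht.1, ht.2.trans hd.2.le⟩)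
      hHd.le
    refine key d ⟨hcL.1.trans hd.1, hd.2⟩ (fun t ht => ⟨hPd t ⟨hd.1.le.trans ht.1, ht.2⟩, ?_⟩)
      k1.le k2
    rcases eq_or_lt_of_le ht.1 with h | h
    · rw [← h, hUd0]
    · exact (hUdL t ⟨h, ht.2⟩).le
  · obtain ⟨k1, -⟩ := fold d hd hUd hUd0 hPd hHd.ge
    linarith

end B92K
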