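import Mathlib
import Pool.Agent.Lib.B92K.S1
import Pool.Agent.Lib.B92K.S2

/-!
# MP_b92fc8_an, `kappa > 1` : the comparison of the two arcs ending at a common exit
-/

set_option autoImplicit false

open Set Filter Topology

noncomputable section

namespace B92K

theorem compare {p : Prm} {x y : ℝ → Pt} {L M : ℝ} (hx : BArc p 1 x L)
    (hy : BArc p (-1) y M) (h0 : x 0 = y 0) : fH p (y M) < fH p (x L) := by
  rcases phase_minus hy with ⟨g, hg⟩ | ⟨b, a, h1⟩
  · exact cmp0 hx hy h0 hg
  · exact cmp1 hx hy h0 h1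

end B92K
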