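import Mathlib
import Pool.Agent.Lib.B92.Cases
import Pool.Agent.Lib.B92K.Conv
import Pool.Agent.Lib.B92K.Main

/-!
# MP_b92fc8_an, `kappa > 1` : no periodic orbit on which `w` changes sign
-/

set_option autoImplicit false

noncomputable section

namespace B92K

open B92

theorem noOrbit_K {k l : ℝ} (hk : 1 < k) (hl : 0 < l) : NoOrbit k l :=
  fun _ _ _ _ hs hP pU pY pw hneg hpos =>
    no_orbit_of_cmp (fun _ _ _ _ _ hx hy h0 => compare hx hy h0) hk hl hs hP pU pY pw hneg hpos

end B92K
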