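import Mathlib

/-! Leibniz rule: derivative of `t ↦ ∫ x in c..β t, F (α t) x`. -/

set_option autoImplicit false

open Set Filter Topology MeasureTheory intervalIntegral

namespace B92K

/-- Leibniz rule. `F` and its partial derivative `Fa` in the first variable are continuous on an
open set `W` containing `{α t0} × [c, β t0]`. -/
theorem leib {F Fa : ℝ → ℝ → ℝ} {W : Set (ℝ × ℝ)} (hW : IsOpen W)
    (hF : ContinuousOn (Function.uncurry F) W) (hFa : ContinuousOn (Function.uncurry Fa) W)
    (hd : ∀ p ∈ W, HasDerivAt (fun a => F a p.2) (Fa p.1 p.2) p.1)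
    {c : ℝ} {α β : ℝ → ℝ} {α' β' t0 : ℝ} (hα : HasDerivAt α α' t0) (hβ : HasDerivAt β β' t0)
    (hsub : ∀ x ∈ uIcc c (β t0), (α t0, x) ∈ W) :
    HasDerivAt (fun t => ∫ x in c..β t, F (α t) x)
      (F (α t0) (β t0) * β' + α' * ∫ x in c..β t0, Fa (α t0) x) t0 := by
  -- tube
  obtain ⟨u, v, hu, hv, hau, hxv, huv⟩ := generalized_tube_lemma
    (isCompact_singleton (x := α t0)) (isCompact_uIcc (a := c) (b := β t0)) hW (by
      rintro ⟨a, x⟩ ⟨ha, hx⟩
      have ha' : a = α t0 := ha
      rw [ha']; exact hsub x hx)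
  have hau' : α t0 ∈ u := hau rfl
  obtain ⟨δ, hδ, hball⟩ := Metric.isOpen_iff.1 hu _ hau'
  have hFc : ∀ a ∈ u, ∀ x ∈ v, ContinuousAt (Function.uncurry F) (a, x) := fun a ha x hx =>
    (hF.continuousAt (hW.mem_nhds (huv ⟨ha, hx⟩)))
  -- integrability
  have hint : ∀ a ∈ u, ∀ p q : ℝ, uIcc p q ⊆ v → IntervalIntegrable (F a) volume p q := by
    intro a ha p q hpq
    apply ContinuousOn.intervalIntegrable
    intro x hx
    have h1 := hFc a ha x (hpq hx)
    exact (ContinuousAt.comp (f := fun y => (a, y)) h1 (by fun_prop)).continuousWithinAt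
  have hintA : ∀ a ∈ u, ∀ p q : ℝ, uIcc p q ⊆ v → IntervalIntegrable (Fa a) volume p q := by
    intro a ha p q hpq
    apply ContinuousOn.intervalIntegrable
    intro x hx
    have h1 : ContinuousAt (Function.uncurry Fa) (a, x) :=
      hFa.continuousAt (hW.mem_nhds (huv ⟨ha, hpq hx⟩))
    exact (ContinuousAt.comp (f := fun y => (a, y)) h1 (by fun_prop)).continuousWithinAt
  -- part 1 : parameter
  have h1 : HasDerivAt (fun a => ∫ x in c..β t0, F a x) (∫ x in c..β t0, Fa (α t0) x)
      (α t0) := by
    have hcomp : IsCompact (Metric.closedBall (α t0) (δ / 2) ×ˢ uIcc c (β t0)) :=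
      (isCompact_closedBall _ _).prod isCompact_uIcc
    have hsubW : Metric.closedBall (α t0) (δ / 2) ×ˢ uIcc c (β t0) ⊆ W := by
      rintro ⟨a, x⟩ ⟨ha, hx⟩
      refine huv ⟨hball ?_, hxv hx⟩
      exact Metric.closedBall_subset_ball (by linarith) ha
    obtain ⟨C, hC⟩ := hcomp.exists_bound_of_continuousOn (hFa.mono hsubW)
    have hs : Metric.ball (α t0) (δ / 2) ∈ 𝓝 (α t0) := Metric.ball_mem_nhds _ (by linarith)
    have hbu : Metric.ball (α t0) (δ / 2) ⊆ u := fun a ha =>
      hball (Metric.ball_subset_ball (by linarith) ha)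
    refine (intervalIntegral.hasDerivAt_integral_of_dominated_loc_of_deriv_le (bound := fun _ => C)
      (F := F) (F' := Fa) hs ?_ ?_ ?_ ?_ ?_ ?_).2
    · filter_upwards [hs] with a ha
      exact (hint a (hbu ha) c (β t0) hxv).aestronglyMeasurable_restrict_uIoc
    · exact hint _ hau' c (β t0) hxv
    · exact (hintA _ hau' c (β t0) hxv).aestronglyMeasurable_restrict_uIoc
    · refine Eventually.of_forall fun x hx a ha => ?_
      exact hC (a, x) ⟨Metric.ball_subset_closedBall ha, uIoc_subset_uIcc hx⟩
    · exact intervalIntegrable_const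
    · refine Eventually.of_forall fun x hx a ha => ?_
      exact hd (a, x) (huv ⟨hbu ha, hxv (uIoc_subset_uIcc hx)⟩)
  have h1' : HasDerivAt (fun t => ∫ x in c..β t0, F (α t) x)
      (α' * ∫ x in c..β t0, Fa (α t0) x) t0 := by
    have := h1.comp t0 hα
    rw [mul_comm]
    exact this
  -- part 2 : the end point
  have h2 : HasDerivAt (fun t => ∫ x in β t0..β t, F (α t) x) (F (α t0) (β t0) * β') t0 := by
    have hβv : β t0 ∈ v := hxv right_mem_uIcc
    have hcF : ContinuousAt (Function.uncurry F) (α t0, β t0) := hFc _ hau' _ hβv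
    rw [hasDerivAt_iff_isLittleO]
    have hO : (fun t => β t - β t0) =O[𝓝 t0] fun t => t - t0 := hβ.isBigO_sub
    have hlin : (fun t => F (α t0) (β t0) * (β t - β t0) - (t - t0) • (F (α t0) (β t0) * β'))
        =o[𝓝 t0] fun t => t - t0 := by
      have := (hasDerivAt_iff_isLittleO.1 hβ).const_mul_left (F (α t0) (β t0))
      refine this.congr_left fun t => ?_
      simp only [smul_eq_mul]; ring
    have hmain : (fun t => (∫ x in β t0..β t, F (α t) x) - F (α t0) (β t0) * (β t - β t0))
        =o[𝓝 t0] fun t => t - t0 := by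
      refine Asymptotics.IsLittleO.trans_isBigO ?_ hO
      rw [Asymptotics.isLittleO_iff]
      intro ε hε
      have hnear : ∀ᶠ p in 𝓝 (α t0, β t0), p ∈ W ∧ |Function.uncurry F p - F (α t0) (β t0)| ≤ ε := by
        have h3 := hcF.eventually (Metric.closedBall_mem_nhds _ hε)
        have h4 : W ∈ 𝓝 (α t0, β t0) := hW.mem_nhds (huv ⟨hau', hβv⟩)
        filter_upwards [h3, h4] with p hp hpW
        exact ⟨hpW, by simpa [Real.dist_eq] using hp⟩
      rw [nhds_prod_eq, eventually_prod_iff] at hnear
      obtain ⟨pa, hpa, pb, hpb, hab⟩ := hnear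
      obtain ⟨r, hr, hrb⟩ := Metric.eventually_nhds_iff_ball.1 hpb
      have hball2 : ∀ᶠ t in 𝓝 t0, β t ∈ Metric.ball (β t0) r :=
        hβ.continuousAt.eventually (Metric.ball_mem_nhds _ hr)
      filter_upwards [hα.continuousAt.eventually hpa, hball2] with t hta htb
      have hseg : ∀ x ∈ uIcc (β t0) (β t), pb x := by
        intro x hx
        apply hrb
        have hconv := (convex_ball (β t0) r)
        have : uIcc (β t0) (β t) ⊆ Metric.ball (β t0) r :=
          hconv.ordConnected.uIcc_subset (Metric.mem_ball_self hr) htb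
        exact this hx
      have hii : IntervalIntegrable (F (α t)) volume (β t0) (β t) := by
        apply ContinuousOn.intervalIntegrable
        intro x hx
        have h5 : (α t, x) ∈ W := (hab hta (hseg x hx)).1
        have h6 : ContinuousAt (Function.uncurry F) (α t, x) := hF.continuousAt (hW.mem_nhds h5)
        exact (ContinuousAt.comp (f := fun y => (α t, y)) h6 (by fun_prop)).continuousWithinAt
      have heq : (∫ x in β t0..β t, F (α t) x) - F (α t0) (β t0) * (β t - β t0) =
          ∫ x in β t0..β t, (F (α t) x - F (α t0) (β t0)) := by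
        rw [intervalIntegral.integral_sub hii intervalIntegrable_const, intervalIntegral.integral_const,
          smul_eq_mul, mul_comm]
      rw [heq]
      have := intervalIntegral.norm_integral_le_of_norm_le_const (a := β t0) (b := β t) (C := ε)
        (f := fun x => F (α t) x - F (α t0) (β t0)) (fun x hx => by
          rw [Real.norm_eq_abs]
          exact (hab hta (hseg x (uIoc_subset_uIcc hx))).2)
      rw [Real.norm_eq_abs (β t - β t0)]
      exact this
    refine ((hmain.add hlin).congr_left fun t => ?_)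
    simp only [smul_eq_mul, intervalIntegral.integral_same]
    ring
  have hsum := h2.add h1'
  refine hsum.congr_of_eventuallyEq ?_
  obtain ⟨r, hr, hrb⟩ := Metric.isOpen_iff.1 hv _ (hxv (right_mem_uIcc (a := c) (b := β t0)))
  have hball2 : ∀ᶠ t in 𝓝 t0, β t ∈ Metric.ball (β t0) r :=
    hβ.continuousAt.eventually (Metric.ball_mem_nhds _ hr)
  have hball3 : ∀ᶠ t in 𝓝 t0, α t ∈ u := hα.continuousAt.eventually (hu.mem_nhds hau')
  filter_upwards [hball2, hball3] with t ht ht3
  have hsub2 : uIcc (β t0) (β t) ⊆ v :=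
    ((convex_ball (β t0) r).ordConnected.uIcc_subset (Metric.mem_ball_self hr) ht).trans hrb
  have := intervalIntegral.integral_add_adjacent_intervals (hint _ ht3 c (β t0) hxv)
    (hint _ ht3 (β t0) (β t) hsub2)
  simp only [Pi.add_apply]
  rw [← this]; ring

end B92K
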